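import Pool.Agent.DV.Defs

/-!
# MP_9896a2_an: a counterexample to the double variational principle, statements of the modules

The paper proof is `Pool/Agent/Dive/MP_9896a2_an/helper95.md`.
-/

set_option autoImplicit false

open Set Topology Filter MeasureTheory
open scoped ENNReal

namespace Pool.Agent.DV

/-! ### The system and its mean dimension -/

/-- NET: patterns exist. -/
def Stmt_NET : Prop := Nonempty Pats

/-- SYS: the system is closed and shift invariant. -/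
def Stmt_SYS : Prop := ∀ D : Pats, IsClosed (XX D) ∧ ∀ x, shiftH x ∈ XX D ↔ x ∈ XX D

/-- LEBN: a Lebesgue number lemma for subsets of `HH`. -/
def Stmt_LEBN : Prop := ∀ (X : Set HH), IsClosed X → ∀ α : Set (Set X), H3.MD.IsFOC α →
  ∃ (K : ℕ) (δ : ℝ), 0 < δ ∧ ∀ W : Set X, W.Nonempty →
    (∀ x ∈ W, ∀ y ∈ W, ∀ (s : ℤ) (l u : ℕ), |s| ≤ (K : ℤ) → l ≤ K → u ≤ K →
      |(x.1 s l u : ℝ) - y.1 s l u| ≤ δ) → ∃ U ∈ α, W ⊆ U

/-- COVN: windows of length at most `Bj j - K` have covers of order at most `mj j`. -/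
def Stmt_COVN : Prop := ∀ (D : Pats) (T : XX D → XX D), (∀ x, (T x).1 = shiftH x.1) →
  ∀ α : Set (Set (XX D)), H3.MD.IsFOC α → ∃ K : ℕ, ∀ j N : ℕ, K ≤ j → N + K ≤ Bj j →
    H3.MD.Dcov (H3.MD.joinN T α N) ≤ mj j

/-- MDIM: the mean dimension is zero. -/
def Stmt_MDIM : Prop := ∀ (D : Pats) (T : XX D → XX D), (∀ x, (T x).1 = shiftH x.1) →
  H3.MD.mdim T = 0

/-! ### The Borsuk-Ulam theorem -/

/-- PRISM: comparable monotone maps are chain homotopic. -/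
def Stmt_PRISM : Prop := ∀ (p : ℕ) (P Q : Type) [Preorder P] [Preorder Q] (f g : P →o Q),
  (∀ x, f x ≤ g x) → ∃ h : ∀ r, Ch p P r →ₗ[ZMod p] Ch p Q (r + 1),
    (∀ x, bd p Q 0 (h 0 x) = push p g 0 x - push p f 0 x) ∧
    ∀ r x, bd p Q (r + 1) (h (r + 1) x) + h r (bd p P r x) =
      push p g (r + 1) x - push p f (r + 1) x

/-- BDB: `∂∂ = 0`, and chain maps commute with the boundary and the augmentation. -/
def Stmt_BDB : Prop := ∀ (p : ℕ) (P Q : Type) [Preorder P] [Preorder Q] (g : P →o Q),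
  (∀ x, aug p P (bd p P 0 x) = 0) ∧ (∀ r x, bd p P r (bd p P (r + 1) x) = 0) ∧
  (∀ x, aug p Q (push p g 0 x) = aug p P x) ∧
  ∀ r x, bd p Q r (push p g (r + 1) x) = push p g r (bd p P r x)

/-- ZIG: a zigzag of monotone maps from the identity to a constant map. -/
def Stmt_ZIG : Prop := ∀ (p : ℕ) (P : Type) [Preorder P] (n : ℕ) (F : ℕ → P →o P) (q : P),
  (∀ x, F 0 x = x) → (∀ x, F n x = q) →
  (∀ i < n, (∀ x, F i x ≤ F (i + 1) x) ∨ ∀ x, F (i + 1) x ≤ F i x) → Acyc p P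

/-- ACY: the small sets in a face of the sphere form an acyclic poset. -/
def Stmt_ACY : Prop := ∀ (p : ℕ) [Fact p.Prime] (δ : ℝ) (A : Finset (ZMod p)), 0 < δ →
  A.Nonempty → A ≠ Finset.univ → Acyc p (SmA p δ A)

/-- Ordered chains of the simplex with vertices `ℤ/p`. -/
abbrev Oc (p r : ℕ) : Type := (Fin (r + 1) → ZMod p) →₀ ZMod p

/-- The boundary of ordered chains. -/
noncomputable def obd (p r : ℕ) : Oc p (r + 1) →ₗ[ZMod p] Oc p r :=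
  Finsupp.lsum (ZMod p) fun f => ∑ i : Fin (r + 2),
    ((-1 : ZMod p) ^ (i : ℕ)) • Finsupp.lsingle (fun j => f (i.succAbove j))

/-- The translation of ordered chains (the vertex `k` is moved to `k - 1`). -/
noncomputable def otr (p r : ℕ) : Oc p r →ₗ[ZMod p] Oc p r :=
  Finsupp.lmapDomain (ZMod p) (ZMod p) fun f => fun i => f i - 1

/-- ORD: the sequence `e_r` of ordered chains. -/
def Stmt_ORD : Prop := ∀ (p : ℕ) [Fact p.Prime], ∃ e : ∀ r, Oc p r,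
  (∑ f ∈ (e 0).support, e 0 f = 1) ∧ ∀ r, obd p r (e (r + 1)) =
    if Even r then otr p r (e r) - e r
    else ∑ t ∈ Finset.range p, ((otr p r)^[t]) (e r)

/-- CARR: an equivariant chain map from ordered chains of length at most `p - 1` to the chains of
the poset of small sets. -/
def Stmt_CARR : Prop := ∀ (p : ℕ) [Fact p.Prime] (δ : ℝ), 0 < δ →
  (∀ A : Finset (ZMod p), A.Nonempty → A ≠ Finset.univ → Acyc p (SmA p δ A)) →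
  ∃ γ : ∀ r, (Fin (r + 1) → ZMod p) → Ch p (Sm p δ) r,
    (∀ f, aug p (Sm p δ) (γ 0 f) = 1) ∧
    (∀ r f, r + 2 ≤ p → γ r (fun i => f i - 1) = push p (smSh p δ) r (γ r f)) ∧
    ∀ r f, r + 3 ≤ p → bd p (Sm p δ) r (γ (r + 1) f) =
      ∑ i : Fin (r + 2), ((-1 : ZMod p) ^ (i : ℕ)) • γ r (fun j => f (i.succAbove j))

/-- CSEQ: the sequence `c_r` of chains of small sets. -/
def Stmt_CSEQ : Prop := ∀ (p : ℕ) [Fact p.Prime] (δ : ℝ), 0 < δ →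
  ∃ c : ∀ r, Ch p (Sm p δ) r, aug p (Sm p δ) (c 0) = 1 ∧ ∀ r, r + 3 ≤ p →
    bd p (Sm p δ) r (c (r + 1)) = if Even r then push p (smSh p δ) r (c r) - c r
      else ∑ t ∈ Finset.range p, ((push p (smSh p δ) r)^[t]) (c r)

/-- ALGB: the algebraic part of the Borsuk-Ulam theorem. -/
def Stmt_ALGB : Prop := ∀ (p : ℕ) [Fact p.Prime] (M : ℕ) (P : Type) [Preorder P] (T : P →o P)
  (g : P → ZMod p) (col : P → Fin M), (∀ x, g (T x) = g x + 1) → (∀ x, col (T x) = col x) →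
  (∀ x y, x ≤ y → col y ≤ col x) → (∀ x y, x ≤ y → col x = col y → g x = g y) →
  ∀ c : ∀ r, Ch p P r, aug p P (c 0) = 1 → (∀ r, r < M → bd p P r (c (r + 1)) =
    if Even r then push p T r (c r) - c r
    else ∑ t ∈ Finset.range p, ((push p T r)^[t]) (c r)) → False

/-- LAB: labels of small sets. -/
def Stmt_LAB : Prop := ∀ (p : ℕ) [Fact p.Prime] (M : ℕ) (J : Type) [Fintype J] (act : J → J)
  (θ : J → (ZMod p → ℝ) → ℝ), CSys p M J act θ → (∀ z ∈ EE p, ∃ i, θ i z ≠ 0) →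
  ∃ (δ : ℝ) (_ : 0 < δ) (g : Sm p δ → ZMod p) (col : Sm p δ → Fin M),
    (∀ x, g (smSh p δ x) = g x + 1) ∧ (∀ x, col (smSh p δ x) = col x) ∧
    (∀ x y, x ≤ y → col y ≤ col x) ∧ ∀ x y, x ≤ y → col x = col y → g x = g y

/-- BU: the Borsuk-Ulam theorem. -/
def Stmt_BU : Prop := ∀ (p : ℕ) [Fact p.Prime] (M : ℕ) (J : Type) [Fintype J] (act : J → J)
  (θ : J → (ZMod p → ℝ) → ℝ), M + 2 ≤ p → CSys p M J act θ → ∃ z ∈ EE p, ∀ i, θ i z = 0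

/-! ### The map from the sphere to the ambient space -/

/-- LEVEL: one level. -/
def Stmt_LEVEL : Prop := ∀ (p : ℕ) [Fact p.Prime] (I : Type) [Fintype I]
  (y : (ZMod p → ℝ) → I → ℝ) (N : ℕ) (P : ℕ → I → ℝ) (ρ : ℝ), 0 < ρ →
  ContinuousOn y (EE p) → (∀ z ∈ EE p, ∃ v < N, ∀ i, |y z i - P v i| ≤ ρ / 2) →
  ∃ (α : ℕ → (ZMod p → ℝ) → ℝ) (c : ZMod p → (ZMod p → ℝ) → ℝ),
    (∀ v, ContinuousOn (α v) (EE p)) ∧ (∀ k, ContinuousOn (c k) (EE p)) ∧ (∀ k z, 0 ≤ c k z) ∧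
    (∀ v, ∀ z ∈ EE p, 0 ≤ α v z) ∧ (∀ z ∈ EE p, ∑ v ∈ Finset.range N, α v z = 1) ∧
    (∀ v, N ≤ v → ∀ z, α v z = 0) ∧
    (∀ z ∈ EE p, ∀ v, α v z ≠ 0 → ∀ i, |y z i - P v i| ≤ ρ) ∧
    (∀ z ∈ EE p, {v | α v z ≠ 0}.ncard ≤ 1 + {k | 0 < c k z}.ncard) ∧
    ∀ z ∈ EE p, ∑ t : ZMod p, {k | 0 < c k (fun i => z (i + t))}.ncard ≤ p

/-- HAT: the Kuhn hat functions of the grid of mesh `1 / L` after a steep staircase. -/
def Stmt_HAT : Prop := ∀ (p : ℕ) [Fact p.Prime] (L : ℕ), 0 < L →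
  ∃ (U : Finset (ZMod p → ℤ)) (h : (ZMod p → ℤ) → (ZMod p → ℝ) → ℝ)
    (c : ZMod p → (ZMod p → ℝ) → ℝ),
    (∀ u, Continuous (h u)) ∧ (∀ k, Continuous (c k)) ∧ (∀ u z, 0 ≤ h u z) ∧
    (∀ k z, 0 ≤ c k z) ∧ (∀ z ∈ EE p, ∃ u ∈ U, 0 < h u z) ∧
    (∀ u z z', 0 < h u z → 0 < h u z' → ∀ k, |z k - z' k| ≤ 2 / L) ∧
    (∀ z ∈ EE p, {u | u ∈ U ∧ 0 < h u z}.ncard ≤ 1 + {k | 0 < c k z}.ncard) ∧
    ∀ z ∈ EE p, ∑ t : ZMod p, {k | 0 < c k (fun i => z (i + t))}.ncard ≤ p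

/-- The output of the recursion over the levels. -/
structure FData (D : Pats) (p : ℕ) [NeZero p] : Type where
  /-- the map -/
  F : (ZMod p → ℝ) → HH
  /-- the ambiguity functions -/
  c : ℕ → ZMod p → (ZMod p → ℝ) → ℝ
  cont : ContinuousOn F (EE p)
  equi : ∀ z ∈ EE p, F (sh z) = shiftH (F z)
  zero : ∀ z ∈ EE p, ∀ t : ℤ, (F z t 0 0 : ℝ) = z t
  ccont : ∀ j k, ContinuousOn (c j k) (EE p)
  cnonneg : ∀ j k z, 0 ≤ c j k z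
  sum : ∀ z ∈ EE p, ∀ j, 1 ≤ j → ∑ v ∈ Finset.range (D.N j), (F z 0 j v : ℝ) = 1
  net : ∀ z ∈ EE p, ∀ j, 1 ≤ j → ∀ v < D.N j, F z 0 j v ≠ 0 → ∀ (s : ℤ) (l u : ℕ),
    |s| ≤ (Bj j : ℤ) → l < j → u < j → |(F z s l u : ℝ) - D.P j v s l u| ≤ rj j
  card : ∀ z ∈ EE p, ∀ j, 1 ≤ j → {v | v < D.N j ∧ F z 0 j v ≠ 0}.ncard ≤ 1 + {k | 0 < c j k z}.ncard
  count : ∀ z ∈ EE p, ∀ j, 1 ≤ j →
    ∑ t : ZMod p, {k | 0 < c j k (fun i => z (i + t))}.ncard ≤ p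

/-- FREC: the recursion over the levels. -/
def Stmt_FREC : Prop := ∀ (D : Pats) (p : ℕ) [Fact p.Prime], Nonempty (FData D p)

/-! ### Coloured systems -/

/-- GAPP: elementary properties of the gap functions. -/
def Stmt_GAPP : Prop := ∀ (K : Type) [Fintype K] [DecidableEq K],
  (∀ A : Finset K, Continuous fun b : K → ℝ => gap A b) ∧
  (∀ (A : Finset K) (b : K → ℝ), 0 ≤ gap A b) ∧
  (∀ (A : Finset K) (b : K → ℝ), gap A b ≠ 0 ↔ ∀ k ∈ A, ∀ l, l ∉ A → b l < b k) ∧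
  (∀ (A A' : Finset K) (b : K → ℝ), A ≠ A' → A.card = A'.card → gap A b = 0 ∨ gap A' b = 0) ∧
  (∀ (b : K → ℝ) (s : ℕ), s < Fintype.card K → (∀ k, 0 ≤ b k) → {k | b k ≠ 0}.ncard ≤ s →
    (∀ A : Finset K, A.Nonempty → A.card ≤ s → gap A b = 0) → ∀ k, b k = 0)

/-- GSYS: the gap functions of an equivariant family of functions indexed by `ℤ/p`. -/
def Stmt_GSYS : Prop := ∀ (p : ℕ) [Fact p.Prime] (S : Finset ℕ), (∀ s ∈ S, 1 ≤ s ∧ s < p) →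
  ∃ act : {A : Finset (ZMod p) // A.card ∈ S} → {A : Finset (ZMod p) // A.card ∈ S},
    ∀ b : (ZMod p → ℝ) → ZMod p → ℝ, (∀ k, ContinuousOn (fun z => b z k) (EE p)) →
      (∀ z ∈ EE p, ∀ k, b (sh z) k = b z (k + 1)) →
      CSys p S.card {A : Finset (ZMod p) // A.card ∈ S} act fun A z => gap A.1 (b z)

/-- FSYS: the system of the gaps of weighted Fourier coefficients. `N` is the set of the
frequencies `1 ≤ ω`, `2 ω < p`. -/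
def Stmt_FSYS : Prop := ∀ (p : ℕ) [Fact p.Prime] (n : ℕ) (f : (ZMod p → ℝ) → ℕ → ℂ)
  (w : ℕ → ℝ), 2 < p → (∀ ω, 0 < w ω) → (∀ ω, ContinuousOn (fun z => f z ω) (EE p)) →
  (∀ z ∈ EE p, ∀ ω, f (sh z) ω = Complex.exp (2 * Real.pi * Complex.I * ω / p) * f z ω) →
  ∃ (J : Type) (_ : Fintype J) (act : J → J) (θ : J → (ZMod p → ℝ) → ℝ),
    CSys p (2 * n) J act θ ∧ ∀ z ∈ EE p, (∀ i, θ i z = 0) →
      (∃ ω, 1 ≤ ω ∧ 2 * ω < p ∧ f z ω ≠ 0) → 2 * n + 1 < p →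
      ∃ (t : ℝ) (S : Finset ℕ), (∀ ω ∈ S, 1 ≤ ω ∧ 2 * ω < p) ∧ n + 1 ≤ S.card ∧
        (∀ ω ∈ S, w ω * ‖f z ω‖ = t) ∧ ∀ ω, 1 ≤ ω → 2 * ω < p → w ω * ‖f z ω‖ ≤ t

/-- SUMS: disjoint unions of systems. -/
def Stmt_SUMS : Prop := ∀ (p n : ℕ) (M : Fin n → ℕ) (J : Fin n → Type) (act : ∀ i, J i → J i)
  (θ : ∀ i, J i → (ZMod p → ℝ) → ℝ), (∀ i, CSys p (M i) (J i) (act i) (θ i)) →
  CSys p (∑ i, M i) (Σ i, J i) (fun a => ⟨a.1, act a.1 a.2⟩) fun a => θ a.1 a.2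

/-- LEVS: the sparsity conditions as a coloured system. -/
def Stmt_LEVS : Prop := ∀ (D : Pats) (p : ℕ) [Fact p.Prime] (Φ : FData D p),
  ∃ (M : ℕ) (J : Type) (_ : Fintype J) (act : J → J) (θ : J → (ZMod p → ℝ) → ℝ), 4 * M ≤ p ∧
    CSys p M J act θ ∧ ∀ z ∈ EE p, (∀ i, θ i z = 0) → Φ.F z ∈ XX D

/-- BALS: the balance conditions as a coloured system. -/
def Stmt_BALS : Prop := ∀ (p : ℕ) [Fact p.Prime], 16 ≤ p →
  ∃ (J : Type) (_ : Fintype J) (act : J → J) (θ : J → (ZMod p → ℝ) → ℝ),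
    CSys p (2 * (p / 8)) J act θ ∧ ∀ z ∈ EE p, (∀ i, θ i z = 0) →
      p / 8 + 1 ≤ {k | z k = 1}.ncard ∧ p / 8 + 1 ≤ {k | z k = 0}.ncard

/-- TIE: the tie points. -/
def Stmt_TIE : Prop := ∀ (D : Pats) (p : ℕ) [Fact p.Prime], 16 ≤ p → ∀ (φ : HH → ℝ),
  Continuous φ → ∀ w : ℕ → ℝ, (∀ ω, 0 < w ω) →
  ∃ x ∈ XX D, shiftH^[p] x = x ∧ p ≤ 8 * {k : Fin p | x (k : ℕ) 0 0 = 1}.ncard ∧
    p ≤ 8 * {k : Fin p | x (k : ℕ) 0 0 = 0}.ncard ∧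
    ((∃ ω, 1 ≤ ω ∧ 2 * ω < p ∧ FT p φ x ω ≠ 0) →
      ∃ (t : ℝ) (S : Finset ℕ), (∀ ω ∈ S, 1 ≤ ω ∧ 2 * ω < p) ∧ p ≤ 8 * S.card ∧
        (∀ ω ∈ S, w ω * ‖FT p φ x ω‖ = t) ∧
        ∀ ω, 1 ≤ ω → 2 * ω < p → w ω * ‖FT p φ x ω‖ ≤ t)

/-! ### The invariant measures -/

/-- The condition on the measures `μ_p`: a finite family of points, permuted by `T`, such that
balls for the average metric contain few of them. -/
def Frost {X : Type} (T : X → X) (d : X → X → ℝ) (β K : ℝ) (p : ℕ) : Prop :=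
  ∃ (ι : Type) (_ : Fintype ι) (_ : Nonempty ι) (x : ι → X) (e : ι ≃ ι),
    (∀ i, x (e i) = T (x i)) ∧ ∀ (y : ℕ → X) (r : ℝ), 1 / (p : ℝ) ≤ r → r ≤ 1 →
      ({i | ∑ k ∈ Finset.range p, d (T^[k] (x i)) (y k) ≤ p * r}.ncard : ℝ) ≤
        K ^ p * r ^ (β * p) * Fintype.card ι

/-- LIPF: a Lipschitz function close to the coordinate `x 0 0 0`. -/
def Stmt_LIPF : Prop := ∀ (D : Pats) (d : H3.MD.CompatMetric (XX D)),
  ∃ (C : ℝ) (φ : HH → ℝ), 1 ≤ C ∧ Continuous φ ∧ (∀ x : XX D, 0 ≤ φ x ∧ φ x ≤ (x.1 0 0 0 : ℝ) ∧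
    (x.1 0 0 0 : ℝ) - 1 / 10 ≤ φ x) ∧ ∀ x y : XX D, |φ x.1 - φ y.1| ≤ C * d.d x y

/-- PARS: Parseval's formula and the lower bound for the largest Fourier coefficient. -/
def Stmt_PARS : Prop := ∀ (p : ℕ), p.Prime → 2 < p → ∀ a : ℕ → ℝ,
  (∑ ω ∈ Finset.range p, ‖∑ k ∈ Finset.range p, (a k : ℂ) *
      Complex.exp (-(2 * Real.pi * Complex.I * ω * k / p))‖ ^ 2 =
    p * ∑ k ∈ Finset.range p, a k ^ 2) ∧
  ((∀ k < p, 0 ≤ a k) → p ≤ 8 * {k | k < p ∧ 9 / 10 ≤ a k}.ncard →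
    p ≤ 8 * {k | k < p ∧ a k = 0}.ncard →
    ∃ ω, 1 ≤ ω ∧ 2 * ω < p ∧ (p : ℝ) / 100 ≤ ‖∑ k ∈ Finset.range p, (a k : ℂ) *
      Complex.exp (-(2 * Real.pi * Complex.I * ω * k / p))‖ ^ 2)

/-- CNT: the number of weights whose tie point is in a given ball. `Ω` is the set of the
frequencies, `1 + i ω / R` the weights, `f i ω` the moduli of the Fourier coefficients of the tie
point of the weight `i`, divided by `√p`. -/
def Stmt_CNT : Prop := ∀ (p R : ℕ) (Ω : Type) [Fintype Ω] (f : (Ω → Fin R) → Ω → ℝ), 0 < p →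
  0 < R → Fintype.card Ω ≤ p →
  (∀ i, ∃ (τ : ℝ) (S : Finset Ω), p ≤ 8 * S.card ∧ 1 / 20 ≤ τ ∧ τ ≤ p ∧
    ∀ ω ∈ S, f i ω = τ * (1 + (i ω : ℕ) / R)) →
  ∀ (y : Ω → ℝ) (δ : ℝ), 1 / (R : ℝ) ≤ δ → δ ≤ 1 / 40 →
    ({i : Ω → Fin R | 20 * {ω | δ ≤ |f i ω - y ω|}.ncard ≤ p}.ncard : ℝ) ≤
      (p / δ + 2) * 2 ^ p * (241 * δ) ^ ((p : ℝ) / 16) * R ^ Fintype.card Ω

/-- FROST: the measures `μ_p`. -/
def Stmt_FROST : Prop := ∀ (D : Pats) (T : XX D → XX D), (∀ x, (T x).1 = shiftH x.1) →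
  ∀ d : H3.MD.CompatMetric (XX D), ∃ K : ℝ, 1 ≤ K ∧ ∀ p : ℕ, p.Prime → 16 ≤ p →
    Frost T d.d (1 / 32) K p

/-! ### Rate distortion -/

/-- GIBB: Gibbs' variational inequality for product measures. -/
def Stmt_GIBB : Prop := ∀ (F : Type) [Fintype F] (L : ℕ) (q : Fin L → F → ℝ) (Q : F → ℝ)
  (D : Fin L → F → ℝ), (∀ l b, 0 ≤ q l b) → (∀ l, ∑ b, q l b = 1) → (∀ b, 0 ≤ Q b) →
  (∑ b, Q b = 1) → (∀ l b, q l b ≠ 0 → Q b ≠ 0) →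
  -Real.log (∑ b : Fin L → F, (∏ l, Q (b l)) * Real.exp (-∑ l, D l (b l))) ≤
    ∑ l, ∑ b, (q l b * Real.log (q l b / Q b) + q l b * D l b)

/-- INFO: concatenation of codes along the orbits of a finite permutation. -/
def Stmt_INFO : Prop := ∀ (ι F : Type) [Fintype ι] [Nonempty ι] [Fintype F] (e : ι ≃ ι) (L : ℕ)
  (q : ι → F → ℝ) (Q : F → ℝ) (D : ι → F → ℝ) (S : ℝ), 0 < L → (∀ i b, 0 ≤ q i b) →
  (∀ i, ∑ b, q i b = 1) → (∀ b, 0 ≤ Q b) → (∑ b, Q b = 1) → (∀ i b, q i b ≠ 0 → Q b ≠ 0) →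
  (∀ b : Fin L → F, (∑ i, Real.exp (-∑ l : Fin L, D (e^[(l : ℕ)] i) (b l))) /
    Fintype.card ι ≤ S) →
  -Real.log S / L ≤ (∑ i, ∑ b, (q i b * Real.log (q i b / Q b) + q i b * D i b)) /
    Fintype.card ι

/-- CODE: the lower bound for codes, for one `p`. -/
def Stmt_CODE : Prop := ∀ (X : Type) (T : X → X) (d : X → X → ℝ) (β K Δ : ℝ) (p N m n : ℕ)
  (f : X → Fin m) (y : Fin n → Fin N → X) (q : Fin m → Fin n → ℝ) (Q : Fin n → ℝ)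
  (D : Fin m → Fin n → ℝ) (a r : ℝ), 0 < N → N ≤ p → 0 < a → 1 / (p : ℝ) ≤ r → r ≤ 1 → 1 ≤ K →
  (∀ x x', 0 ≤ d x x' ∧ d x x' ≤ Δ) → (∀ c b, 0 ≤ q c b) → (∀ c, ∑ b, q c b = 1) →
  (∀ b, 0 ≤ Q b) → (∑ b, Q b = 1) → (∀ c b, q c b ≠ 0 → Q b ≠ 0) →
  (∀ x b, ∑ k : Fin N, d (T^[(k : ℕ)] x) (y b k) ≤ D (f x) b) →
  ∀ (ι : Type) [Fintype ι] [Nonempty ι] (x : ι → X) (e : ι ≃ ι), (∀ i, x (e i) = T (x i)) →
  (∀ (y : ℕ → X), ({i | ∑ k ∈ Finset.range p, d (T^[k] (x i)) (y k) ≤ p * r}.ncard : ℝ) ≤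
    K ^ p * r ^ (β * p) * Fintype.card ι) →
  -Real.log (Real.exp (a * N * Δ) * (K ^ p * r ^ (β * p) + Real.exp (-(a * p * r)))) /
      ((p / N : ℕ) : ℝ) ≤
    ∑ c, (({i | f (x i) = c}.ncard : ℝ) / Fintype.card ι) *
      ∑ b, (q c b * Real.log (q c b / Q b) + a * q c b * D c b)

/-- KLP: the mutual information of a finite partition. -/
def Stmt_KLP : Prop := ∀ (A B : Type) [MeasurableSpace A] [MeasurableSpace B] (π : Measure (A × B))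
  [IsProbabilityMeasure π] (m n : ℕ) (f : A → Fin m) (g : B → Fin n), Measurable f →
  Measurable g → H3.MD.mutualInfo π ≠ ⊤ →
  ∑ c, ∑ b, (π {x | f x.1 = c ∧ g x.2 = b}).toReal *
      Real.log ((π {x | f x.1 = c ∧ g x.2 = b}).toReal /
        ((π {x | f x.1 = c}).toReal * (π {x | g x.2 = b}).toReal)) ≤
    (H3.MD.mutualInfo π).toReal

/-- PART: fine partitions with null boundaries. -/
def Stmt_PART : Prop := ∀ (X : Type) [TopologicalSpace X] [CompactSpace X] [MeasurableSpace X]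
  [BorelSpace X] (d : H3.MD.CompatMetric X) (μ : Measure X) [IsProbabilityMeasure μ] (δ : ℝ),
  0 < δ → ∃ (m : ℕ) (f : X → Fin m), Measurable f ∧ (∀ c, ∃ x, f x = c) ∧
    (∀ c, μ (frontier (f ⁻¹' {c})) = 0) ∧ ∀ x x', f x = f x' → d.d x x' ≤ δ

/-- WLIM: weak limits of the uniform measures on finite permuted families. -/
def Stmt_WLIM : Prop := ∀ (X : Type) [TopologicalSpace X] [CompactSpace X]
  [TopologicalSpace.MetrizableSpace X] [MeasurableSpace X] [BorelSpace X] (T : X ≃ₜ X)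
  (ι : ℕ → Type) [∀ n, Fintype (ι n)] [∀ n, Nonempty (ι n)] (x : ∀ n, ι n → X)
  (e : ∀ n, ι n ≃ ι n), (∀ n i, x n (e n i) = T (x n i)) →
  ∃ (μ : Measure X) (_ : IsProbabilityMeasure μ), MeasurePreserving T μ μ ∧
    ∃ s : ℕ → ℕ, StrictMono s ∧ ∀ A : Set X, MeasurableSet A → μ (frontier A) = 0 →
      Tendsto (fun n => ({i | x (s n) i ∈ A}.ncard : ℝ) / Fintype.card (ι (s n))) atTop
        (𝓝 (μ A).toReal)

/-- RDISC: discretisation of a joint law. -/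
def Stmt_RDISC : Prop := ∀ (X : Type) [TopologicalSpace X] [CompactSpace X]
  [TopologicalSpace.MetrizableSpace X] [MeasurableSpace X] [BorelSpace X] [Nonempty X]
  (T : X ≃ₜ X) (d : H3.MD.CompatMetric X) (μ : Measure X) [IsProbabilityMeasure μ] (N : ℕ)
  (π : Measure (X × (Fin N → X))) (a ε : ℝ), 0 < N → IsProbabilityMeasure π → π.fst = μ → 0 < a →
  ∫ p, (1 / (N : ℝ)) * ∑ k : Fin N, d.d (T^[(k : ℕ)] p.1) (p.2 k) ∂π < ε →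
  H3.MD.mutualInfo π ≠ ⊤ →
  ∃ (m n : ℕ) (f : X → Fin m) (y : Fin n → Fin N → X) (q : Fin m → Fin n → ℝ) (Q : Fin n → ℝ)
    (D : Fin m → Fin n → ℝ), Measurable f ∧ (∀ c, μ (frontier (f ⁻¹' {c})) = 0) ∧
    (∀ c b, 0 ≤ q c b) ∧ (∀ c, ∑ b, q c b = 1) ∧ (∀ b, 0 ≤ Q b) ∧ (∑ b, Q b = 1) ∧
    (∀ c b, q c b ≠ 0 → Q b ≠ 0) ∧
    (∀ x b, ∑ k : Fin N, d.d (T^[(k : ℕ)] x) (y b k) ≤ D (f x) b) ∧
    ∑ c, (μ (f ⁻¹' {c})).toReal * ∑ b, (q c b * Real.log (q c b / Q b) + a * q c b * D c b) ≤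
      (H3.MD.mutualInfo π).toReal + a * N * ε

/-- RATE: the lower bound for the rate distortion function of the limit measure. -/
def Stmt_RATE : Prop := ∀ (X : Type) [TopologicalSpace X] [CompactSpace X]
  [TopologicalSpace.MetrizableSpace X] [MeasurableSpace X] [BorelSpace X] [Nonempty X]
  (T : X ≃ₜ X) (d : H3.MD.CompatMetric X) (β K : ℝ), 0 < β → 1 ≤ K →
  (∀ P : ℕ, ∃ p, P ≤ p ∧ Frost T d.d β K p) →
  ∃ (μ : Measure X) (_ : IsProbabilityMeasure μ), MeasurePreserving T μ μ ∧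
    ∀ (N : ℕ) (π : Measure (X × (Fin N → X))) (a r ε : ℝ), 0 < N → IsProbabilityMeasure π →
      π.fst = μ → 0 < a → 0 < r → r ≤ 1 → β * Real.log (1 / r) - Real.log K ≤ a * r →
      ∫ p, (1 / (N : ℝ)) * ∑ k : Fin N, d.d (T^[(k : ℕ)] p.1) (p.2 k) ∂π < ε →
      H3.MD.mutualInfo π ≠ ⊤ →
      N * (β * Real.log (1 / r) - Real.log K - a * ε) ≤ (H3.MD.mutualInfo π).toReal

/-- LB: the lower bound for the rate distortion dimension. -/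
def Stmt_LB : Prop := ∀ (X : Type) [TopologicalSpace X] [CompactSpace X]
  [TopologicalSpace.MetrizableSpace X] [MeasurableSpace X] [BorelSpace X] [Nonempty X]
  (T : X ≃ₜ X) (d : H3.MD.CompatMetric X) (β K : ℝ), 0 < β → 1 ≤ K →
  (∀ P : ℕ, ∃ p, P ≤ p ∧ Frost T d.d β K p) →
  ∃ (μ : Measure X) (_ : IsProbabilityMeasure μ), MeasurePreserving T μ μ ∧
    ENNReal.ofReal β ≤ H3.MD.rdimL T d.d μ

/-- The theorem. -/
def Stmt_MAIN : Prop := ∃ (X : Type) (_ : TopologicalSpace X) (_ : CompactSpace X)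
  (_ : TopologicalSpace.MetrizableSpace X) (_ : Nonempty X) (_ : MeasurableSpace X)
  (_ : BorelSpace X) (T : X ≃ₜ X), H3.MD.mdim T = 0 ∧
  (∀ d : H3.MD.CompatMetric X, ∃ (μ : Measure X) (_ : IsProbabilityMeasure μ),
    MeasurePreserving T μ μ ∧ 1 / 32 ≤ H3.MD.rdimL T d.d μ) ∧ ¬ H3.MD.DoubleVP T

end Pool.Agent.DV
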