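import Pool.Agent.DV.BUD
import Pool.Agent.DV.Stmts

/-!
# The Borsuk-Ulam theorem for `ℤ/p`

`BU_thm`: on the sphere `{z ∈ [0,1]^(ℤ/p) : min z = 0, max z = 1}` of dimension `p - 2`, a free
equivariant system of functions with at most `p - 2` colours has a common zero.
-/

set_option autoImplicit false
set_option linter.unusedSectionVars false

namespace Pool.Agent.DV.BUX

variable {p : ℕ} [Fact p.Prime]

/-! ### the sphere -/

theorem EE_compact (p : ℕ) [Fact p.Prime] : IsCompact (EE p) := by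
  have h1 : IsCompact (Set.univ.pi fun _ : ZMod p => Set.Icc (0 : ℝ) 1) :=
    isCompact_univ_pi fun _ => isCompact_Icc
  have h2 : IsClosed (⋃ k : ZMod p, {z : ZMod p → ℝ | z k = 0}) :=
    isClosed_iUnion_of_finite fun k => isClosed_eq (continuous_apply k) continuous_const
  have h3 : IsClosed (⋃ k : ZMod p, {z : ZMod p → ℝ | z k = 1}) :=
    isClosed_iUnion_of_finite fun k => isClosed_eq (continuous_apply k) continuous_const
  have h4 : EE p = (Set.univ.pi fun _ : ZMod p => Set.Icc (0 : ℝ) 1) ∩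
      ((⋃ k : ZMod p, {z : ZMod p → ℝ | z k = 0}) ∩ ⋃ k : ZMod p, {z : ZMod p → ℝ | z k = 1}) := by
    ext z
    simp only [EE, Set.mem_ofPred_eq, Set.mem_inter_iff, Set.mem_univ_pi, Set.mem_Icc,
      Set.mem_iUnion]
  rw [h4]
  exact h1.inter_right (h2.inter h3)

theorem EE_nonempty (p : ℕ) [Fact p.Prime] : (EE p).Nonempty := by
  refine ⟨fun k => if k = 0 then 1 else 0, fun k => ?_, ⟨1, ?_⟩, 0, ?_⟩
  · dsimp only
    split_ifs <;> norm_num
  · simp
  · simp

theorem sh_mem {z : ZMod p → ℝ} (hz : z ∈ EE p) : sh z ∈ EE p := by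
  obtain ⟨ha, ⟨k, hk⟩, l, hl⟩ := hz
  exact ⟨fun i => ha _, ⟨k - 1, by simpa [sh] using hk⟩, l - 1, by simpa [sh] using hl⟩

/-- the real point of a point of the cube -/
def cx (x : XX p) : ZMod p → ℝ := fun k => (x k : ℝ)

theorem cx_shX_one (x : XX p) : cx (shX 1 x) = sh (cx x) := rfl

theorem shX_add (t : ZMod p) (x : XX p) : shX (t + 1) x = shX 1 (shX t x) := by
  funext k
  simp only [shX]
  congr 1
  ring

theorem shX_zero (x : XX p) : shX 0 x = x := by
  funext k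
  simp [shX]

theorem cx_mem {x : XX p} (h0 : ∃ k, x k = 0) (h1 : ∃ k, x k = 1) : cx x ∈ EE p := by
  obtain ⟨k, hk⟩ := h0
  obtain ⟨l, hl⟩ := h1
  exact ⟨fun i => (x i).2, ⟨k, by rw [cx, hk]; rfl⟩, l, by rw [cx, hl]; rfl⟩

/-! ### the grading of the indices -/

section grading
variable {J : Type} {act : J → J}

theorem act_inj (hper : ∀ i, act^[p] i = i) : Function.Injective act := by
  have hp : p ≠ 0 := (Fact.out : p.Prime).ne_zero
  obtain ⟨q, rfl⟩ := Nat.exists_eq_succ_of_ne_zero hp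
  intro i j h
  rw [← hper i, ← hper j, Function.iterate_succ_apply, Function.iterate_succ_apply, h]

theorem dvd_of_iter (hper : ∀ i, act^[p] i = i) (hfree : ∀ i, act i ≠ i) {i : J} {n : ℕ}
    (h : act^[n] i = i) : p ∣ n := by
  have h1 : Function.minimalPeriod act i ∣ p :=
    Function.IsPeriodicPt.minimalPeriod_dvd (hper i)
  have h2 : Function.minimalPeriod act i = p := by
    rcases (Nat.dvd_prime (Fact.out : p.Prime)).1 h1 with h3 | h3
    · exact absurd (Function.minimalPeriod_eq_one_iff_isFixedPt.1 h3) (hfree i)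
    · exact h3
  rw [← h2]
  exact Function.IsPeriodicPt.minimalPeriod_dvd h

theorem iter_cast (hper : ∀ i, act^[p] i = i) (hfree : ∀ i, act i ≠ i) {i : J} {n m : ℕ}
    (h : act^[n] i = act^[m] i) : (n : ZMod p) = m := by
  wlog hnm : n ≤ m generalizing n m
  · exact (this h.symm (le_of_not_ge hnm)).symm
  obtain ⟨k, rfl⟩ := Nat.exists_eq_add_of_le hnm
  rw [Function.iterate_add_apply] at h
  have h1 : act^[k] i = i := ((act_inj hper).iterate n h).symm
  have h2 : ((k : ℕ) : ZMod p) = 0 := (ZMod.natCast_eq_zero_iff k p).2 (dvd_of_iter hper hfree h1)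
  rw [Nat.cast_add, h2, add_zero]

/-- the setoid of the orbits -/
def orb (act : J → J) (hper : ∀ i, act^[p] i = i) : Setoid J where
  r i j := ∃ n : ℕ, act^[n] i = j
  iseqv := by
    refine ⟨fun i => ⟨0, rfl⟩, ?_, ?_⟩
    · rintro i _ ⟨n, rfl⟩
      -- `act^[n (p-1)] (act^[n] i) = act^[n p] i = i`
      refine ⟨n * (p - 1), ?_⟩
      rw [← Function.iterate_add_apply]
      have hp : 1 ≤ p := (Fact.out : p.Prime).one_lt.le
      have h1 : n * (p - 1) + n = p * n := by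
        obtain ⟨q, rfl⟩ := Nat.exists_eq_add_of_le hp
        rw [Nat.add_sub_cancel_left]; ring
      rw [h1, Function.iterate_mul]
      have h2 : act^[p] = id := funext hper
      rw [h2, Function.iterate_id]; rfl
    · rintro i _ _ ⟨n, rfl⟩ ⟨m, rfl⟩
      exact ⟨m + n, Function.iterate_add_apply _ _ _ _⟩

theorem exists_grading (hper : ∀ i, act^[p] i = i) (hfree : ∀ i, act i ≠ i) :
    ∃ h : J → ZMod p, ∀ i, h (act i) = h i + 1 := by
  have h1 : ∀ i : J, ∃ n : ℕ, act^[n] (Quotient.out (Quotient.mk (orb act hper) i)) = i :=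
    fun i => Quotient.exact (s := orb act hper) (Quotient.out_eq _)
  choose n hn using h1
  refine ⟨fun i => (n i : ZMod p), fun i => ?_⟩
  have h2 : Quotient.mk (orb act hper) (act i) = Quotient.mk (orb act hper) i :=
    (Quotient.sound (s := orb act hper) ⟨1, rfl⟩).symm
  have h3 := hn (act i)
  rw [h2] at h3
  have h4 : act^[n (act i)] (Quotient.out (Quotient.mk (orb act hper) i)) =
      act^[n i + 1] (Quotient.out (Quotient.mk (orb act hper) i)) := by
    rw [h3, Function.iterate_succ_apply', hn i]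
  have h5 := iter_cast hper hfree h4
  rw [Nat.cast_add, Nat.cast_one] at h5
  exact h5

end grading

/-! ### the list argument -/

theorem no_chain {M : ℕ} {m : List (ℕ × ZMod p)} (h0 : m.length = M + 1)
    (h1 : ∀ u ∈ m, u.1 < M) (h2 : ∀ u ∈ m, ∀ u' ∈ m, u.1 = u'.1 → u = u')
    (h3 : m.Pairwise fun u u' => u.1 ≤ u'.1) : ¬ (m.map Prod.snd).IsChain (· ≠ ·) := by
  intro h
  rw [List.isChain_map] at h
  have h4 : m.IsChain fun u u' => u.1 < u'.1 := by
    rw [List.isChain_iff_getElem] at h ⊢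
    intro i hi
    have h5 := h i hi
    have h6 := (List.pairwise_iff_getElem.1 h3) i (i + 1) (by omega) hi (by omega)
    refine lt_of_le_of_ne h6 fun h7 => h5 ?_
    rw [h2 _ (List.getElem_mem _) _ (List.getElem_mem _) h7]
  have h5 : (m.map Prod.fst).IsChain (· < ·) := by
    rw [List.isChain_map]; exact h4
  have h6 : (m.map Prod.fst).Pairwise (· < ·) := List.isChain_iff_pairwise.1 h5
  have h7 : (m.map Prod.fst).Nodup := h6.imp fun h => ne_of_lt h
  have h8 : (m.map Prod.fst).toFinset ⊆ Finset.range M := by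
    intro a ha
    rw [List.mem_toFinset, List.mem_map] at ha
    obtain ⟨u, hu, rfl⟩ := ha
    exact Finset.mem_range.2 (h1 u hu)
  have h9 := Finset.card_le_card h8
  rw [List.toFinset_card_of_nodup h7, List.length_map, Finset.card_range] at h9
  omega

/-! ### labels of points -/

section labelling
variable {M : ℕ} {J : Type} [Fintype J] {act : J → J} {θ : J → (ZMod p → ℝ) → ℝ}

/-- the relation between points and labels -/
def Rl (c : J → Fin M) (h : J → ZMod p) (θ : J → (ZMod p → ℝ) → ℝ) (η : ℝ) (z : ZMod p → ℝ)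
    (u : ℕ × ZMod p) : Prop :=
  ∃ i, η ≤ θ i z ∧ (∀ i', η ≤ θ i' z → c i ≤ c i') ∧ u = ((c i : ℕ), h i)

theorem Rl_ex {c : J → Fin M} (h : J → ZMod p) {η : ℝ} {z : ZMod p → ℝ} (hz : ∃ i, η ≤ θ i z) :
    ∃ u, Rl c h θ η z u := by
  classical
  obtain ⟨i0, hi0⟩ := hz
  obtain ⟨i, hi, hmin⟩ := Finset.exists_min_image (Finset.univ.filter fun i => η ≤ θ i z) c
    ⟨i0, by simpa using hi0⟩
  refine ⟨_, i, (Finset.mem_filter.1 hi).2, fun i' hi' => hmin i' ?_, rfl⟩
  simpa using hi'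

theorem Rl_uniq {c : J → Fin M} {h : J → ZMod p} {η : ℝ} (hη : 0 < η) {z : ZMod p → ℝ}
    (hc : ∀ i i', i ≠ i' → c i = c i' → θ i z = 0 ∨ θ i' z = 0) {u u' : ℕ × ZMod p}
    (h1 : Rl c h θ η z u) (h2 : Rl c h θ η z u') : u = u' := by
  obtain ⟨i, hi, hm, rfl⟩ := h1
  obtain ⟨i', hi', hm', rfl⟩ := h2
  have h3 : c i = c i' := le_antisymm (hm i' hi') (hm' i hi)
  have h4 : i = i' := by
    by_contra hne
    rcases hc i i' hne h3 with h | h
    · rw [h] at hi; linarith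
    · rw [h] at hi'; linarith
  rw [h4]

theorem Rl_sh (hS : CSys p M J act θ) {c : J → Fin M} (hc : ∀ i, c (act i) = c i)
    {h : J → ZMod p} (hh : ∀ i, h (act i) = h i + 1) {η : ℝ} {z : ZMod p → ℝ} (hz : z ∈ EE p)
    {u : ℕ × ZMod p} (h1 : Rl c h θ η z u) : Rl c h θ η (sh z) (u.1, u.2 + 1) := by
  obtain ⟨i, hi, hm, rfl⟩ := h1
  refine ⟨act i, by rwa [hS.equi i z hz], fun i' hi' => ?_, by rw [hc, hh]⟩
  have hp : p ≠ 0 := (Fact.out : p.Prime).ne_zero
  have h2 : act (act^[p - 1] i') = i' := by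
    rw [← Function.iterate_succ_apply' act, Nat.succ_eq_add_one, Nat.sub_add_cancel (by omega)]
    exact hS.per i'
  rw [← h2, hS.equi _ z hz] at hi'
  rw [hc, ← h2, hc]
  exact hm _ hi'

end labelling

/-! ### the theorem -/

/-- the action on labels -/
def tau (t : ZMod p) (u : ℕ × ZMod p) : ℕ × ZMod p := (u.1, u.2 + t)

/-- labels cannot be chosen -/
theorem no_labels {M : ℕ} (hM : M + 2 ≤ p) {δ : ℝ} (hδ : 0 < δ) (lam : XX p → ℕ × ZMod p)
    (h1 : ∀ x : XX p, cx x ∈ EE p → (lam x).1 < M)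
    (h2 : ∀ x : XX p, cx x ∈ EE p → ∀ t, lam (shX t x) = tau t (lam x))
    (h3 : ∀ x y : XX p, cx x ∈ EE p → cx y ∈ EE p → (∀ k, |(x k : ℝ) - y k| ≤ δ) →
      (lam x).1 = (lam y).1 → lam x = lam y) : False := by
  obtain ⟨n, hn⟩ := exists_nat_one_div_lt hδ
  have hn1 : 1 / ((n + 1 : ℕ) : ℝ) ≤ δ := by push_cast; exact hn.le
  -- small chains in the sphere
  have hP : ∀ r ≤ M, (Phi p (n + 1) (r + 1) (ee r)) ∈ Sup (ZMod p) fun m : List (XX p) =>
      m.length = r + 1 ∧ (∀ x ∈ m, cx x ∈ EE p) ∧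
      ∀ x ∈ m, ∀ y ∈ m, ∀ k, |(x k : ℝ) - y k| ≤ δ := by
    intro r hr
    refine map_mem _ _ (fun l hl => ?_) (ee_len r)
    refine Sup_mono (fun m hm => ?_) (Phi_mem (Nat.succ_pos n) hn1 (r + 1) l hl)
    refine ⟨hm.1, fun x hx => ?_, hm.2.2⟩
    have h4 := EA_sphere (by rw [show l.length = r + 1 from hl]; omega) (hm.2.1 x hx)
    exact cx_mem h4.1 h4.2
  let d : ℕ → Cn (ZMod p) (ZMod p) := fun r =>
    mp Prod.snd (Lam lam (r + 1) (Phi p (n + 1) (r + 1) (ee r)))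
  have hL : ∀ r ≤ M, Lam lam (r + 1) (Phi p (n + 1) (r + 1) (ee r)) ∈ Sup (ZMod p)
      fun m : List (ℕ × ZMod p) => m.length = r + 1 ∧ (∀ u ∈ m, u.1 < M) ∧
        (∀ u ∈ m, ∀ u' ∈ m, u.1 = u'.1 → u = u') ∧ m.Pairwise fun u u' => u.1 ≤ u'.1 := by
    intro r hr
    refine map_mem _ _ (fun l hl => ?_) (hP r hr)
    refine Sup_mono (fun m hm => ?_) (Lam_mem lam (r + 1) l hl.1)
    refine ⟨hm.1, fun u hu => ?_, fun u hu u' hu' he => ?_, hm.2.2⟩
    · obtain ⟨x, hx, rfl⟩ := hm.2.1 u hu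
      exact h1 x (hl.2.1 x hx)
    · obtain ⟨x, hx, rfl⟩ := hm.2.1 u hu
      obtain ⟨y, hy, rfl⟩ := hm.2.1 u' hu'
      exact h3 x y (hl.2.1 x hx) (hl.2.1 y hy) (hl.2.2 x hx y hy) he
  have hlen : ∀ r ≤ M, d r ∈ Sup (ZMod p) (Len (r + 1)) := fun r hr =>
    mp_mem (fun l hl => by rw [Len, List.length_map]; exact hl.1) (hL r hr)
  have hPl : ∀ r, ∀ c : Cn (ZMod p) (ZMod p), c ∈ Sup (ZMod p) (Len r) →
      Phi p (n + 1) r c ∈ Sup (ZMod p) (Len r) := fun r c hc =>
    map_mem _ _ (fun l hl => Sup_mono (fun m hm => hm.1) (Phi_mem (Nat.succ_pos n) hn1 r l hl)) hc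
  have hbd : ∀ r, ∀ c : Cn (ZMod p) (ZMod p), c ∈ Sup (ZMod p) (Len (r + 1)) →
      bd (mp Prod.snd (Lam lam (r + 1) (Phi p (n + 1) (r + 1) c))) =
        mp Prod.snd (Lam lam r (Phi p (n + 1) r (bd c))) := by
    intro r c hc
    rw [bd_mp, bd_Lam lam r (hPl _ _ hc), Phi, bd_Psi (bd_kap (n + 1)) r hc]
    rfl
  have h0 : bd (d 0) = one (ZMod p) [] := by
    rw [show d 0 = mp Prod.snd (Lam lam (0 + 1) (Phi p (n + 1) (0 + 1) (ee 0))) from rfl,
      hbd 0 _ (ee_len 0), bd_ee_zero, Phi, Psi_zero, Lam, Psi_zero, mp_one]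
    rfl
  have hd : ∀ r < M, bd (d (r + 1)) = rho (fun t g => g + t) r (d r) := by
    intro r hr
    rw [show d (r + 1) = mp Prod.snd (Lam lam (r + 1 + 1)
        (Phi p (n + 1) (r + 1 + 1) (ee (r + 1)))) from rfl,
      hbd (r + 1) _ (ee_len (r + 1)), bd_ee_succ]
    have e1 : Phi p (n + 1) (r + 1) (rho tr r (ee r)) =
        rho shX r (Phi p (n + 1) (r + 1) (ee r)) := by
      refine map_rho _ (fun t => ?_) r
      refine Psi_equi (Q := fun _ => True) (fun l hl _ c => kap_equi (n + 1) t l hl c) (r + 1)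
        (Sup_mono (fun l hl => ⟨hl, fun _ _ => trivial⟩) (ee_len r))
    have e2 : Lam lam (r + 1) (rho shX r (Phi p (n + 1) (r + 1) (ee r))) =
        rho tau r (Lam lam (r + 1) (Phi p (n + 1) (r + 1) (ee r))) := by
      refine map_rho _ (fun t => ?_) r
      refine Psi_equi (Q := fun x : XX p => cx x ∈ EE p) (fun l hl hQ c => ?_) (r + 1)
        (Sup_mono (fun l hl => ⟨hl.1, hl.2.1⟩) (hP r (by omega)))
      rw [mp_cons, lab_map lam (shX t) (tau t) (fun _ => rfl) l hl fun x hx => h2 x (hQ x hx) t]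
    have e3 : mp Prod.snd (rho tau r (Lam lam (r + 1) (Phi p (n + 1) (r + 1) (ee r)))) =
        rho (fun t g => g + t) r (mp Prod.snd (Lam lam (r + 1)
          (Phi p (n + 1) (r + 1) (ee r)))) := by
      refine map_rho _ (fun t => ?_) r
      rw [mp_mp, mp_mp]
      rfl
    rw [e1, e2, e3]
  obtain ⟨l, hl, _, hch⟩ := alg M d hlen h0 hd
  have h4 : d M ∈ Sup (ZMod p) fun l => ¬ l.IsChain (· ≠ ·) :=
    mp_mem (fun m hm => no_chain hm.1 hm.2.1 hm.2.2.1 hm.2.2.2) (hL M le_rfl)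
  exact mem_of_mem h4 hl hch

end Pool.Agent.DV.BUX

namespace Pool.Agent.DV

open BUX

/-- **the Borsuk-Ulam theorem for `ℤ/p`** -/
theorem BU_thm : Stmt_BU := by
  intro p _ M J _ act θ hM hS
  by_contra hcon
  push Not at hcon
  obtain ⟨c, hc1, hc2⟩ := hS.col
  obtain ⟨h, hh⟩ := exists_grading hS.per hS.free
  -- a lower bound
  have hη : ∃ η : ℝ, 0 < η ∧ ∀ z ∈ EE p, ∃ i, η ≤ θ i z := by
    have h1 : ContinuousOn (fun z => ∑ i, θ i z) (EE p) :=
      continuousOn_finsetSum _ fun i _ => hS.cont i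
    obtain ⟨z0, hz0, hmin⟩ := (EE_compact p).exists_isMinOn (EE_nonempty p) h1
    obtain ⟨i0, hi0⟩ := hcon z0 hz0
    have hcard : 0 < (Fintype.card J : ℝ) := by
      exact_mod_cast Fintype.card_pos_iff.2 ⟨i0⟩
    have hpos : 0 < ∑ i, θ i z0 := by
      refine Finset.sum_pos' (fun i _ => hS.nonneg i z0 hz0) ⟨i0, Finset.mem_univ _, ?_⟩
      exact lt_of_le_of_ne (hS.nonneg i0 z0 hz0) hi0.symm
    refine ⟨(∑ i, θ i z0) / Fintype.card J, by positivity, fun z hz => ?_⟩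
    by_contra hlt
    push Not at hlt
    have h2 : ∑ i, θ i z < ∑ _i : J, (∑ i, θ i z0) / Fintype.card J :=
      Finset.sum_lt_sum_of_nonempty ⟨i0, Finset.mem_univ _⟩ fun i _ => hlt i
    rw [Finset.sum_const, Finset.card_univ, nsmul_eq_mul, mul_div_cancel₀ _ hcard.ne'] at h2
    exact absurd (isMinOn_iff.1 hmin z hz) (not_le.2 h2)
  obtain ⟨η, hη0, hη⟩ := hη
  -- uniform continuity
  have hδ : ∃ δ : ℝ, 0 < δ ∧ ∀ i, ∀ x ∈ EE p, ∀ y ∈ EE p, dist x y < δ →
      |θ i x - θ i y| < η := by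
    have h1 : ∀ i, ∃ δ : ℝ, 0 < δ ∧ ∀ x ∈ EE p, ∀ y ∈ EE p, dist x y < δ →
        |θ i x - θ i y| < η := by
      intro i
      have h2 := (EE_compact p).uniformContinuousOn_of_continuous (hS.cont i)
      rw [Metric.uniformContinuousOn_iff] at h2
      exact h2 η hη0
    choose δ hδ0 hδ using h1
    rcases isEmpty_or_nonempty J with hJ | hJ
    · exact ⟨1, one_pos, fun i => (hJ.false i).elim⟩
    · obtain ⟨i0, hi0⟩ := Finite.exists_min δ
      exact ⟨δ i0, hδ0 i0, fun i x hx y hy hxy => hδ i x hx y hy (hxy.trans_le (hi0 i))⟩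
  obtain ⟨δ, hδ0, hδ⟩ := hδ
  -- the labels
  have hlam : ∀ x : BUX.XX p, ∃ u : ℕ × ZMod p, cx x ∈ EE p → Rl c h θ η (cx x) u := by
    intro x
    by_cases hx : cx x ∈ EE p
    · obtain ⟨u, hu⟩ := Rl_ex (c := c) h (hη _ hx)
      exact ⟨u, fun _ => hu⟩
    · exact ⟨(0, 0), fun h' => absurd h' hx⟩
  choose lam hlam using hlam
  have hl1 : ∀ x : BUX.XX p, cx x ∈ EE p → lam (shX 1 x) = tau 1 (lam x) := by
    intro x hx
    have h1 := Rl_sh hS hc1 hh hx (hlam x hx)
    have h2 : cx (shX 1 x) ∈ EE p := sh_mem hx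
    exact Rl_uniq hη0 (fun i i' hi hi' => hc2 i i' hi hi' _ h2) (hlam _ h2) h1
  refine no_labels hM (half_pos hδ0) lam (fun x hx => ?_) (fun x hx t => ?_)
    (fun x y hx hy hxy he => ?_)
  · obtain ⟨i, _, _, hu⟩ := hlam x hx
    rw [hu]
    exact (c i).2
  · have h2 : ∀ n : ℕ, cx (shX (n : ZMod p) x) ∈ EE p ∧
        lam (shX (n : ZMod p) x) = tau (n : ZMod p) (lam x) := by
      intro n
      induction n with
      | zero => rw [Nat.cast_zero, shX_zero]; exact ⟨hx, by simp [tau]⟩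
      | succ n ih =>
        rw [Nat.cast_succ, shX_add]
        refine ⟨sh_mem ih.1, ?_⟩
        rw [hl1 _ ih.1, ih.2]
        simp only [tau]
        rw [add_assoc]
    have h3 := (h2 t.val).2
    rwa [ZMod.natCast_zmod_val] at h3
  · obtain ⟨i, hi, _, hu⟩ := hlam x hx
    obtain ⟨i', hi', _, hu'⟩ := hlam y hy
    rw [hu, hu'] at he ⊢
    have h4 : c i = c i' := Fin.ext he
    have h5 : dist (cx x) (cx y) < δ := by
      refine lt_of_le_of_lt ((dist_pi_le_iff (half_pos hδ0).le).2 fun k => ?_)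
        (half_lt_self hδ0)
      rw [Real.dist_eq]
      exact hxy k
    have h6 := hδ i _ hx _ hy h5
    have h7 : i = i' := by
      by_contra hne
      rcases hc2 i i' hne h4 _ hy with h8 | h8
      · rw [h8, sub_zero, abs_of_nonneg (hS.nonneg i _ hx)] at h6
        linarith
      · rw [h8] at hi'
        linarith
    rw [h7]

end Pool.Agent.DV
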