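import Mathlib

/-!
# The Borsuk-Ulam theorem for `ℤ/p`: the algebra of chains of lists
-/

set_option autoImplicit false
set_option linter.unusedSectionVars false

namespace Pool.Agent.DV.BUX

section chains
variable (F : Type) [CommRing F]

/-- chains: formal combinations of lists; the list `[x₀, …, x_r]` is an `r`-simplex -/
abbrev Cn (Y : Type) : Type := List Y →₀ F

variable {F} {Y Z : Type}

/-- a list as a chain -/
noncomputable def one (F : Type) [CommRing F] {Y : Type} (l : List Y) : Cn F Y :=
  Finsupp.single l 1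

/-- extension by linearity -/
noncomputable def lift {W : Type} [AddCommGroup W] [Module F W] (u : List Y → W) :
    Cn F Y →ₗ[F] W := Finsupp.linearCombination F u

theorem lift_one {W : Type} [AddCommGroup W] [Module F W] (u : List Y → W) (l : List Y) :
    lift u (one F l) = u l := by
  simp [lift, one]

theorem lin_ext {W : Type} [AddCommGroup W] [Module F W] {f g : Cn F Y →ₗ[F] W}
    (h : ∀ l, f (one F l) = g (one F l)) : f = g :=
  Finsupp.lhom_ext' fun l => LinearMap.ext_ring (h l)

theorem lin_ext' {W : Type} [AddCommGroup W] [Module F W] {f g : Cn F Y →ₗ[F] W}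
    (h : ∀ l, f (one F l) = g (one F l)) (c : Cn F Y) : f c = g c := by
  rw [lin_ext h]

/-- put a vertex in front -/
noncomputable def cons (x : Y) : Cn F Y →ₗ[F] Cn F Y := lift fun l => one F (x :: l)

theorem cons_one (x : Y) (l : List Y) : cons x (one F l) = one F (x :: l) := lift_one _ _

/-- the boundary of a list -/
noncomputable def bdL (F : Type) [CommRing F] {Y : Type} : List Y → Cn F Y
  | [] => 0
  | x :: l => one F l - cons x (bdL F l)

/-- the boundary -/
noncomputable def bd : Cn F Y →ₗ[F] Cn F Y := lift (bdL F)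

theorem bd_nil : bd (one F ([] : List Y)) = 0 := by rw [bd, lift_one]; rfl

theorem bd_one_cons (x : Y) (l : List Y) :
    bd (one F (x :: l)) = one F l - cons x (bd (one F l)) := by
  rw [bd, lift_one, lift_one]; rfl

theorem bd_cons (x : Y) (c : Cn F Y) : bd (cons x c) = c - cons x (bd c) :=
  lin_ext' (f := bd ∘ₗ cons x) (g := LinearMap.id - cons x ∘ₗ bd) (fun l => by
    rw [LinearMap.comp_apply, cons_one, bd_one_cons]; rfl) c

theorem bd_bd (c : Cn F Y) : bd (bd c) = 0 :=
  lin_ext' (f := bd ∘ₗ bd) (g := 0) (fun l => by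
    rw [LinearMap.comp_apply, LinearMap.zero_apply]
    induction l with
    | nil => rw [bd_nil, map_zero]
    | cons x l ih => rw [bd_one_cons, map_sub, bd_cons, ih, map_zero, sub_zero, sub_self]) c

/-- the map of chains of a map of vertices -/
noncomputable def mp (f : Y → Z) : Cn F Y →ₗ[F] Cn F Z := lift fun l => one F (l.map f)

theorem mp_one (f : Y → Z) (l : List Y) : mp f (one F l) = one F (l.map f) := lift_one _ _

theorem mp_cons (f : Y → Z) (x : Y) (c : Cn F Y) : mp f (cons x c) = cons (f x) (mp f c) :=
  lin_ext' (f := mp f ∘ₗ cons x) (g := cons (f x) ∘ₗ mp f) (fun l => by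
    rw [LinearMap.comp_apply, LinearMap.comp_apply, cons_one, mp_one, mp_one, cons_one]; rfl) c

theorem bd_mp (f : Y → Z) (c : Cn F Y) : bd (mp f c) = mp f (bd c) :=
  lin_ext' (f := bd ∘ₗ mp f) (g := mp f ∘ₗ bd) (fun l => by
    rw [LinearMap.comp_apply, LinearMap.comp_apply, mp_one]
    induction l with
    | nil => rw [List.map_nil, bd_nil, bd_nil, map_zero]
    | cons x l ih =>
      rw [List.map_cons, bd_one_cons, bd_one_cons, ih, map_sub, mp_one, mp_cons]) c

theorem mp_mp {V : Type} (g : Z → V) (f : Y → Z) (c : Cn F Y) : mp g (mp f c) = mp (g ∘ f) c :=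
  lin_ext' (f := mp g ∘ₗ mp f) (g := mp (g ∘ f)) (fun l => by
    rw [LinearMap.comp_apply, mp_one, mp_one, mp_one, List.map_map]) c

theorem mp_id (c : Cn F Y) : mp (fun y => y) c = c :=
  lin_ext' (f := mp fun y => y) (g := LinearMap.id) (fun l => by
    rw [mp_one, List.map_id']; rfl) c

/-- the prism operator on lists -/
noncomputable def prL (F : Type) [CommRing F] {Y Z : Type} (f g : Y → Z) : List Y → Cn F Z
  | [] => 0
  | x :: l => one F (f x :: g x :: l.map g) - cons (f x) (prL F f g l)

/-- the prism operator -/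
noncomputable def prism (f g : Y → Z) : Cn F Y →ₗ[F] Cn F Z := lift (prL F f g)

theorem prism_nil (f g : Y → Z) : prism f g (one F []) = 0 := by rw [prism, lift_one]; rfl

theorem prism_one_cons (f g : Y → Z) (x : Y) (l : List Y) : prism f g (one F (x :: l)) =
    one F (f x :: g x :: l.map g) - cons (f x) (prism f g (one F l)) := by
  rw [prism, lift_one, lift_one]; rfl

theorem prism_cons (f g : Y → Z) (x : Y) (c : Cn F Y) : prism f g (cons x c) =
    cons (f x) (cons (g x) (mp g c)) - cons (f x) (prism f g c) :=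
  lin_ext' (f := prism f g ∘ₗ cons x) (g := cons (f x) ∘ₗ cons (g x) ∘ₗ mp g -
    cons (f x) ∘ₗ prism f g) (fun l => by
    rw [LinearMap.comp_apply, cons_one, prism_one_cons, LinearMap.sub_apply, LinearMap.comp_apply,
      LinearMap.comp_apply, LinearMap.comp_apply, mp_one, cons_one, cons_one]) c

theorem bd_prism (f g : Y → Z) (c : Cn F Y) :
    bd (prism f g c) + prism f g (bd c) = mp g c - mp f c :=
  lin_ext' (f := bd ∘ₗ prism f g + prism f g ∘ₗ bd) (g := mp g - mp f) (fun l => by
    rw [LinearMap.add_apply, LinearMap.comp_apply, LinearMap.comp_apply, LinearMap.sub_apply]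
    induction l with
    | nil => rw [prism_nil, bd_nil, map_zero, map_zero, mp_one, mp_one, List.map_nil,
        List.map_nil, add_zero, sub_self]
    | cons x l ih =>
      rw [prism_one_cons, map_sub, bd_one_cons (f x), bd_one_cons (g x), bd_cons,
        bd_one_cons x, map_sub (prism (F := F) f g), prism_cons, mp_one, mp_one, List.map_cons,
        List.map_cons, map_sub (cons (F := F) (f x)), cons_one]
      have h1 : bd (one F (l.map g)) = mp g (bd (one F l)) := by rw [← mp_one, bd_mp]
      rw [h1]
      rw [mp_one, mp_one] at ih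
      have h2 := congrArg (cons (f x)) ih
      rw [map_add, map_sub, cons_one, cons_one] at h2
      rw [← sub_eq_zero] at h2 ⊢
      rw [← h2]
      abel) c

/-! ### supports -/

/-- chains whose lists have the property `Q` -/
def Sup (F : Type) [CommRing F] {Y : Type} (Q : List Y → Prop) : Submodule F (Cn F Y) :=
  Finsupp.supported F F {l | Q l}

theorem one_mem {Q : List Y → Prop} {l : List Y} (h : Q l) : one F l ∈ Sup F Q :=
  Finsupp.single_mem_supported F 1 h

theorem mem_of_mem {Q : List Y → Prop} {c : Cn F Y} (h : c ∈ Sup F Q) {l : List Y}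
    (hl : l ∈ c.support) : Q l := (Finsupp.mem_supported F c).1 h hl

theorem Sup_mono {Q Q' : List Y → Prop} (h : ∀ l, Q l → Q' l) {c : Cn F Y} (hc : c ∈ Sup F Q) :
    c ∈ Sup F Q' := Finsupp.supported_mono (fun l => h l) hc

/-- a linear map on a supported chain lands in a submodule if it does so on the lists -/
theorem map_mem {W : Type} [AddCommGroup W] [Module F W] {Q : List Y → Prop}
    (f : Cn F Y →ₗ[F] W) (S : Submodule F W) (h : ∀ l, Q l → f (one F l) ∈ S) {c : Cn F Y}
    (hc : c ∈ Sup F Q) : f c ∈ S := by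
  have h1 : c = c.sum fun l a => a • one F l := by
    conv_lhs => rw [← Finsupp.sum_single c]
    refine Finsupp.sum_congr fun l _ => ?_
    rw [one, Finsupp.smul_single, smul_eq_mul, mul_one]
  rw [h1, Finsupp.sum, map_sum]
  refine Submodule.sum_mem _ fun l hl => ?_
  rw [map_smul]
  exact Submodule.smul_mem _ _ (h l (mem_of_mem hc hl))

/-- two linear maps agree on a supported chain if they agree on the lists -/
theorem eq_on {W : Type} [AddCommGroup W] [Module F W] {Q : List Y → Prop}
    {f g : Cn F Y →ₗ[F] W} (h : ∀ l, Q l → f (one F l) = g (one F l)) {c : Cn F Y}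
    (hc : c ∈ Sup F Q) : f c = g c := by
  have h1 : (f - g) c ∈ (⊥ : Submodule F W) := map_mem (f - g) ⊥ (fun l hl => by
    rw [Submodule.mem_bot, LinearMap.sub_apply, h l hl, sub_self]) hc
  rwa [Submodule.mem_bot, LinearMap.sub_apply, sub_eq_zero] at h1

theorem cons_mem {Q Q' : List Y → Prop} {x : Y} (h : ∀ l, Q l → Q' (x :: l)) {c : Cn F Y}
    (hc : c ∈ Sup F Q) : cons x c ∈ Sup F Q' :=
  map_mem _ _ (fun l hl => by rw [cons_one]; exact one_mem (h l hl)) hc

theorem mp_mem {Q : List Y → Prop} {Q' : List Z → Prop} {f : Y → Z}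
    (h : ∀ l, Q l → Q' (l.map f)) {c : Cn F Y} (hc : c ∈ Sup F Q) : mp f c ∈ Sup F Q' :=
  map_mem _ _ (fun l hl => by rw [mp_one]; exact one_mem (h l hl)) hc

/-- the boundary of a list of length `n + 1` -/
theorem bd_one_mem (n : ℕ) {l : List Y} (hl : l.length = n + 1) :
    bd (one F l) ∈ Sup F fun m => m.length = n ∧ ∀ x ∈ m, x ∈ l := by
  induction l generalizing n with
  | nil => simp at hl
  | cons x l ih =>
    rw [bd_one_cons]
    have hl' : l.length = n := by simpa using hl
    refine sub_mem (one_mem ⟨hl', fun y hy => List.mem_cons_of_mem _ hy⟩) ?_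
    rcases n with _ | n
    · rw [List.length_eq_zero_iff] at hl'
      subst hl'
      rw [bd_nil, map_zero]; exact zero_mem _
    · refine cons_mem (fun m hm => ?_) (ih n hl')
      refine ⟨by simpa using hm.1, fun y hy => ?_⟩
      rcases List.mem_cons.1 hy with rfl | hy
      · exact List.mem_cons_self
      · exact List.mem_cons_of_mem _ (hm.2 y hy)

end chains

end Pool.Agent.DV.BUX
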