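import Pool.Agent.DV.BUA

/-!
# The Borsuk-Ulam theorem for `ℤ/p`: the cochains
-/

set_option autoImplicit false
set_option linter.unusedSectionVars false

namespace Pool.Agent.DV.BUX

variable {p : ℕ} [Fact p.Prime]

/-- `c(g,g') = [⟨g'⟩ < ⟨g⟩]` -/
def cc (g g' : ZMod p) : ZMod p := if g'.val < g.val then 1 else 0

/-- `a(g) = [g = -1]` -/
def aa (g : ZMod p) : ZMod p := if g = -1 then 1 else 0

/-- the 2-cocycle `δ c` -/
def be (g0 g1 g2 : ZMod p) : ZMod p := cc g0 g1 + cc g1 g2 - cc g0 g2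

theorem val_add_one' (g : ZMod p) : (g + 1).val = if g = -1 then 0 else g.val + 1 := by
  by_cases h : g = -1
  · rw [if_pos h, h, neg_add_cancel, ZMod.val_zero]
  · rw [if_neg h]
    have hp : 1 < p := (Fact.out : p.Prime).one_lt
    have : Fact (1 < p) := ⟨hp⟩
    have h1 : g.val + 1 < p := by
      have h2 := ZMod.val_lt g
      rcases Nat.lt_or_ge (g.val + 1) p with h3 | h3
      · exact h3
      · exfalso
        apply h
        have h4 : g.val + 1 = p := by omega
        have h5 : g + 1 = 0 := by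
          rw [← ZMod.natCast_zmod_val g]
          have := congrArg (fun n : ℕ => (n : ZMod p)) h4
          simpa using this
        exact eq_neg_of_add_eq_zero_left h5
    rw [ZMod.val_add, ZMod.val_one, Nat.mod_eq_of_lt h1]

theorem cc_add_one (g g' : ZMod p) : cc (g + 1) (g' + 1) - cc g g' = aa g' - aa g := by
  unfold cc aa
  rw [val_add_one', val_add_one']
  have hv : ∀ x : ZMod p, x ≠ -1 → x.val < (-1 : ZMod p).val := by
    intro x hx
    have h1 := val_add_one' x
    have hp : 1 < p := (Fact.out : p.Prime).one_lt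
    have : Fact (1 < p) := ⟨hp⟩
    rw [if_neg hx] at h1
    have h2 := ZMod.val_lt (x + 1)
    have h3 : (-1 : ZMod p).val = p - 1 := by
      have := val_add_one' (p := p) (-1 - 1 : ZMod p)
      rw [ZMod.val_neg_of_ne_zero, ZMod.val_one]
    omega
  by_cases h1 : g = -1 <;> by_cases h2 : g' = -1
  · subst h1 h2; simp
  · subst h1
    have := hv g' h2
    simp [h2, this]
  · subst h2
    have := hv g h1
    have h3 : ¬ (-1 : ZMod p).val < g.val := by omega
    simp [h1, h3]
  · simp [h1, h2]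

theorem be_add_one (g0 g1 g2 : ZMod p) : be (g0 + 1) (g1 + 1) (g2 + 1) = be g0 g1 g2 := by
  unfold be
  have h1 := cc_add_one g0 g1
  have h2 := cc_add_one g1 g2
  have h3 := cc_add_one g0 g2
  linear_combination h1 + h2 - h3

theorem sum_aa (g : ZMod p) : ∑ t : ZMod p, aa (g + t) = 1 := by
  unfold aa
  rw [Finset.sum_eq_single (-1 - g)]
  · simp
  · intro t _ ht
    rw [if_neg]
    intro h
    apply ht
    rw [← h]; ring
  · intro h; exact absurd (Finset.mem_univ _) h

/-- `Θ_{2i+1}` -/
def TO : ℕ → List (ZMod p) → ZMod p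
  | 0, g0 :: g1 :: _ => g1 - g0
  | i + 1, g0 :: g1 :: g2 :: l => be g0 g1 g2 * TO i (g2 :: l)
  | _, _ => 0

/-- `K_{2i+1}` -/
def KO (i : ℕ) : List (ZMod p) → ZMod p
  | g :: l => aa g * TO i (g :: l)
  | [] => 0

/-- `K_{2i}` -/
def KE : ℕ → List (ZMod p) → ZMod p
  | 0, g :: _ => g
  | i + 1, g0 :: g1 :: l => cc g0 g1 * TO i (g1 :: l)
  | _, _ => 0

/-- `Θ_{2i}` -/
def TE : ℕ → List (ZMod p) → ZMod p
  | 0, _ => 1
  | i + 1, g0 :: g1 :: l => (aa g1 - aa g0) * TO i (g1 :: l)
  | _, _ => 0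

/-- evaluation -/
noncomputable abbrev ev (u : List (ZMod p) → ZMod p) : Cn (ZMod p) (ZMod p) →ₗ[ZMod p] ZMod p :=
  lift u

theorem TO_zero (g0 g1 : ZMod p) (l : List (ZMod p)) : TO 0 (g0 :: g1 :: l) = g1 - g0 := rfl
theorem TO_succ (i : ℕ) (g0 g1 g2 : ZMod p) (l : List (ZMod p)) :
    TO (i + 1) (g0 :: g1 :: g2 :: l) = be g0 g1 g2 * TO i (g2 :: l) := rfl
theorem KO_cons (i : ℕ) (g : ZMod p) (l : List (ZMod p)) :
    KO i (g :: l) = aa g * TO i (g :: l) := rfl
theorem KE_succ (i : ℕ) (g0 g1 : ZMod p) (l : List (ZMod p)) :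
    KE (i + 1) (g0 :: g1 :: l) = cc g0 g1 * TO i (g1 :: l) := rfl
theorem TE_succ (i : ℕ) (g0 g1 : ZMod p) (l : List (ZMod p)) :
    TE (i + 1) (g0 :: g1 :: l) = (aa g1 - aa g0) * TO i (g1 :: l) := rfl

theorem ev_TO_cons (i : ℕ) (g0 g1 g2 : ZMod p) (c : Cn (ZMod p) (ZMod p)) :
    ev (TO (i + 1)) (cons g0 (cons g1 (cons g2 c))) = be g0 g1 g2 * ev (TO i) (cons g2 c) :=
  lin_ext' (f := ev (TO (i + 1)) ∘ₗ cons g0 ∘ₗ cons g1 ∘ₗ cons g2)
    (g := be g0 g1 g2 • (ev (TO i) ∘ₗ cons g2)) (fun l => by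
    simp only [LinearMap.comp_apply, LinearMap.smul_apply, cons_one, lift_one, smul_eq_mul]
    rfl) c

theorem ev_KO_cons (i : ℕ) (g : ZMod p) (c : Cn (ZMod p) (ZMod p)) :
    ev (KO i) (cons g c) = aa g * ev (TO i) (cons g c) :=
  lin_ext' (f := ev (KO i) ∘ₗ cons g)
    (g := aa g • (ev (TO i) ∘ₗ cons g)) (fun l => by
    simp only [LinearMap.comp_apply, LinearMap.smul_apply, cons_one, lift_one, smul_eq_mul]
    rfl) c

theorem ev_KE_cons (i : ℕ) (g0 g1 : ZMod p) (c : Cn (ZMod p) (ZMod p)) :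
    ev (KE (i + 1)) (cons g0 (cons g1 c)) = cc g0 g1 * ev (TO i) (cons g1 c) :=
  lin_ext' (f := ev (KE (i + 1)) ∘ₗ cons g0 ∘ₗ cons g1)
    (g := cc g0 g1 • (ev (TO i) ∘ₗ cons g1)) (fun l => by
    simp only [LinearMap.comp_apply, LinearMap.smul_apply, cons_one, lift_one, smul_eq_mul]
    rfl) c

theorem ev_one (u : List (ZMod p) → ZMod p) (l : List (ZMod p)) :
    ev u (one (ZMod p) l) = u l := lift_one _ _

/-- boundary of a list with at least two entries -/
theorem bd2 {Y : Type} (x y : Y) (l : List Y) : bd (one (ZMod p) (x :: y :: l)) =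
    one (ZMod p) (y :: l) - one (ZMod p) (x :: l) + cons x (cons y (bd (one (ZMod p) l))) := by
  rw [bd_one_cons, bd_one_cons, map_sub, cons_one]
  abel

/-- boundary of a list with at least three entries -/
theorem bd3 {Y : Type} (x y z : Y) (l : List Y) : bd (one (ZMod p) (x :: y :: z :: l)) =
    one (ZMod p) (y :: z :: l) - one (ZMod p) (x :: z :: l) + one (ZMod p) (x :: y :: l) -
      cons x (cons y (cons z (bd (one (ZMod p) l)))) := by
  rw [bd2, bd_one_cons, map_sub, map_sub, cons_one, cons_one]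
  abel

/-- `Θ_{2i+1}` is a cocycle -/
theorem cocyc (i : ℕ) : ∀ l : List (ZMod p), l.length = 2 * i + 3 →
    ev (TO i) (bd (one (ZMod p) l)) = 0 := by
  induction i with
  | zero =>
    intro l hl
    match l, hl with
    | [g0, g1, g2], _ =>
      rw [bd3, bd_nil, map_zero, map_zero, map_zero, sub_zero, map_add, map_sub, ev_one, ev_one,
        ev_one, TO_zero, TO_zero, TO_zero]
      ring
  | succ i ih =>
    intro l hl
    match l, hl with
    | g0 :: g1 :: g2 :: g3 :: m, hl =>
      have h1 := ih (g2 :: g3 :: m) (by simp at hl ⊢; omega)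
      rw [bd_one_cons, map_sub, ev_one] at h1
      rw [bd3, map_sub, map_add, map_sub, ev_one, ev_one, ev_one, ev_TO_cons, TO_succ, TO_succ,
        TO_succ, ← sub_eq_zero.1 h1]
      unfold be
      ring

theorem I0 (l : List (ZMod p)) (hl : l.length = 2) :
    ev (KE 0) (bd (one (ZMod p) l)) = TO 0 l := by
  match l, hl with
  | [g0, g1], _ =>
    rw [bd2, bd_nil, map_zero, map_zero, add_zero, map_sub, ev_one, ev_one]
    rfl

theorem I1 (i : ℕ) (l : List (ZMod p)) (hl : l.length = 2 * i + 3) :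
    ev (KO i) (bd (one (ZMod p) l)) = TE (i + 1) l := by
  have h1 := cocyc i l hl
  match l, hl with
  | g0 :: g1 :: m, hl =>
    rw [bd2, map_add, map_sub, ev_one, ev_one] at h1 ⊢
    rw [ev_KO_cons, KO_cons, KO_cons, TE_succ]
    linear_combination aa g0 * h1

theorem I2 (i : ℕ) (l : List (ZMod p)) (hl : l.length = 2 * i + 4) :
    ev (KE (i + 1)) (bd (one (ZMod p) l)) = TO (i + 1) l := by
  match l, hl with
  | g0 :: g1 :: g2 :: m, hl =>
    have h1 := cocyc i (g1 :: g2 :: m) (by simp at hl ⊢; omega)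
    rw [bd2, map_add, map_sub, ev_one, ev_one] at h1
    rw [bd3, map_sub, map_add, map_sub, ev_one, ev_one, ev_one, ev_KE_cons, KE_succ, KE_succ,
      KE_succ, TO_succ]
    unfold be
    linear_combination (-cc g0 g1) * h1

theorem TO_shift (i : ℕ) : ∀ l : List (ZMod p), TO i (l.map (· + 1)) = TO i l := by
  induction i with
  | zero =>
    intro l
    match l with
    | [] => rfl
    | [_] => rfl
    | g0 :: g1 :: m => simp [TO]
  | succ i ih =>
    intro l
    match l with
    | [] => rfl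
    | [_] => rfl
    | [_, _] => rfl
    | g0 :: g1 :: g2 :: m =>
      have h := ih (g2 :: m)
      rw [List.map_cons] at h
      rw [List.map_cons, List.map_cons, List.map_cons, TO_succ, TO_succ, be_add_one, h]

theorem TO_shift' (i : ℕ) (t : ZMod p) (l : List (ZMod p)) : TO i (l.map (· + t)) = TO i l := by
  have h : ∀ n : ℕ, TO i (l.map (· + (n : ZMod p))) = TO i l := by
    intro n
    induction n with
    | zero => simp
    | succ n ih =>
      have h1 : l.map (· + ((n + 1 : ℕ) : ZMod p)) =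
          (l.map (· + (n : ZMod p))).map (· + 1) := by
        rw [List.map_map]
        refine List.map_congr_left fun x _ => ?_
        simp [add_assoc]
      rw [h1, TO_shift, ih]
  have := h t.val
  rwa [ZMod.natCast_zmod_val] at this

theorem E0 (l : List (ZMod p)) (hl : l.length = 1) :
    KE 0 (l.map (· + 1)) - KE 0 l = TE 0 l := by
  match l, hl with
  | [g], _ => simp [KE, TE]

theorem E1 (i : ℕ) (l : List (ZMod p)) (hl : l.length = 2 * i + 3) :
    KE (i + 1) (l.map (· + 1)) - KE (i + 1) l = TE (i + 1) l := by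
  match l, hl with
  | g0 :: g1 :: m, _ =>
    have h := TO_shift i (g1 :: m)
    rw [List.map_cons] at h
    rw [List.map_cons, List.map_cons, KE_succ, KE_succ, TE_succ, h, ← cc_add_one]
    ring

theorem E2 (i : ℕ) (l : List (ZMod p)) (hl : l ≠ []) :
    ∑ t : ZMod p, KO i (l.map (· + t)) = TO i l := by
  match l, hl with
  | g :: m, _ =>
    have h : ∀ t : ZMod p, KO i ((g :: m).map (· + t)) = aa (g + t) * TO i (g :: m) := by
      intro t
      have h := TO_shift' i t (g :: m)
      rw [List.map_cons] at h ⊢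
      rw [KO_cons, h]
    rw [Finset.sum_congr rfl fun t _ => h t, ← Finset.sum_mul, sum_aa, one_mul]

/-! ### the resolution -/

/-- the differential of the periodic resolution: `T - 1` or the norm -/
noncomputable def rho {Y : Type} (act : ZMod p → Y → Y) (r : ℕ) :
    Cn (ZMod p) Y →ₗ[ZMod p] Cn (ZMod p) Y :=
  if r % 2 = 0 then mp (act 1) - LinearMap.id else ∑ t : ZMod p, mp (act t)

theorem rho_even {Y : Type} (act : ZMod p → Y → Y) {r : ℕ} (h : r % 2 = 0)
    (c : Cn (ZMod p) Y) : rho act r c = mp (act 1) c - c := by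
  simp [rho, h]

theorem rho_odd {Y : Type} (act : ZMod p → Y → Y) {r : ℕ} (h : r % 2 = 1)
    (c : Cn (ZMod p) Y) : rho act r c = ∑ t : ZMod p, mp (act t) c := by
  simp [rho, h, LinearMap.sum_apply]

/-- lists of length `r + 1` -/
abbrev Len {Y : Type} (n : ℕ) : List Y → Prop := fun l => l.length = n

/-- the evaluation of the last chain of an equivariant resolution is `1` -/
theorem alg_ev (M : ℕ) (d : ℕ → Cn (ZMod p) (ZMod p))
    (hl : ∀ r ≤ M, d r ∈ Sup (ZMod p) (Len (r + 1)))
    (h0 : bd (d 0) = one (ZMod p) [])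
    (hd : ∀ r < M, bd (d (r + 1)) = rho (fun t g => g + t) r (d r)) :
    ∀ i, (2 * i ≤ M → ev (TE i) (d (2 * i)) = 1) ∧
      (2 * i + 1 ≤ M → ev (TO i) (d (2 * i + 1)) = 1) := by
  -- even → odd
  have step1 : ∀ i, 2 * i + 1 ≤ M → ev (TO i) (d (2 * i + 1)) = ev (TE i) (d (2 * i)) := by
    intro i hi
    have h1 : ev (TO i) (d (2 * i + 1)) = ev (KE i) (bd (d (2 * i + 1))) := by
      refine eq_on (f := ev (TO i)) (g := ev (KE i) ∘ₗ bd) (fun l hl => ?_) (hl _ hi)
      rw [LinearMap.comp_apply, ev_one]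
      rcases i with _ | i
      · exact (I0 l hl).symm
      · exact (I2 i l (by simp only [Len] at hl; omega)).symm
    rw [h1, hd _ (by omega), rho_even _ (by omega), map_sub]
    have h2 : ev (KE i) (mp (fun g => g + 1) (d (2 * i))) - ev (KE i) (d (2 * i)) =
        ev (TE i) (d (2 * i)) := by
      refine eq_on (f := ev (KE i) ∘ₗ mp (fun g => g + 1) - ev (KE i)) (g := ev (TE i))
        (fun l hl => ?_) (hl (2 * i) (by omega))
      rw [LinearMap.sub_apply, LinearMap.comp_apply, mp_one, ev_one, ev_one, ev_one]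
      rcases i with _ | i
      · exact E0 l hl
      · exact E1 i l (by simp only [Len] at hl; omega)
    exact h2
  -- odd → even
  have step2 : ∀ i, 2 * i + 2 ≤ M → ev (TE (i + 1)) (d (2 * (i + 1))) =
      ev (TO i) (d (2 * i + 1)) := by
    intro i hi
    have h1 : ev (TE (i + 1)) (d (2 * (i + 1))) = ev (KO i) (bd (d (2 * (i + 1)))) := by
      refine eq_on (f := ev (TE (i + 1))) (g := ev (KO i) ∘ₗ bd) (fun l hl => ?_)
        (hl _ (by omega))
      rw [LinearMap.comp_apply, ev_one]
      exact (I1 i l (by simp only [Len] at hl; omega)).symm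
    have h3 : 2 * (i + 1) = (2 * i + 1) + 1 := by ring
    rw [h1, h3, hd _ (by omega), rho_odd _ (by omega), map_sum]
    have h5 : ev (TO i) (d (2 * i + 1)) =
        (∑ t : ZMod p, ev (KO i) ∘ₗ mp (fun g => g + t)) (d (2 * i + 1)) := by
      refine eq_on (fun l hl => ?_) (hl (2 * i + 1) (by omega))
      rw [LinearMap.sum_apply, ev_one]
      simp only [LinearMap.comp_apply, mp_one, ev_one]
      refine (E2 i l ?_).symm
      rintro rfl
      simp [Len] at hl
    rw [h5, LinearMap.sum_apply]; rfl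
  intro i
  induction i with
  | zero =>
    have hz : ev (TE 0) (d 0) = 1 := by
      have h1 : ev (TE 0) (d 0) =
          ev (fun l => if l = [] then 1 else 0) (bd (d 0)) := by
        refine eq_on (f := ev (TE 0)) (g := ev (fun l => if l = [] then 1 else 0) ∘ₗ bd)
          (fun l hl => ?_) (hl 0 (by omega))
        match l, hl with
        | [g], _ =>
          rw [LinearMap.comp_apply, bd_one_cons, bd_nil, map_zero, sub_zero, ev_one, ev_one]
          rfl
      rw [h1, h0, ev_one, if_pos rfl]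
    exact ⟨fun _ => hz, fun h => (step1 0 h).trans hz⟩
  | succ i ih =>
    have h2 : 2 * (i + 1) ≤ M → ev (TE (i + 1)) (d (2 * (i + 1))) = 1 := fun h => by
      rw [step2 i (by omega)]
      exact ih.2 (by omega)
    exact ⟨h2, fun h => by rw [step1 (i + 1) h]; exact h2 (by omega)⟩

theorem TO_ne (i : ℕ) : ∀ l : List (ZMod p), l.length = 2 * i + 2 → TO i l ≠ 0 →
    l.IsChain (· ≠ ·) := by
  induction i with
  | zero =>
    intro l hl h
    match l, hl with
    | [g0, g1], _ =>
      rw [TO_zero] at h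
      simpa using fun e => h (by rw [e, sub_self])
  | succ i ih =>
    intro l hl h
    match l, hl with
    | g0 :: g1 :: g2 :: m, hl =>
      rw [TO_succ] at h
      have h1 := ih (g2 :: m) (by simp at hl ⊢; omega) (right_ne_zero_of_mul h)
      have h2 := left_ne_zero_of_mul h
      rw [List.isChain_cons_cons, List.isChain_cons_cons]
      refine ⟨?_, ?_, h1⟩
      · rintro rfl
        apply h2; simp [be, cc]
      · rintro rfl
        apply h2; simp [be, cc]

theorem TE_ne (i : ℕ) (l : List (ZMod p)) (hl : l.length = 2 * i + 1) (h : TE i l ≠ 0) :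
    l.IsChain (· ≠ ·) := by
  rcases i with _ | i
  · match l, hl with
    | [g], _ => simp
  · match l, hl with
    | g0 :: g1 :: m, hl =>
      rw [TE_succ] at h
      have h1 := TO_ne i (g1 :: m) (by simp at hl ⊢; omega) (right_ne_zero_of_mul h)
      rw [List.isChain_cons_cons]
      refine ⟨?_, h1⟩
      rintro rfl
      apply left_ne_zero_of_mul h
      rw [sub_self]

/-- **the algebraic part**: the last chain contains a list without equal neighbours -/
theorem alg (M : ℕ) (d : ℕ → Cn (ZMod p) (ZMod p))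
    (hl : ∀ r ≤ M, d r ∈ Sup (ZMod p) (Len (r + 1)))
    (h0 : bd (d 0) = one (ZMod p) [])
    (hd : ∀ r < M, bd (d (r + 1)) = rho (fun t g => g + t) r (d r)) :
    ∃ l ∈ (d M).support, l.length = M + 1 ∧ l.IsChain (· ≠ ·) := by
  by_contra hcon
  push Not at hcon
  have hz : ∀ u : List (ZMod p) → ZMod p, (∀ l : List (ZMod p), l.length = M + 1 → u l ≠ 0 →
      l.IsChain (· ≠ ·)) → ev u (d M) = 0 := by
    intro u hu
    rw [ev, lift, Finsupp.linearCombination_apply, Finsupp.sum]
    refine Finset.sum_eq_zero fun l hl' => ?_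
    have h1 := mem_of_mem (hl M le_rfl) hl'
    by_contra h2
    exact hcon l hl' h1 (hu l h1 fun h3 => h2 (by rw [h3, smul_zero]))
  rcases Nat.even_or_odd' M with ⟨i, hi | hi⟩
  · have h1 := (alg_ev M d hl h0 hd i).1 hi.ge
    rw [← hi, hz _ fun l hl' => TE_ne i l (by omega)] at h1
    exact zero_ne_one h1
  · have h1 := (alg_ev M d hl h0 hd i).2 hi.ge
    rw [← hi, hz _ fun l hl' => TO_ne i l (by omega)] at h1
    exact zero_ne_one h1

end Pool.Agent.DV.BUX
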