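import Pool.Agent.DV.BUB

/-!
# The Borsuk-Ulam theorem for `ℤ/p`: the chain maps
-/

set_option autoImplicit false
set_option linter.unusedSectionVars false

namespace Pool.Agent.DV.BUX

variable {p : ℕ} [Fact p.Prime]

/-! ### the norm resolution -/

section res
variable {Y Z : Type} (act : ZMod p → Y → Y)

theorem bd_rho (r : ℕ) (c : Cn (ZMod p) Y) : bd (rho act r c) = rho act r (bd c) := by
  rcases Nat.mod_two_eq_zero_or_one r with h | h
  · rw [rho_even _ h, rho_even _ h, map_sub, bd_mp]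
  · rw [rho_odd _ h, rho_odd _ h, map_sum]
    exact Finset.sum_congr rfl fun t _ => bd_mp _ _

theorem rho_rho (hact : ∀ s t y, act s (act t y) = act (s + t) y) (r : ℕ)
    (c : Cn (ZMod p) Y) : rho act (r + 1) (rho act r c) = 0 := by
  rcases Nat.mod_two_eq_zero_or_one r with h | h
  · rw [rho_odd _ (by omega), rho_even _ h]
    have h1 : ∀ t : ZMod p, mp (act t) (mp (act 1) c - c) =
        mp (act (t + 1)) c - mp (act t) c := by
      intro t
      rw [map_sub, mp_mp]
      congr 2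
      exact congrArg mp (funext fun y => hact t 1 y)
    rw [Finset.sum_congr rfl fun t _ => h1 t, Finset.sum_sub_distrib,
      ← Equiv.sum_comp (Equiv.addRight (1 : ZMod p)) fun t => mp (act t) c]
    exact sub_self _
  · rw [rho_even _ (by omega), rho_odd _ h, map_sum]
    have h1 : ∀ t : ZMod p, mp (act 1) (mp (act t) c) = mp (act (1 + t)) c := by
      intro t
      rw [mp_mp]
      exact congrArg (fun f => mp f c) (funext fun y => hact 1 t y)
    rw [Finset.sum_congr rfl fun t _ => h1 t,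
      ← Equiv.sum_comp (Equiv.addLeft (1 : ZMod p)) fun t => mp (act t) c]
    exact sub_self _

theorem map_rho {f : Cn (ZMod p) Y →ₗ[ZMod p] Cn (ZMod p) Z} {act' : ZMod p → Z → Z}
    {c : Cn (ZMod p) Y} (h : ∀ t, f (mp (act t) c) = mp (act' t) (f c)) (r : ℕ) :
    f (rho act r c) = rho act' r (f c) := by
  rcases Nat.mod_two_eq_zero_or_one r with hr | hr
  · rw [rho_even _ hr, rho_even _ hr, map_sub, h]
  · rw [rho_odd _ hr, rho_odd _ hr, map_sum]
    exact Finset.sum_congr rfl fun t _ => h t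

end res

/-- the action of `ℤ/p` on itself -/
def tr (t g : ZMod p) : ZMod p := g + t

/-- the chains `e_r` -/
noncomputable def ee : ℕ → Cn (ZMod p) (ZMod p)
  | 0 => one _ [0]
  | r + 1 => cons 0 (rho tr r (ee r))

theorem rho_len {Y : Type} (act : ZMod p → Y → Y) (r n : ℕ) {c : Cn (ZMod p) Y}
    (hc : c ∈ Sup (ZMod p) (Len n)) : rho act r c ∈ Sup (ZMod p) (Len n) := by
  have h : ∀ t, mp (act t) c ∈ Sup (ZMod p) (Len n) := fun t =>
    mp_mem (fun l hl => by simpa [Len] using hl) hc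
  rcases Nat.mod_two_eq_zero_or_one r with hr | hr
  · rw [rho_even _ hr]; exact sub_mem (h 1) hc
  · rw [rho_odd _ hr]; exact Submodule.sum_mem _ fun t _ => h t

theorem ee_len (r : ℕ) : (ee r : Cn (ZMod p) (ZMod p)) ∈ Sup (ZMod p) (Len (r + 1)) := by
  induction r with
  | zero => exact one_mem rfl
  | succ r ih => exact cons_mem (fun l hl => by simpa [Len] using hl) (rho_len _ _ _ ih)

theorem bd_ee_zero : bd (ee 0 : Cn (ZMod p) (ZMod p)) = one _ [] := by
  rw [ee, bd_one_cons, bd_nil, map_zero, sub_zero]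

theorem ee_succ (r : ℕ) : (ee (r + 1) : Cn (ZMod p) (ZMod p)) = cons 0 (rho tr r (ee r)) := rfl

theorem bd_ee_succ (r : ℕ) : bd (ee (r + 1) : Cn (ZMod p) (ZMod p)) = rho tr r (ee r) := by
  induction r with
  | zero =>
    rw [ee_succ, bd_cons, bd_rho, bd_ee_zero, rho_even (r := 0) _ rfl (c := one _ []), mp_one]
    simp
  | succ r ih =>
    rw [ee_succ (r + 1), bd_cons, bd_rho, ih, rho_rho _ (fun s t y => by simp [tr]; ring),
      map_zero, sub_zero]

/-! ### iterated cones -/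

section cone
variable {Y Z : Type}

/-- the chain map given by contractions -/
noncomputable def Psi (κ : List Y → (Cn (ZMod p) Z →ₗ[ZMod p] Cn (ZMod p) Z)) :
    ℕ → (Cn (ZMod p) Y →ₗ[ZMod p] Cn (ZMod p) Z)
  | 0 => lift fun _ => one _ []
  | n + 1 => lift fun l => κ l (Psi κ n (bd (one _ l)))

variable {κ : List Y → (Cn (ZMod p) Z →ₗ[ZMod p] Cn (ZMod p) Z)}

theorem Psi_zero (l : List Y) : Psi κ 0 (one _ l) = one _ [] := lift_one _ _
theorem Psi_succ (n : ℕ) (l : List Y) :
    Psi κ (n + 1) (one _ l) = κ l (Psi κ n (bd (one _ l))) := lift_one _ _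

theorem bd_len (n : ℕ) {c : Cn (ZMod p) Y} (hc : c ∈ Sup (ZMod p) (Len (n + 1))) :
    bd c ∈ Sup (ZMod p) (Len n) :=
  map_mem bd _ (fun l hl => Sup_mono (fun m hm => hm.1) (bd_one_mem n hl)) hc

theorem bd_Psi (hκ : ∀ l c, bd (κ l c) + κ l (bd c) = c) (n : ℕ) :
    ∀ {c : Cn (ZMod p) Y}, c ∈ Sup (ZMod p) (Len (n + 1)) →
      bd (Psi κ (n + 1) c) = Psi κ n (bd c) := by
  induction n with
  | zero =>
    intro c hc
    refine eq_on (f := bd ∘ₗ Psi κ 1) (g := Psi κ 0 ∘ₗ bd) (fun l hl => ?_) hc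
    match l, hl with
    | [x], _ =>
      rw [LinearMap.comp_apply, LinearMap.comp_apply, Psi_succ, bd_one_cons, bd_nil, map_zero,
        sub_zero, Psi_zero]
      have h := hκ [x] (one _ [])
      rwa [bd_nil, map_zero, add_zero] at h
  | succ n ih =>
    intro c hc
    refine eq_on (f := bd ∘ₗ Psi κ (n + 2)) (g := Psi κ (n + 1) ∘ₗ bd) (fun l hl => ?_) hc
    rw [LinearMap.comp_apply, LinearMap.comp_apply, Psi_succ]
    have h := hκ l (Psi κ (n + 1) (bd (one _ l)))
    rwa [ih (bd_len _ (one_mem hl)), bd_bd, map_zero, map_zero, add_zero] at h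

theorem Psi_equi {s : Y → Y} {t : Z → Z} {Q : Y → Prop}
    (hκ : ∀ l : List Y, l ≠ [] → (∀ x ∈ l, Q x) → ∀ c, κ (l.map s) (mp t c) = mp t (κ l c))
    (n : ℕ) : ∀ {c : Cn (ZMod p) Y}, c ∈ Sup (ZMod p) (fun l => Len n l ∧ ∀ x ∈ l, Q x) →
      Psi κ n (mp s c) = mp t (Psi κ n c) := by
  induction n with
  | zero =>
    intro c hc
    refine eq_on (f := Psi κ 0 ∘ₗ mp s) (g := mp t ∘ₗ Psi κ 0) (fun l hl => ?_) hc
    rw [LinearMap.comp_apply, LinearMap.comp_apply, mp_one, Psi_zero, Psi_zero, mp_one]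
    rfl
  | succ n ih =>
    intro c hc
    refine eq_on (f := Psi κ (n + 1) ∘ₗ mp s) (g := mp t ∘ₗ Psi κ (n + 1)) (fun l hl => ?_) hc
    rw [LinearMap.comp_apply, LinearMap.comp_apply, mp_one, Psi_succ, Psi_succ, ← mp_one, bd_mp,
      ih, hκ l _ hl.2]
    · rintro rfl
      exact absurd hl.1 (by simp [Len])
    · exact Sup_mono (fun m hm => ⟨hm.1, fun x hx => hl.2 x (hm.2 x hx)⟩) (bd_one_mem n hl.1)

end cone

/-! ### contraction operators from homotopies -/

section homotopy
variable {X : Type}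

/-- the contraction given by the maps `f 0 = id`, …, `f m` and the vertex `v` -/
noncomputable def KK (f : ℕ → X → X) (m : ℕ) (v : X) :
    Cn (ZMod p) X →ₗ[ZMod p] Cn (ZMod p) X :=
  cons v ∘ₗ mp (f m) - ∑ j ∈ Finset.range m, prism (f j) (f (j + 1))

theorem KK_apply (f : ℕ → X → X) (m : ℕ) (v : X) (c : Cn (ZMod p) X) :
    KK f m v c = cons v (mp (f m) c) -
      ∑ j ∈ Finset.range m, prism (f j) (f (j + 1)) c := by
  rw [KK, LinearMap.sub_apply, LinearMap.sum_apply]; rfl

theorem bd_KK {f : ℕ → X → X} (m : ℕ) (v : X) (hf : f 0 = fun x => x) (c : Cn (ZMod p) X) :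
    bd (KK f m v c) + KK f m v (bd c) = c := by
  rw [KK_apply, KK_apply, map_sub, bd_cons, bd_mp, map_sum]
  have h1 : ∑ j ∈ Finset.range m, bd (prism (f j) (f (j + 1)) c) +
      ∑ j ∈ Finset.range m, prism (f j) (f (j + 1)) (bd c) = mp (f m) c - mp (f 0) c := by
    rw [← Finset.sum_add_distrib, ← Finset.sum_range_sub (fun j => mp (f j) c) m]
    exact Finset.sum_congr rfl fun j _ => bd_prism _ _ _
  have h2 : mp (f 0) c = c := by rw [hf, mp_id]
  rw [h2] at h1
  calc _ = mp (f m) c - (∑ j ∈ Finset.range m, bd (prism (f j) (f (j + 1)) c) +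
      ∑ j ∈ Finset.range m, prism (f j) (f (j + 1)) (bd c)) := by abel
    _ = c := by rw [h1, sub_sub_cancel]

theorem mp_prism {s f g f' g' : X → X} (h1 : ∀ x, s (f x) = f' (s x))
    (h2 : ∀ x, s (g x) = g' (s x)) (c : Cn (ZMod p) X) :
    mp s (prism f g c) = prism f' g' (mp s c) :=
  lin_ext' (f := mp s ∘ₗ prism f g) (g := prism f' g' ∘ₗ mp s) (fun l => by
    rw [LinearMap.comp_apply, LinearMap.comp_apply, mp_one]
    induction l with
    | nil => rw [prism_nil, List.map_nil, prism_nil, map_zero]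
    | cons x l ih =>
      rw [prism_one_cons, List.map_cons, prism_one_cons, map_sub, mp_one, mp_cons, ih, h1]
      congr 2
      rw [List.map_cons, List.map_cons, h1, h2, List.map_map, List.map_map]
      congr 2
      exact List.map_congr_left fun y _ => h2 y) c

theorem mp_KK {s : X → X} {f f' : ℕ → X → X} (m : ℕ) (v : X)
    (h : ∀ j x, s (f j x) = f' j (s x)) (c : Cn (ZMod p) X) :
    KK f' m (s v) (mp s c) = mp s (KK f m v c) := by
  rw [KK_apply, KK_apply, map_sub, mp_cons, mp_mp, mp_mp, map_sum]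
  congr 1
  · congr 2
    exact congrArg mp (funext fun x => (h m x).symm)
  · exact Finset.sum_congr rfl fun j _ => (mp_prism (h j) (h (j + 1)) c).symm

theorem prism_mem (f g : X → X) (l : List X) : prism f g (one (ZMod p) l) ∈
    Sup (ZMod p) fun m => m.length = l.length + 1 ∧ ∀ y ∈ m, ∃ x ∈ l, y = f x ∨ y = g x := by
  induction l with
  | nil => rw [prism_nil]; exact zero_mem _
  | cons x l ih =>
    rw [prism_one_cons]
    refine sub_mem (one_mem ⟨by simp, fun y hy => ?_⟩) (cons_mem (fun m hm => ?_) ih)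
    · rcases List.mem_cons.1 hy with rfl | hy
      · exact ⟨x, List.mem_cons_self, Or.inl rfl⟩
      rcases List.mem_cons.1 hy with rfl | hy
      · exact ⟨x, List.mem_cons_self, Or.inr rfl⟩
      obtain ⟨z, hz, rfl⟩ := List.mem_map.1 hy
      exact ⟨z, List.mem_cons_of_mem _ hz, Or.inr rfl⟩
    · refine ⟨by simp [hm.1], fun y hy => ?_⟩
      rcases List.mem_cons.1 hy with rfl | hy
      · exact ⟨x, List.mem_cons_self, Or.inl rfl⟩
      · obtain ⟨z, hz, h⟩ := hm.2 y hy
        exact ⟨z, List.mem_cons_of_mem _ hz, h⟩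

/-- supports under the contraction -/
theorem KK_mem {f : ℕ → X → X} {m : ℕ} {v : X} {Q : List X → Prop} {l : List X}
    (h1 : Q (v :: l.map (f m)))
    (h2 : ∀ j < m, ∀ l' : List X, (∀ y ∈ l', ∃ x ∈ l, y = f j x ∨ y = f (j + 1) x) → Q l') :
    KK f m v (one (ZMod p) l) ∈ Sup (ZMod p) fun m => m.length = l.length + 1 ∧ Q m := by
  rw [KK_apply, mp_one, cons_one]
  refine sub_mem (one_mem ⟨by simp, h1⟩) (Submodule.sum_mem _ fun j hj => ?_)
  exact Sup_mono (fun m hm => ⟨hm.1, h2 j (Finset.mem_range.1 hj) m hm.2⟩) (prism_mem _ _ l)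

end homotopy

/-! ### labels -/

section labels
variable {X : Type}

/-- the label of a list: the first label of minimal colour -/
def lab (lam : X → ℕ × ZMod p) : List X → ℕ × ZMod p
  | [] => (0, 0)
  | [x] => lam x
  | x :: y :: l => if (lam x).1 ≤ (lab lam (y :: l)).1 then lam x else lab lam (y :: l)

theorem lab_mem (lam : X → ℕ × ZMod p) : ∀ l : List X, l ≠ [] → ∃ x ∈ l, lab lam l = lam x
  | [], h => absurd rfl h
  | [x], _ => ⟨x, List.mem_cons_self, rfl⟩
  | x :: y :: l, _ => by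
    rw [lab]
    split_ifs
    · exact ⟨x, List.mem_cons_self, rfl⟩
    · obtain ⟨z, hz, h⟩ := lab_mem lam (y :: l) (by simp)
      exact ⟨z, List.mem_cons_of_mem _ hz, h⟩

theorem lab_le (lam : X → ℕ × ZMod p) : ∀ l : List X, ∀ x ∈ l, (lab lam l).1 ≤ (lam x).1
  | [], x, h => by simp at h
  | [x], y, h => by
    have : y = x := by simpa using h
    rw [this]; exact le_rfl
  | x :: y :: l, z, h => by
    rw [lab]
    split_ifs with h1
    · rcases List.mem_cons.1 h with rfl | h
      · exact le_rfl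
      · exact h1.trans (lab_le lam (y :: l) z h)
    · rcases List.mem_cons.1 h with rfl | h
      · exact (not_le.1 h1).le
      · exact lab_le lam (y :: l) z h

theorem lab_map (lam : X → ℕ × ZMod p) (s : X → X) (τ : ℕ × ZMod p → ℕ × ZMod p)
    (hτ : ∀ u, (τ u).1 = u.1) : ∀ l : List X, l ≠ [] → (∀ x ∈ l, lam (s x) = τ (lam x)) →
    lab lam (l.map s) = τ (lab lam l)
  | [], h, _ => absurd rfl h
  | [x], _, h => h x List.mem_cons_self
  | x :: y :: l, _, h => by
    have h1 := lab_map lam s τ hτ (y :: l) (by simp) fun z hz => h z (List.mem_cons_of_mem _ hz)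
    have h2 := h x List.mem_cons_self
    rw [List.map_cons] at h1
    rw [List.map_cons, List.map_cons, lab, lab, h1, h2, hτ, hτ]
    split_ifs <;> rfl

/-- the label map -/
noncomputable def Lam (lam : X → ℕ × ZMod p) (n : ℕ) :
    Cn (ZMod p) X →ₗ[ZMod p] Cn (ZMod p) (ℕ × ZMod p) := Psi (fun l => cons (lab lam l)) n

theorem bd_Lam (lam : X → ℕ × ZMod p) (n : ℕ) {c : Cn (ZMod p) X}
    (hc : c ∈ Sup (ZMod p) (Len (n + 1))) : bd (Lam lam (n + 1) c) = Lam lam n (bd c) :=
  bd_Psi (fun l c => by rw [bd_cons, sub_add_cancel]) n hc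

theorem Lam_mem (lam : X → ℕ × ZMod p) (n : ℕ) : ∀ l : List X, l.length = n →
    Lam lam n (one (ZMod p) l) ∈ Sup (ZMod p) fun m => m.length = n ∧
      (∀ u ∈ m, ∃ x ∈ l, u = lam x) ∧ m.Pairwise fun u u' => u.1 ≤ u'.1 := by
  induction n with
  | zero =>
    intro l hl
    rw [Lam, Psi_zero]
    exact one_mem ⟨rfl, by simp, List.Pairwise.nil⟩
  | succ n ih =>
    intro l hl
    rw [Lam, Psi_succ]
    have h1 : Psi (fun l => cons (lab lam l)) n (bd (one (ZMod p) l)) ∈
        Sup (ZMod p) fun m => m.length = n ∧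
      (∀ u ∈ m, ∃ x ∈ l, u = lam x) ∧ m.Pairwise fun u u' => u.1 ≤ u'.1 := by
      refine map_mem _ _ (fun l' hl' => ?_) (bd_one_mem n hl)
      refine Sup_mono (fun m hm => ⟨hm.1, fun u hu => ?_, hm.2.2⟩) (ih l' hl'.1)
      obtain ⟨x, hx, h⟩ := hm.2.1 u hu
      exact ⟨x, hl'.2 x hx, h⟩
    refine cons_mem (fun m hm => ?_) h1
    refine ⟨by simp [hm.1], fun u hu => ?_, List.pairwise_cons.2 ⟨fun u hu => ?_, hm.2.2⟩⟩
    · rcases List.mem_cons.1 hu with rfl | hu
      · exact lab_mem lam l (by rintro rfl; simp at hl)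
      · exact hm.2.1 u hu
    · obtain ⟨x, hx, rfl⟩ := hm.2.1 u hu
      exact lab_le lam l x hx

end labels

end Pool.Agent.DV.BUX
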