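import Pool.Agent.DV.BUC

/-!
# The Borsuk-Ulam theorem for `ℤ/p`: small chains on the sphere
-/

set_option autoImplicit false
set_option linter.unusedSectionVars false

namespace Pool.Agent.DV.BUX

variable {p : ℕ} [Fact p.Prime]

/-- points of the cube -/
abbrev XX (p : ℕ) : Type := ZMod p → unitInterval

/-- the shift by `t` -/
def shX (t : ZMod p) (z : XX p) : XX p := fun k => z (k + t)

/-- the vertices -/
def vt (g : ZMod p) : XX p := fun k => if k = -g then 1 else 0

/-- the homotopy -/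
noncomputable def FF (g : ZMod p) (s : ℝ) (z : XX p) : XX p := fun k =>
  if k = -g then max (z k) (Set.projIcc 0 1 zero_le_one s)
  else min (z k) (Set.projIcc 0 1 zero_le_one (2 - s))

theorem FF_zero (g : ZMod p) (z : XX p) : FF g 0 z = z := by
  funext k
  rw [FF]
  split_ifs
  · rw [Set.projIcc_of_le_left _ le_rfl]
    exact max_eq_left (z k).2.1
  · rw [Set.projIcc_of_right_le _ (by norm_num)]
    exact min_eq_left (z k).2.2

theorem FF_two (g : ZMod p) (z : XX p) : FF g 2 z = vt g := by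
  funext k
  rw [FF, vt]
  split_ifs
  · rw [Set.projIcc_of_right_le _ (by norm_num)]
    exact max_eq_right (z k).2.2
  · rw [Set.projIcc_of_le_left _ (by norm_num)]
    exact min_eq_right (z k).2.1

theorem shX_vt (t g : ZMod p) : shX t (vt g) = vt (g + t) := by
  funext k
  have h : (k + t = -g) ↔ (k = -(g + t)) := by
    constructor
    · intro h; linear_combination h
    · intro h; linear_combination h
  simp only [shX, vt, h]

theorem shX_FF (t g : ZMod p) (s : ℝ) (z : XX p) :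
    shX t (FF g s z) = FF (g + t) s (shX t z) := by
  funext k
  have h : (k + t = -g) ↔ (k = -(g + t)) := by
    constructor
    · intro h; linear_combination h
    · intro h; linear_combination h
  simp only [shX, FF, h]

/-- distances -/
theorem FF_dist (g : ZMod p) (s s' : ℝ) (z z' : XX p) (k : ZMod p) {δ : ℝ}
    (h1 : |(z k : ℝ) - z' k| ≤ δ) (h2 : |s - s'| ≤ δ) :
    |(FF g s z k : ℝ) - FF g s' z' k| ≤ δ := by
  rw [FF, FF]
  split_ifs
  · have h3 : |(Set.projIcc (0 : ℝ) 1 zero_le_one s : ℝ) - Set.projIcc (0 : ℝ) 1 zero_le_one s'| ≤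
        δ := (Set.abs_projIcc_sub_projIcc _).trans h2
    have h4 := abs_max_sub_max_le_max (z k : ℝ)
      (Set.projIcc (0 : ℝ) 1 zero_le_one s : ℝ) (z' k : ℝ)
      (Set.projIcc (0 : ℝ) 1 zero_le_one s' : ℝ)
    exact h4.trans (max_le h1 h3)
  · have h3 : |(Set.projIcc (0 : ℝ) 1 zero_le_one (2 - s) : ℝ) -
        Set.projIcc (0 : ℝ) 1 zero_le_one (2 - s')| ≤ δ := by
      refine (Set.abs_projIcc_sub_projIcc _).trans ?_
      rw [sub_sub_sub_cancel_left, abs_sub_comm]
      exact h2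
    have h4 := abs_min_sub_min_le_max (z k : ℝ)
      (Set.projIcc (0 : ℝ) 1 zero_le_one (2 - s) : ℝ) (z' k : ℝ)
      (Set.projIcc (0 : ℝ) 1 zero_le_one (2 - s') : ℝ)
    exact h4.trans (max_le h1 h3)

/-- the face of the sphere of a list -/
def EA (l : List (ZMod p)) (z : XX p) : Prop := (∀ k, -k ∉ l → z k = 0) ∧ ∃ k, z k = 1

theorem EA_FF {l : List (ZMod p)} {g : ZMod p} (hg : g ∈ l) {s : ℝ} {z : XX p} (hz : EA l z) :
    EA l (FF g s z) := by
  obtain ⟨h1, k0, hk0⟩ := hz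
  refine ⟨fun k hk => ?_, ?_⟩
  · have h : k ≠ -g := by
      rintro rfl
      exact hk (by simpa using hg)
    rw [FF, if_neg h, h1 k hk]
    exact min_eq_left (Set.projIcc (0 : ℝ) 1 zero_le_one (2 - s)).2.1
  · by_cases hk : k0 = -g
    · refine ⟨k0, ?_⟩
      rw [FF, if_pos hk, hk0]
      exact max_eq_left (Set.projIcc (0 : ℝ) 1 zero_le_one s).2.2
    · rcases le_total s 1 with hs | hs
      · refine ⟨k0, ?_⟩
        rw [FF, if_neg hk, hk0, Set.projIcc_of_right_le _ (by linarith)]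
        exact min_self _
      · refine ⟨-g, ?_⟩
        rw [FF, if_pos rfl, Set.projIcc_of_right_le _ hs]
        exact max_eq_right (z (-g)).2.2

theorem EA_vt {l : List (ZMod p)} {g : ZMod p} (hg : g ∈ l) : EA l (vt g) := by
  refine ⟨fun k hk => ?_, -g, by simp [vt]⟩
  have h : k ≠ -g := by
    rintro rfl
    exact hk (by simpa using hg)
  rw [vt, if_neg h]

/-- small lists in a face -/
def QQ (δ : ℝ) (l : List (ZMod p)) (m : List (XX p)) : Prop :=
  (∀ x ∈ m, EA l x) ∧ ∀ x ∈ m, ∀ y ∈ m, ∀ k, |(x k : ℝ) - y k| ≤ δ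

theorem QQ_mono {δ : ℝ} {l l' : List (ZMod p)} (h : ∀ x ∈ l, x ∈ l') {m : List (XX p)}
    (hm : QQ δ l m) : QQ δ l' m :=
  ⟨fun x hx => ⟨fun k hk => (hm.1 x hx).1 k fun h' => hk (h _ h'), (hm.1 x hx).2⟩, hm.2⟩

/-- the contraction of a face -/
noncomputable def kap (n : ℕ) (l : List (ZMod p)) :
    Cn (ZMod p) (XX p) →ₗ[ZMod p] Cn (ZMod p) (XX p) :=
  KK (fun j => FF (l.headD 0) ((j : ℝ) / n)) (2 * n) (vt (l.headD 0))

theorem bd_kap (n : ℕ) (l : List (ZMod p)) (c : Cn (ZMod p) (XX p)) :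
    bd (kap n l c) + kap n l (bd c) = c :=
  bd_KK _ _ (by
    funext z
    simp only [Nat.cast_zero, zero_div]
    exact FF_zero _ z) c

theorem kap_equi (n : ℕ) (t : ZMod p) (l : List (ZMod p)) (hl : l ≠ [])
    (c : Cn (ZMod p) (XX p)) : kap n (l.map (tr t)) (mp (shX t) c) = mp (shX t) (kap n l c) := by
  match l, hl with
  | g :: l, _ =>
    have h := mp_KK (s := shX t) (f := fun j => FF g ((j : ℝ) / n))
      (f' := fun j => FF (g + t) ((j : ℝ) / n)) (2 * n) (vt g)
      (fun j x => shX_FF t g _ x) c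
    rw [shX_vt] at h
    exact h

theorem kap_mem {n : ℕ} (hn : 0 < n) {δ : ℝ} (hδ : 1 / (n : ℝ) ≤ δ) {l : List (ZMod p)}
    (hl : l ≠ []) {m : List (XX p)} (hm : QQ δ l m) :
    kap n l (one (ZMod p) m) ∈ Sup (ZMod p) fun m' => m'.length = m.length + 1 ∧ QQ δ l m' := by
  have hn' : (0 : ℝ) < n := by exact_mod_cast hn
  have hδ0 : 0 ≤ δ := le_trans (by positivity) hδ
  have hg : l.headD 0 ∈ l := by
    match l, hl with
    | g :: l, _ => exact List.mem_cons_self
  refine KK_mem ?_ ?_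
  · have h2 : ∀ x ∈ vt (l.headD 0) :: m.map (FF (l.headD 0) (((2 * n : ℕ) : ℝ) / n)),
        x = vt (l.headD 0) := by
      intro x hx
      rcases List.mem_cons.1 hx with rfl | hx
      · rfl
      · obtain ⟨y, _, rfl⟩ := List.mem_map.1 hx
        have h3 : (((2 * n : ℕ) : ℝ) / n) = 2 := by
          push_cast; field_simp
        rw [h3]; exact FF_two _ _
    refine ⟨fun x hx => ?_, fun x hx y hy k => ?_⟩
    · rw [h2 x hx]; exact EA_vt hg
    · rw [h2 x hx, h2 y hy, sub_self, abs_zero]; exact hδ0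
  · intro j _ l' hl'
    have h3 : ∀ y ∈ l', ∃ x ∈ m, ∃ i : ℕ, (i = j ∨ i = j + 1) ∧
        y = FF (l.headD 0) ((i : ℝ) / n) x := by
      intro y hy
      obtain ⟨x, hx, h | h⟩ := hl' y hy
      · exact ⟨x, hx, j, Or.inl rfl, h⟩
      · exact ⟨x, hx, j + 1, Or.inr rfl, h⟩
    refine ⟨fun y hy => ?_, fun y hy y' hy' k => ?_⟩
    · obtain ⟨x, hx, i, _, rfl⟩ := h3 y hy
      exact EA_FF hg (hm.1 x hx)
    · obtain ⟨x, hx, i, hi, rfl⟩ := h3 y hy
      obtain ⟨x', hx', i', hi', rfl⟩ := h3 y' hy'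
      refine FF_dist _ _ _ _ _ _ (hm.2 x hx x' hx' k) (le_trans ?_ hδ)
      rw [← sub_div, abs_div, abs_of_pos hn']
      refine div_le_div_of_nonneg_right ?_ hn'.le
      rcases hi with rfl | rfl <;> rcases hi' with rfl | rfl <;> simp

/-- the chain map -/
noncomputable def Phi (p : ℕ) [Fact p.Prime] (n : ℕ) (r : ℕ) :
    Cn (ZMod p) (ZMod p) →ₗ[ZMod p] Cn (ZMod p) (XX p) := Psi (kap n) r

theorem Phi_mem {n : ℕ} (hn : 0 < n) {δ : ℝ} (hδ : 1 / (n : ℝ) ≤ δ) (r : ℕ) :
    ∀ l : List (ZMod p), l.length = r →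
      Phi p n r (one (ZMod p) l) ∈ Sup (ZMod p) fun m => m.length = r ∧ QQ δ l m := by
  induction r with
  | zero =>
    intro l hl
    rw [Phi, Psi_zero]
    exact one_mem ⟨rfl, by simp, by simp⟩
  | succ r ih =>
    intro l hl
    rw [Phi, Psi_succ]
    have h1 : Psi (kap n) r (bd (one (ZMod p) l)) ∈
        Sup (ZMod p) fun m => m.length = r ∧ QQ δ l m :=
      map_mem _ _ (fun l' hl' => Sup_mono (fun m hm => ⟨hm.1, QQ_mono hl'.2 hm.2⟩)
        (ih l' hl'.1)) (bd_one_mem r hl)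
    refine map_mem _ _ (fun m hm => ?_) h1
    refine Sup_mono (fun m' hm' => ?_) (kap_mem hn hδ (by rintro rfl; simp at hl) hm.2)
    exact ⟨by rw [hm'.1, hm.1], hm'.2⟩

/-- points of a proper face are points of the sphere -/
theorem EA_sphere {l : List (ZMod p)} (hl : l.length < p) {z : XX p} (hz : EA l z) :
    (∃ k, z k = 0) ∧ ∃ k, z k = 1 := by
  refine ⟨?_, hz.2⟩
  have h1 : ∃ g : ZMod p, g ∉ l := by
    by_contra h
    push Not at h
    have h2 : (Finset.univ : Finset (ZMod p)) ⊆ l.toFinset := fun g _ => by simpa using h g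
    have h3 := (Finset.card_le_card h2).trans l.toFinset_card_le
    rw [Finset.card_univ, ZMod.card] at h3
    omega
  obtain ⟨g, hg⟩ := h1
  exact ⟨-g, hz.1 _ (by simpa using hg)⟩

end Pool.Agent.DV.BUX
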