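import Pool.Agent.DV.Stmts

/-!
# BALS: the balance conditions as a coloured system
-/

set_option autoImplicit false

open Set Topology Filter MeasureTheory
open scoped ENNReal

namespace Pool.Agent.DV

/-- BALS. -/
theorem BALS_thm (h1 : Stmt_GAPP) (h2 : Stmt_GSYS) : Stmt_BALS := by
  classical
  intro p hp h16
  have hcard : Fintype.card (ZMod p) = p := ZMod.card p
  obtain ⟨S, hS⟩ : ∃ S : Finset ℕ, S = Finset.Icc 1 (p / 8) ∪ Finset.Icc (p - p / 8) (p - 1) :=
    ⟨_, rfl⟩
  have hmem : ∀ s, s ∈ S ↔ (1 ≤ s ∧ s ≤ p / 8) ∨ (p - p / 8 ≤ s ∧ s ≤ p - 1) := by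
    intro s
    rw [hS, Finset.mem_union, Finset.mem_Icc, Finset.mem_Icc]
  have hScard : S.card = 2 * (p / 8) := by
    rw [hS, Finset.card_union_of_disjoint, Nat.card_Icc, Nat.card_Icc]
    · omega
    · rw [Finset.disjoint_left]
      intro s hs hs'
      rw [Finset.mem_Icc] at hs hs'
      omega
  have hS1 : ∀ s ∈ S, 1 ≤ s ∧ s < p := by
    intro s hs
    rw [hmem] at hs
    omega
  obtain ⟨act, hact⟩ := h2 p S hS1
  have hsys := hact (fun z => z) (fun k => (continuous_apply k).continuousOn)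
    (fun z _ k => rfl)
  rw [hScard] at hsys
  refine ⟨{A : Finset (ZMod p) // A.card ∈ S}, inferInstance, act,
    fun A z => gap A.1 z, hsys, ?_⟩
  intro z hz hzero
  obtain ⟨hz01, ⟨k0, hk0⟩, k1, hk1⟩ := hz
  have hgap := (h1 (ZMod p)).2.2.1
  have key : ∀ A : Finset (ZMod p), (∀ k ∈ A, ∀ l, l ∉ A → z l < z k) → A.card ∉ S := by
    intro A hA hAS
    exact (hgap A z).mpr hA (hzero ⟨A, hAS⟩)
  constructor
  · obtain ⟨A, hA⟩ : ∃ A : Finset (ZMod p), A = Finset.univ.filter (fun k => z k = 1) := ⟨_, rfl⟩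
    have hAm : ∀ k, k ∈ A ↔ z k = 1 := by
      intro k
      rw [hA, Finset.mem_filter]
      exact ⟨fun h => h.2, fun h => ⟨Finset.mem_univ _, h⟩⟩
    have hne : A.Nonempty := ⟨k1, (hAm k1).mpr hk1⟩
    have hpos : 0 < A.card := hne.card_pos
    have hnS : A.card ∉ S := by
      apply key
      intro k hk l hl
      rw [hAm] at hk hl
      rw [hk]
      exact lt_of_le_of_ne (hz01 l).2 hl
    have hset : ({k | z k = 1} : Set (ZMod p)) = (A : Set (ZMod p)) := by
      ext k
      rw [Set.mem_ofPred_eq, Finset.mem_coe, hAm]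
    rw [hset, Set.ncard_coe_finset]
    rw [hmem] at hnS
    omega
  · obtain ⟨A, hA⟩ : ∃ A : Finset (ZMod p), A = Finset.univ.filter (fun k => z k ≠ 0) := ⟨_, rfl⟩
    have hAm : ∀ k, k ∈ A ↔ z k ≠ 0 := by
      intro k
      rw [hA, Finset.mem_filter]
      exact ⟨fun h => h.2, fun h => ⟨Finset.mem_univ _, h⟩⟩
    have hne : A ≠ Finset.univ := by
      intro h
      have : k0 ∈ A := by rw [h]; exact Finset.mem_univ _
      exact (hAm k0).mp this hk0
    have hlt : A.card < p := by
      have h := (Finset.card_lt_iff_ne_univ A).mpr hne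
      rwa [hcard] at h
    have hnS : A.card ∉ S := by
      apply key
      intro k hk l hl
      rw [hAm] at hk hl
      rw [not_not] at hl
      rw [hl]
      exact lt_of_le_of_ne (hz01 k).1 (Ne.symm hk)
    have hset : ({k | z k = 0} : Set (ZMod p)) = ((Aᶜ : Finset (ZMod p)) : Set (ZMod p)) := by
      ext k
      rw [Set.mem_ofPred_eq, Finset.mem_coe, Finset.mem_compl, hAm, not_not]
    rw [hset, Set.ncard_coe_finset, Finset.card_compl, hcard]
    rw [hmem] at hnS
    omega

end Pool.Agent.DV
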