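import Pool.Agent.DV.Stmts

/-!
# CNT: the number of weights whose tie point is in a given ball
-/

set_option autoImplicit false

open Set Topology Filter MeasureTheory
open scoped ENNReal

namespace Pool.Agent.DV

namespace CNT

/-- A set of natural numbers of diameter at most `L` has at most `L + 1` elements. -/
theorem card_le_diam (s : Finset ℕ) (L : ℝ) (hL : 0 ≤ L)
    (h : ∀ a ∈ s, ∀ b ∈ s, (b : ℝ) - a ≤ L) : (s.card : ℝ) ≤ L + 1 := by
  rcases s.eq_empty_or_nonempty with rfl | hs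
  · simp
    linarith
  · have h1 : s ⊆ Finset.Icc (s.min' hs) (s.max' hs) := fun a ha =>
      Finset.mem_Icc.2 ⟨s.min'_le a ha, s.le_max' a ha⟩
    have h2 := Finset.card_le_card h1
    rw [Nat.card_Icc] at h2
    have h3 := h _ (s.min'_mem hs) _ (s.max'_mem hs)
    have h4 : s.min' hs ≤ s.max' hs := s.min'_le _ (s.max'_mem hs)
    have h5 : ((s.max' hs + 1 - s.min' hs : ℕ) : ℝ) = (s.max' hs : ℝ) + 1 - s.min' hs := by
      rw [Nat.cast_sub (by omega)]
      push_cast
      ring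
    have h6 : (s.card : ℝ) ≤ ((s.max' hs + 1 - s.min' hs : ℕ) : ℝ) := by exact_mod_cast h2
    rw [h5] at h6
    linarith

open Classical in
/-- The values of one coordinate. -/
theorem card_values (R : ℕ) (hR : 0 < R) (K y δ : ℝ) (hK : 1 / 40 ≤ K) (hδ : 1 / (R : ℝ) ≤ δ) :
    ((Finset.univ.filter fun j : Fin R => |K * (1 + (j : ℕ) / R) - y| ≤ 3 * δ).card : ℝ) ≤
      241 * δ * R := by
  have hR' : (0 : ℝ) < R := by exact_mod_cast hR
  have hδR : 1 ≤ δ * R := by
    rw [div_le_iff₀ hR'] at hδ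
    exact hδ
  have hδ0 : 0 < δ := lt_of_lt_of_le (by positivity) hδ
  rw [← Finset.card_map Fin.valEmbedding]
  refine (card_le_diam _ (240 * δ * R) (by positivity) ?_).trans (by linarith)
  intro a ha b hb
  rw [Finset.mem_map] at ha hb
  obtain ⟨i, hi, rfl⟩ := ha
  obtain ⟨j, hj, rfl⟩ := hb
  rw [Finset.mem_filter] at hi hj
  have h1 := abs_le.1 hi.2
  have h2 := abs_le.1 hj.2
  show ((j : ℕ) : ℝ) - ((i : ℕ) : ℝ) ≤ 240 * δ * R
  have h3 : K * (((j : ℕ) : ℝ) / R - ((i : ℕ) : ℝ) / R) ≤ 6 * δ := by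
    have h4 : K * (((j : ℕ) : ℝ) / R - ((i : ℕ) : ℝ) / R) =
        (K * (1 + (j : ℕ) / R) - y) - (K * (1 + (i : ℕ) / R) - y) := by ring
    rw [h4]
    linarith [h2.2, h1.1]
  by_contra hcon
  push Not at hcon
  have h5 : 240 * δ < ((j : ℕ) : ℝ) / R - ((i : ℕ) : ℝ) / R := by
    rw [← sub_div, lt_div_iff₀ hR']
    exact hcon
  have h6 : (1 / 40) * (240 * δ) < K * (((j : ℕ) : ℝ) / R - ((i : ℕ) : ℝ) / R) := by
    have h7 : 0 < ((j : ℕ) : ℝ) / R - ((i : ℕ) : ℝ) / R := lt_trans (by positivity) h5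
    calc (1 / 40) * (240 * δ) < (1 / 40) * (((j : ℕ) : ℝ) / R - ((i : ℕ) : ℝ) / R) := by
          linarith
      _ ≤ K * (((j : ℕ) : ℝ) / R - ((i : ℕ) : ℝ) / R) := mul_le_mul_of_nonneg_right hK h7.le
  linarith

open Classical in
/-- The number of weights for a given scale and a given set of coordinates. -/
theorem card_fix {Ω : Type} [Fintype Ω] (p R : ℕ) (hR : 0 < R) (G : Finset Ω) (hG : p ≤ 16 * G.card)
    (y : Ω → ℝ) (K δ : ℝ) (hK : 1 / 40 ≤ K) (hδ : 1 / (R : ℝ) ≤ δ) (hδ1 : 241 * δ ≤ 1) :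
    ((Finset.univ.filter fun i : Ω → Fin R =>
      ∀ ω ∈ G, |K * (1 + (i ω : ℕ) / R) - y ω| ≤ 3 * δ).card : ℝ) ≤
      (241 * δ) ^ ((p : ℝ) / 16) * R ^ Fintype.card Ω := by
  have hR' : (0 : ℝ) < R := by exact_mod_cast hR
  have hδ0 : 0 < δ := lt_of_lt_of_le (by positivity) hδ
  let I : Ω → Finset (Fin R) := fun ω =>
    if ω ∈ G then Finset.univ.filter fun j : Fin R => |K * (1 + (j : ℕ) / R) - y ω| ≤ 3 * δ
    else Finset.univ
  have h1 : (Finset.univ.filter fun i : Ω → Fin R =>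
      ∀ ω ∈ G, |K * (1 + (i ω : ℕ) / R) - y ω| ≤ 3 * δ) ⊆ Fintype.piFinset I := by
    intro i hi
    rw [Finset.mem_filter] at hi
    rw [Fintype.mem_piFinset]
    intro ω
    show i ω ∈ if ω ∈ G then _ else _
    by_cases hω : ω ∈ G
    · rw [if_pos hω, Finset.mem_filter]
      exact ⟨Finset.mem_univ _, hi.2 ω hω⟩
    · rw [if_neg hω]
      exact Finset.mem_univ _
  have h2 := Finset.card_le_card h1
  rw [Fintype.card_piFinset] at h2
  have h3 : ∀ ω, ((I ω).card : ℝ) ≤ (if ω ∈ G then 241 * δ else 1) * R := by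
    intro ω
    by_cases hω : ω ∈ G
    · have e1 : I ω = Finset.univ.filter fun j : Fin R => |K * (1 + (j : ℕ) / R) - y ω| ≤ 3 * δ :=
        if_pos hω
      rw [e1, if_pos hω]
      exact card_values R hR K (y ω) δ hK hδ
    · have e1 : I ω = Finset.univ := if_neg hω
      rw [e1, if_neg hω, Finset.card_univ, Fintype.card_fin, one_mul]
  have h4 : ((∏ ω, (I ω).card : ℕ) : ℝ) ≤ ∏ ω, ((if ω ∈ G then 241 * δ else 1) * (R : ℝ)) := by
    push_cast
    exact Finset.prod_le_prod (fun ω _ => Nat.cast_nonneg _) fun ω _ => h3 ω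
  have h5 : ∏ ω, ((if ω ∈ G then 241 * δ else 1) * (R : ℝ)) =
      (241 * δ) ^ G.card * R ^ Fintype.card Ω := by
    rw [Finset.prod_mul_distrib, Finset.prod_const, Finset.card_univ, Finset.prod_ite_mem,
      Finset.univ_inter, Finset.prod_const]
  have h6 : (241 * δ) ^ G.card ≤ (241 * δ) ^ ((p : ℝ) / 16) := by
    rw [← Real.rpow_natCast]
    refine Real.rpow_le_rpow_of_exponent_ge (by positivity) hδ1 ?_
    have h7 : (p : ℝ) ≤ 16 * G.card := by exact_mod_cast hG
    linarith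
  calc ((Finset.univ.filter fun i : Ω → Fin R =>
      ∀ ω ∈ G, |K * (1 + (i ω : ℕ) / R) - y ω| ≤ 3 * δ).card : ℝ)
      ≤ ((∏ ω, (I ω).card : ℕ) : ℝ) := by exact_mod_cast h2
    _ ≤ (241 * δ) ^ G.card * R ^ Fintype.card Ω := by rw [← h5]; exact h4
    _ ≤ _ := mul_le_mul_of_nonneg_right h6 (by positivity)

end CNT

/-- **CNT** -/
theorem CNT_thm : Stmt_CNT := by
  classical
  intro p R Ω _ f hp hR hΩ hf y δ hδ hδ1
  have hR' : (0 : ℝ) < R := by exact_mod_cast hR
  have hp' : (0 : ℝ) < p := by exact_mod_cast hp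
  have hδ0 : 0 < δ := lt_of_lt_of_le (by positivity) hδ
  have hset : {i : Ω → Fin R | 20 * {ω | δ ≤ |f i ω - y ω|}.ncard ≤ p}.ncard =
      (Finset.univ.filter fun i : Ω → Fin R =>
        20 * {ω | δ ≤ |f i ω - y ω|}.ncard ≤ p).card := by
    rw [← Set.ncard_coe_finset]
    congr 1
    ext i
    simp
  rw [hset]
  by_cases h241 : 241 * δ ≤ 1
  · -- the main case
    have hcov : (Finset.univ.filter fun i : Ω → Fin R =>
        20 * {ω | δ ≤ |f i ω - y ω|}.ncard ≤ p) ⊆
        ((Finset.range (⌊(p : ℝ) / δ⌋₊ + 1)).filter fun k : ℕ => 1 / 40 ≤ (k : ℝ) * δ).biUnion fun k =>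
          ((Finset.univ : Finset (Finset Ω)).filter fun G => p ≤ 16 * G.card).biUnion fun G =>
            Finset.univ.filter fun i : Ω → Fin R =>
              ∀ ω ∈ G, |(k : ℝ) * δ * (1 + (i ω : ℕ) / R) - y ω| ≤ 3 * δ := by
      intro i hi
      rw [Finset.mem_filter] at hi
      obtain ⟨τ, S, hS, hτ, hτp, hτf⟩ := hf i
      have hτ0 : 0 ≤ τ := by linarith
      have hk1 : ((⌊τ / δ⌋₊ : ℕ) : ℝ) ≤ τ / δ := Nat.floor_le (by positivity)
      have hk2 : τ / δ < (⌊τ / δ⌋₊ : ℕ) + 1 := Nat.lt_floor_add_one _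
      have hk3 : ((⌊τ / δ⌋₊ : ℕ) : ℝ) * δ ≤ τ := by
        rw [le_div_iff₀ hδ0] at hk1
        exact hk1
      have hk4 : τ < ((⌊τ / δ⌋₊ : ℕ) : ℝ) * δ + δ := by
        rw [div_lt_iff₀ hδ0] at hk2
        linarith
      rw [Finset.mem_biUnion]
      refine ⟨⌊τ / δ⌋₊, ?_, ?_⟩
      · rw [Finset.mem_filter, Finset.mem_range]
        constructor
        · exact Nat.lt_succ_of_le (Nat.floor_le_floor (div_le_div_of_nonneg_right hτp hδ0.le))
        · linarith
      · rw [Finset.mem_biUnion]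
        refine ⟨S.filter fun ω => |f i ω - y ω| < δ, ?_, ?_⟩
        · rw [Finset.mem_filter]
          refine ⟨Finset.mem_univ _, ?_⟩
          have e1 : {ω | δ ≤ |f i ω - y ω|}.ncard =
              (Finset.univ.filter fun ω => δ ≤ |f i ω - y ω|).card := by
            rw [← Set.ncard_coe_finset]
            congr 1
            ext ω
            simp
          have e2 : (S.filter fun ω => ¬ |f i ω - y ω| < δ).card ≤
              (Finset.univ.filter fun ω => δ ≤ |f i ω - y ω|).card := by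
            refine Finset.card_le_card fun ω hω => ?_
            rw [Finset.mem_filter] at hω ⊢
            exact ⟨Finset.mem_univ _, not_lt.1 hω.2⟩
          have e3 := Finset.card_filter_add_card_filter_not (s := S)
            (fun ω => |f i ω - y ω| < δ)
          have e4 := hi.2
          rw [e1] at e4
          omega
        · rw [Finset.mem_filter]
          refine ⟨Finset.mem_univ _, fun ω hω => ?_⟩
          rw [Finset.mem_filter] at hω
          have h1 := hω.2
          rw [hτf ω hω.1] at h1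
          have h2 := abs_lt.1 h1
          have h3 : (0 : ℝ) ≤ (i ω : ℕ) / R := by positivity
          have h4 : ((i ω : ℕ) : ℝ) / R ≤ 1 := by
            rw [div_le_one hR']
            exact_mod_cast (i ω).2.le
          have h5 : (τ - ((⌊τ / δ⌋₊ : ℕ) : ℝ) * δ) * (1 + (i ω : ℕ) / R) ≤ 2 * δ := by
            have h6 : (τ - ((⌊τ / δ⌋₊ : ℕ) : ℝ) * δ) * (1 + (i ω : ℕ) / R) ≤ δ * 2 :=
              mul_le_mul (by linarith) (by linarith) (by linarith) hδ0.le
            linarith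
          have h6 : 0 ≤ (τ - ((⌊τ / δ⌋₊ : ℕ) : ℝ) * δ) * (1 + (i ω : ℕ) / R) :=
            mul_nonneg (by linarith) (by linarith)
          have h7 : ((⌊τ / δ⌋₊ : ℕ) : ℝ) * δ * (1 + (i ω : ℕ) / R) - y ω =
              (τ * (1 + (i ω : ℕ) / R) - y ω) -
                (τ - ((⌊τ / δ⌋₊ : ℕ) : ℝ) * δ) * (1 + (i ω : ℕ) / R) := by ring
          rw [h7, abs_le]
          constructor
          · linarith [h2.1]
          · linarith [h2.2]
    have hB : (0 : ℝ) ≤ (241 * δ) ^ ((p : ℝ) / 16) * R ^ Fintype.card Ω := by positivity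
    have h1 : ∀ k ∈ ((Finset.range (⌊(p : ℝ) / δ⌋₊ + 1)).filter fun k : ℕ => 1 / 40 ≤ (k : ℝ) * δ),
        (((((Finset.univ : Finset (Finset Ω)).filter fun G => p ≤ 16 * G.card).biUnion fun G =>
            Finset.univ.filter fun i : Ω → Fin R =>
              ∀ ω ∈ G, |(k : ℝ) * δ * (1 + (i ω : ℕ) / R) - y ω| ≤ 3 * δ).card : ℕ) : ℝ) ≤
          2 ^ p * ((241 * δ) ^ ((p : ℝ) / 16) * R ^ Fintype.card Ω) := by
      intro k hk
      rw [Finset.mem_filter] at hk
      refine (Nat.cast_le.2 Finset.card_biUnion_le).trans ?_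
      rw [Nat.cast_sum]
      refine (Finset.sum_le_card_nsmul _ _ _ fun G hG =>
        CNT.card_fix p R hR G (Finset.mem_filter.1 hG).2 y _ δ hk.2 hδ h241).trans ?_
      rw [nsmul_eq_mul]
      refine mul_le_mul_of_nonneg_right ?_ hB
      have h2 : ((Finset.univ : Finset (Finset Ω)).filter fun G => p ≤ 16 * G.card).card ≤
          2 ^ p := by
        refine (Finset.card_filter_le _ _).trans ?_
        rw [Finset.card_univ, Fintype.card_finset]
        exact Nat.pow_le_pow_right (by norm_num) hΩ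
      exact_mod_cast h2
    have h2 := Finset.card_le_card hcov
    have h3 : ((Finset.univ.filter fun i : Ω → Fin R =>
        20 * {ω | δ ≤ |f i ω - y ω|}.ncard ≤ p).card : ℝ) ≤
        ((⌊(p : ℝ) / δ⌋₊ + 1 : ℕ) : ℝ) *
          (2 ^ p * ((241 * δ) ^ ((p : ℝ) / 16) * R ^ Fintype.card Ω)) := by
      refine (Nat.cast_le.2 (h2.trans Finset.card_biUnion_le)).trans ?_
      rw [Nat.cast_sum]
      refine (Finset.sum_le_card_nsmul _ _ _ h1).trans ?_
      rw [nsmul_eq_mul]
      refine mul_le_mul_of_nonneg_right ?_ (by positivity)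
      have h4 := Finset.card_filter_le (Finset.range (⌊(p : ℝ) / δ⌋₊ + 1))
        (fun k : ℕ => 1 / 40 ≤ (k : ℝ) * δ)
      rw [Finset.card_range] at h4
      exact_mod_cast h4
    refine h3.trans ?_
    have h5 : ((⌊(p : ℝ) / δ⌋₊ + 1 : ℕ) : ℝ) ≤ p / δ + 2 := by
      have h6 := Nat.floor_le (show 0 ≤ (p : ℝ) / δ by positivity)
      push_cast
      linarith
    calc ((⌊(p : ℝ) / δ⌋₊ + 1 : ℕ) : ℝ) *
          (2 ^ p * ((241 * δ) ^ ((p : ℝ) / 16) * R ^ Fintype.card Ω))
        ≤ (p / δ + 2) * (2 ^ p * ((241 * δ) ^ ((p : ℝ) / 16) * R ^ Fintype.card Ω)) :=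
          mul_le_mul_of_nonneg_right h5 (by positivity)
      _ = _ := by ring
  · -- the trivial case
    push Not at h241
    have h1 : (Finset.univ.filter fun i : Ω → Fin R =>
        20 * {ω | δ ≤ |f i ω - y ω|}.ncard ≤ p).card ≤ R ^ Fintype.card Ω := by
      refine (Finset.card_filter_le _ _).trans ?_
      rw [Finset.card_univ, Fintype.card_fun, Fintype.card_fin]
    have h2 : ((Finset.univ.filter fun i : Ω → Fin R =>
        20 * {ω | δ ≤ |f i ω - y ω|}.ncard ≤ p).card : ℝ) ≤ (R : ℝ) ^ Fintype.card Ω := by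
      exact_mod_cast h1
    have h3 : (1 : ℝ) ≤ (p / δ + 2) * 2 ^ p * (241 * δ) ^ ((p : ℝ) / 16) := by
      have e1 : (1 : ℝ) ≤ p / δ + 2 := by
        have : 0 ≤ (p : ℝ) / δ := by positivity
        linarith
      have e2 : (1 : ℝ) ≤ 2 ^ p := one_le_pow₀ (by norm_num)
      have e3 : (1 : ℝ) ≤ (241 * δ) ^ ((p : ℝ) / 16) :=
        Real.one_le_rpow h241.le (by positivity)
      exact one_le_mul_of_one_le_of_one_le (one_le_mul_of_one_le_of_one_le e1 e2) e3
    refine h2.trans ?_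
    exact le_mul_of_one_le_left (by positivity) h3

end Pool.Agent.DV
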