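import Pool.Agent.DV.Stmts

/-!
# CODE: the lower bound for codes, for one `p`
-/

set_option autoImplicit false

open Set Topology Filter MeasureTheory
open scoped ENNReal

namespace Pool.Agent.DV

namespace Code

/-- A sum over blocks. -/
theorem sum_blocks (N L : ℕ) (G : ℕ → ℝ) :
    ∑ k ∈ Finset.range (N * L), G k =
      ∑ l : Fin L, ∑ k : Fin N, G (N * (l : ℕ) + (k : ℕ)) := by
  induction L with
  | zero => simp
  | succ L ih =>
    rw [Fin.sum_univ_castSucc, Nat.mul_succ, Finset.sum_range_add, ih]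
    congr 1
    rw [Finset.sum_range]
    rfl

theorem sum_fiber {ι : Type} [Fintype ι] {m : ℕ} (c : ι → Fin m) (G : Fin m → ℝ) :
    (∑ i, G (c i)) / Fintype.card ι =
      ∑ b, (({i | c i = b}.ncard : ℝ) / Fintype.card ι) * G b := by
  classical
  have h1 : ∑ i, G (c i) = ∑ b, ({i | c i = b}.ncard : ℝ) * G b := by
    rw [← Finset.sum_fiberwise Finset.univ c (fun i => G (c i))]
    refine Finset.sum_congr rfl fun b _ => ?_
    have h2 : ∑ i with c i = b, G (c i) = ∑ i with c i = b, G b := by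
      refine Finset.sum_congr rfl fun i hi => ?_
      rw [(Finset.mem_filter.1 hi).2]
    rw [h2, Finset.sum_const, nsmul_eq_mul]
    congr 2
    rw [Set.ncard_eq_toFinset_card', Set.toFinset_ofPred]
  rw [h1, Finset.sum_div]
  exact Finset.sum_congr rfl fun b _ => by ring

theorem iter_x {X ι : Type} {T : X → X} {x : ι → X} {e : ι ≃ ι} (h : ∀ i, x (e i) = T (x i))
    (N : ℕ) (i : ι) : x ((e ^ N : Equiv.Perm ι) i) = T^[N] (x i) := by
  induction N generalizing i with
  | zero => rfl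
  | succ N ih =>
    rw [pow_succ, Equiv.Perm.mul_apply, ih, h, Function.iterate_succ_apply]

theorem iter_x' {X ι : Type} {T : X → X} {x : ι → X} {e : ι ≃ ι} (h : ∀ i, x (e i) = T (x i))
    (N l : ℕ) (i : ι) : x ((e ^ N : Equiv.Perm ι)^[l] i) = T^[N * l] (x i) := by
  rw [← Equiv.Perm.coe_pow, ← pow_mul]
  exact iter_x h (N * l) i

end Code

theorem CODE_thm (h : Stmt_INFO) : Stmt_CODE := by
  classical
  intro X T d β K Δ p N m n f y q Q D a r hN hNp ha hr hr1 hK hd hq hq1 hQ hQ1 hqQ hD ι _ _ x e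
    hx hball
  have hL : 0 < p / N := Nat.div_pos hNp hN
  have hcard : (0 : ℝ) < Fintype.card ι := by exact_mod_cast Fintype.card_pos
  obtain ⟨i0⟩ : Nonempty ι := inferInstance
  have hΔ : 0 ≤ Δ := (hd (x i0) (x i0)).1.trans (hd (x i0) (x i0)).2
  have key := h ι (Fin n) (e ^ N : Equiv.Perm ι) (p / N) (fun i => q (f (x i))) Q
    (fun i b => a * D (f (x i)) b)
    (Real.exp (a * N * Δ) * (K ^ p * r ^ (β * p) + Real.exp (-(a * p * r)))) hL
    (fun i b => hq _ b) (fun i => hq1 _) hQ hQ1 (fun i b => hqQ _ b) ?_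
  · refine key.trans (le_of_eq ?_)
    have h1 := Code.sum_fiber (fun i => f (x i))
      (fun c => ∑ b, (q c b * Real.log (q c b / Q b) + a * q c b * D c b))
    rw [← h1]
    congr 1
    refine Finset.sum_congr rfl fun i _ => Finset.sum_congr rfl fun b _ => ?_
    ring
  · intro b
    obtain ⟨Y, hY⟩ : ∃ Y : ℕ → X, ∀ (l : Fin (p / N)) (k : Fin N),
        Y (N * (l : ℕ) + (k : ℕ)) = y (b l) k := by
      refine ⟨fun j => if hj : j / N < p / N then y (b ⟨j / N, hj⟩) ⟨j % N, Nat.mod_lt _ hN⟩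
        else x i0, fun l k => ?_⟩
      have h1 : (N * (l : ℕ) + (k : ℕ)) / N = l := by
        rw [Nat.mul_add_div hN, Nat.div_eq_of_lt k.2, add_zero]
      have h2 : (N * (l : ℕ) + (k : ℕ)) % N = k := by
        rw [Nat.mul_add_mod, Nat.mod_eq_of_lt k.2]
      have h3 : (N * (l : ℕ) + (k : ℕ)) / N < p / N := by
        rw [h1]
        exact l.2
      show (if hj : (N * (l : ℕ) + (k : ℕ)) / N < p / N then
        y (b ⟨(N * (l : ℕ) + (k : ℕ)) / N, hj⟩) ⟨(N * (l : ℕ) + (k : ℕ)) % N, Nat.mod_lt _ hN⟩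
        else x i0) = y (b l) k
      rw [dif_pos h3]
      have h4 : (⟨(N * (l : ℕ) + (k : ℕ)) / N, h3⟩ : Fin (p / N)) = l := Fin.ext h1
      have h5 : (⟨(N * (l : ℕ) + (k : ℕ)) % N, Nat.mod_lt _ hN⟩ : Fin N) = k := Fin.ext h2
      rw [h4, h5]
    have hsum : ∀ i, ∑ k ∈ Finset.range p, d (T^[k] (x i)) (Y k) - N * Δ ≤
        ∑ l : Fin (p / N), D (f (x ((e ^ N : Equiv.Perm ι)^[(l : ℕ)] i))) (b l) := by
      intro i
      have h1 : ∑ k ∈ Finset.range (N * (p / N)), d (T^[k] (x i)) (Y k) ≤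
          ∑ l : Fin (p / N), D (f (x ((e ^ N : Equiv.Perm ι)^[(l : ℕ)] i))) (b l) := by
        rw [Code.sum_blocks]
        refine Finset.sum_le_sum fun l _ => ?_
        refine le_trans (le_of_eq ?_) (hD (x ((e ^ N : Equiv.Perm ι)^[(l : ℕ)] i)) (b l))
        refine Finset.sum_congr rfl fun k _ => ?_
        rw [hY, Code.iter_x' hx, ← Function.iterate_add_apply, add_comm]
      have h2 : p = N * (p / N) + p % N := (Nat.div_add_mod p N).symm
      have h3 : ∑ k ∈ Finset.range p, d (T^[k] (x i)) (Y k) =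
          ∑ k ∈ Finset.range (N * (p / N)), d (T^[k] (x i)) (Y k) +
          ∑ k ∈ Finset.range (p % N), d (T^[N * (p / N) + k] (x i)) (Y (N * (p / N) + k)) := by
        conv_lhs => rw [h2]
        exact Finset.sum_range_add _ _ _
      have h4 : ∑ k ∈ Finset.range (p % N), d (T^[N * (p / N) + k] (x i)) (Y (N * (p / N) + k)) ≤
          N * Δ := by
        refine (Finset.sum_le_card_nsmul _ _ Δ fun k _ => (hd _ _).2).trans ?_
        rw [Finset.card_range, nsmul_eq_mul]
        have h5 : ((p % N : ℕ) : ℝ) ≤ N := by exact_mod_cast (Nat.mod_lt p hN).le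
        exact mul_le_mul_of_nonneg_right h5 hΔ
      rw [h3]
      linarith
    have hA : ∀ i, 0 ≤ ∑ k ∈ Finset.range p, d (T^[k] (x i)) (Y k) :=
      fun i => Finset.sum_nonneg fun k _ => (hd _ _).1
    have hterm : ∀ i, Real.exp (-∑ l : Fin (p / N),
        a * D (f (x ((e ^ N : Equiv.Perm ι)^[(l : ℕ)] i))) (b l)) ≤
        Real.exp (a * N * Δ) * ((if ∑ k ∈ Finset.range p, d (T^[k] (x i)) (Y k) ≤ p * r
          then 1 else 0) + Real.exp (-(a * p * r))) := by
      intro i
      rw [← Finset.mul_sum]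
      have h1 : Real.exp (-(a * ∑ l : Fin (p / N),
          D (f (x ((e ^ N : Equiv.Perm ι)^[(l : ℕ)] i))) (b l))) ≤
          Real.exp (a * N * Δ) * Real.exp (-(a * ∑ k ∈ Finset.range p, d (T^[k] (x i)) (Y k))) := by
        rw [← Real.exp_add, Real.exp_le_exp]
        nlinarith [mul_le_mul_of_nonneg_left (hsum i) ha.le]
      refine h1.trans (mul_le_mul_of_nonneg_left ?_ (Real.exp_pos _).le)
      split_ifs with h2
      · have h3 : Real.exp (-(a * ∑ k ∈ Finset.range p, d (T^[k] (x i)) (Y k))) ≤ 1 := by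
          rw [Real.exp_le_one_iff]
          nlinarith [mul_nonneg ha.le (hA i)]
        linarith [Real.exp_pos (-(a * p * r))]
      · rw [zero_add, Real.exp_le_exp]
        push Not at h2
        nlinarith [mul_le_mul_of_nonneg_left h2.le ha.le]
    rw [div_le_iff₀ hcard]
    refine (Finset.sum_le_sum fun i _ => hterm i).trans ?_
    rw [← Finset.mul_sum, Finset.sum_add_distrib, Finset.sum_boole, Finset.sum_const, nsmul_eq_mul,
      Finset.card_univ, mul_assoc (Real.exp (a * N * Δ))]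
    refine mul_le_mul_of_nonneg_left ?_ (Real.exp_pos _).le
    have h6 := hball Y
    have h7 : ({i | ∑ k ∈ Finset.range p, d (T^[k] (x i)) (Y k) ≤ p * r}.ncard : ℝ) =
        ((Finset.univ.filter fun i => ∑ k ∈ Finset.range p, d (T^[k] (x i)) (Y k) ≤ p * r).card
          : ℝ) := by
      rw [Set.ncard_eq_toFinset_card', Set.toFinset_ofPred]
    rw [h7] at h6
    linarith

end Pool.Agent.DV
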