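import Pool.Agent.DV.Stmts

/-!
# COVN: windows of length at most `Bj j - K` have covers of order at most `mj j`
-/

set_option autoImplicit false

open Set Topology Filter MeasureTheory
open scoped ENNReal

namespace Pool.Agent.DV

namespace Covn

theorem continuous_coord (t : ℤ) (j v : ℕ) : Continuous fun x : HH => x t j v :=
  (continuous_apply v).comp ((continuous_apply j).comp (continuous_apply t))

theorem continuous_coordR (t : ℤ) (j v : ℕ) : Continuous fun x : HH => (x t j v : ℝ) :=
  continuous_subtype_val.comp (continuous_coord t j v)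

open Classical in
theorem isClosed_card (t : ℤ) (j N m : ℕ) :
    IsClosed {x : HH | ((Finset.range N).filter fun v => x t j v ≠ 0).card ≤ m} := by
  rw [← isOpen_compl_iff, isOpen_iff_mem_nhds]
  intro x hx
  have h1 : ∀ v ∈ (Finset.range N).filter fun v => x t j v ≠ 0, ∀ᶠ y in 𝓝 x, y t j v ≠ 0 := by
    intro v hv
    exact (continuous_coord t j v).continuousAt.eventually_ne (Finset.mem_filter.1 hv).2
  have h2 : ∀ᶠ y in 𝓝 x, ∀ v ∈ (Finset.range N).filter fun v => x t j v ≠ 0, y t j v ≠ 0 :=
    (Finset.eventually_all _).2 h1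
  filter_upwards [h2] with y hy
  intro hy'
  apply hx
  refine le_trans (Finset.card_le_card ?_) hy'
  intro v hv
  exact Finset.mem_filter.2 ⟨(Finset.mem_filter.1 hv).1, hy v hv⟩

open Classical in
theorem isClosed_XX (D : Pats) : IsClosed (XX D) := by
  have e : XX D = ⋂ (t : ℤ) (j : ℕ) (_ : 1 ≤ j),
      ({x : HH | (∑ v ∈ Finset.range (D.N j), (x t j v : ℝ)) = 1} ∩
        ({x : HH | ((Finset.range (D.N j)).filter fun v => x t j v ≠ 0).card ≤ mj j} ∩
        ⋂ (v : ℕ) (_ : v < D.N j), ({x : HH | x t j v = 0} ∪ ⋂ (s : ℤ) (l : ℕ) (u : ℕ)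
          (_ : |s| ≤ (Bj j : ℤ)) (_ : l < j) (_ : u < j),
            {x : HH | |(x (t + s) l u : ℝ) - D.P j v s l u| ≤ rj j}))) := by
    ext x
    simp only [XX, mem_ofPred_eq, mem_iInter, mem_inter_iff, mem_union]
    constructor
    · intro h t j hj
      obtain ⟨h1, h2, h3⟩ := h t j hj
      refine ⟨h1, h2, fun v hv => ?_⟩
      by_cases h0 : x t j v = 0
      · exact Or.inl h0
      · exact Or.inr fun s l u hs hl hu => h3 v hv h0 s l u hs hl hu
    · intro h t j hj
      obtain ⟨h1, h2, h3⟩ := h t j hj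
      refine ⟨h1, h2, fun v hv h0 s l u hs hl hu => ?_⟩
      rcases h3 v hv with h4 | h4
      · exact absurd h4 h0
      · exact h4 s l u hs hl hu
  rw [e]
  refine isClosed_iInter fun t => isClosed_iInter fun j => isClosed_iInter fun _ => ?_
  refine IsClosed.inter ?_ (IsClosed.inter ?_ ?_)
  · exact isClosed_eq (continuous_finsetSum _ fun v _ => continuous_coordR t j v) continuous_const
  · exact isClosed_card t j (D.N j) (mj j)
  · refine isClosed_iInter fun v => isClosed_iInter fun _ => IsClosed.union ?_ ?_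
    · exact isClosed_eq (continuous_coord t j v) continuous_const
    · refine isClosed_iInter fun s => isClosed_iInter fun l => isClosed_iInter fun u =>
        isClosed_iInter fun _ => isClosed_iInter fun _ => isClosed_iInter fun _ => ?_
      exact isClosed_le (((continuous_coordR _ _ _).sub continuous_const).abs) continuous_const

theorem iterate_coord {D : Pats} {T : XX D → XX D} (hT : ∀ x, (T x).1 = shiftH x.1) (k : ℕ)
    (x : XX D) (t : ℤ) : ((T^[k]) x).1 t = x.1 (t + k) := by
  induction k generalizing t with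
  | zero => simp
  | succ k ih =>
    rw [Function.iterate_succ_apply', hT, shiftH, ih]
    congr 1
    push_cast
    ring

end Covn

open Covn in
theorem COVN_thm (h : Stmt_LEBN) : Stmt_COVN := by
  classical
  intro D T hT α hα
  obtain ⟨K0, δ, hδ, hL⟩ := h (XX D) (isClosed_XX D) α hα
  obtain ⟨n, hn⟩ := exists_pow_lt_of_lt_one (show (0 : ℝ) < δ / 2 by positivity)
    (show (1 / 2 : ℝ) < 1 by norm_num)
  refine ⟨max (K0 + 1) n, fun j N hj hN => ?_⟩
  have hjK : K0 + 1 ≤ j := (le_max_left _ _).trans hj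
  have hjn : n ≤ j := (le_max_right _ _).trans hj
  have hr : 2 * rj j ≤ δ := by
    have h1 : rj j ≤ (1 / 2 : ℝ) ^ n :=
      pow_le_pow_of_le_one (by norm_num) (by norm_num) hjn
    linarith
  have hNK : N + K0 ≤ Bj j := by
    have := le_max_left (K0 + 1) n
    omega
  let U : ℕ → Set (XX D) := fun v => {x | x.1 0 j v ≠ 0}
  let β : Set (Set (XX D)) := {W | ∃ v < D.N j, W = U v ∧ W.Nonempty}
  have hβfin : β.Finite := by
    refine ((Finset.range (D.N j)).finite_toSet.image U).subset ?_
    rintro W ⟨v, hv, rfl, -⟩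
    exact ⟨v, Finset.mem_coe.2 (Finset.mem_range.2 hv), rfl⟩
  have hFOC : H3.MD.IsFOC β := by
    refine ⟨hβfin, ?_, ?_⟩
    · rintro W ⟨v, hv, rfl, -⟩
      have hc : Continuous fun x : XX D => x.1 0 j v :=
        (continuous_coord 0 j v).comp continuous_subtype_val
      exact isOpen_ne_fun hc continuous_const
    · rw [eq_univ_iff_forall]
      intro x
      have h1 := (x.2 0 j (by omega)).1
      have h2 : ∃ v ∈ Finset.range (D.N j), (x.1 0 j v : ℝ) ≠ 0 := by
        by_contra hcon
        push Not at hcon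
        rw [Finset.sum_eq_zero hcon] at h1
        norm_num at h1
      obtain ⟨v, hv, hv0⟩ := h2
      have hxv : x ∈ U v := by
        intro h0
        apply hv0
        rw [h0]
        rfl
      exact ⟨U v, ⟨v, Finset.mem_range.1 hv, rfl, ⟨x, hxv⟩⟩, hxv⟩
  have hord : H3.MD.ord β ≤ mj j := by
    have h1 : (⨆ x : XX D, {W | W ∈ β ∧ x ∈ W}.ncard) ≤ mj j := by
      apply ciSup_le'
      intro x
      have h2 := (x.2 0 j (by omega)).2.1
      have h3 : {W | W ∈ β ∧ x ∈ W} ⊆
          (((Finset.range (D.N j)).filter fun v => x.1 0 j v ≠ 0).image U : Finset (Set (XX D))) := by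
        rintro W ⟨⟨v, hv, rfl, -⟩, hx⟩
        rw [Finset.mem_coe, Finset.mem_image]
        exact ⟨v, Finset.mem_filter.2 ⟨Finset.mem_range.2 hv, hx⟩, rfl⟩
      refine (Set.ncard_le_ncard h3 (Finset.finite_toSet _)).trans ?_
      rw [Set.ncard_coe_finset]
      refine Finset.card_image_le.trans (le_trans (le_of_eq ?_) h2)
      congr
    unfold H3.MD.ord
    omega
  have href : H3.MD.Refines β (H3.MD.joinN T α N) := by
    rintro W ⟨v, hv, rfl, x0, hx0⟩
    have key : ∀ k : Fin N, ∃ V ∈ α, (T^[(k : ℕ)]) '' (U v) ⊆ V := by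
      intro k
      apply hL
      · exact ⟨_, x0, hx0, rfl⟩
      · rintro _ ⟨x, hx, rfl⟩ _ ⟨y, hy, rfl⟩ s l u hs hl hu
        rw [iterate_coord hT, iterate_coord hT]
        have hk : (k : ℕ) < N := k.2
        have hsk : |s + (k : ℕ)| ≤ (Bj j : ℤ) := by
          have h1 := abs_add_le s ((k : ℕ) : ℤ)
          have h2 : |((k : ℕ) : ℤ)| = ((k : ℕ) : ℤ) := abs_of_nonneg (by positivity)
          rw [h2] at h1
          omega
        have h1 := (x.2 0 j (by omega)).2.2 v hv hx (s + (k : ℕ)) l u hsk (by omega) (by omega)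
        have h2 := (y.2 0 j (by omega)).2.2 v hv hy (s + (k : ℕ)) l u hsk (by omega) (by omega)
        rw [zero_add] at h1 h2
        rw [abs_le] at h1 h2 ⊢
        constructor <;> linarith [h1.1, h1.2, h2.1, h2.2]
    choose V hVα hV using key
    refine ⟨_, ⟨V, hVα, rfl⟩, ?_⟩
    intro x hx
    rw [mem_iInter]
    intro k
    exact hV k ⟨x, hx, rfl⟩
  refine le_trans ?_ hord
  unfold H3.MD.Dcov
  exact Nat.sInf_le ⟨β, hFOC, href, rfl⟩

end Pool.Agent.DV
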