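import Pool.Agent.Lib_helper3.MD.Defs

/-!
# MP_9896a2_an: a counterexample to the double variational principle, definitions

`XX D` is the system: points are arrays `x t j v` in `[0,1]` (`t : ℤ` time, `j` level, `v` index).
For `j ≥ 1` the vector `x t j` is a point of a simplex with at most `mj j` vertices which describes
a window of length `2 * Bj j + 1` of all lower levels up to `rj j`.
-/

set_option autoImplicit false

open Set Topology Filter MeasureTheory
open scoped ENNReal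

namespace Pool.Agent.DV

/-! ### The system -/

/-- The bound for the number of vertices at level `j`. -/
def mj (j : ℕ) : ℕ := 2 ^ (j + 2)

/-- The radius of the window at level `j`. -/
def Bj (j : ℕ) : ℕ := 4 ^ j

/-- The tolerance at level `j`. -/
noncomputable def rj (j : ℕ) : ℝ := (1 / 2) ^ j

/-- The ambient space. -/
abbrev HH : Type := ℤ → ℕ → ℕ → unitInterval

/-- Finite nets of patterns: `P j v`, `v < N j`, is an `rj j / 2`-net for the finitely many
coordinates `|s| ≤ Bj j`, `l < j`, `u < j`. -/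
structure Pats : Type where
  /-- the number of patterns -/
  N : ℕ → ℕ
  /-- the patterns -/
  P : ℕ → ℕ → HH
  net : ∀ (j : ℕ) (x : HH), ∃ v < N j, ∀ (s : ℤ) (l u : ℕ), |s| ≤ (Bj j : ℤ) → l < j → u < j →
    |(x s l u : ℝ) - P j v s l u| ≤ rj j / 2

/-- The shift of the ambient space. -/
def shiftH (x : HH) : HH := fun t => x (t + 1)

open Classical in
/-- The set of the points of the system. -/
def XX (D : Pats) : Set HH := {x | ∀ (t : ℤ) (j : ℕ), 1 ≤ j →
  (∑ v ∈ Finset.range (D.N j), (x t j v : ℝ)) = 1 ∧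
  ((Finset.range (D.N j)).filter fun v => x t j v ≠ 0).card ≤ mj j ∧
  ∀ v < D.N j, x t j v ≠ 0 → ∀ (s : ℤ) (l u : ℕ), |s| ≤ (Bj j : ℤ) → l < j → u < j →
    |(x (t + s) l u : ℝ) - D.P j v s l u| ≤ rj j}

/-! ### The sphere -/

/-- The sphere `{z ∈ [0,1]^(ℤ/p) : min z = 0, max z = 1}`. -/
def EE (p : ℕ) : Set (ZMod p → ℝ) :=
  {z | (∀ k, 0 ≤ z k ∧ z k ≤ 1) ∧ (∃ k, z k = 0) ∧ ∃ k, z k = 1}

/-- The shift of sequences indexed by `ℤ/p`. -/
def sh {p : ℕ} {R : Type} (z : ZMod p → R) : ZMod p → R := fun k => z (k + 1)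

/-- `gap A b > 0` iff all the values of `b` on `A` are larger than all the values outside `A`. -/
noncomputable def gap {K : Type} [Fintype K] [DecidableEq K] (A : Finset K) (b : K → ℝ) : ℝ :=
  ∏ k ∈ A, ∏ l ∈ Aᶜ, max (b k - b l) 0

/-- A free coloured system of functions on the sphere with `M` colours. -/
structure CSys (p M : ℕ) (J : Type) (act : J → J) (θ : J → (ZMod p → ℝ) → ℝ) : Prop where
  per : ∀ i, act^[p] i = i
  free : ∀ i, act i ≠ i
  cont : ∀ i, ContinuousOn (θ i) (EE p)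
  nonneg : ∀ i, ∀ z ∈ EE p, 0 ≤ θ i z
  equi : ∀ i, ∀ z ∈ EE p, θ (act i) (sh z) = θ i z
  col : ∃ c : J → Fin M, (∀ i, c (act i) = c i) ∧
    ∀ i i', i ≠ i' → c i = c i' → ∀ z ∈ EE p, θ i z = 0 ∨ θ i' z = 0

/-! ### Chains of posets -/

/-- Chains (in degree `r`) of the nerve of a preorder with coefficients in `ℤ/p`. -/
abbrev Ch (p : ℕ) (P : Type) [Preorder P] (r : ℕ) : Type := (Fin (r + 1) →o P) →₀ ZMod p

/-- The `i`-th face of a weakly increasing tuple. -/
def face {P : Type} [Preorder P] {r : ℕ} (i : Fin (r + 2)) (f : Fin (r + 2) →o P) :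
    Fin (r + 1) →o P := f.comp (Fin.succAboveOrderEmb i).toOrderHom

/-- The boundary. -/
noncomputable def bd (p : ℕ) (P : Type) [Preorder P] (r : ℕ) :
    Ch p P (r + 1) →ₗ[ZMod p] Ch p P r :=
  Finsupp.lsum (ZMod p) fun f => ∑ i : Fin (r + 2),
    ((-1 : ZMod p) ^ (i : ℕ)) • Finsupp.lsingle (face i f)

/-- The augmentation. -/
noncomputable def aug (p : ℕ) (P : Type) [Preorder P] : Ch p P 0 →ₗ[ZMod p] ZMod p :=
  Finsupp.lsum (ZMod p) fun _ => LinearMap.id

/-- The map of chains of a monotone map. -/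
noncomputable def push (p : ℕ) {P Q : Type} [Preorder P] [Preorder Q] (g : P →o Q) (r : ℕ) :
    Ch p P r →ₗ[ZMod p] Ch p Q r := Finsupp.lmapDomain (ZMod p) (ZMod p) fun f => g.comp f

/-- The nerve is acyclic (over `ℤ/p`). -/
def Acyc (p : ℕ) (P : Type) [Preorder P] : Prop :=
  (∀ x : Ch p P 0, aug p P x = 0 → ∃ y, bd p P 0 y = x) ∧
  ∀ (r : ℕ) (x : Ch p P (r + 1)), bd p P r x = 0 → ∃ y, bd p P (r + 1) y = x

/-- The poset of the nonempty finite subsets of the sphere of diameter at most `δ`. -/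
def Sm (p : ℕ) (δ : ℝ) : Type := {σ : Finset (ZMod p → ℝ) // σ.Nonempty ∧ (∀ x ∈ σ, x ∈ EE p) ∧
  ∀ x ∈ σ, ∀ y ∈ σ, ∀ k, |x k - y k| ≤ δ}

instance (p : ℕ) (δ : ℝ) : PartialOrder (Sm p δ) :=
  inferInstanceAs (PartialOrder (Subtype _))

/-- Small sets of points which vanish outside `A`. -/
def SmA (p : ℕ) (δ : ℝ) (A : Finset (ZMod p)) : Type :=
  {σ : Sm p δ // ∀ x ∈ σ.1, ∀ k, k ∉ A → x k = 0}

instance (p : ℕ) (δ : ℝ) (A : Finset (ZMod p)) : PartialOrder (SmA p δ A) :=
  inferInstanceAs (PartialOrder (Subtype _))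

/-- The inclusion. -/
def SmA.incl {p : ℕ} {δ : ℝ} {A : Finset (ZMod p)} : SmA p δ A →o Sm p δ where
  toFun σ := σ.1
  monotone' _ _ h := h

open Classical in
/-- The shift of small sets. -/
noncomputable def Sm.sh {p : ℕ} {δ : ℝ} (σ : Sm p δ) : Sm p δ :=
  ⟨σ.1.image DV.sh, by
    obtain ⟨σ, h1, h2, h3⟩ := σ
    refine ⟨h1.image _, ?_, ?_⟩
    · intro x hx
      obtain ⟨y, hy, rfl⟩ := Finset.mem_image.1 hx
      obtain ⟨ha, ⟨k, hk⟩, l, hl⟩ := h2 y hy
      exact ⟨fun i => ha _, ⟨k - 1, by simpa [DV.sh] using hk⟩, l - 1, by simpa [DV.sh] using hl⟩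
    · intro x hx x' hx' k
      obtain ⟨y, hy, rfl⟩ := Finset.mem_image.1 hx
      obtain ⟨y', hy', rfl⟩ := Finset.mem_image.1 hx'
      exact h3 y hy y' hy' _⟩

/-- The shift of small sets as a monotone map. -/
noncomputable def smSh (p : ℕ) (δ : ℝ) : Sm p δ →o Sm p δ where
  toFun := Sm.sh
  monotone' σ τ h := by
    classical
    exact Finset.image_subset_image (f := DV.sh) h

/-! ### Fourier coefficients -/

/-- The Fourier coefficients of `k ↦ φ (T^k x)`, `0 ≤ k < p`. -/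
noncomputable def FT (p : ℕ) (φ : HH → ℝ) (x : HH) (ω : ℕ) : ℂ :=
  ∑ k ∈ Finset.range p, (φ (shiftH^[k] x) : ℂ) *
    Complex.exp (-(2 * Real.pi * Complex.I * ω * k / p))

end Pool.Agent.DV
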