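import Pool.Agent.DV.Level

/-!
# FREC: the recursion over the levels
-/

set_option autoImplicit false

namespace Pool.Agent.DV

open Set

namespace Frec

/-- level functions, all continuous on the sphere -/
def Stk (p : ℕ) : Type :=
  {A : ℕ → ℕ → (ZMod p → ℝ) → ℝ // ∀ l v, ContinuousOn (A l v) (EE p)}

/-- the array of a family of level functions -/
noncomputable def FA {p : ℕ} (A : ℕ → ℕ → (ZMod p → ℝ) → ℝ) (z : ZMod p → ℝ) : HH :=
  fun t l v => Set.projIcc 0 1 zero_le_one (A l v (fun i => z (i + (t : ZMod p))))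

theorem rot_mem {p : ℕ} (s : ZMod p) {z : ZMod p → ℝ} (hz : z ∈ EE p) :
    (fun i => z (i + s)) ∈ EE p := by
  obtain ⟨h1, ⟨k, hk⟩, l, hl⟩ := hz
  exact ⟨fun i => h1 _, ⟨k - s, by simpa using hk⟩, l - s, by simpa using hl⟩

theorem cont_FA {p : ℕ} (A : Stk p) (t : ℤ) (l v : ℕ) :
    ContinuousOn (fun z => FA A.1 z t l v) (EE p) := by
  unfold FA
  refine continuous_projIcc.comp_continuousOn ?_
  refine (A.2 l v).comp ?_ fun z hz => rot_mem _ hz
  exact (continuous_pi fun i => continuous_apply _).continuousOn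

/-- the index set of the window at level `j` -/
abbrev Win (j : ℕ) : Type := {q : ℤ × ℕ × ℕ // |q.1| ≤ (Bj j : ℤ) ∧ q.2.1 < j ∧ q.2.2 < j}

instance finite_Win (j : ℕ) : Finite (Win j) := by
  have h : {q : ℤ × ℕ × ℕ | |q.1| ≤ (Bj j : ℤ) ∧ q.2.1 < j ∧ q.2.2 < j}.Finite := by
    refine ((Set.finite_Icc (-(Bj j : ℤ)) (Bj j : ℤ)).prod
      ((Set.finite_Iio j).prod (Set.finite_Iio j))).subset ?_
    rintro ⟨s, l, u⟩ ⟨h1, h2, h3⟩
    rw [abs_le] at h1
    exact ⟨h1, h2, h3⟩
  exact h.to_subtype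

theorem rj_pos (j : ℕ) : 0 < rj j := by unfold rj; positivity

/-- one step -/
theorem step (hL : Stmt_LEVEL) (D : Pats) (p : ℕ) [Fact p.Prime] (A : Stk p) (j : ℕ) :
    ∃ (α : ℕ → (ZMod p → ℝ) → ℝ) (c : ZMod p → (ZMod p → ℝ) → ℝ),
    (∀ v, ContinuousOn (α v) (EE p)) ∧ (∀ k, ContinuousOn (c k) (EE p)) ∧ (∀ k z, 0 ≤ c k z) ∧
    (∀ v, ∀ z ∈ EE p, 0 ≤ α v z) ∧ (∀ z ∈ EE p, ∑ v ∈ Finset.range (D.N j), α v z = 1) ∧
    (∀ v, D.N j ≤ v → ∀ z, α v z = 0) ∧
    (∀ z ∈ EE p, ∀ v, α v z ≠ 0 → ∀ (s : ℤ) (l u : ℕ), |s| ≤ (Bj j : ℤ) → l < j → u < j →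
      |(FA A.1 z s l u : ℝ) - D.P j v s l u| ≤ rj j) ∧
    (∀ z ∈ EE p, {v | α v z ≠ 0}.ncard ≤ 1 + {k | 0 < c k z}.ncard) ∧
    ∀ z ∈ EE p, ∑ t : ZMod p, {k | 0 < c k (fun i => z (i + t))}.ncard ≤ p := by
  have : Fintype (Win j) := Fintype.ofFinite _
  obtain ⟨α, c, h1, h2, h3, h4, h5, h6, h7, h8, h9⟩ := hL p (Win j)
    (fun z q => (FA A.1 z q.1.1 q.1.2.1 q.1.2.2 : ℝ)) (D.N j)
    (fun v q => (D.P j v q.1.1 q.1.2.1 q.1.2.2 : ℝ)) (rj j) (rj_pos j)
    (continuousOn_pi.2 fun q => continuous_subtype_val.comp_continuousOn (cont_FA A _ _ _))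
    (fun z _ => by
      obtain ⟨v, hv, hn⟩ := D.net j (FA A.1 z)
      exact ⟨v, hv, fun q => hn _ _ _ q.2.1 q.2.2.1 q.2.2.2⟩)
  exact ⟨α, c, h1, h2, h3, h4, h5, h6,
    fun z hz v hv s l u hs hl hu => h7 z hz v hv ⟨(s, l, u), hs, hl, hu⟩, h8, h9⟩

/-- level zero -/
noncomputable def base (p : ℕ) : Stk p :=
  ⟨fun l v z => if l = 0 ∧ v = 0 then z 0 else 0, fun l v => by
    by_cases h : l = 0 ∧ v = 0
    · simp only [h, and_self, if_true]
      exact (continuous_apply _).continuousOn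
    · simp only [h, if_false]
      exact continuousOn_const⟩

end Frec

open Frec in
/-- FREC -/
theorem FREC_thm (hL : Stmt_LEVEL) : Stmt_FREC := by
  classical
  intro D p hp
  choose al cc a1 a2 a3 a4 a5 a6 a7 a8 a9 using step hL D p
  let nxt : Stk p → ℕ → Stk p := fun A n =>
    ⟨Function.update A.1 (n + 1) (al A (n + 1)), fun l v => by
      by_cases h : l = n + 1
      · subst h
        rw [Function.update_self]
        exact a1 A _ v
      · rw [Function.update_of_ne h]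
        exact A.2 l v⟩
  let stk : ℕ → Stk p := fun n => Nat.rec (base p) (fun n A => nxt A n) n
  have stk_succ : ∀ n, stk (n + 1) = nxt (stk n) n := fun n => rfl
  let A : ℕ → ℕ → (ZMod p → ℝ) → ℝ := fun l => (stk l).1 l
  have stk_le : ∀ n l, l ≤ n → (stk n).1 l = A l := by
    intro n
    induction n with
    | zero =>
      intro l hl
      have : l = 0 := by omega
      subst this; rfl
    | succ n ih =>
      intro l hl
      by_cases h : l = n + 1
      · subst h; rfl
      · rw [stk_succ]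
        change Function.update (stk n).1 (n + 1) (al (stk n) (n + 1)) l = A l
        rw [Function.update_of_ne h]
        exact ih l (by omega)
  have A_succ : ∀ n, A (n + 1) = al (stk n) (n + 1) := by
    intro n
    change Function.update (stk n).1 (n + 1) (al (stk n) (n + 1)) (n + 1) = _
    rw [Function.update_self]
  have Acont : ∀ l v, ContinuousOn (A l v) (EE p) := fun l v => (stk l).2 l v
  let AS : Stk p := ⟨A, Acont⟩
  let c : ℕ → ZMod p → (ZMod p → ℝ) → ℝ := fun j => match j with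
    | 0 => fun _ _ => 0
    | n + 1 => cc (stk n) (n + 1)
  -- agreement of the arrays below level `n + 1`
  have hFA : ∀ n z (t : ℤ) (l v : ℕ), l ≤ n → FA (stk n).1 z t l v = FA A z t l v := by
    intro n z t l v hl
    unfold FA
    rw [stk_le n l hl]
  -- the values at time zero
  have hval : ∀ n, ∀ z ∈ EE p, ∀ v, (FA A z 0 (n + 1) v : ℝ) = al (stk n) (n + 1) v z := by
    intro n z hz v
    unfold FA
    have e : (fun i : ZMod p => z (i + ((0 : ℤ) : ZMod p))) = z := by
      funext i; simp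
    rw [e, A_succ n]
    have h0 := a4 (stk n) (n + 1) v z hz
    have h1 : al (stk n) (n + 1) v z ≤ 1 := by
      by_cases hv : v < D.N (n + 1)
      · rw [← a5 (stk n) (n + 1) z hz]
        exact Finset.single_le_sum (f := fun v => al (stk n) (n + 1) v z)
          (fun w _ => a4 (stk n) (n + 1) w z hz) (Finset.mem_range.2 hv)
      · rw [a6 (stk n) (n + 1) v (by omega) z]
        exact zero_le_one
    rw [Set.projIcc_of_mem zero_le_one ⟨h0, h1⟩]
  have hne : ∀ n, ∀ z ∈ EE p, ∀ v, FA A z 0 (n + 1) v ≠ 0 ↔ al (stk n) (n + 1) v z ≠ 0 := by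
    intro n z hz v
    rw [← hval n z hz v]
    constructor
    · intro h h'
      exact h (Subtype.ext h')
    · intro h h'
      apply h
      rw [h']; rfl
  refine ⟨{ F := FA A, c := c, cont := ?_, equi := ?_, zero := ?_, ccont := ?_, cnonneg := ?_,
            sum := ?_, net := ?_, card := ?_, count := ?_ }⟩
  · exact continuousOn_pi.2 fun t => continuousOn_pi.2 fun l => continuousOn_pi.2 fun v =>
      cont_FA AS t l v
  · intro z _
    funext t l v
    unfold FA shiftH sh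
    congr 2
    funext i
    congr 1
    push_cast
    ring
  · intro z hz t
    have h := hz.1 (t : ZMod p)
    unfold FA
    have e : A 0 0 (fun i => z (i + (t : ZMod p))) = z t := by
      change (if (0 : ℕ) = 0 ∧ (0 : ℕ) = 0 then z (0 + (t : ZMod p)) else 0) = z t
      rw [if_pos ⟨rfl, rfl⟩, zero_add]
    rw [e, Set.projIcc_of_mem zero_le_one ⟨h.1, h.2⟩]
  · intro j k
    rcases j with _ | n
    · exact continuousOn_const
    · exact a2 (stk n) (n + 1) k
  · intro j k z
    rcases j with _ | n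
    · exact le_refl _
    · exact a3 (stk n) (n + 1) k z
  · intro z hz j hj
    obtain ⟨n, rfl⟩ : ∃ n, j = n + 1 := ⟨j - 1, by omega⟩
    rw [← a5 (stk n) (n + 1) z hz]
    exact Finset.sum_congr rfl fun v _ => hval n z hz v
  · intro z hz j hj v _ hv s l u hs hl hu
    obtain ⟨n, rfl⟩ : ∃ n, j = n + 1 := ⟨j - 1, by omega⟩
    have h := a7 (stk n) (n + 1) z hz v ((hne n z hz v).1 hv) s l u hs hl hu
    rw [hFA n z s l u (by omega)] at h
    exact h
  · intro z hz j hj
    obtain ⟨n, rfl⟩ : ∃ n, j = n + 1 := ⟨j - 1, by omega⟩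
    refine le_trans (Set.ncard_le_ncard ?_ ?_) (a8 (stk n) (n + 1) z hz)
    · rintro v ⟨_, hv⟩
      exact (hne n z hz v).1 hv
    · refine (Set.finite_Iio (D.N (n + 1))).subset fun v hv => ?_
      by_contra hcon
      rw [Set.mem_Iio] at hcon
      exact hv (a6 (stk n) (n + 1) v (by omega) z)
  · intro z hz j hj
    obtain ⟨n, rfl⟩ : ∃ n, j = n + 1 := ⟨j - 1, by omega⟩
    exact a9 (stk n) (n + 1) z hz

end Pool.Agent.DV
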