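import Pool.Agent.DV.Stmts

/-!
# MP_9896a2_an: FROST, the measures `μ_p`
-/

set_option autoImplicit false

open Set Topology Filter MeasureTheory
open scoped ENNReal

namespace Pool.Agent.DV

namespace FROST

/-- the Fourier coefficients of a sequence -/
noncomputable def dft (p : ℕ) (a : ℕ → ℝ) (ω : ℕ) : ℂ :=
  ∑ k ∈ Finset.range p, (a k : ℂ) *
    Complex.exp (-(2 * Real.pi * Complex.I * ω * k / p))

theorem dft_shift1 (p : ℕ) (hp : 0 < p) (a : ℕ → ℝ) (ha : ∀ k, a (k + p) = a k) (ω : ℕ) :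
    ‖dft p (fun k => a (k + 1)) ω‖ = ‖dft p a ω‖ := by
  have hp0 : (p : ℂ) ≠ 0 := by exact_mod_cast hp.ne'
  set g : ℕ → ℂ := fun k => (a k : ℂ) * Complex.exp (-(2 * Real.pi * Complex.I * ω * k / p)) with hg
  have h0 : g p = g 0 := by
    have h1 : a p = a 0 := by simpa using ha 0
    have h2 : Complex.exp (-(2 * Real.pi * Complex.I * ω * (p : ℕ) / p)) = 1 := by
      have h3 : -(2 * Real.pi * Complex.I * ω * (p : ℕ) / p) = ((-(ω : ℤ) : ℤ) : ℂ) * (2 * Real.pi * Complex.I) := by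
        push_cast
        field_simp
      rw [h3, Complex.exp_int_mul_two_pi_mul_I]
    simp only [hg, h1, h2]
    simp
  have h1 : ∑ k ∈ Finset.range p, g (k + 1) = ∑ k ∈ Finset.range p, g k := by
    have h2 := Finset.sum_range_succ g p
    have h3 := Finset.sum_range_succ' g p
    rw [h2, h0] at h3
    exact (add_right_cancel h3).symm
  have h2 : dft p (fun k => a (k + 1)) ω =
      Complex.exp (2 * Real.pi * Complex.I * ω / p) * ∑ k ∈ Finset.range p, g (k + 1) := by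
    unfold dft
    rw [Finset.mul_sum]
    refine Finset.sum_congr rfl fun k _ => ?_
    simp only [hg]
    rw [mul_left_comm, ← Complex.exp_add]
    congr 2
    push_cast
    field_simp
    ring
  have h3 : ‖Complex.exp (2 * Real.pi * Complex.I * ω / p)‖ = 1 := by
    rw [Complex.norm_exp]
    have h4 : (2 * Real.pi * Complex.I * ω / p : ℂ).re = 0 := by
      have h5 : (2 * Real.pi * Complex.I * ω / p : ℂ) = ((2 * Real.pi * ω / p : ℝ) : ℂ) * Complex.I := by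
        push_cast
        ring
      rw [h5]
      simp
    rw [h4, Real.exp_zero]
  rw [h2, norm_mul, h3, one_mul, h1]
  rfl

theorem dft_shift (p : ℕ) (hp : 0 < p) (a : ℕ → ℝ) (ha : ∀ k, a (k + p) = a k) (ω t : ℕ) :
    ‖dft p (fun k => a (k + t)) ω‖ = ‖dft p a ω‖ := by
  induction t with
  | zero => rfl
  | succ t ih =>
    rw [← ih]
    have h1 := dft_shift1 p hp (fun k => a (k + t)) (fun k => by
      show a (k + p + t) = a (k + t)
      rw [add_right_comm, ha]) ω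
    rw [← h1]
    congr 2
    funext k
    show a (k + (t + 1)) = a (k + 1 + t)
    congr 1
    omega

theorem dft_sub (p : ℕ) (a b : ℕ → ℝ) (ω : ℕ) :
    dft p (fun k => a k - b k) ω = dft p a ω - dft p b ω := by
  unfold dft
  rw [← Finset.sum_sub_distrib]
  refine Finset.sum_congr rfl fun k _ => ?_
  push_cast
  ring

theorem norm_dft_le (p : ℕ) (a : ℕ → ℝ) (ha : ∀ k, |a k| ≤ 1) (ω : ℕ) : ‖dft p a ω‖ ≤ p := by
  unfold dft
  refine (norm_sum_le _ _).trans ?_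
  have h1 : ∀ k ∈ Finset.range p, ‖(a k : ℂ) *
      Complex.exp (-(2 * Real.pi * Complex.I * ω * k / p))‖ ≤ 1 := by
    intro k _
    rw [norm_mul]
    have h2 : ‖Complex.exp (-(2 * Real.pi * Complex.I * ω * k / p))‖ = 1 := by
      rw [Complex.norm_exp]
      have h4 : (-(2 * Real.pi * Complex.I * ω * k / p) : ℂ).re = 0 := by
        have h5 : (-(2 * Real.pi * Complex.I * ω * k / p) : ℂ) =
            ((-(2 * Real.pi * ω * k / p) : ℝ) : ℂ) * Complex.I := by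
          push_cast
          ring
        rw [h5]
        simp
      rw [h4, Real.exp_zero]
    rw [h2, mul_one, Complex.norm_real, Real.norm_eq_abs]
    exact ha k
  refine (Finset.sum_le_sum h1).trans ?_
  simp

/-- the sum of the squares of the differences of the moduli of the Fourier coefficients -/
theorem sum_sq (hP : Stmt_PARS) (p : ℕ) (hp : p.Prime) (hp2 : 2 < p) (a b : ℕ → ℝ)
    (ha : ∀ k, 0 ≤ a k ∧ a k ≤ 1) (hb : ∀ k, 0 ≤ b k ∧ b k ≤ 1) :
    ∑ ω ∈ Finset.range p, (‖dft p a ω‖ - ‖dft p b ω‖) ^ 2 ≤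
      p * ∑ k ∈ Finset.range p, |a k - b k| := by
  have h1 := (hP p hp hp2 fun k => a k - b k).1
  have h2 : ∑ ω ∈ Finset.range p, ‖dft p (fun k => a k - b k) ω‖ ^ 2 =
    p * ∑ k ∈ Finset.range p, (a k - b k) ^ 2 := h1
  calc ∑ ω ∈ Finset.range p, (‖dft p a ω‖ - ‖dft p b ω‖) ^ 2
      ≤ ∑ ω ∈ Finset.range p, ‖dft p (fun k => a k - b k) ω‖ ^ 2 := by
        refine Finset.sum_le_sum fun ω _ => ?_
        rw [dft_sub, ← sq_abs (‖dft p a ω‖ - ‖dft p b ω‖)]
        exact pow_le_pow_left₀ (abs_nonneg _) (abs_norm_sub_norm_le _ _) 2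
    _ = p * ∑ k ∈ Finset.range p, (a k - b k) ^ 2 := h2
    _ ≤ p * ∑ k ∈ Finset.range p, |a k - b k| := by
        refine mul_le_mul_of_nonneg_left (Finset.sum_le_sum fun k _ => ?_) (by positivity)
        rw [← sq_abs, sq]
        have h3 : |a k - b k| ≤ 1 := by
          rw [abs_le]
          constructor <;> linarith [(ha k).1, (ha k).2, (hb k).1, (hb k).2]
        exact (mul_le_mul_of_nonneg_left h3 (abs_nonneg _)).trans (by rw [mul_one])

/-- the frequencies -/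
abbrev Om (p : ℕ) : Type := {ω : ℕ // ω ∈ (Finset.range p).filter fun ω => 1 ≤ ω ∧ 2 * ω < p}

theorem card_Om (p : ℕ) : Fintype.card (Om p) ≤ p := by
  rw [Fintype.card_coe]
  refine (Finset.card_filter_le _ _).trans ?_
  simp

theorem mem_Om {p ω : ℕ} (h : 1 ≤ ω ∧ 2 * ω < p) :
    ω ∈ (Finset.range p).filter fun ω => 1 ≤ ω ∧ 2 * ω < p := by
  rw [Finset.mem_filter, Finset.mem_range]
  exact ⟨by omega, h⟩

/-- the weights -/
noncomputable def wt {p : ℕ} (i : Om p → Fin p) (ω : ℕ) : ℝ :=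
  if h : ω ∈ (Finset.range p).filter fun ω => 1 ≤ ω ∧ 2 * ω < p then
    1 / (1 + ((i ⟨ω, h⟩ : ℕ) : ℝ) / p) else 1

theorem wt_pos {p : ℕ} (i : Om p → Fin p) (ω : ℕ) : 0 < wt i ω := by
  unfold wt
  split_ifs with h
  · positivity
  · exact one_pos

theorem wt_bounds {p : ℕ} (hp : 0 < p) (i : Om p → Fin p) (ω : ℕ) :
    1 / 2 ≤ wt i ω ∧ wt i ω ≤ 1 := by
  unfold wt
  have hp' : (0 : ℝ) < p := by exact_mod_cast hp
  split_ifs with h
  · have h1 : ((i ⟨ω, h⟩ : ℕ) : ℝ) / p ≤ 1 := by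
      rw [div_le_one hp']
      exact_mod_cast (i ⟨ω, h⟩).2.le
    have h2 : 0 ≤ ((i ⟨ω, h⟩ : ℕ) : ℝ) / p := by positivity
    constructor
    · apply one_div_le_one_div_of_le (by linarith) (by linarith)
    · rw [div_le_one (by linarith)]
      linarith
  · norm_num

theorem wt_eq {p : ℕ} (i : Om p → Fin p) (ω : Om p) :
    wt i ω.1 = 1 / (1 + ((i ω : ℕ) : ℝ) / p) := by
  unfold wt
  rw [dif_pos ω.2]

theorem iter_coe {D : Pats} {T : XX D → XX D} (hT : ∀ x, (T x).1 = shiftH x.1) (x : XX D)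
    (k : ℕ) : (T^[k] x).1 = shiftH^[k] x.1 := by
  induction k with
  | zero => rfl
  | succ k ih => rw [Function.iterate_succ_apply', Function.iterate_succ_apply', hT, ih]

theorem shift_iter (x : HH) (k : ℕ) (t : ℤ) : (shiftH^[k] x) t = x (t + k) := by
  induction k generalizing t with
  | zero => simp
  | succ k ih =>
    rw [Function.iterate_succ_apply']
    show (shiftH^[k] x) (t + 1) = _
    rw [ih]
    congr 1
    push_cast
    ring

/-- the data for one weight -/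
theorem tie (hTie : Stmt_TIE) (hP : Stmt_PARS) (D : Pats) (T : XX D → XX D)
    (hT : ∀ x, (T x).1 = shiftH x.1) (φ : HH → ℝ) (hφ : Continuous φ)
    (hφ1 : ∀ x : XX D, 0 ≤ φ x ∧ φ x ≤ (x.1 0 0 0 : ℝ) ∧ (x.1 0 0 0 : ℝ) - 1 / 10 ≤ φ x)
    (p : ℕ) (hp : p.Prime) (hp16 : 16 ≤ p) (i : Om p → Fin p) :
    ∃ x : XX D, T^[p] x = x ∧ ∃ (τ : ℝ) (S : Finset (Om p)), p ≤ 8 * S.card ∧ 1 / 20 ≤ τ ∧
      τ ≤ p ∧ ∀ ω ∈ S, ‖dft p (fun k => φ (T^[k] x).1) ω.1‖ / Real.sqrt p =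
        τ * (1 + ((i ω : ℕ) : ℝ) / p) := by
  have := Fact.mk hp
  have hp0 : 0 < p := by omega
  have hp' : (0 : ℝ) < p := by exact_mod_cast hp0
  have hsp : 0 < Real.sqrt p := Real.sqrt_pos.2 hp'
  obtain ⟨x, hx, hper, h1, h0, htie⟩ := hTie D p hp16 φ hφ (wt i) (wt_pos i)
  refine ⟨⟨x, hx⟩, Subtype.ext (by rw [iter_coe hT, hper]), ?_⟩
  set a : ℕ → ℝ := fun k => φ (T^[k] ⟨x, hx⟩).1 with ha
  have hFT : ∀ ω, FT p φ x ω = dft p a ω := by
    intro ω
    unfold FT dft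
    simp only [ha, iter_coe hT]
  have hval : ∀ k : ℕ, ((T^[k] ⟨x, hx⟩).1 0 0 0 : ℝ) = (x k 0 0 : ℝ) := by
    intro k
    rw [iter_coe hT, shift_iter]
    simp
  have ha1 : ∀ k : ℕ, |a k| ≤ 1 := by
    intro k
    have h2 := hφ1 (T^[k] ⟨x, hx⟩)
    rw [abs_le]
    constructor
    · linarith [h2.1]
    · have h3 := ((T^[k] ⟨x, hx⟩ : XX D).1 0 0 0).2.2
      exact h2.2.1.trans h3
  have hA : p ≤ 8 * {k | k < p ∧ 9 / 10 ≤ a k}.ncard := by
    refine h1.trans (Nat.mul_le_mul_left 8 ?_)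
    refine Set.ncard_le_ncard_of_injOn (fun k : Fin p => (k : ℕ)) ?_ ?_
      ((Set.finite_lt_nat p).subset fun k hk => hk.1)
    · intro k hk
      refine ⟨k.2, ?_⟩
      have h2 := (hφ1 (T^[(k : ℕ)] ⟨x, hx⟩)).2.2
      rw [hval] at h2
      have h3 : x (k : ℕ) 0 0 = 1 := hk
      rw [h3] at h2
      have h4 : ((1 : unitInterval) : ℝ) = 1 := rfl
      rw [h4] at h2
      simp only [ha]
      linarith
    · intro k _ l _ hkl
      exact Fin.ext hkl
  have hB : p ≤ 8 * {k | k < p ∧ a k = 0}.ncard := by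
    refine h0.trans (Nat.mul_le_mul_left 8 ?_)
    refine Set.ncard_le_ncard_of_injOn (fun k : Fin p => (k : ℕ)) ?_ ?_
      ((Set.finite_lt_nat p).subset fun k hk => hk.1)
    · intro k hk
      refine ⟨k.2, ?_⟩
      have h2 := hφ1 (T^[(k : ℕ)] ⟨x, hx⟩)
      rw [hval] at h2
      have h3 : x (k : ℕ) 0 0 = 0 := hk
      rw [h3] at h2
      have h4 : ((0 : unitInterval) : ℝ) = 0 := rfl
      rw [h4] at h2
      exact le_antisymm h2.2.1 h2.1
    · intro k _ l _ hkl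
      exact Fin.ext hkl
  obtain ⟨ω0, hω1, hω2, hω3⟩ := (hP p hp (by omega) a).2
    (fun k _ => (hφ1 (T^[k] ⟨x, hx⟩)).1) hA hB
  have hω4 : (p : ℝ) / 100 ≤ ‖dft p a ω0‖ ^ 2 := hω3
  have hω5 : Real.sqrt p / 10 ≤ ‖dft p a ω0‖ := by
    have h2 : (Real.sqrt p / 10) ^ 2 ≤ ‖dft p a ω0‖ ^ 2 := by
      rw [div_pow, Real.sq_sqrt hp'.le]
      norm_num
      exact hω4
    exact le_of_sq_le_sq h2 (norm_nonneg _)
  obtain ⟨t, S, hS, hcard, hSt, hmax⟩ := htie ⟨ω0, hω1, hω2, by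
    rw [hFT]
    intro h2
    rw [h2, norm_zero] at hω5
    linarith [div_pos hsp (by norm_num : (0 : ℝ) < 10)]⟩
  let S' : Finset (Om p) := S.attach.map ⟨fun ω => ⟨ω.1, mem_Om (hS ω.1 ω.2)⟩, by
    intro u v huv
    exact Subtype.ext (congrArg (fun z : Om p => z.1) huv)⟩
  have hS'c : S'.card = S.card := by
    simp only [S', Finset.card_map, Finset.card_attach]
  have hS'm : ∀ ω ∈ S', ω.1 ∈ S := by
    intro ω hω
    simp only [S', Finset.mem_map, Finset.mem_attach, true_and, Function.Embedding.coeFn_mk] at hω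
    obtain ⟨u, hu⟩ := hω
    rw [← hu]
    exact u.2
  refine ⟨t / Real.sqrt p, S', by rw [hS'c]; exact hcard, ?_, ?_, ?_⟩
  · rw [le_div_iff₀ hsp]
    have h2 := hmax ω0 hω1 hω2
    rw [hFT] at h2
    have h3 := (wt_bounds hp0 i ω0).1
    calc 1 / 20 * Real.sqrt p = 1 / 2 * (Real.sqrt p / 10) := by ring
      _ ≤ wt i ω0 * ‖dft p a ω0‖ := mul_le_mul h3 hω5 (by positivity) (by linarith)
      _ ≤ t := h2
  · rw [div_le_iff₀ hsp]
    have h2 : S.Nonempty := by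
      rw [← Finset.card_pos]
      omega
    obtain ⟨ω, hω⟩ := h2
    rw [← hSt ω hω, hFT]
    have h3 := (wt_bounds hp0 i ω)
    have h4 := norm_dft_le p a ha1 ω
    have h5 : (1 : ℝ) ≤ Real.sqrt p := by
      rw [Real.one_le_sqrt]
      exact_mod_cast hp0
    calc wt i ω * ‖dft p a ω‖ ≤ 1 * (p : ℝ) := mul_le_mul h3.2 h4 (norm_nonneg _) (by norm_num)
      _ = p * 1 := by ring
      _ ≤ p * Real.sqrt p := mul_le_mul_of_nonneg_left h5 hp'.le
  · intro ω hω
    have h2 := hSt ω.1 (hS'm ω hω)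
    rw [hFT, wt_eq] at h2
    rw [← h2]
    have h3 : (0 : ℝ) < 1 + ((i ω : ℕ) : ℝ) / p := by positivity
    field_simp

open Classical in
theorem ncard_sum {I : Type} [Fintype I] (P : I → Prop) :
    {i | P i}.ncard = ∑ i, if P i then 1 else 0 := by
  rw [Set.ncard_eq_toFinset_card', Set.toFinset_ofPred, Finset.card_filter]

theorem ncard_prod {I J : Type} [Fintype I] [Fintype J] (P : I × J → Prop) :
    {q | P q}.ncard = ∑ t, {i | P (i, t)}.ncard := by
  classical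
  rw [ncard_sum, Fintype.sum_prod_type_right]
  exact Finset.sum_congr rfl fun t _ => (ncard_sum fun i => P (i, t)).symm

/-- the constant -/
noncomputable def KK (C : ℝ) : ℝ := 8 * (241 : ℝ) ^ (1 / 16 : ℝ) * (20 * C) ^ (1 / 32 : ℝ)

theorem one_le_KK {C : ℝ} (hC : 1 ≤ C) : 1 ≤ KK C := by
  unfold KK
  have h1 : (1 : ℝ) ≤ (241 : ℝ) ^ (1 / 16 : ℝ) := Real.one_le_rpow (by norm_num) (by norm_num)
  have h2 : (1 : ℝ) ≤ (20 * C) ^ (1 / 32 : ℝ) := Real.one_le_rpow (by linarith) (by norm_num)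
  have h3 : (1 : ℝ) ≤ 8 * (241 : ℝ) ^ (1 / 16 : ℝ) := by linarith
  exact one_le_mul_of_one_le_of_one_le h3 h2

theorem KK_pow {C r : ℝ} (hC : 1 ≤ C) (hr : 0 < r) (p : ℕ) :
    KK C ^ p * r ^ ((1 / 32 : ℝ) * p) =
      8 ^ p * ((241 : ℝ) ^ (1 / 16 : ℝ) * (20 * C * r) ^ (1 / 32 : ℝ)) ^ p := by
  unfold KK
  rw [Real.rpow_mul hr.le, Real.rpow_natCast, ← mul_pow, ← mul_pow,
    Real.mul_rpow (by linarith : (0 : ℝ) ≤ 20 * C) hr.le]
  congr 1
  ring

theorem del_pow {C r : ℝ} (hC : 1 ≤ C) (hr : 0 < r) (p : ℕ) :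
    (241 * Real.sqrt (20 * C * r)) ^ ((p : ℝ) / 16) =
      ((241 : ℝ) ^ (1 / 16 : ℝ) * (20 * C * r) ^ (1 / 32 : ℝ)) ^ p := by
  have h0 : (0 : ℝ) ≤ 20 * C * r := by positivity
  have h1 : (p : ℝ) / 16 = (1 / 16 : ℝ) * p := by ring
  rw [h1, Real.rpow_mul (by positivity), Real.rpow_natCast, Real.mul_rpow (by norm_num)
    (Real.sqrt_nonneg _), Real.sqrt_eq_rpow, ← Real.rpow_mul h0]
  norm_num

theorem four_pow (p : ℕ) : (p : ℝ) * p + 2 ≤ 4 ^ p ∨ p = 0 := by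
  rcases Nat.eq_zero_or_pos p with h | h
  · exact Or.inr h
  · left
    have h1 : p + 1 ≤ 2 ^ p := Nat.lt_two_pow_self
    have h2 : ((p : ℝ) + 1) ≤ 2 ^ p := by exact_mod_cast h1
    have h3 : (1 : ℝ) ≤ p := by exact_mod_cast h
    have h4 : (4 : ℝ) ^ p = 2 ^ p * 2 ^ p := by
      rw [← mul_pow]
      norm_num
    rw [h4]
    nlinarith

/-- the count for one time -/
theorem one_t (hP : Stmt_PARS) (hCnt : Stmt_CNT) (D : Pats) (T : XX D → XX D)
    (d : H3.MD.CompatMetric (XX D)) (C : ℝ) (φ : HH → ℝ) (hC : 1 ≤ C)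
    (hφ1 : ∀ x : XX D, 0 ≤ φ x ∧ φ x ≤ (x.1 0 0 0 : ℝ) ∧ (x.1 0 0 0 : ℝ) - 1 / 10 ≤ φ x)
    (hφ2 : ∀ x y : XX D, |φ x.1 - φ y.1| ≤ C * d.d x y)
    (p : ℕ) (hp : p.Prime) (hp16 : 16 ≤ p) (x : (Om p → Fin p) → XX D)
    (hx : ∀ i, T^[p] (x i) = x i)
    (htie : ∀ i, ∃ (τ : ℝ) (S : Finset (Om p)), p ≤ 8 * S.card ∧ 1 / 20 ≤ τ ∧
      τ ≤ p ∧ ∀ ω ∈ S, ‖dft p (fun k => φ (T^[k] (x i)).1) ω.1‖ / Real.sqrt p =
        τ * (1 + ((i ω : ℕ) : ℝ) / p)) (y : ℕ → XX D) (r : ℝ) (hr : 1 / (p : ℝ) ≤ r)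
    (t : ℕ) :
    ({i | ∑ k ∈ Finset.range p, d.d (T^[k] (T^[t] (x i))) (y k) ≤ p * r}.ncard : ℝ) ≤
      KK C ^ p * r ^ ((1 / 32 : ℝ) * p) * (p : ℝ) ^ Fintype.card (Om p) := by
  have hp0 : 0 < p := by omega
  have hp' : (0 : ℝ) < p := by exact_mod_cast hp0
  have hsp : 0 < Real.sqrt p := Real.sqrt_pos.2 hp'
  have hr0 : 0 < r := lt_of_lt_of_le (by positivity) hr
  have hC0 : 0 < C := by linarith
  set B : ℝ := (241 : ℝ) ^ (1 / 16 : ℝ) * (20 * C * r) ^ (1 / 32 : ℝ) with hB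
  set δ : ℝ := Real.sqrt (20 * C * r) with hδ
  have hδ0 : 0 < δ := Real.sqrt_pos.2 (by positivity)
  have hδ2 : δ ^ 2 = 20 * C * r := Real.sq_sqrt (by positivity)
  have hB0 : 0 < B := by positivity
  rw [KK_pow hC hr0]
  rcases le_or_gt δ (1 / 40) with hδ1 | hδ1
  · set f : (Om p → Fin p) → Om p → ℝ := fun i ω =>
      ‖dft p (fun k => φ (T^[k] (x i)).1) ω.1‖ / Real.sqrt p with hf
    set Y : Om p → ℝ := fun ω => ‖dft p (fun k => φ (y k).1) ω.1‖ / Real.sqrt p with hY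
    have hsub : {i | ∑ k ∈ Finset.range p, d.d (T^[k] (T^[t] (x i))) (y k) ≤ p * r} ⊆
        {i | 20 * {ω | δ ≤ |f i ω - Y ω|}.ncard ≤ p} := by
      intro i hi
      have hi' : ∑ k ∈ Finset.range p, d.d (T^[k] (T^[t] (x i))) (y k) ≤ p * r := hi
      set a : ℕ → ℝ := fun k => φ (T^[k] (x i)).1 with ha
      set b : ℕ → ℝ := fun k => φ (y k).1 with hb
      have hb1 : ∀ z : XX D, 0 ≤ φ z.1 ∧ φ z.1 ≤ 1 := fun z =>
        ⟨(hφ1 z).1, (hφ1 z).2.1.trans (z.1 0 0 0).2.2⟩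
      have hper : ∀ k, a (k + p) = a k := by
        intro k
        simp only [ha]
        rw [Function.iterate_add_apply, hx]
      have h1 := sum_sq hP p hp (by omega) (fun k => a (k + t)) b (fun k => hb1 _) (fun k => hb1 _)
      have h2 : ∑ k ∈ Finset.range p, |a (k + t) - b k| ≤ C * (p * r) := by
        refine (Finset.sum_le_sum fun k _ => ?_).trans
          ((Finset.mul_sum _ _ _).symm.le.trans (mul_le_mul_of_nonneg_left hi' hC0.le))
        have h3 := hφ2 (T^[k] (T^[t] (x i))) (y k)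
        rw [← Function.iterate_add_apply] at h3 ⊢
        exact h3
      have h3 : ∑ ω : Om p, (‖dft p a ω.1‖ - ‖dft p b ω.1‖) ^ 2 ≤ p * (C * (p * r)) := by
        have h4 : ∑ ω : Om p, (‖dft p a ω.1‖ - ‖dft p b ω.1‖) ^ 2 =
            ∑ ω ∈ (Finset.range p).filter (fun ω => 1 ≤ ω ∧ 2 * ω < p),
              (‖dft p a ω‖ - ‖dft p b ω‖) ^ 2 :=
          Finset.sum_coe_sort _ fun ω => (‖dft p a ω‖ - ‖dft p b ω‖) ^ 2
        rw [h4]
        refine (Finset.sum_le_sum_of_subset_of_nonneg (Finset.filter_subset _ _)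
          fun ω _ _ => sq_nonneg _).trans ?_
        have h5 : ∑ ω ∈ Finset.range p, (‖dft p a ω‖ - ‖dft p b ω‖) ^ 2 =
            ∑ ω ∈ Finset.range p, (‖dft p (fun k => a (k + t)) ω‖ - ‖dft p b ω‖) ^ 2 :=
          Finset.sum_congr rfl fun ω _ => by rw [dft_shift p hp0 a hper]
        rw [h5]
        exact h1.trans (mul_le_mul_of_nonneg_left h2 hp'.le)
      have h4 : ∑ ω : Om p, (f i ω - Y ω) ^ 2 ≤ C * (p * r) := by
        have h5 : ∀ ω : Om p, (f i ω - Y ω) ^ 2 = (1 / p) * (‖dft p a ω.1‖ - ‖dft p b ω.1‖) ^ 2 := by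
          intro ω
          simp only [hf, hY]
          rw [← sub_div, div_pow, Real.sq_sqrt hp'.le]
          ring
        rw [Finset.sum_congr rfl fun ω _ => h5 ω, ← Finset.mul_sum]
        refine (mul_le_mul_of_nonneg_left h3 (by positivity)).trans ?_
        rw [← mul_assoc, one_div, inv_mul_cancel₀ hp'.ne', one_mul]
      have h5 : ({ω | δ ≤ |f i ω - Y ω|}.ncard : ℝ) * δ ^ 2 ≤ ∑ ω : Om p, (f i ω - Y ω) ^ 2 := by
        classical
        rw [ncard_sum]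
        push_cast
        rw [Finset.sum_mul]
        refine Finset.sum_le_sum fun ω _ => ?_
        split_ifs with h6
        · rw [one_mul, ← sq_abs (f i ω - Y ω)]
          exact pow_le_pow_left₀ hδ0.le h6 2
        · rw [zero_mul]
          exact sq_nonneg _
      have h6 := h5.trans h4
      rw [hδ2] at h6
      have h7 : (20 * ({ω | δ ≤ |f i ω - Y ω|}.ncard : ℝ)) ≤ p := by
        have h8 : 0 < C * r := by positivity
        have h9 : (20 * ({ω | δ ≤ |f i ω - Y ω|}.ncard : ℝ)) * (C * r) ≤ p * (C * r) := by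
          calc (20 * ({ω | δ ≤ |f i ω - Y ω|}.ncard : ℝ)) * (C * r)
              = ({ω | δ ≤ |f i ω - Y ω|}.ncard : ℝ) * (20 * C * r) := by ring
            _ ≤ C * (p * r) := h6
            _ = p * (C * r) := by ring
        exact le_of_mul_le_mul_right h9 h8
      show 20 * {ω | δ ≤ |f i ω - Y ω|}.ncard ≤ p
      exact_mod_cast h7
    have h1 : 1 / (p : ℝ) ≤ δ := by
      have h2 : (1 / (p : ℝ)) ^ 2 ≤ δ ^ 2 := by
        rw [hδ2]
        have h3 : (1 / (p : ℝ)) ^ 2 ≤ 1 / (p : ℝ) := by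
          rw [sq]
          have h4 : 1 / (p : ℝ) ≤ 1 := by
            rw [div_le_one hp']
            exact_mod_cast hp0
          exact (mul_le_mul_of_nonneg_left h4 (by positivity)).trans (by rw [mul_one])
        nlinarith
      exact le_of_sq_le_sq h2 hδ0.le
    have h2 := hCnt p p (Om p) f hp0 hp0 (card_Om p) htie Y δ h1 hδ1
    have h3 : ({i | ∑ k ∈ Finset.range p, d.d (T^[k] (T^[t] (x i))) (y k) ≤ p * r}.ncard : ℝ) ≤
        ({i | 20 * {ω | δ ≤ |f i ω - Y ω|}.ncard ≤ p}.ncard : ℝ) := by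
      exact_mod_cast Set.ncard_le_ncard hsub (Set.toFinite _)
    refine h3.trans (h2.trans ?_)
    rw [hδ, del_pow hC hr0, ← hB, ← hδ]
    refine mul_le_mul_of_nonneg_right (mul_le_mul_of_nonneg_right ?_ (by positivity)) (by positivity)
    have h4 : (p : ℝ) / δ ≤ p * p := by
      rw [div_le_iff₀ hδ0]
      calc (p : ℝ) = p * p * (1 / p) := by field_simp
        _ ≤ p * p * δ := mul_le_mul_of_nonneg_left h1 (by positivity)
    have h5 : (p : ℝ) * p + 2 ≤ 4 ^ p := (four_pow p).resolve_right hp0.ne'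
    have h6 : (8 : ℝ) ^ p = 4 ^ p * 2 ^ p := by
      rw [← mul_pow]
      norm_num
    rw [h6]
    exact mul_le_mul_of_nonneg_right (by linarith) (by positivity)
  · have h1 : (1 : ℝ) / 8 ≤ (20 * C * r) ^ (1 / 32 : ℝ) := by
      have h2 : (1 / 8 : ℝ) ^ 32 ≤ 20 * C * r := by
        rw [← hδ2]
        have h3 : (1 / 40 : ℝ) ^ 2 ≤ δ ^ 2 := pow_le_pow_left₀ (by norm_num) hδ1.le 2
        refine le_trans ?_ h3
        norm_num
      have h3 : ((1 / 8 : ℝ) ^ 32) ^ (1 / 32 : ℝ) = 1 / 8 := by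
        rw [← Real.rpow_natCast, ← Real.rpow_mul (by norm_num)]
        norm_num
      rw [← h3]
      exact Real.rpow_le_rpow (by positivity) h2 (by norm_num)
    have h2 : (1 : ℝ) ≤ (241 : ℝ) ^ (1 / 16 : ℝ) := Real.one_le_rpow (by norm_num) (by norm_num)
    have h3 : 1 ≤ 8 * B := by
      have h4 : 1 / 8 ≤ B := by
        calc (1 : ℝ) / 8 = 1 * (1 / 8) := by ring
          _ ≤ B := mul_le_mul h2 h1 (by norm_num) (by positivity)
      linarith
    have h4 : 1 ≤ 8 ^ p * B ^ p := by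
      rw [← mul_pow]
      exact one_le_pow₀ h3
    have h5 : {i | ∑ k ∈ Finset.range p, d.d (T^[k] (T^[t] (x i))) (y k) ≤ p * r}.ncard ≤
        p ^ Fintype.card (Om p) := by
      refine (Set.ncard_le_ncard (Set.subset_univ _) (Set.toFinite _)).trans ?_
      rw [Set.ncard_univ, Nat.card_eq_fintype_card, Fintype.card_fun, Fintype.card_fin]
    calc ({i | ∑ k ∈ Finset.range p, d.d (T^[k] (T^[t] (x i))) (y k) ≤ p * r}.ncard : ℝ)
        ≤ 1 * (p : ℝ) ^ Fintype.card (Om p) := by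
          rw [one_mul]
          exact_mod_cast h5
      _ ≤ _ := mul_le_mul_of_nonneg_right h4 (by positivity)

end FROST

theorem FROST_thm (hTie : Stmt_TIE) (hL : Stmt_LIPF) (hP : Stmt_PARS) (hCnt : Stmt_CNT) :
    Stmt_FROST := by
  intro D T hT d
  obtain ⟨C, φ, hC, hφ, hφ1, hφ2⟩ := hL D d
  refine ⟨FROST.KK C, FROST.one_le_KK hC, fun p hp hp16 => ?_⟩
  have hp0 : 0 < p := by omega
  have : NeZero p := ⟨hp0.ne'⟩
  choose x hx htie using FROST.tie hTie hP D T hT φ hφ hφ1 p hp hp16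
  refine ⟨(FROST.Om p → Fin p) × ZMod p, inferInstance, ⟨(fun _ => ⟨0, hp0⟩, 0)⟩,
    fun q => T^[q.2.val] (x q.1), Equiv.prodCongr (Equiv.refl _) (Equiv.addRight 1), ?_, ?_⟩
  · rintro ⟨i, t⟩
    show T^[(t + 1).val] (x i) = T (T^[t.val] (x i))
    rw [← Function.iterate_succ_apply' T]
    have hper : Function.IsPeriodicPt T p (x i) := hx i
    have h1 : (t + 1).val = (t.val + 1) % p := by
      rw [ZMod.val_add]
      congr 2
      rcases Nat.lt_or_ge 1 p with h | h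
      · have : Fact (1 < p) := ⟨h⟩
        rw [ZMod.val_one]
      · omega
    rw [h1]
    exact hper.iterate_mod_apply _
  · intro y r hr _
    rw [FROST.ncard_prod]
    push_cast
    have h1 : ∀ t : ZMod p, ({i | ∑ k ∈ Finset.range p, d.d (T^[k] (T^[t.val] (x i))) (y k) ≤
        p * r}.ncard : ℝ) ≤ FROST.KK C ^ p * r ^ ((1 / 32 : ℝ) * p) *
          (p : ℝ) ^ Fintype.card (FROST.Om p) := fun t =>
      FROST.one_t hP hCnt D T d C φ hC hφ1 hφ2 p hp hp16 x hx htie y r hr t.val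
    refine (Finset.sum_le_sum fun t _ => h1 t).trans ?_
    rw [Finset.sum_const, Finset.card_univ, ZMod.card, Fintype.card_prod, Fintype.card_fun,
      Fintype.card_fin, ZMod.card, nsmul_eq_mul]
    push_cast
    apply le_of_eq
    ring

end Pool.Agent.DV
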