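import Pool.Agent.DV.Stmts

/-!
# FSYS: the system of the gaps of weighted Fourier coefficients
-/

set_option autoImplicit false

open Set Topology Filter

namespace Pool.Agent.DV

namespace FSYS

/-! ### The roots of unity -/

section Root

variable {N : ℕ} [NeZero N]

/-- The root of unity `exp (2 π i r / N)`. -/
noncomputable def er (r : ZMod N) : ℂ := ZMod.stdAddChar r

theorem er_add (r s : ZMod N) : er (r + s) = er r * er s := AddChar.map_add_eq_mul _ _ _

theorem norm_er (r : ZMod N) : ‖er r‖ = 1 := Circle.norm_coe _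

theorem er_int (k : ℤ) : er (k : ZMod N) = Complex.exp (2 * Real.pi * Complex.I * k / N) :=
  ZMod.stdAddChar_coe k

theorem er_nat (k : ℕ) : er (k : ZMod N) = Complex.exp (2 * Real.pi * Complex.I * k / N) := by
  have h := er_int (N := N) (k : ℤ)
  push_cast at h
  exact h

theorem conj_er_mul (r : ZMod N) : (starRingEnd ℂ) (er r) * er r = 1 := by
  rw [← Complex.normSq_eq_conj_mul_self, Complex.normSq_eq_norm_sq, norm_er]
  norm_num

theorem er_neg (r : ZMod N) : er (-r) = (starRingEnd ℂ) (er r) := by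
  have h : er r * er (-r) = 1 := by
    rw [← er_add, add_neg_cancel]
    exact AddChar.map_zero_eq_one _
  have h2 := conj_er_mul r
  calc er (-r) = (starRingEnd ℂ) (er r) * er r * er (-r) := by rw [h2, one_mul]
    _ = (starRingEnd ℂ) (er r) := by rw [mul_assoc, h, mul_one]

/-- The bump function in the direction `r`. -/
noncomputable def psi (κ : ℝ) (r : ZMod N) (c : ℂ) : ℝ :=
  max 0 ((c * (starRingEnd ℂ) (er r)).re - ‖c‖ * κ)

theorem psi_nonneg (κ : ℝ) (r : ZMod N) (c : ℂ) : 0 ≤ psi κ r c := le_max_left _ _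

theorem psi_cont (κ : ℝ) (r : ZMod N) : Continuous (psi κ r) := by
  unfold psi
  fun_prop

theorem psi_rot (κ : ℝ) (r s : ZMod N) (c : ℂ) : psi κ (r + s) (er s * c) = psi κ r c := by
  rw [psi, psi, er_add, norm_mul, norm_er, one_mul, map_mul]
  have h : er s * c * ((starRingEnd ℂ) (er r) * (starRingEnd ℂ) (er s)) =
      c * (starRingEnd ℂ) (er r) := by
    have h2 := conj_er_mul s
    calc er s * c * ((starRingEnd ℂ) (er r) * (starRingEnd ℂ) (er s))
        = c * (starRingEnd ℂ) (er r) * ((starRingEnd ℂ) (er s) * er s) := by ring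
      _ = c * (starRingEnd ℂ) (er r) := by rw [h2, mul_one]
  rw [h]

theorem re_mul_conj (a b : ℂ) : ‖a - b‖ ^ 2 = ‖a‖ ^ 2 + ‖b‖ ^ 2 - 2 * (a * (starRingEnd ℂ) b).re := by
  rw [← Complex.normSq_eq_norm_sq, Complex.normSq_sub, Complex.normSq_eq_norm_sq,
    Complex.normSq_eq_norm_sq]

end Root

section Two

variable (p : ℕ) [hp : Fact p.Prime]

instance : NeZero (2 * p) := ⟨by
  have := hp.out.pos
  omega⟩

/-- The parity. -/
def par (p : ℕ) : ZMod (2 * p) →+* ZMod 2 := ZMod.castHom (dvd_mul_right 2 p) (ZMod 2)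

/-- The threshold. -/
noncomputable def kap : ℝ := 1 - Real.sin (Real.pi / p) ^ 2 / 2

variable {p}

theorem re_er_le (h2 : 2 < p) {x : ZMod (2 * p)} (hx : x ≠ 0) (hpar : par p x = 0) :
    (er x).re ≤ Real.cos (2 * Real.pi / p) := by
  have hpp : (0 : ℝ) < p := by exact_mod_cast hp.out.pos
  have h1 : Even x.val := by
    rw [← ZMod.natCast_eq_zero_iff_even, ZMod.natCast_val]
    exact hpar
  obtain ⟨m, hm⟩ := h1
  have hm0 : 0 < m := by
    rcases Nat.eq_zero_or_pos m with h | h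
    · exfalso
      apply hx
      rw [← ZMod.val_eq_zero, hm, h]
    · exact h
  have hmp : m < p := by
    have := ZMod.val_lt x
    omega
  have h3 : (er x).re = Real.cos (2 * Real.pi * m / p) := by
    have h4 : x = ((x.val : ℕ) : ZMod (2 * p)) := (ZMod.natCast_zmod_val x).symm
    rw [h4, er_nat]
    have h5 : 2 * (Real.pi : ℂ) * Complex.I * ((x.val : ℕ) : ℂ) / ((2 * p : ℕ) : ℂ) =
        ((2 * Real.pi * m / p : ℝ) : ℂ) * Complex.I := by
      rw [hm]
      push_cast
      have : (p : ℂ) ≠ 0 := by exact_mod_cast hp.out.ne_zero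
      field_simp
      ring
    rw [h5, Complex.exp_ofReal_mul_I_re]
  rw [h3]
  have key : ∀ m : ℕ, 0 < m → 2 * m ≤ p →
      Real.cos (2 * Real.pi * m / p) ≤ Real.cos (2 * Real.pi / p) := by
    intro m hm0 hmp
    have hm1 : (1 : ℝ) ≤ m := by exact_mod_cast hm0
    have hm2 : (2 : ℝ) * m ≤ p := by exact_mod_cast hmp
    apply Real.cos_le_cos_of_nonneg_of_le_pi
    · positivity
    · rw [div_le_iff₀ hpp]
      nlinarith [Real.pi_pos]
    · rw [div_le_div_iff_of_pos_right hpp]
      nlinarith [Real.pi_pos]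
  rcases le_or_gt (2 * m) p with h | h
  · exact key m hm0 h
  · have h6 := key (p - m) (by omega) (by omega)
    rw [Nat.cast_sub hmp.le] at h6
    have h7 : 2 * Real.pi * ((p : ℝ) - m) / p = 2 * Real.pi - 2 * Real.pi * m / p := by
      field_simp
    rw [h7, Real.cos_two_pi_sub] at h6
    exact h6

theorem psi_sep (h2 : 2 < p) {r r' : ZMod (2 * p)} (hr : r ≠ r') (hpar : par p r = par p r')
    (c : ℂ) : psi (kap p) r c = 0 ∨ psi (kap p) r' c = 0 := by
  by_contra hcon
  push Not at hcon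
  have hpos : ∀ s : ZMod (2 * p), psi (kap p) s c ≠ 0 →
      ‖c‖ * kap p < (c * (starRingEnd ℂ) (er s)).re := by
    intro s hs
    rw [psi] at hs
    by_contra h
    exact hs (max_eq_left (by linarith))
  have ha := hpos r hcon.1
  have hb := hpos r' hcon.2
  have hpp : (0 : ℝ) < p := by exact_mod_cast hp.out.pos
  have hsin : 0 < Real.sin (Real.pi / p) := by
    apply Real.sin_pos_of_pos_of_lt_pi
    · positivity
    · rw [div_lt_iff₀ hpp]
      have : (1 : ℝ) < p := by exact_mod_cast hp.out.one_lt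
      nlinarith [Real.pi_pos]
  obtain ⟨s, hs⟩ : ∃ s, s = Real.sin (Real.pi / p) := ⟨_, rfl⟩
  have hk : kap p = 1 - s ^ 2 / 2 := by rw [kap, hs]
  rw [← hs] at hsin
  have hc : 0 < ‖c‖ := by
    rw [norm_pos_iff]
    rintro rfl
    rw [norm_zero, zero_mul, zero_mul, Complex.zero_re] at ha
    exact lt_irrefl _ ha
  -- the distances to the two directions
  have hd : ∀ s' : ZMod (2 * p), ‖c‖ * kap p < (c * (starRingEnd ℂ) (er s')).re →
      ‖c - ‖c‖ * er s'‖ < ‖c‖ * s := by
    intro s' h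
    have h1 := re_mul_conj c (‖c‖ * er s')
    have h3 : (c * (starRingEnd ℂ) ((‖c‖ : ℂ) * er s')).re =
        ‖c‖ * (c * (starRingEnd ℂ) (er s')).re := by
      rw [map_mul, Complex.conj_ofReal]
      have : c * ((‖c‖ : ℂ) * (starRingEnd ℂ) (er s')) =
          (‖c‖ : ℂ) * (c * (starRingEnd ℂ) (er s')) := by ring
      rw [this, Complex.re_ofReal_mul]
    rw [h3, norm_mul, norm_er, mul_one, Complex.norm_real, norm_norm] at h1
    have h4 : ‖c - ‖c‖ * er s'‖ ^ 2 < (‖c‖ * s) ^ 2 := by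
      rw [h1]
      rw [hk] at h
      nlinarith
    exact lt_of_pow_lt_pow_left₀ 2 (by positivity) h4
  have h5 : ‖(‖c‖ : ℂ) * er r - ‖c‖ * er r'‖ < 2 * (‖c‖ * s) := by
    have h6 := norm_sub_le_norm_sub_add_norm_sub ((‖c‖ : ℂ) * er r) c (‖c‖ * er r')
    rw [norm_sub_rev ((‖c‖ : ℂ) * er r) c] at h6
    have h7 := hd r ha
    have h8 := hd r' hb
    linarith
  rw [← mul_sub, norm_mul, Complex.norm_real, norm_norm] at h5
  have h9 : ‖er r - er r'‖ < 2 * s := by
    have : ‖c‖ * ‖er r - er r'‖ < ‖c‖ * (2 * s) := by linarith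
    exact lt_of_mul_lt_mul_left this hc.le
  have h10 := re_mul_conj (er r) (er r')
  rw [norm_er, norm_er, ← er_neg, ← er_add] at h10
  have h11 : (er (r + -r')).re ≤ Real.cos (2 * Real.pi / p) := by
    apply re_er_le h2
    · rw [← sub_eq_add_neg]
      exact sub_ne_zero.2 hr
    · rw [← sub_eq_add_neg, map_sub, hpar, sub_self]
  have h12 : Real.cos (2 * Real.pi / p) = 1 - 2 * s ^ 2 := by
    rw [hs, mul_div_assoc, Real.cos_two_mul, Real.cos_sq']
    ring
  have h13 : ‖er r - er r'‖ ^ 2 < (2 * s) ^ 2 := pow_lt_pow_left₀ h9 (norm_nonneg _) two_ne_zero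
  nlinarith

theorem kap_lt (h2 : 2 < p) : kap p < Real.cos (Real.pi / (2 * p)) := by
  have hpp : (0 : ℝ) < p := by exact_mod_cast hp.out.pos
  have h3 : (3 : ℝ) ≤ p := by exact_mod_cast h2
  obtain ⟨x, hx⟩ : ∃ x, x = Real.pi / (2 * p) := ⟨_, rfl⟩
  have hx0 : 0 < x := by
    rw [hx]
    positivity
  have hx1 : x ≤ Real.pi / 6 := by
    rw [hx]
    apply div_le_div_of_nonneg_left Real.pi_pos.le (by norm_num)
    linarith
  have hcos : Real.sqrt 3 / 2 ≤ Real.cos x := by
    rw [← Real.cos_pi_div_six]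
    apply Real.cos_le_cos_of_nonneg_of_le_pi hx0.le _ hx1
    linarith [Real.pi_pos]
  have hcos2 : 3 / 4 ≤ Real.cos x ^ 2 := by
    have h4 : (Real.sqrt 3 / 2) ^ 2 ≤ Real.cos x ^ 2 := pow_le_pow_left₀ (by positivity) hcos 2
    rw [div_pow, Real.sq_sqrt (by norm_num)] at h4
    linarith
  have hcos0 : 0 < Real.cos x := by
    have : 0 < Real.sqrt 3 := Real.sqrt_pos.2 (by norm_num)
    linarith
  have hlt : Real.cos x < 1 := by
    have h5 : Real.cos x < Real.cos 0 := by
      apply Real.cos_lt_cos_of_nonneg_of_le_pi le_rfl _ hx0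
      linarith [Real.pi_pos]
    rwa [Real.cos_zero] at h5
  have h6 : Real.sin (Real.pi / p) ^ 2 = 4 * (1 - Real.cos x ^ 2) * Real.cos x ^ 2 := by
    have h7 : Real.pi / p = 2 * x := by
      rw [hx]
      field_simp
    rw [h7, Real.sin_two_mul, mul_pow, mul_pow, Real.sin_sq]
    ring
  rw [kap, h6, ← hx]
  have h8 : 0 < (1 - Real.cos x) * (2 * (1 + Real.cos x) * Real.cos x ^ 2 - 1) := by
    apply mul_pos
    · linarith
    · nlinarith
  nlinarith

theorem exists_psi (h2 : 2 < p) {c : ℂ} (hc : c ≠ 0) : ∃ r : ZMod (2 * p), psi (kap p) r c ≠ 0 := by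
  have hpp : (0 : ℝ) < p := by exact_mod_cast hp.out.pos
  obtain ⟨k, hk⟩ : ∃ k : ℤ, k = round (c.arg * p / Real.pi) := ⟨_, rfl⟩
  refine ⟨(k : ZMod (2 * p)), ?_⟩
  have h1 : |c.arg - Real.pi * k / p| ≤ Real.pi / (2 * p) := by
    have h3 := abs_sub_round (c.arg * p / Real.pi)
    rw [← hk] at h3
    have h4 : c.arg - Real.pi * k / p = (c.arg * p / Real.pi - k) * (Real.pi / p) := by
      field_simp
    rw [h4, abs_mul, abs_of_pos (div_pos Real.pi_pos hpp)]
    calc |c.arg * p / Real.pi - k| * (Real.pi / p) ≤ 1 / 2 * (Real.pi / p) :=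
          mul_le_mul_of_nonneg_right h3 (div_pos Real.pi_pos hpp).le
      _ = Real.pi / (2 * p) := by
          field_simp
  have h5 : (c * (starRingEnd ℂ) (er (k : ZMod (2 * p)))).re =
      ‖c‖ * Real.cos (c.arg - Real.pi * k / p) := by
    have h6 : c * (starRingEnd ℂ) (er (k : ZMod (2 * p))) =
        (‖c‖ : ℂ) * Complex.exp ((c.arg - Real.pi * k / p : ℝ) * Complex.I) := by
      rw [← er_neg, ← Int.cast_neg, er_int]
      conv_lhs => rw [← Complex.norm_mul_exp_arg_mul_I c]
      rw [mul_assoc, ← Complex.exp_add]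
      congr 2
      push_cast
      have : (p : ℂ) ≠ 0 := by exact_mod_cast hp.out.ne_zero
      field_simp
      ring
    rw [h6, Complex.re_ofReal_mul, Complex.exp_ofReal_mul_I_re]
  have h7 : Real.cos (Real.pi / (2 * p)) ≤ Real.cos (c.arg - Real.pi * k / p) := by
    rw [← Real.cos_abs (c.arg - Real.pi * k / p)]
    apply Real.cos_le_cos_of_nonneg_of_le_pi (abs_nonneg _) _ h1
    rw [div_le_iff₀ (by positivity)]
    have : (1 : ℝ) ≤ p := by exact_mod_cast hp.out.pos
    nlinarith [Real.pi_pos]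
  have h8 := kap_lt h2
  have h9 : 0 < ‖c‖ := norm_pos_iff.2 hc
  have h10 : 0 < (c * (starRingEnd ℂ) (er (k : ZMod (2 * p)))).re - ‖c‖ * kap p := by
    rw [h5]
    nlinarith
  rw [psi, max_eq_right h10.le]
  exact h10.ne'

end Two

end FSYS

open FSYS

/-- FSYS. -/
theorem FSYS_thm (hG : Stmt_GAPP) : Stmt_FSYS := by
  classical
  intro p hp n f w h2 hw hf hfs
  -- the frequencies
  let K : Type := {ω : Fin p // 1 ≤ (ω : ℕ) ∧ 2 * (ω : ℕ) < p}
  have : NeZero p := ⟨hp.out.ne_zero⟩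
  obtain ⟨G1, G2, G3, G4, -⟩ := hG K
  let W : (ZMod p → ℝ) → K → ℝ := fun z k => w (k.1 : ℕ) * ‖f z (k.1 : ℕ)‖
  let mn : {A : Finset K // A.Nonempty ∧ A.card ≤ n} → K := fun A => A.1.min' A.2.1
  let J : Type := {A : Finset K // A.Nonempty ∧ A.card ≤ n} × ZMod (2 * p)
  let act : J → J := fun i => (i.1, i.2 + ((2 * ((mn i.1).1 : ℕ) : ℕ) : ZMod (2 * p)))
  let θ : J → (ZMod p → ℝ) → ℝ := fun i z => gap i.1.1 (W z) *
    psi (kap p) i.2 (f z ((mn i.1).1 : ℕ))
  have hiter : ∀ (m : ℕ) (i : J), act^[m] i =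
      (i.1, i.2 + ((m * (2 * ((mn i.1).1 : ℕ)) : ℕ) : ZMod (2 * p))) := by
    intro m
    induction m with
    | zero =>
      intro i
      simp
    | succ m ih =>
      intro i
      rw [Function.iterate_succ_apply', ih]
      change (i.1, _) = (i.1, _)
      congr 1
      push_cast
      ring
  have hsh : ∀ z ∈ EE p, W (sh z) = W z := by
    intro z hz
    funext k
    change w _ * ‖f (sh z) _‖ = w _ * ‖f z _‖
    rw [hfs z hz, norm_mul]
    have h3 : 2 * (Real.pi : ℂ) * Complex.I * ((k.1 : ℕ) : ℂ) / (p : ℂ) =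
        ((2 * Real.pi * (k.1 : ℕ) / p : ℝ) : ℂ) * Complex.I := by
      push_cast
      ring
    rw [h3, Complex.norm_exp_ofReal_mul_I, one_mul]
  have hfe : ∀ z ∈ EE p, ∀ ω : ℕ, f (sh z) ω = er ((2 * ω : ℕ) : ZMod (2 * p)) * f z ω := by
    intro z hz ω
    rw [hfs z hz, er_nat]
    congr 2
    push_cast
    have : (p : ℂ) ≠ 0 := by exact_mod_cast hp.out.ne_zero
    field_simp
  refine ⟨J, inferInstance, act, θ, ⟨?_, ?_, ?_, ?_, ?_, ?_⟩, ?_⟩
  · -- per
    intro i
    rw [hiter]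
    have h3 : ((p * (2 * ((mn i.1).1 : ℕ)) : ℕ) : ZMod (2 * p)) = 0 := by
      rw [ZMod.natCast_eq_zero_iff]
      exact ⟨((mn i.1).1 : ℕ), by ring⟩
    rw [h3, add_zero]
  · -- free
    intro i h
    have h3 : i.2 + ((2 * ((mn i.1).1 : ℕ) : ℕ) : ZMod (2 * p)) = i.2 := congrArg Prod.snd h
    rw [add_eq_left, ZMod.natCast_eq_zero_iff] at h3
    have h4 := (mn i.1).2
    have h5 := Nat.le_of_dvd (by omega) h3
    omega
  · -- cont
    intro i
    apply ContinuousOn.mul
    · apply (G1 i.1.1).comp_continuousOn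
      rw [continuousOn_pi]
      intro k
      exact continuousOn_const.mul (hf _).norm
    · exact (psi_cont _ _).comp_continuousOn (hf _)
  · -- nonneg
    intro i z _
    exact mul_nonneg (G2 _ _) (psi_nonneg _ _ _)
  · -- equi
    intro i z hz
    change gap i.1.1 (W (sh z)) * psi (kap p) (i.2 + ((2 * ((mn i.1).1 : ℕ) : ℕ) : ZMod (2 * p)))
      (f (sh z) ((mn i.1).1 : ℕ)) = gap i.1.1 (W z) * psi (kap p) i.2 (f z ((mn i.1).1 : ℕ))
    rw [hsh z hz, hfe z hz, psi_rot]
  · -- col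
    have hcol : ∀ i : J, (i.1.1.card - 1) * 2 + (par p i.2).val < 2 * n := by
      intro i
      have h3 := i.1.2.2
      have h4 : 0 < i.1.1.card := Finset.card_pos.2 i.1.2.1
      have h5 := ZMod.val_lt (par p i.2)
      omega
    refine ⟨fun i => ⟨_, hcol i⟩, ?_, ?_⟩
    · intro i
      apply Fin.ext
      change (i.1.1.card - 1) * 2 + (par p (i.2 + ((2 * ((mn i.1).1 : ℕ) : ℕ) : ZMod (2 * p)))).val =
        (i.1.1.card - 1) * 2 + (par p i.2).val
      have h3 : par p ((2 * ((mn i.1).1 : ℕ) : ℕ) : ZMod (2 * p)) = 0 := by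
        rw [map_natCast, ZMod.natCast_eq_zero_iff]
        exact dvd_mul_right _ _
      rw [map_add, h3, add_zero]
    · intro i i' hne hc z _
      have h3 : (i.1.1.card - 1) * 2 + (par p i.2).val =
          (i'.1.1.card - 1) * 2 + (par p i'.2).val := congrArg Fin.val hc
      have h4 : 0 < i.1.1.card := Finset.card_pos.2 i.1.2.1
      have h5 : 0 < i'.1.1.card := Finset.card_pos.2 i'.1.2.1
      have h6 := ZMod.val_lt (par p i.2)
      have h7 := ZMod.val_lt (par p i'.2)
      have h8 : i.1.1.card = i'.1.1.card := by omega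
      have h9 : par p i.2 = par p i'.2 := ZMod.val_injective 2 (by omega)
      by_cases hA : i.1.1 = i'.1.1
      · have hA' : i.1 = i'.1 := Subtype.ext hA
        have hr : i.2 ≠ i'.2 := fun h => hne (Prod.ext hA' h)
        have h10 := psi_sep h2 hr h9 (f z ((mn i.1).1 : ℕ))
        change gap i.1.1 (W z) * psi (kap p) i.2 (f z ((mn i.1).1 : ℕ)) = 0 ∨
          gap i'.1.1 (W z) * psi (kap p) i'.2 (f z ((mn i'.1).1 : ℕ)) = 0
        rw [← hA']
        rcases h10 with h | h
        · left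
          rw [h, mul_zero]
        · right
          rw [h, mul_zero]
      · rcases G4 i.1.1 i'.1.1 (W z) hA h8 with h | h
        · left
          change gap i.1.1 (W z) * _ = 0
          rw [h, zero_mul]
        · right
          change gap i'.1.1 (W z) * _ = 0
          rw [h, zero_mul]
  · -- the ties
    intro z _ hz ⟨ω, hω1, hω2, hω⟩ _
    have hK : Nonempty K := ⟨⟨⟨ω, by omega⟩, hω1, hω2⟩⟩
    obtain ⟨k0, hk0⟩ := Finite.exists_max (W z)
    obtain ⟨t, ht⟩ : ∃ t, t = W z k0 := ⟨_, rfl⟩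
    have htpos : 0 < t := by
      rw [ht]
      refine lt_of_lt_of_le ?_ (hk0 ⟨⟨ω, by omega⟩, hω1, hω2⟩)
      exact mul_pos (hw _) (norm_pos_iff.2 hω)
    let A : Finset K := Finset.univ.filter fun k => W z k = t
    have hA : ∀ k, k ∈ A ↔ W z k = t := by
      intro k
      rw [Finset.mem_filter]
      exact ⟨fun h => h.2, fun h => ⟨Finset.mem_univ _, h⟩⟩
    have hAn : A.Nonempty := ⟨k0, (hA k0).2 ht.symm⟩
    have hcard : n + 1 ≤ A.card := by
      by_contra hlt
      let A' : {A : Finset K // A.Nonempty ∧ A.card ≤ n} := ⟨A, hAn, by omega⟩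
      have h3 : gap A (W z) ≠ 0 := by
        rw [G3]
        intro k hk l hl
        rw [(hA k).1 hk]
        refine lt_of_le_of_ne ?_ fun h => hl ((hA l).2 h)
        rw [ht]
        exact hk0 l
      have h4 : f z ((mn A').1 : ℕ) ≠ 0 := by
        intro h0
        have h5 : W z (mn A') = t := (hA _).1 (A.min'_mem hAn)
        have h6 : W z (mn A') = 0 := by
          change w _ * ‖f z ((mn A').1 : ℕ)‖ = 0
          rw [h0, norm_zero, mul_zero]
        rw [h6] at h5
        exact htpos.ne h5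
      obtain ⟨r, hr⟩ := exists_psi h2 h4
      have h7 := hz (A', r)
      exact mul_ne_zero h3 hr h7
    refine ⟨t, A.image fun k => (k.1 : ℕ), ?_, ?_, ?_, ?_⟩
    · intro ω' hω'
      obtain ⟨k, -, rfl⟩ := Finset.mem_image.1 hω'
      exact k.2
    · rw [Finset.card_image_of_injective]
      · exact hcard
      · intro k k' h
        exact Subtype.ext (Fin.ext h)
    · intro ω' hω'
      obtain ⟨k, hk, rfl⟩ := Finset.mem_image.1 hω'
      exact (hA k).1 hk
    · intro ω' h3 h4
      rw [ht]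
      exact hk0 ⟨⟨ω', by omega⟩, h3, h4⟩

end Pool.Agent.DV
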