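import Pool.Agent.DV.Stmts

set_option autoImplicit false

open Set Topology Filter MeasureTheory
open scoped ENNReal

namespace Pool.Agent.DV

theorem gapp_ne_zero {K : Type} [Fintype K] [DecidableEq K] (A : Finset K) (b : K → ℝ) :
    gap A b ≠ 0 ↔ ∀ k ∈ A, ∀ l, l ∉ A → b l < b k := by
  unfold gap
  rw [Finset.prod_ne_zero_iff]
  refine forall₂_congr fun k _ => ?_
  rw [Finset.prod_ne_zero_iff]
  constructor
  · intro h l hl
    have h1 := h l (Finset.mem_compl.2 hl)
    by_contra h2
    exact h1 (max_eq_right (by linarith [not_lt.1 h2]))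
  · intro h l hl
    have h1 := h l (Finset.mem_compl.1 hl)
    exact (lt_max_of_lt_left (by linarith)).ne'

theorem GAPP_thmM : Stmt_GAPP := by
  intro K _ _
  refine ⟨?_, ?_, gapp_ne_zero, ?_, ?_⟩
  · intro A
    unfold gap
    fun_prop
  · intro A b
    exact Finset.prod_nonneg fun k _ => Finset.prod_nonneg fun l _ => le_max_right _ _
  · intro A A' b hne hc
    by_contra h
    push Not at h
    obtain ⟨h1, h2⟩ := h
    rw [gapp_ne_zero] at h1 h2
    have h3 : ∃ k ∈ A, k ∉ A' := by
      by_contra h4
      push Not at h4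
      exact hne (Finset.eq_of_subset_of_card_le h4 hc.ge)
    have h4 : ∃ k ∈ A', k ∉ A := by
      by_contra h4
      push Not at h4
      exact hne (Finset.eq_of_subset_of_card_le h4 hc.le).symm
    obtain ⟨k, hk, hk'⟩ := h3
    obtain ⟨l, hl, hl'⟩ := h4
    exact lt_asymm (h1 k hk l hl') (h2 l hl k hk')
  · intro b s hs hb hsupp hg
    by_contra h
    push Not at h
    obtain ⟨k, hk⟩ := h
    have h1 : ({k | b k ≠ 0}.ncard) = (Finset.univ.filter fun k => b k ≠ 0).card := by
      rw [← Set.ncard_coe_finset]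
      congr 1
      ext k
      simp
    have h2 := hg (Finset.univ.filter fun k => b k ≠ 0) ⟨k, by simp [hk]⟩ (by rw [← h1]; exact hsupp)
    refine (gapp_ne_zero _ _).2 ?_ h2
    intro k hk l hl
    simp only [Finset.mem_filter, Finset.mem_univ, true_and, not_not] at hk hl
    rw [hl]
    exact lt_of_le_of_ne (hb k) (Ne.symm hk)

end Pool.Agent.DV
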