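import Pool.Agent.DV.Stmts

/-!
# GSYS: the gap functions of an equivariant family of functions indexed by `ℤ/p`
-/

set_option autoImplicit false

open Set Topology Filter MeasureTheory

namespace Pool.Agent.DV

namespace GSYS

theorem gap_map {K : Type} [Fintype K] [DecidableEq K] (e : K ≃ K) (A : Finset K) (b : K → ℝ) :
    gap (A.map e.toEmbedding) b = gap A fun k => b (e k) := by
  have h1 : (A.map e.toEmbedding)ᶜ = Aᶜ.map e.toEmbedding := by
    ext k
    rw [Finset.mem_compl, Finset.mem_map_equiv, Finset.mem_map_equiv, Finset.mem_compl]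
  unfold gap
  rw [h1, Finset.prod_map]
  refine Finset.prod_congr rfl fun k _ => ?_
  rw [Finset.prod_map]
  rfl

variable {p : ℕ} {S : Finset ℕ}

/-- The translation of the sets. -/
def tr (A : {A : Finset (ZMod p) // A.card ∈ S}) : {A : Finset (ZMod p) // A.card ∈ S} :=
  ⟨A.1.map (Equiv.subRight (1 : ZMod p)).toEmbedding, by rw [Finset.card_map]; exact A.2⟩

theorem mem_tr (A : {A : Finset (ZMod p) // A.card ∈ S}) (k : ZMod p) :
    k ∈ (tr A).1 ↔ k + 1 ∈ A.1 := by
  change k ∈ A.1.map (Equiv.subRight (1 : ZMod p)).toEmbedding ↔ _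
  rw [Finset.mem_map_equiv]
  rfl

theorem mem_iter (A : {A : Finset (ZMod p) // A.card ∈ S}) (n : ℕ) (k : ZMod p) :
    k ∈ (tr^[n] A).1 ↔ k + n ∈ A.1 := by
  induction n generalizing k with
  | zero => simp
  | succ n ih =>
    rw [Function.iterate_succ_apply', mem_tr, ih, Nat.cast_succ, add_assoc, add_comm (1 : ZMod p)]

end GSYS

open GSYS in
theorem GSYS_thm (h : Stmt_GAPP) : Stmt_GSYS := by
  intro p _ S hS
  refine ⟨tr, fun b hb hb' => ?_⟩
  obtain ⟨h1, h2, -, h4, -⟩ := h (ZMod p)
  refine ⟨?_, ?_, ?_, ?_, ?_, ?_⟩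
  · intro A
    apply Subtype.ext
    ext k
    rw [mem_iter, ZMod.natCast_self, add_zero]
  · intro A hA
    have hmem : ∀ k, k ∈ A.1 ↔ k + 1 ∈ A.1 := by
      intro k
      rw [← mem_tr, hA]
    have hmem' : ∀ (n : ℕ) (k : ZMod p), k ∈ A.1 ↔ k + n ∈ A.1 := by
      intro n k
      induction n with
      | zero => simp
      | succ n ih => rw [ih, hmem, Nat.cast_succ, add_assoc]
    have hall : ∀ k l : ZMod p, k ∈ A.1 → l ∈ A.1 := by
      intro k l hk
      have h5 := (hmem' (l - k).val k).1 hk
      rw [ZMod.natCast_val, ZMod.cast_id, add_sub_cancel] at h5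
      exact h5
    have hc := hS _ A.2
    rcases A.1.eq_empty_or_nonempty with h5 | ⟨k, hk⟩
    · rw [h5, Finset.card_empty] at hc
      omega
    · have h6 : A.1 = Finset.univ := Finset.eq_univ_of_forall fun l => hall k l hk
      rw [h6, Finset.card_univ, ZMod.card] at hc
      omega
  · intro A
    have h5 : ContinuousOn (fun z => b z) (EE p) := continuousOn_pi.2 hb
    exact (h1 A.1).comp_continuousOn h5
  · intro A z _
    exact h2 A.1 _
  · intro A z hz
    change gap (A.1.map (Equiv.subRight (1 : ZMod p)).toEmbedding) (b (sh z)) = gap A.1 (b z)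
    rw [gap_map]
    congr 1
    funext k
    rw [Equiv.subRight_apply, hb' z hz, sub_add_cancel]
  · refine ⟨fun A => S.equivFin ⟨A.1.card, A.2⟩, ?_, ?_⟩
    · intro A
      change S.equivFin ⟨(tr A).1.card, _⟩ = _
      congr 1
      apply Subtype.ext
      exact Finset.card_map _
    · intro A A' hne hc z _
      have h5 := S.equivFin.injective hc
      have h6 : A.1.card = A'.1.card := congrArg Subtype.val h5
      exact h4 A.1 A'.1 (b z) (fun h => hne (Subtype.ext h)) h6

end Pool.Agent.DV
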