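import Pool.Agent.DV.Stmts

/-!
# HAT: Kuhn hat functions after a steep staircase, in general position for the cyclic shift
-/

set_option autoImplicit false
set_option linter.unusedSectionVars false

namespace Pool.Agent.DV

open Set

namespace Kuhn

/-! ## The staircase -/

section stair

variable {p : ℕ} [NeZero p]

/-- the offset `λ_k = (k + 1) / (p + 1)` -/
noncomputable def lam (p : ℕ) (k : ZMod p) : ℝ := ((k.val : ℝ) + 1) / (p + 1)

/-- `η = 1 / (2 p + 2)` -/
noncomputable def eta (p : ℕ) : ℝ := 1 / (2 * p + 2)

theorem eta_pos (p : ℕ) : 0 < eta p := by unfold eta; positivity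

theorem lam_pos (k : ZMod p) : 0 < lam p k := by unfold lam; positivity

theorem lam_lt_one (k : ZMod p) : lam p k < 1 := by
  unfold lam
  rw [div_lt_one (by positivity)]
  have := ZMod.val_lt k
  have h : (k.val : ℝ) < p := by exact_mod_cast this
  linarith

/-- two different offsets differ by at least `2 η` -/
theorem lam_sep {k l : ZMod p} (h : k ≠ l) : 2 * eta p ≤ |lam p k - lam p l| := by
  have hp : (0 : ℝ) < p + 1 := by positivity
  have e : lam p k - lam p l = ((k.val : ℝ) - l.val) / (p + 1) := by
    unfold lam; rw [div_sub_div_same]; ring_nf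
  have e2 : 2 * eta p = 1 / (p + 1) := by
    unfold eta
    have : (p : ℝ) + 1 ≠ 0 := hp.ne'
    field_simp
  rw [e, e2, abs_div, abs_of_pos hp]
  apply div_le_div_of_nonneg_right _ hp.le
  have h1 : (k.val : ℤ) - l.val ≠ 0 := by
    intro h2
    apply h
    apply ZMod.val_injective
    omega
  have h2 : (1 : ℤ) ≤ |(k.val : ℤ) - l.val| := Int.one_le_abs h1
  have h3 : ((1 : ℤ) : ℝ) ≤ ((|(k.val : ℤ) - l.val| : ℤ) : ℝ) := by exact_mod_cast h2
  push_cast at h3
  exact h3

/-- `r_k = L z_k - λ_k` -/
noncomputable def rr (L : ℕ) (z : ZMod p → ℝ) (k : ZMod p) : ℝ := L * z k - lam p k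

/-- the hat function of the cell `u` -/
noncomputable def hat (L : ℕ) (u : ZMod p → ℤ) (z : ZMod p → ℝ) : ℝ :=
  ∏ q : ZMod p × ZMod p, max 0 (eta p - max 0 (rr L z q.1 - u q.1 - 1 + eta p) -
    max 0 (u q.2 - rr L z q.2))

theorem hat_nonneg (L : ℕ) (u : ZMod p → ℤ) (z : ZMod p → ℝ) : 0 ≤ hat L u z :=
  Finset.prod_nonneg fun _ _ => le_max_left _ _

theorem continuous_rr (L : ℕ) (k : ZMod p) : Continuous fun z : ZMod p → ℝ => rr L z k := by
  unfold rr
  exact (continuous_const.mul (continuous_apply k)).sub continuous_const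

theorem continuous_hat (L : ℕ) (u : ZMod p → ℤ) : Continuous (hat (p := p) L u) := by
  unfold hat
  refine continuous_finset_prod _ fun q _ => ?_
  have h1 := continuous_rr (p := p) L q.1
  have h2 := continuous_rr (p := p) L q.2
  fun_prop

theorem hat_pos_iff {L : ℕ} {u : ZMod p → ℤ} {z : ZMod p → ℝ} :
    hat L u z ≠ 0 ↔ ∀ k l : ZMod p, max 0 (rr L z k - u k - 1 + eta p) +
      max 0 (u l - rr L z l) < eta p := by
  unfold hat
  rw [Finset.prod_ne_zero_iff]
  constructor
  · intro h k l
    have h1 := h (k, l) (Finset.mem_univ _)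
    have h2 : 0 < max 0 (eta p - max 0 (rr L z k - u k - 1 + eta p) -
      max 0 (u l - rr L z l)) := lt_of_le_of_ne (le_max_left _ _) (Ne.symm h1)
    rw [lt_max_iff] at h2
    rcases h2 with h2 | h2
    · exact absurd h2 (lt_irrefl _)
    · linarith
  · intro h q _
    have h1 := h q.1 q.2
    have h2 : 0 < max 0 (eta p - max 0 (rr L z q.1 - u q.1 - 1 + eta p) -
      max 0 (u q.2 - rr L z q.2)) := lt_max_of_lt_right (by linarith)
    exact h2.ne'

theorem hat_bounds {L : ℕ} {u : ZMod p → ℤ} {z : ZMod p → ℝ} (h : hat L u z ≠ 0) (k : ZMod p) :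
    u k - eta p < rr L z k ∧ rr L z k < u k + 1 := by
  have h1 := hat_pos_iff.1 h k k
  have h2 := le_max_left 0 (rr L z k - u k - 1 + eta p)
  have h3 := le_max_left 0 (u k - rr L z k)
  have h4 := le_max_right 0 (rr L z k - u k - 1 + eta p)
  have h5 := le_max_right 0 (u k - rr L z k)
  constructor <;> linarith

theorem hat_floor (L : ℕ) (z : ZMod p → ℝ) : hat L (fun k => ⌊rr L z k⌋) z ≠ 0 := by
  rw [hat_pos_iff]
  intro k l
  have h1 := Int.lt_floor_add_one (rr L z k)
  have h2 := Int.floor_le (rr L z l)
  have h3 := eta_pos p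
  have h4 : max 0 (((⌊rr L z l⌋ : ℤ) : ℝ) - rr L z l) = 0 := max_eq_left (by linarith)
  rw [h4, add_zero]
  exact max_lt h3 (by linarith)

/-- the ambiguity bump: positive iff `r_k ∈ (n - η, n)` for some integer `n` -/
noncomputable def amb (L : ℕ) (k : ZMod p) (z : ZMod p → ℝ) : ℝ :=
  max 0 (eta p / 2 - |(rr L z k + eta p / 2) - round (rr L z k + eta p / 2)|)

theorem amb_nonneg (L : ℕ) (k : ZMod p) (z : ZMod p → ℝ) : 0 ≤ amb L k z := le_max_left _ _

theorem continuous_dist_round : Continuous fun x : ℝ => |x - round x| := by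
  have h : (fun x : ℝ => |x - round x|) = fun x : ℝ => ‖(x : UnitAddCircle)‖ := by
    funext x
    rw [UnitAddCircle.norm_eq]
  rw [h]
  exact continuous_norm.comp (AddCircle.continuous_mk' 1)

theorem continuous_amb (L : ℕ) (k : ZMod p) : Continuous (amb (p := p) L k) := by
  unfold amb
  have h1 := continuous_rr (p := p) L k
  exact continuous_const.max (continuous_const.sub
    (continuous_dist_round.comp (h1.add continuous_const)))

theorem amb_pos_iff {L : ℕ} {k : ZMod p} {z : ZMod p → ℝ} :
    0 < amb L k z ↔ ∃ n : ℤ, (n : ℝ) - eta p < rr L z k ∧ rr L z k < n := by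
  unfold amb
  rw [lt_max_iff]
  constructor
  · rintro (h | h)
    · exact absurd h (lt_irrefl _)
    · refine ⟨round (rr L z k + eta p / 2), ?_⟩
      have h1 : |(rr L z k + eta p / 2) - round (rr L z k + eta p / 2)| < eta p / 2 := by linarith
      rw [abs_lt] at h1
      constructor <;> linarith [h1.1, h1.2]
  · rintro ⟨n, h1, h2⟩
    right
    have h3 := round_le (rr L z k + eta p / 2) n
    have h4 : |(rr L z k + eta p / 2) - n| < eta p / 2 := by
      rw [abs_lt]; constructor <;> linarith
    linarith

/-- the number of cells with positive hat function -/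
theorem card_hat (L : ℕ) (z : ZMod p → ℝ) (U : Finset (ZMod p → ℤ)) :
    (U.filter fun u => hat L u z ≠ 0).card ≤
      1 + (Finset.univ.filter fun k : ZMod p => 0 < amb L k z).card := by
  classical
  set A := Finset.univ.filter fun k : ZMod p => 0 < amb L k z with hA
  -- the raised coordinates
  let S : (ZMod p → ℤ) → Finset (ZMod p) := fun u =>
    Finset.univ.filter fun k => u k = ⌊rr L z k⌋ + 1
  have hu : ∀ u, hat L u z ≠ 0 → ∀ k, u k = ⌊rr L z k⌋ ∨ u k = ⌊rr L z k⌋ + 1 := by
    intro u h k
    obtain ⟨h1, h2⟩ := hat_bounds h k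
    have h3 := eta_pos p
    have h5 : eta p ≤ 1 := by
      unfold eta
      rw [div_le_one (by positivity)]
      have : (0 : ℝ) ≤ p := by positivity
      linarith
    have h6 : ⌊rr L z k⌋ < u k + 1 := by
      rw [Int.floor_lt]; push_cast; exact h2
    have h7 : u k - 1 ≤ ⌊rr L z k⌋ := by
      rw [Int.le_floor]; push_cast; linarith
    omega
  have hSA : ∀ u, hat L u z ≠ 0 → S u ⊆ A := by
    intro u h k hk
    simp only [S, Finset.mem_filter, Finset.mem_univ, true_and] at hk
    rw [hA, Finset.mem_filter]
    refine ⟨Finset.mem_univ _, amb_pos_iff.2 ⟨⌊rr L z k⌋ + 1, ?_, ?_⟩⟩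
    · have := (hat_bounds h k).1
      rw [hk] at this
      exact this
    · push_cast
      exact Int.lt_floor_add_one _
  have hchain : ∀ u u', hat L u z ≠ 0 → hat L u' z ≠ 0 → S u ⊆ S u' ∨ S u' ⊆ S u := by
    intro u u' h h'
    by_contra hcon
    rw [not_or] at hcon
    obtain ⟨h1, h2⟩ := hcon
    rw [Finset.not_subset] at h1 h2
    obtain ⟨k, hk, hk'⟩ := h1
    obtain ⟨l, hl, hl'⟩ := h2
    simp only [S, Finset.mem_filter, Finset.mem_univ, true_and] at hk hk' hl hl'
    have hk2 := (hu u' h' k).resolve_right hk'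
    have hl2 := (hu u h l).resolve_right hl'
    have a1 := hat_pos_iff.1 h l k
    have a2 := hat_pos_iff.1 h' k l
    have b1 := le_max_right 0 (rr L z l - u l - 1 + eta p)
    have b2 := le_max_right 0 (u k - rr L z k)
    have b3 := le_max_right 0 (rr L z k - u' k - 1 + eta p)
    have b4 := le_max_right 0 (u' l - rr L z l)
    rw [hl2] at b1 a1
    rw [hk] at b2 a1
    rw [hk2] at b3 a2
    rw [hl] at b4 a2
    push_cast at *
    linarith
  -- injectivity into cardinalities
  have hmaps : Set.MapsTo (fun u => (S u).card) (U.filter fun u => hat L u z ≠ 0)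
      (Finset.range (A.card + 1)) := by
    intro u hu'
    have h := (Finset.mem_filter.1 hu').2
    rw [Finset.mem_coe, Finset.mem_range]
    have := Finset.card_le_card (hSA u h)
    change (S u).card < A.card + 1
    omega
  have hinj : Set.InjOn (fun u => (S u).card) (U.filter fun u => hat L u z ≠ 0) := by
    intro u hu1 u' hu2 hc
    have h := (Finset.mem_filter.1 hu1).2
    have h' := (Finset.mem_filter.1 hu2).2
    have hS : S u = S u' := by
      rcases hchain u u' h h' with h3 | h3
      · exact Finset.eq_of_subset_of_card_le h3 (le_of_eq hc.symm)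
      · exact (Finset.eq_of_subset_of_card_le h3 (le_of_eq hc)).symm
    funext k
    rcases hu u h k with h4 | h4 <;> rcases hu u' h' k with h5 | h5
    · rw [h4, h5]
    · exfalso
      have : k ∈ S u' := by simp [S, h5]
      rw [← hS] at this
      simp only [S, Finset.mem_filter, Finset.mem_univ, true_and] at this
      omega
    · exfalso
      have : k ∈ S u := by simp [S, h4]
      rw [hS] at this
      simp only [S, Finset.mem_filter, Finset.mem_univ, true_and] at this
      omega
    · rw [h4, h5]
  have := Finset.card_le_card_of_injOn _ hmaps hinj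
  rw [Finset.card_range] at this
  omega

/-- the budget: each coordinate is ambiguous for at most one shift -/
theorem budget (L : ℕ) (z : ZMod p → ℝ) :
    ∑ t : ZMod p, (Finset.univ.filter fun k : ZMod p => 0 < amb L k (fun i => z (i + t))).card ≤ p := by
  classical
  -- count pairs `(t, k)` by `k + t`
  have h1 : ∑ t : ZMod p, (Finset.univ.filter fun k : ZMod p => 0 < amb L k (fun i => z (i + t))).card =
      (Finset.univ.filter fun q : ZMod p × ZMod p => 0 < amb L q.2 (fun i => z (i + q.1))).card := by
    rw [Finset.card_filter]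
    rw [← Finset.univ_product_univ, Finset.sum_product]
    refine Finset.sum_congr rfl fun t _ => ?_
    rw [Finset.card_filter]
  rw [h1]
  have hinj : Set.InjOn (fun q : ZMod p × ZMod p => q.2 + q.1)
      (Finset.univ.filter fun q : ZMod p × ZMod p => 0 < amb L q.2 (fun i => z (i + q.1))) := by
    rintro ⟨t, k⟩ hq ⟨t', k'⟩ hq' he
    simp only [Finset.coe_filter, Finset.mem_univ, true_and, Set.mem_setOf_eq] at hq hq'
    simp only at he
    have hkk : k = k' := by
      by_contra hne
      obtain ⟨n, a1, a2⟩ := amb_pos_iff.1 hq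
      obtain ⟨n', b1, b2⟩ := amb_pos_iff.1 hq'
      have e1 : rr L (fun i => z (i + t)) k = L * z (k + t) - lam p k := by
        rfl
      have e2 : rr L (fun i => z (i + t')) k' = L * z (k + t) - lam p k' := by
        unfold rr
        rw [he]
      rw [e1] at a1 a2
      rw [e2] at b1 b2
      have hs := lam_sep hne
      have l1 := lam_pos k
      have l2 := lam_lt_one k
      have l3 := lam_pos k'
      have l4 := lam_lt_one k'
      have hη := eta_pos p
      -- `n - n'` is an integer close to `λ_{k'} - λ_k`
      have c1 : |((n : ℝ) - n') - (lam p k' - lam p k)| < eta p := by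
        rw [abs_lt]; constructor <;> linarith
      have hη1 : eta p ≤ 1 / 4 := by
        unfold eta
        have : (1 : ℝ) ≤ p := by exact_mod_cast Nat.one_le_iff_ne_zero.2 (NeZero.ne p)
        rw [div_le_div_iff₀ (by positivity) (by norm_num)]
        linarith
      have hm : n - n' = 0 ∨ n - n' = 1 ∨ n - n' = -1 := by
        rw [abs_lt] at c1
        have d1 : ((n - n' : ℤ) : ℝ) < 2 := by push_cast; linarith [c1.2]
        have d2 : (-2 : ℝ) < ((n - n' : ℤ) : ℝ) := by push_cast; linarith [c1.1]
        have d1' : n - n' < 2 := by exact_mod_cast d1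
        have d2' : -2 < n - n' := by exact_mod_cast d2
        omega
      -- offsets lie between `2 η` and `1 - 2 η`
      have low : ∀ j : ZMod p, 2 * eta p ≤ lam p j := by
        intro j
        unfold lam eta
        have hp : (0 : ℝ) < p + 1 := by positivity
        have : 2 * (1 / (2 * (p : ℝ) + 2)) = 1 / (p + 1) := by field_simp
        rw [this]
        apply div_le_div_of_nonneg_right _ hp.le
        have : (0 : ℝ) ≤ (j.val : ℝ) := by positivity
        linarith
      have high : ∀ j : ZMod p, lam p j ≤ 1 - 2 * eta p := by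
        intro j
        unfold lam eta
        have hp : (0 : ℝ) < p + 1 := by positivity
        have e3 : 1 - 2 * (1 / (2 * (p : ℝ) + 2)) = p / (p + 1) := by field_simp; ring
        rw [e3]
        apply div_le_div_of_nonneg_right _ hp.le
        have := ZMod.val_lt j
        have h5 : j.val + 1 ≤ p := this
        exact_mod_cast h5
      rw [abs_lt] at c1
      rcases hm with hm | hm | hm
      · have : (n : ℝ) - n' = 0 := by
          have : ((n - n' : ℤ) : ℝ) = 0 := by rw [hm]; simp
          push_cast at this; exact this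
        rw [this] at c1
        have c2 : |lam p k - lam p k'| < eta p := by
          rw [abs_lt]; constructor <;> linarith [c1.1, c1.2]
        linarith
      · have : (n : ℝ) - n' = 1 := by
          have : ((n - n' : ℤ) : ℝ) = 1 := by rw [hm]; simp
          push_cast at this; exact this
        rw [this] at c1
        linarith [c1.2, high k', low k]
      · have : (n : ℝ) - n' = -1 := by
          have : ((n - n' : ℤ) : ℝ) = -1 := by rw [hm]; simp
          push_cast at this; exact this
        rw [this] at c1
        linarith [c1.1, high k, low k']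
    subst hkk
    have : t = t' := add_left_cancel he
    rw [this]
  have h2 := Finset.card_le_card_of_injOn (fun q : ZMod p × ZMod p => q.2 + q.1)
    (t := (Finset.univ : Finset (ZMod p))) (fun _ _ => Finset.mem_coe.2 (Finset.mem_univ _)) hinj
  rw [Finset.card_univ, ZMod.card] at h2
  exact h2

end stair

end Kuhn

open Kuhn in
/-- HAT -/
theorem HAT_thm : Stmt_HAT := by
  classical
  intro p hp L hL
  have hL0 : (0 : ℝ) < L := by exact_mod_cast hL
  refine ⟨Fintype.piFinset fun _ => Finset.Icc (-1) (L : ℤ), hat L, amb L,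
    fun u => continuous_hat L u, fun k => continuous_amb L k, fun u z => hat_nonneg L u z,
    fun k z => amb_nonneg L k z, fun z hz => ?_, fun u z z' hu hu' k => ?_, fun z _ => ?_,
    fun z _ => ?_⟩
  · refine ⟨fun k => ⌊rr L z k⌋, ?_, lt_of_le_of_ne (hat_nonneg _ _ _) (Ne.symm (hat_floor L z))⟩
    rw [Fintype.mem_piFinset]
    intro k
    rw [Finset.mem_Icc]
    obtain ⟨h1, h2⟩ := hz.1 k
    have h3 := lam_pos k
    have h4 := lam_lt_one k
    constructor
    · rw [Int.le_floor]
      unfold rr
      push_cast
      nlinarith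
    · have h5 := Int.floor_lt.2 (show rr L z k < (((L : ℤ) + 1 : ℤ) : ℝ) by
        unfold rr
        push_cast
        nlinarith)
      omega
  · obtain ⟨a1, a2⟩ := hat_bounds hu.ne' k
    obtain ⟨b1, b2⟩ := hat_bounds hu'.ne' k
    have hη : eta p ≤ 1 := by
      unfold eta
      rw [div_le_one (by positivity)]
      have : (0 : ℝ) ≤ p := by positivity
      linarith
    unfold rr at a1 a2 b1 b2
    rw [le_div_iff₀ hL0]
    have e3 : |z k - z' k| * L = |(z k - z' k) * L| := by rw [abs_mul, abs_of_pos hL0]
    rw [e3, abs_le]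
    constructor <;> nlinarith
  · have h1 := card_hat (p := p) L z (Fintype.piFinset fun _ => Finset.Icc (-1) (L : ℤ))
    have e1 : {u | u ∈ (Fintype.piFinset fun _ : ZMod p => Finset.Icc (-1) (L : ℤ)) ∧
        0 < hat L u z} = (((Fintype.piFinset fun _ : ZMod p => Finset.Icc (-1) (L : ℤ)).filter
          fun u => hat L u z ≠ 0 : Finset (ZMod p → ℤ)) : Set (ZMod p → ℤ)) := by
      ext u
      simp only [Set.mem_setOf_eq, Finset.coe_filter]
      constructor
      · rintro ⟨a, b⟩; exact ⟨a, b.ne'⟩
      · rintro ⟨a, b⟩; exact ⟨a, lt_of_le_of_ne (hat_nonneg _ _ _) (Ne.symm b)⟩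
    have e2 : {k | 0 < amb L k z} =
        ((Finset.univ.filter fun k : ZMod p => 0 < amb L k z : Finset (ZMod p)) :
          Set (ZMod p)) := by
      ext k; simp
    rw [e1, e2, Set.ncard_coe_finset, Set.ncard_coe_finset]
    exact h1
  · refine le_trans (le_of_eq (Finset.sum_congr rfl fun t _ => ?_)) (budget L z)
    have e2 : {k | 0 < amb L k (fun i => z (i + t))} =
        ((Finset.univ.filter fun k : ZMod p => 0 < amb L k (fun i => z (i + t)) :
          Finset (ZMod p)) : Set (ZMod p)) := by
      ext k; simp
    rw [e2, Set.ncard_coe_finset]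

end Pool.Agent.DV
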