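import Pool.Agent.DV.Stmts

/-!
# MP_9896a2_an: the lower bound for the rate distortion dimension (section 6)

For a joint law `π` on `X × X^N` with second marginal `Q` the function
`g x = -log ∫ exp (-a ∑_{k<N} d (T^k x) (y k)) dQ(y)` is continuous, and the variational principle
for the relative entropy gives `I(π) + a E ∑ d ≥ ∫ g dμ`. The integral of `g` is the limit of the
integrals for the approximating finite families, for which it is bounded from below by
concatenation, Jensen's inequality and the assumption `Frost`.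
-/

set_option autoImplicit false

open Set Topology Filter MeasureTheory InformationTheory
open scoped ENNReal

namespace Pool.Agent.DV.LB3

/-- The variational principle for the relative entropy (one inequality). -/
theorem dv_le {Ω : Type} [MeasurableSpace Ω] (π m : Measure Ω) [IsProbabilityMeasure π]
    [IsProbabilityMeasure m] (φ : Ω → ℝ) (hφ : Measurable φ) (C : ℝ) (hC : ∀ ω, |φ ω| ≤ C) :
    ENNReal.ofReal (∫ ω, φ ω ∂π - Real.log (∫ ω, Real.exp (φ ω) ∂m)) ≤ klDiv π m := by
  by_cases htop : klDiv π m = ⊤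
  · rw [htop]; exact le_top
  obtain ⟨hac, hint⟩ := klDiv_ne_top_iff.1 htop
  have hφπ : Integrable φ π :=
    Integrable.of_bound hφ.aestronglyMeasurable C (ae_of_all _ fun ω => by
      simpa [Real.norm_eq_abs] using hC ω)
  have hem : Integrable (fun ω => Real.exp (φ ω)) m :=
    Integrable.of_bound (Real.measurable_exp.comp hφ).aestronglyMeasurable (Real.exp C)
      (ae_of_all _ fun ω => by
        rw [Real.norm_eq_abs, abs_of_pos (Real.exp_pos _)]
        exact Real.exp_le_exp.2 ((le_abs_self _).trans (hC ω)))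
  have h1 := integral_llr_tilted_right hac hφπ hem hint
  have htm : IsProbabilityMeasure (m.tilted φ) := isProbabilityMeasure_tilted hem
  have hac2 : π ≪ m.tilted φ := hac.trans (absolutelyContinuous_tilted hem)
  have h2 : 0 ≤ ∫ ω, llr π (m.tilted φ) ω ∂π := by
    rw [← toReal_klDiv_of_measure_eq hac2 (by simp)]
    exact ENNReal.toReal_nonneg
  have h3 : (klDiv π m).toReal = ∫ ω, llr π m ω ∂π :=
    toReal_klDiv_of_measure_eq hac (by simp)
  rw [← ENNReal.ofReal_toReal htop]
  apply ENNReal.ofReal_le_ofReal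
  rw [h3]
  linarith


/-- The partition function of a random code word with law `Q`. -/
noncomputable def WW {X : Type} [MeasurableSpace X] (T : X → X) (d : X → X → ℝ) (a : ℝ) (N : ℕ)
    (Q : Measure (Fin N → X)) (x : X) : ℝ :=
  ∫ y, Real.exp (-(a * ∑ k : Fin N, d (T^[(k : ℕ)] x) (y k))) ∂Q

/-- Concatenation: there is a deterministic word which is at least as good as independent random
words. -/
theorem concat_le {X : Type} [MeasurableSpace X] [Nonempty X] (T : X → X) (d : X → X → ℝ) (a : ℝ)
    (N : ℕ) (Q : Measure (Fin N → X)) [IsProbabilityMeasure Q]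
    (hint : ∀ x, Integrable
      (fun y => Real.exp (-(a * ∑ k : Fin N, d (T^[(k : ℕ)] x) (y k)))) Q)
    {ι : Type} [Fintype ι] (x : ι → X) (L : ℕ) : ∀ (w : ι → ℝ),
    ∃ y : ℕ → X, ∑ i, w i * ∏ l ∈ Finset.range L, WW T d a N Q (T^[l * N] (x i)) ≤
      ∑ i, w i * Real.exp (-(a * ∑ k ∈ Finset.range (L * N), d (T^[k] (x i)) (y k))) := by
  induction L with
  | zero =>
    intro w
    exact ⟨fun _ => Classical.arbitrary X, by simp⟩
  | succ L ih =>
    intro w
    -- the average over the last word
    set f : (Fin N → X) → ℝ := fun y => ∑ i, (w i *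
      ∏ l ∈ Finset.range L, WW T d a N Q (T^[l * N] (x i))) *
        Real.exp (-(a * ∑ k : Fin N, d (T^[(k : ℕ)] (T^[L * N] (x i))) (y k))) with hf
    have hfi : Integrable f Q := integrable_finsetSum _ fun i _ =>
      (hint (T^[L * N] (x i))).const_mul _
    obtain ⟨y1, hy1⟩ := exists_integral_le hfi
    have h1 : ∫ y, f y ∂Q = ∑ i, w i *
        ∏ l ∈ Finset.range (L + 1), WW T d a N Q (T^[l * N] (x i)) := by
      rw [hf, integral_finsetSum _ fun i _ => (hint (T^[L * N] (x i))).const_mul _]
      refine Finset.sum_congr rfl fun i _ => ?_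
      rw [integral_const_mul, Finset.prod_range_succ, mul_assoc]
      rfl
    obtain ⟨y2, hy2⟩ := ih fun i => w i *
      Real.exp (-(a * ∑ k : Fin N, d (T^[(k : ℕ)] (T^[L * N] (x i))) (y1 k)))
    refine ⟨fun k => if h : k < L * N then y2 k else
      if h' : k - L * N < N then y1 ⟨k - L * N, h'⟩ else y2 k, ?_⟩
    rw [← h1]
    refine hy1.trans ?_
    have h2 : f y1 = ∑ i, (w i *
        Real.exp (-(a * ∑ k : Fin N, d (T^[(k : ℕ)] (T^[L * N] (x i))) (y1 k)))) *
        ∏ l ∈ Finset.range L, WW T d a N Q (T^[l * N] (x i)) := by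
      rw [hf]
      exact Finset.sum_congr rfl fun i _ => by ring
    rw [h2]
    refine hy2.trans (le_of_eq ?_)
    refine Finset.sum_congr rfl fun i _ => ?_
    rw [mul_assoc, ← Real.exp_add]
    congr 2
    have h3 : (L + 1) * N = L * N + N := by ring
    rw [h3, Finset.sum_range_add]
    have h4 : ∑ k ∈ Finset.range (L * N), d (T^[k] (x i))
        (if h : k < L * N then y2 k else
          if h' : k - L * N < N then y1 ⟨k - L * N, h'⟩ else y2 k) =
        ∑ k ∈ Finset.range (L * N), d (T^[k] (x i)) (y2 k) := by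
      refine Finset.sum_congr rfl fun k hk => ?_
      rw [dif_pos (Finset.mem_range.1 hk)]
    have h5 : ∑ k ∈ Finset.range N, d (T^[L * N + k] (x i))
        (if h : L * N + k < L * N then y2 (L * N + k) else
          if h' : L * N + k - L * N < N then y1 ⟨L * N + k - L * N, h'⟩ else y2 (L * N + k)) =
        ∑ k : Fin N, d (T^[(k : ℕ)] (T^[L * N] (x i))) (y1 k) := by
      rw [Finset.sum_range]
      refine Finset.sum_congr rfl fun k _ => ?_
      have h6 : ¬ (L * N + (k : ℕ) < L * N) := by omega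
      have h7 : L * N + (k : ℕ) - L * N < N := by have := k.2; omega
      rw [dif_neg h6, dif_pos h7]
      have h8 : (⟨L * N + (k : ℕ) - L * N, h7⟩ : Fin N) = k := by
        apply Fin.ext
        show L * N + (k : ℕ) - L * N = k
        omega
      rw [h8, ← Function.iterate_add_apply, add_comm (k : ℕ) (L * N)]
    rw [h4, h5]
    ring

/-- Jensen's inequality for the logarithm and a finite family. -/
theorem jensen_log {ι : Type} [Fintype ι] [Nonempty ι] (P : ι → ℝ) (hP : ∀ i, 0 < P i) {S : ℝ}
    (hS : (∑ i, P i) / Fintype.card ι ≤ S) :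
    (∑ i, Real.log (P i)) / Fintype.card ι ≤ Real.log S := by
  have hc : (0 : ℝ) < Fintype.card ι := by exact_mod_cast Fintype.card_pos
  set S0 := (∑ i, P i) / Fintype.card ι with hS0
  have hS0p : 0 < S0 := by
    rw [hS0]
    exact div_pos (Finset.sum_pos (fun i _ => hP i) Finset.univ_nonempty) hc
  have h1 : ∀ i, Real.log (P i) ≤ Real.log S0 + (P i / S0 - 1) := by
    intro i
    have := Real.log_le_sub_one_of_pos (div_pos (hP i) hS0p)
    rw [Real.log_div (hP i).ne' hS0p.ne'] at this
    linarith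
  have h2 : ∑ i, Real.log (P i) ≤ Fintype.card ι * Real.log S0 := by
    refine (Finset.sum_le_sum fun i _ => h1 i).trans (le_of_eq ?_)
    rw [Finset.sum_add_distrib, Finset.sum_sub_distrib, ← Finset.sum_div]
    simp only [Finset.sum_const, Finset.card_univ, nsmul_eq_mul]
    have : (∑ i, P i) = S0 * Fintype.card ι := by rw [hS0]; field_simp
    rw [this]
    field_simp
    ring
  rw [div_le_iff₀ hc]
  have h3 := Real.log_le_log hS0p hS
  nlinarith

/-- The bound for the finite families. -/
theorem family_le {X : Type} [MeasurableSpace X] [Nonempty X] (T : X → X) (d : X → X → ℝ)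
    {a Δ β K r : ℝ} (ha : 0 < a) (hd : ∀ x x', 0 ≤ d x x' ∧ d x x' ≤ Δ)
    {N p : ℕ} (hN : 0 < N) (hp : N ≤ p) (Q : Measure (Fin N → X)) [IsProbabilityMeasure Q]
    (hint : ∀ x, Integrable
      (fun y => Real.exp (-(a * ∑ k : Fin N, d (T^[(k : ℕ)] x) (y k)))) Q)
    (hWpos : ∀ x, 0 < WW T d a N Q x)
    (hr0 : 0 < r) (hK : 1 ≤ K)
    (hB0 : 0 ≤ β * Real.log (1 / r) - Real.log K)
    (hB : β * Real.log (1 / r) - Real.log K ≤ a * r)
    {ι : Type} [Fintype ι] [Nonempty ι] (x : ι → X) (e : ι ≃ ι) (he : ∀ i, x (e i) = T (x i))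
    (hF : ∀ (y : ℕ → X), ({i | ∑ k ∈ Finset.range p, d (T^[k] (x i)) (y k) ≤ p * r}.ncard : ℝ) ≤
      K ^ p * r ^ (β * p) * Fintype.card ι) :
    N * (β * Real.log (1 / r) - Real.log K) - (a * N * Δ + Real.log 2) / ((p / N : ℕ) : ℝ) ≤
      (∑ i, -Real.log (WW T d a N Q (x i))) / Fintype.card ι := by
  classical
  have hc : (0 : ℝ) < Fintype.card ι := by exact_mod_cast Fintype.card_pos
  set L : ℕ := p / N with hL
  have hLpos : 0 < L := Nat.div_pos hp hN
  have hLp : (0 : ℝ) < L := by exact_mod_cast hLpos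
  have hΔ : 0 ≤ Δ := (hd (Classical.arbitrary X) (Classical.arbitrary X)).1.trans
    (hd (Classical.arbitrary X) (Classical.arbitrary X)).2
  have hLN : L * N ≤ p := Nat.div_mul_le_self p N
  have hLN' : p ≤ L * N + N := by
    have h1 := Nat.div_add_mod p N
    have h2 := Nat.mod_lt p hN
    rw [← hL, mul_comm] at h1
    omega
  obtain ⟨y, hy⟩ := concat_le T d a N Q hint x L fun _ => 1
  simp only [one_mul] at hy
  -- the right hand side
  set B : ℝ := β * Real.log (1 / r) - Real.log K with hBdef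
  have hexpB : Real.exp (-(p * B)) = K ^ p * r ^ (β * p) := by
    have hK0 : 0 < K := by linarith
    rw [hBdef, Real.rpow_def_of_pos hr0, one_div, Real.log_inv,
      show K ^ p = Real.exp (p * Real.log K) by
        rw [Real.exp_nat_mul, Real.exp_log hK0], ← Real.exp_add]
    congr 1
    ring
  have hterm : ∀ i, Real.exp (-(a * ∑ k ∈ Finset.range (L * N), d (T^[k] (x i)) (y k))) ≤
      Real.exp (a * N * Δ) * ((if ∑ k ∈ Finset.range p, d (T^[k] (x i)) (y k) ≤ p * r then 1 else 0)
        + Real.exp (-(p * B))) := by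
    intro i
    have h1 : ∑ k ∈ Finset.range p, d (T^[k] (x i)) (y k) ≤
        ∑ k ∈ Finset.range (L * N), d (T^[k] (x i)) (y k) + N * Δ := by
      obtain ⟨m, hm⟩ := Nat.exists_eq_add_of_le hLN
      have hmN : m ≤ N := by omega
      have h2 : ∑ k ∈ Finset.range m, d (T^[L * N + k] (x i)) (y (L * N + k)) ≤ m * Δ := by
        refine (Finset.sum_le_sum fun k _ => (hd _ _).2).trans (le_of_eq ?_)
        simp
      have h3 : (m : ℝ) * Δ ≤ N * Δ := by
        apply mul_le_mul_of_nonneg_right _ hΔ
        exact_mod_cast hmN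
      rw [hm, Finset.sum_range_add]
      linarith
    have h4 : Real.exp (-(a * ∑ k ∈ Finset.range (L * N), d (T^[k] (x i)) (y k))) ≤
        Real.exp (a * N * Δ) * Real.exp (-(a * ∑ k ∈ Finset.range p, d (T^[k] (x i)) (y k))) := by
      rw [← Real.exp_add]
      apply Real.exp_le_exp.2
      nlinarith
    refine h4.trans ?_
    apply mul_le_mul_of_nonneg_left _ (Real.exp_pos _).le
    have h5 : 0 ≤ ∑ k ∈ Finset.range p, d (T^[k] (x i)) (y k) :=
      Finset.sum_nonneg fun k _ => (hd _ _).1
    by_cases h : ∑ k ∈ Finset.range p, d (T^[k] (x i)) (y k) ≤ p * r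
    · rw [if_pos h]
      have h6 : Real.exp (-(a * ∑ k ∈ Finset.range p, d (T^[k] (x i)) (y k))) ≤ 1 := by
        rw [Real.exp_le_one_iff]
        have := mul_nonneg ha.le h5
        linarith
      have := (Real.exp_pos (-(p * B))).le
      linarith
    · rw [if_neg h, zero_add]
      apply Real.exp_le_exp.2
      have h6 := (not_le.1 h).le
      have hp0 : (0 : ℝ) ≤ p := Nat.cast_nonneg p
      have h7 := mul_le_mul_of_nonneg_left h6 ha.le
      have h8 := mul_le_mul_of_nonneg_left hB hp0
      nlinarith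
  have hsum : (∑ i, Real.exp (-(a * ∑ k ∈ Finset.range (L * N), d (T^[k] (x i)) (y k)))) /
      Fintype.card ι ≤ Real.exp (a * N * Δ) * (2 * Real.exp (-(p * B))) := by
    rw [div_le_iff₀ hc]
    refine (Finset.sum_le_sum fun i _ => hterm i).trans ?_
    rw [← Finset.mul_sum, Finset.sum_add_distrib, mul_assoc (Real.exp (a * N * Δ))]
    apply mul_le_mul_of_nonneg_left _ (Real.exp_pos _).le
    have h1 : (∑ i, if ∑ k ∈ Finset.range p, d (T^[k] (x i)) (y k) ≤ p * r then (1 : ℝ) else 0) =
        ({i | ∑ k ∈ Finset.range p, d (T^[k] (x i)) (y k) ≤ p * r}.ncard : ℝ) := by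
      rw [Finset.sum_boole, Set.ncard_eq_toFinset_card']
      congr 2
      ext i
      simp
    rw [h1]
    have h2 := hF y
    rw [← hexpB] at h2
    simp only [Finset.sum_const, Finset.card_univ, nsmul_eq_mul]
    nlinarith
  have hmean : (∑ i, ∏ l ∈ Finset.range L, WW T d a N Q (T^[l * N] (x i))) / Fintype.card ι ≤
      Real.exp (a * N * Δ) * (2 * Real.exp (-(p * B))) :=
    (div_le_div_of_nonneg_right hy hc.le).trans hsum
  have hj := jensen_log (fun i => ∏ l ∈ Finset.range L, WW T d a N Q (T^[l * N] (x i)))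
    (fun i => Finset.prod_pos fun l _ => hWpos _) hmean
  rw [Real.log_mul (Real.exp_pos _).ne' (by positivity),
    Real.log_mul (by norm_num) (Real.exp_pos _).ne', Real.log_exp, Real.log_exp] at hj
  -- invariance
  have hiter : ∀ (m : ℕ) (i : ι), T^[m] (x i) = x ((e^[m]) i) := by
    intro m
    induction m with
    | zero => intro i; rfl
    | succ m ih =>
      intro i
      rw [Function.iterate_succ_apply', ih, ← he, Function.iterate_succ_apply']
  have hinv : ∀ m : ℕ, ∑ i, Real.log (WW T d a N Q (T^[m] (x i))) =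
      ∑ i, Real.log (WW T d a N Q (x i)) := by
    intro m
    have h1 : ∀ i, Real.log (WW T d a N Q (T^[m] (x i))) =
        (fun i => Real.log (WW T d a N Q (x i))) ((e ^ m) i) := by
      intro i
      show _ = Real.log (WW T d a N Q (x ((e ^ m) i)))
      rw [hiter, Equiv.Perm.coe_pow]
    rw [Finset.sum_congr rfl fun i _ => h1 i]
    exact Equiv.sum_comp (e ^ m) fun i => Real.log (WW T d a N Q (x i))
  have hlog : ∑ i, Real.log (∏ l ∈ Finset.range L, WW T d a N Q (T^[l * N] (x i))) =
      L * ∑ i, Real.log (WW T d a N Q (x i)) := by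
    have h1 : ∀ i, Real.log (∏ l ∈ Finset.range L, WW T d a N Q (T^[l * N] (x i))) =
        ∑ l ∈ Finset.range L, Real.log (WW T d a N Q (T^[l * N] (x i))) := by
      intro i
      exact Real.log_prod fun l _ => (hWpos _).ne'
    rw [Finset.sum_congr rfl fun i _ => h1 i, Finset.sum_comm,
      Finset.sum_congr rfl fun l _ => hinv (l * N)]
    simp
  rw [hlog] at hj
  rw [Finset.sum_neg_distrib, neg_div]
  set G := (∑ i, Real.log (WW T d a N Q (x i))) / Fintype.card ι with hG
  have h9 : (L : ℝ) * G ≤ a * N * Δ + (Real.log 2 + -(p * B)) := by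
    rw [hG, ← mul_div_assoc]
    exact hj
  have h10 : ((L : ℝ) * N) * B ≤ p * B := by
    apply mul_le_mul_of_nonneg_right _ hB0
    exact_mod_cast hLN
  have h11 : G ≤ (a * N * Δ + Real.log 2) / L - N * B := by
    rw [le_sub_iff_add_le, le_div_iff₀ hLp]
    nlinarith
  linarith


section Top

variable {X : Type} [TopologicalSpace X]

/-- a compatible metric is nonnegative -/
theorem d_nonneg (d : H3.MD.CompatMetric X) (x y : X) : 0 ≤ d.d x y := by
  have h1 := d.triangle x y x
  rw [d.d_self, d.d_comm y x] at h1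
  linarith

/-- a compatible metric is continuous -/
theorem d_continuous (d : H3.MD.CompatMetric X) : Continuous fun q : X × X => d.d q.1 q.2 := by
  have hnear : ∀ (x : X) (ε : ℝ), 0 < ε → ∀ᶠ y in 𝓝 x, d.d x y < ε := by
    intro x ε hε
    have ho : IsOpen {y | d.d x y < ε} := by
      rw [d.isOpen_iff]
      intro y hy
      refine ⟨ε - d.d x y, by have : d.d x y < ε := hy; linarith, fun z hz => ?_⟩
      have := d.triangle x y z
      show d.d x z < ε
      linarith
    exact ho.mem_nhds (by show d.d x x < ε; rw [d.d_self]; exact hε)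
  rw [continuous_iff_continuousAt]
  rintro ⟨x, y⟩
  rw [ContinuousAt, Metric.tendsto_nhds]
  intro ε hε
  have h1 := hnear x (ε / 2) (by linarith)
  have h2 := hnear y (ε / 2) (by linarith)
  rw [nhds_prod_eq]
  filter_upwards [h1.prod_mk h2] with q hq
  obtain ⟨h3, h4⟩ := hq
  rw [Real.dist_eq, abs_lt]
  have t1 := d.triangle q.1 x q.2
  have t2 := d.triangle x y q.2
  have t3 := d.triangle x q.1 y
  have t4 := d.triangle q.1 q.2 y
  rw [d.d_comm q.1 x] at t1
  rw [d.d_comm q.2 y] at t4
  constructor <;> linarith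

/-- a compatible metric on a compact space is bounded -/
theorem d_bounded [CompactSpace X] (d : H3.MD.CompatMetric X) :
    ∃ Δ : ℝ, ∀ x x' : X, 0 ≤ d.d x x' ∧ d.d x x' ≤ Δ := by
  obtain ⟨Δ, hΔ⟩ := isCompact_univ.bddAbove_image (d_continuous d).continuousOn
  refine ⟨Δ, fun x x' => ⟨d_nonneg d x x', ?_⟩⟩
  exact hΔ ⟨(x, x'), Set.mem_univ _, rfl⟩

end Top

section Limit

variable {X : Type} [TopologicalSpace X] [CompactSpace X] [TopologicalSpace.MetrizableSpace X]
  [MeasurableSpace X] [BorelSpace X]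

theorem secondCountable (X : Type) [TopologicalSpace X] [CompactSpace X]
    [TopologicalSpace.MetrizableSpace X] : SecondCountableTopology X := by
  let _ := TopologicalSpace.metrizableSpaceMetric X
  infer_instance

/-- The uniform measure on a finite family. -/
noncomputable def uni {ι : Type} [Fintype ι] (x : ι → X) : Measure X :=
  (Fintype.card ι : ℝ≥0∞)⁻¹ • ∑ i, Measure.dirac (x i)

omit [TopologicalSpace X] [CompactSpace X] [TopologicalSpace.MetrizableSpace X] [BorelSpace X] in
theorem isProb_uni {ι : Type} [Fintype ι] [Nonempty ι] (x : ι → X) :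
    IsProbabilityMeasure (uni x) := by
  constructor
  rw [uni, Measure.smul_apply, Measure.finsetSum_apply]
  simp only [measure_univ, Finset.sum_const, Finset.card_univ, nsmul_eq_mul, mul_one, smul_eq_mul]
  exact ENNReal.inv_mul_cancel (by simp) (by simp)

omit [CompactSpace X] [TopologicalSpace.MetrizableSpace X] in
theorem integral_uni {ι : Type} [Fintype ι] [Nonempty ι] (x : ι → X) (f : X → ℝ)
    (hf : Continuous f) : ∫ z, f z ∂(uni x) = (∑ i, f (x i)) / Fintype.card ι := by
  rw [uni, integral_smul_measure, integral_finsetSum_measure]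
  · rw [Finset.sum_congr rfl fun i _ => integral_dirac' f (x i) hf.stronglyMeasurable]
    rw [ENNReal.toReal_inv, ENNReal.toReal_natCast, smul_eq_mul, div_eq_inv_mul]
  · intro i _
    exact integrable_dirac' hf.stronglyMeasurable (by simp)

/-- Weak limits of the uniform measures of permuted families are invariant. -/
theorem exists_limit (T : X ≃ₜ X) (ι : ℕ → Type) [∀ n, Fintype (ι n)] [∀ n, Nonempty (ι n)]
    (x : ∀ n, ι n → X) (e : ∀ n, ι n ≃ ι n) (he : ∀ n i, x n (e n i) = T (x n i)) :
    ∃ (U : Filter ℕ) (_ : U.NeBot) (μ : Measure X) (_ : IsProbabilityMeasure μ), U ≤ atTop ∧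
      MeasurePreserving T μ μ ∧ ∀ f : X → ℝ, Continuous f →
        Tendsto (fun n => (∑ i, f (x n i)) / Fintype.card (ι n)) U (𝓝 (∫ z, f z ∂μ)) := by
  have hprob : ∀ n, IsProbabilityMeasure (uni (x n)) := fun n => isProb_uni (x n)
  set ν : ℕ → ProbabilityMeasure X := fun n => ⟨uni (x n), hprob n⟩ with hν
  set U : Ultrafilter ℕ := Filter.hyperfilter ℕ with hU
  have hUtop : (U : Filter ℕ) ≤ atTop := by
    rw [← Nat.cofinite_eq_atTop]
    exact Filter.hyperfilter_le_cofinite
  obtain ⟨μ, -, hμ⟩ := isCompact_univ.ultrafilter_le_nhds (U.map ν)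
    (by simp)
  have hlim : Tendsto ν U (𝓝 μ) := hμ
  have hint : ∀ f : X → ℝ, Continuous f →
      Tendsto (fun n => (∑ i, f (x n i)) / Fintype.card (ι n)) U
        (𝓝 (∫ z, f z ∂(μ : Measure X))) := by
    intro f hf
    have h1 := ProbabilityMeasure.tendsto_iff_forall_integral_tendsto.1 hlim
      (BoundedContinuousFunction.mkOfCompact ⟨f, hf⟩)
    have h2 : ∀ n, ∫ z, (BoundedContinuousFunction.mkOfCompact ⟨f, hf⟩ : X → ℝ) z
        ∂((ν n : ProbabilityMeasure X) : Measure X) = (∑ i, f (x n i)) / Fintype.card (ι n) := by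
      intro n
      exact integral_uni (x n) f hf
    rw [tendsto_congr h2] at h1
    exact h1
  refine ⟨U, inferInstance, (μ : Measure X), inferInstance, hUtop, ⟨T.continuous.measurable, ?_⟩,
    hint⟩
  have : IsProbabilityMeasure ((μ : Measure X).map T) :=
    Measure.isProbabilityMeasure_map T.continuous.measurable.aemeasurable
  apply ext_of_forall_integral_eq_of_IsFiniteMeasure
  intro f
  rw [integral_map T.continuous.measurable.aemeasurable f.continuous.aestronglyMeasurable]
  have h1 := hint (fun z => f (T z)) (f.continuous.comp T.continuous)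
  have h2 := hint f f.continuous
  refine tendsto_nhds_unique h1 (h2.congr fun n => ?_)
  congr 1
  rw [← Equiv.sum_comp (e n) fun i => f (x n i)]
  exact Finset.sum_congr rfl fun i _ => by rw [he]


/-- The lower bound for the mutual information. -/
theorem mutualInfo_ge [Nonempty X] (T : X ≃ₜ X) (d : H3.MD.CompatMetric X) {β K : ℝ}
    (hK : 1 ≤ K) (p : ℕ → ℕ) (hp : ∀ n, n ≤ p n)
    (ι : ℕ → Type) [∀ n, Fintype (ι n)] [∀ n, Nonempty (ι n)]
    (x : ∀ n, ι n → X) (e : ∀ n, ι n ≃ ι n) (he : ∀ n i, x n (e n i) = T (x n i))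
    (hF : ∀ n, ∀ (y : ℕ → X) (r : ℝ), 1 / (p n : ℝ) ≤ r → r ≤ 1 →
      ({i | ∑ k ∈ Finset.range (p n), d.d (T^[k] (x n i)) (y k) ≤ p n * r}.ncard : ℝ) ≤
        K ^ (p n) * r ^ (β * p n) * Fintype.card (ι n))
    (U : Filter ℕ) [U.NeBot] (hU : U ≤ atTop) (μ : Measure X) [IsProbabilityMeasure μ]
    (hlim : ∀ f : X → ℝ, Continuous f →
      Tendsto (fun n => (∑ i, f (x n i)) / Fintype.card (ι n)) U (𝓝 (∫ z, f z ∂μ)))
    (N : ℕ) (hN : 0 < N) (π : Measure (X × (Fin N → X))) [IsProbabilityMeasure π]
    (hfst : π.fst = μ) {a r ε : ℝ} (ha : 0 < a) (hr0 : 0 < r) (hr1 : r ≤ 1)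
    (hB0 : 0 ≤ β * Real.log (1 / r) - Real.log K)
    (hB : β * Real.log (1 / r) - Real.log K ≤ a * r)
    (hε : ∫ q, (1 / (N : ℝ)) * ∑ k : Fin N, d.d (T^[(k : ℕ)] q.1) (q.2 k) ∂π < ε) :
    ENNReal.ofReal (N * (β * Real.log (1 / r) - Real.log K - a * ε)) ≤ H3.MD.mutualInfo π := by
  have hsc : SecondCountableTopology X := secondCountable X
  obtain ⟨Δ, hΔ⟩ := d_bounded d
  have hNR : (0 : ℝ) < N := by exact_mod_cast hN
  set Q := π.snd with hQ
  set B := β * Real.log (1 / r) - Real.log K with hBdef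
  -- the distortion
  set ρ : X × (Fin N → X) → ℝ := fun q => ∑ k : Fin N, d.d (T^[(k : ℕ)] q.1) (q.2 k) with hρ
  have hρc : Continuous ρ := by
    refine continuous_finsetSum _ fun k _ => ?_
    exact (d_continuous d).comp (((T.continuous.iterate _).comp continuous_fst).prodMk
      ((continuous_apply k).comp continuous_snd))
  have hρ0 : ∀ q, 0 ≤ ρ q := fun q => Finset.sum_nonneg fun k _ => (hΔ _ _).1
  have hexp1 : ∀ q, Real.exp (-(a * ρ q)) ≤ 1 := by
    intro q
    rw [Real.exp_le_one_iff]
    have := mul_nonneg ha.le (hρ0 q)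
    linarith
  have hint : ∀ z, Integrable
      (fun y : Fin N → X => Real.exp (-(a * ∑ k : Fin N, d.d (T^[(k : ℕ)] z) (y k)))) Q := by
    intro z
    have hc : Continuous fun y : Fin N → X => Real.exp (-(a * ρ (z, y))) := by
      exact Real.continuous_exp.comp ((continuous_const.mul
        (hρc.comp (continuous_const.prodMk continuous_id))).neg)
    refine Integrable.of_bound hc.measurable.aestronglyMeasurable 1 (ae_of_all _ fun y => ?_)
    rw [Real.norm_eq_abs, abs_of_pos (Real.exp_pos _)]
    exact hexp1 (z, y)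
  have hWpos : ∀ z, 0 < WW T d.d a N Q z := fun z => integral_exp_pos (hint z)
  have hWc : Continuous fun z => WW T d.d a N Q z := by
    unfold WW
    refine continuous_of_dominated (bound := fun _ => 1) (fun z => (hint z).aestronglyMeasurable)
      (fun z => ae_of_all _ fun y => ?_) (integrable_const _) (ae_of_all _ fun y => ?_)
    · rw [Real.norm_eq_abs, abs_of_pos (Real.exp_pos _)]
      exact hexp1 (z, y)
    · exact Real.continuous_exp.comp ((continuous_const.mul
        (hρc.comp (continuous_id.prodMk continuous_const))).neg)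
  set g : X → ℝ := fun z => -Real.log (WW T d.d a N Q z) with hg
  have hgc : Continuous g := (hWc.log fun z => (hWpos z).ne').neg
  -- the integral of `g`
  have hgint : N * B ≤ ∫ z, g z ∂μ := by
    have h1 := hlim g hgc
    have hdiv : Tendsto (fun n => ((p n / N : ℕ) : ℝ)) U atTop := by
      have h2 : Tendsto (fun n : ℕ => ((n / N : ℕ) : ℝ)) atTop atTop :=
        tendsto_natCast_atTop_atTop.comp (Nat.tendsto_div_const_atTop hN.ne')
      refine tendsto_atTop_mono (fun n => ?_) (h2.mono_left hU)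
      exact_mod_cast Nat.div_le_div_right (hp n)
    have h3 : Tendsto (fun n => N * B - (a * N * Δ + Real.log 2) / ((p n / N : ℕ) : ℝ)) U
        (𝓝 (N * B - 0)) := tendsto_const_nhds.sub (hdiv.const_div_atTop _)
    rw [sub_zero] at h3
    have hev1 : ∀ᶠ n in U, N ≤ p n := by
      filter_upwards [hU (eventually_ge_atTop N)] with n hn
      exact hn.trans (hp n)
    have hev2 : ∀ᶠ n in U, 1 / (p n : ℝ) ≤ r := by
      obtain ⟨m, hm⟩ := exists_nat_ge (1 / r)
      filter_upwards [hU (eventually_ge_atTop m)] with n hn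
      have h4 : (1 : ℝ) / r ≤ p n := hm.trans (by exact_mod_cast hn.trans (hp n))
      have h5 : (0 : ℝ) < p n := lt_of_lt_of_le (by positivity) h4
      rw [div_le_iff₀ hr0] at h4
      rw [div_le_iff₀ h5, mul_comm]
      exact h4
    refine le_of_tendsto_of_tendsto h3 h1 ?_
    filter_upwards [hev1, hev2] with n h4 h5
    exact family_le T d.d ha hΔ hN h4 Q hint hWpos hr0 hK hB0 hB (x n) (e n) (he n)
      (fun y => hF n y r h5 hr1)
  -- the variational principle
  set φ : X × (Fin N → X) → ℝ := fun q => g q.1 + -(a * ρ q) with hφ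
  have hφc : Continuous φ := (hgc.comp continuous_fst).add ((continuous_const.mul hρc).neg)
  obtain ⟨C, hC⟩ : ∃ C, ∀ q, |φ q| ≤ C := by
    obtain ⟨C, hC⟩ := isCompact_univ.bddAbove_image (hφc.abs).continuousOn
    exact ⟨C, fun q => hC ⟨q, Set.mem_univ _, rfl⟩⟩
  have hdv := dv_le π (π.fst.prod π.snd) φ hφc.measurable C hC
  have hexpint : Integrable (fun q => Real.exp (φ q)) (π.fst.prod π.snd) := by
    refine Integrable.of_bound (Real.continuous_exp.comp hφc).measurable.aestronglyMeasurable
      (Real.exp C) (ae_of_all _ fun q => ?_)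
    rw [Real.norm_eq_abs, abs_of_pos (Real.exp_pos _)]
    exact Real.exp_le_exp.2 ((le_abs_self _).trans (hC q))
  have h1 : ∫ q, Real.exp (φ q) ∂(π.fst.prod π.snd) = 1 := by
    rw [integral_prod _ hexpint]
    have h2 : ∀ z, ∫ y, Real.exp (φ (z, y)) ∂π.snd = 1 := by
      intro z
      have h3 : ∀ y, Real.exp (φ (z, y)) = Real.exp (g z) *
          Real.exp (-(a * ∑ k : Fin N, d.d (T^[(k : ℕ)] z) (y k))) := by
        intro y
        rw [← Real.exp_add]
      simp only [h3]
      rw [integral_const_mul]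
      show Real.exp (g z) * WW T d.d a N Q z = 1
      rw [hg, Real.exp_neg, Real.exp_log (hWpos z)]
      exact inv_mul_cancel₀ (hWpos z).ne'
    simp only [h2]
    simp
  rw [h1, Real.log_one, sub_zero] at hdv
  refine le_trans (ENNReal.ofReal_le_ofReal ?_) hdv
  have hρint : Integrable ρ π := by
    obtain ⟨C', hC'⟩ := isCompact_univ.bddAbove_image (hρc.abs).continuousOn
    refine Integrable.of_bound hρc.measurable.aestronglyMeasurable C' (ae_of_all _ fun q => ?_)
    exact hC' ⟨q, Set.mem_univ _, rfl⟩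
  have hgi : Integrable (fun q : X × (Fin N → X) => g q.1) π := by
    obtain ⟨C', hC'⟩ := isCompact_univ.bddAbove_image (hgc.abs).continuousOn
    refine Integrable.of_bound (hgc.comp continuous_fst).measurable.aestronglyMeasurable C'
      (ae_of_all _ fun q => ?_)
    exact hC' ⟨q.1, Set.mem_univ _, rfl⟩
  have h4 : ∫ q, φ q ∂π = ∫ z, g z ∂μ - a * ∫ q, ρ q ∂π := by
    have h5 : ∫ q, φ q ∂π = ∫ q, g q.1 ∂π + ∫ q, -(a * ρ q) ∂π :=
      integral_add hgi (hρint.const_mul a).neg
    have h5a : ∫ q, -(a * ρ q) ∂π = -(a * ∫ q, ρ q ∂π) := by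
      rw [integral_neg, integral_const_mul]
    have h5b : ∫ z, g z ∂μ = ∫ q, g q.1 ∂π := by
      rw [← hfst, Measure.fst]
      exact integral_map measurable_fst.aemeasurable hgc.measurable.aestronglyMeasurable
    rw [h5, h5a, h5b]
    ring
  have h6 : ∫ q, ρ q ∂π ≤ N * ε := by
    rw [integral_const_mul] at hε
    have h7 : (1 / (N : ℝ)) * ∫ q, ρ q ∂π < ε := hε
    rw [one_div, inv_mul_lt_iff₀ hNR] at h7
    exact h7.le
  rw [h4]
  have h8 := mul_le_mul_of_nonneg_left h6 ha.le
  nlinarith

end Limit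

/-- **LB**: the lower bound for the lower rate distortion dimension. -/
theorem LB3_thm : Stmt_LB := by
  intro X _ _ _ _ _ _ T d β K hβ hK hFr
  choose p hp hF using hFr
  choose ι i1 i2 x e he hcount using hF
  obtain ⟨U, hUne, μ, hμ, hU, hT, hlim⟩ := exists_limit T ι x e he
  refine ⟨μ, hμ, hT, ?_⟩
  refine le_of_forall_lt fun c hc => ?_
  have hctop : c ≠ ⊤ := (hc.trans ENNReal.ofReal_lt_top).ne
  obtain ⟨c', hc1, hc2⟩ := exists_between hc
  have hc'top : c' ≠ ⊤ := (hc2.trans ENNReal.ofReal_lt_top).ne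
  refine hc1.trans_le ?_
  set b := c'.toReal with hb
  have hb0 : 0 ≤ b := ENNReal.toReal_nonneg
  have hbβ : b < β := by
    rw [← ENNReal.toReal_ofReal hβ.le]
    exact (ENNReal.toReal_lt_toReal hc'top ENNReal.ofReal_ne_top).2 hc2
  have hc'b : c' = ENNReal.ofReal b := (ENNReal.ofReal_toReal hc'top).symm
  rw [hc'b]
  -- the parameters
  set θ := (b + β) / (2 * β) with hθ
  have hθ0 : 0 < θ := by positivity
  have hθ1 : θ < 1 := by rw [hθ, div_lt_one (by linarith)]; linarith
  have hβθ : β * θ = (b + β) / 2 := by rw [hθ]; field_simp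
  set t0 := max (max 1 (2 * (β * θ) / (1 - θ) ^ 2)) (2 * (Real.log K + 1) / (β - b)) with ht0
  have hK0 : 0 ≤ Real.log K := Real.log_nonneg hK
  have hev : ∀ᶠ ε : ℝ in 𝓝[>] 0, ENNReal.ofReal b ≤
      H3.MD.rate T d.d μ ε / ENNReal.ofReal (Real.logb 2 (1 / ε)) := by
    have hmem : Set.Ioo (0 : ℝ) (Real.exp (-t0)) ∈ 𝓝[>] (0 : ℝ) :=
      Ioo_mem_nhdsGT (Real.exp_pos _)
    filter_upwards [hmem] with ε hε
    obtain ⟨hε0, hε1⟩ := hε
    set t := Real.log (1 / ε) with ht
    have htt : t0 ≤ t := by
      rw [ht, one_div, Real.log_inv]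
      have h2 := Real.log_lt_log hε0 hε1
      rw [Real.log_exp] at h2
      linarith
    have ht1 : 1 ≤ t := ((le_max_left _ _).trans (le_max_left _ _)).trans htt
    have ht2 : 2 * (β * θ) / (1 - θ) ^ 2 ≤ t :=
      ((le_max_right _ _).trans (le_max_left _ _)).trans htt
    have ht3 : 2 * (Real.log K + 1) / (β - b) ≤ t := (le_max_right _ _).trans htt
    have h1θ : 0 < 1 - θ := by linarith
    rw [div_le_iff₀ (by positivity)] at ht2
    rw [div_le_iff₀ (by linarith)] at ht3
    set r := Real.exp (-(θ * t)) with hr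
    have hr0 : 0 < r := Real.exp_pos _
    have hr1 : r ≤ 1 := by
      rw [hr, Real.exp_le_one_iff]
      have := mul_nonneg hθ0.le (by linarith : (0 : ℝ) ≤ t)
      linarith
    have hlogr : Real.log (1 / r) = θ * t := by
      rw [one_div, Real.log_inv, hr, Real.log_exp]
      ring
    have hεt : ε = Real.exp (-t) := by
      rw [ht, one_div, Real.log_inv, neg_neg, Real.exp_log hε0]
    have har : (1 / ε) * r = Real.exp ((1 - θ) * t) := by
      rw [hεt, hr, one_div, ← Real.exp_neg, ← Real.exp_add]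
      congr 1
      ring
    have hB0 : 0 ≤ β * Real.log (1 / r) - Real.log K := by
      rw [hlogr, ← mul_assoc, hβθ]
      nlinarith
    have hB : β * Real.log (1 / r) - Real.log K ≤ (1 / ε) * r := by
      rw [har, hlogr]
      have h5 : ((1 - θ) * t) ^ 2 / 2 ≤ Real.exp ((1 - θ) * t) := by
        have := Real.quadratic_le_exp_of_nonneg (x := (1 - θ) * t) (by positivity)
        have h6 : 0 ≤ (1 - θ) * t := by positivity
        nlinarith
      have h7 : β * θ * t ≤ ((1 - θ) * t) ^ 2 / 2 := by
        have h8 := mul_le_mul_of_nonneg_right ht2 (by linarith : (0 : ℝ) ≤ t)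
        nlinarith
      nlinarith
    have hlogb : Real.logb 2 (1 / ε) = t / Real.log 2 := rfl
    have hl2 : 0 < Real.log 2 := Real.log_pos (by norm_num)
    have hLpos : 0 < Real.logb 2 (1 / ε) := by rw [hlogb]; positivity
    rw [ENNReal.le_div_iff_mul_le (Or.inl (by simpa using hLpos)) (Or.inl ENNReal.ofReal_ne_top)]
    unfold H3.MD.rate
    refine le_iInf fun N => le_iInf fun hN => le_iInf fun π => le_iInf fun hπ => le_iInf fun hfst =>
      le_iInf fun hE => ?_
    have hNR : (0 : ℝ) < N := by exact_mod_cast hN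
    have hmi := mutualInfo_ge T d (β := β) (K := K) hK p hp ι x e he hcount U hU μ hlim N hN π hfst
      (a := 1 / ε) (r := r) (ε := ε) (by positivity) hr0 hr1 hB0 hB hE
    have hae : (1 / ε) * ε = 1 := by field_simp
    rw [hae, hlogr] at hmi
    have h9 : ENNReal.ofReal b * ENNReal.ofReal (Real.logb 2 (1 / ε)) ≤
        ENNReal.ofReal (N * (β * (θ * t) - Real.log K - 1)) / ENNReal.ofReal (Real.log 2) / N := by
      rw [← ENNReal.ofReal_mul hb0, ← ENNReal.ofReal_div_of_pos hl2,
        ← ENNReal.ofReal_natCast N, ← ENNReal.ofReal_div_of_pos hNR]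
      apply ENNReal.ofReal_le_ofReal
      rw [hlogb, le_div_iff₀ hNR, le_div_iff₀ hl2]
      have h10 : b * (t / Real.log 2) * N * Real.log 2 = N * (b * t) := by field_simp
      rw [h10]
      apply mul_le_mul_of_nonneg_left _ hNR.le
      rw [← mul_assoc, hβθ]
      nlinarith
    refine h9.trans ?_
    exact ENNReal.div_le_div_right (ENNReal.div_le_div_right hmi _) _
  unfold H3.MD.rdimL
  exact le_liminf_of_le (by isBoundedDefault) hev

end Pool.Agent.DV.LB3
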