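import Pool.Agent.DV.Stmts

/-!
# LEBN: a Lebesgue number lemma for subsets of `HH`
-/

set_option autoImplicit false

open Set Topology Filter MeasureTheory
open scoped ENNReal Uniformity

namespace Pool.Agent.DV

namespace Lebn

/-- The basic entourages of `HH`. -/
def FF (K : ℕ) : Set (HH × HH) :=
  {q | ∀ (s : ℤ) (l u : ℕ), |s| ≤ (K : ℤ) → l ≤ K → u ≤ K →
    |(q.1 s l u : ℝ) - q.2 s l u| ≤ 1 / ((K : ℝ) + 1)}

theorem FF_anti {K L : ℕ} (h : K ≤ L) : FF L ⊆ FF K := by
  intro q hq s l u hs hl hu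
  refine (hq s l u (hs.trans (by exact_mod_cast h)) (hl.trans h) (hu.trans h)).trans ?_
  apply one_div_le_one_div_of_le (by positivity)
  have : (K : ℝ) ≤ L := by exact_mod_cast h
  linarith

theorem exists_FF (V : Set (HH × HH)) (hV : V ∈ 𝓤 HH) : ∃ K, FF K ⊆ V := by
  have hle : (⨅ K : ℕ, 𝓟 (FF K)) ≤ 𝓤 HH := by
    rw [Pi.uniformity]
    refine le_iInf fun s => ?_
    rw [Pi.uniformity, Filter.comap_iInf]
    refine le_iInf fun l => ?_
    rw [Pi.uniformity, Filter.comap_iInf, Filter.comap_iInf]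
    refine le_iInf fun u => ?_
    rw [Filter.comap_comap, Filter.comap_comap]
    intro W hW
    obtain ⟨W', hW', hsub⟩ := Filter.mem_comap.1 hW
    obtain ⟨ε, hε, hε'⟩ := Metric.mem_uniformity_dist.1 hW'
    obtain ⟨N, hN⟩ := exists_nat_one_div_lt hε
    refine Filter.mem_iInf_of_mem (max N (max s.natAbs (max l u))) ?_
    rw [Filter.mem_principal]
    refine subset_trans ?_ hsub
    intro q hq
    apply hε'
    have h1 := hq s l u (by
        rw [Int.abs_eq_natAbs]
        exact_mod_cast le_max_of_le_right (le_max_left _ _))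
      (le_max_of_le_right (le_max_of_le_right (le_max_left _ _)))
      (le_max_of_le_right (le_max_of_le_right (le_max_right _ _)))
    have h2 : (1 : ℝ) / (((max N (max s.natAbs (max l u)) : ℕ) : ℝ) + 1) ≤ 1 / ((N : ℝ) + 1) := by
      apply one_div_le_one_div_of_le (by positivity)
      have : (N : ℝ) ≤ ((max N (max s.natAbs (max l u)) : ℕ) : ℝ) := by
        exact_mod_cast le_max_left _ _
      linarith
    have h3 : dist (q.1 s l u) (q.2 s l u) = |(q.1 s l u : ℝ) - q.2 s l u| := rfl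
    rw [h3] at *
    exact (h1.trans h2).trans_lt hN
  have h := hle hV
  have hd : Directed (· ≥ ·) fun K : ℕ => 𝓟 (FF K) := by
    intro K L
    exact ⟨max K L, Filter.principal_mono.2 (FF_anti (le_max_left K L)),
      Filter.principal_mono.2 (FF_anti (le_max_right K L))⟩
  rw [Filter.mem_iInf_of_directed hd] at h
  obtain ⟨K, hK⟩ := h
  exact ⟨K, Filter.mem_principal.1 hK⟩

end Lebn

open Lebn in
theorem LEBN_thm : Stmt_LEBN := by
  intro X hX α hα
  have hc : CompactSpace X := isCompact_iff_compactSpace.1 hX.isCompact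
  obtain ⟨V, hV, hVα⟩ := lebesgue_number_lemma_sUnion (isCompact_univ (X := X)) hα.2.1
    (by rw [hα.2.2])
  rw [uniformity_subtype] at hV
  obtain ⟨V', hV', hsub⟩ := Filter.mem_comap.1 hV
  obtain ⟨K, hK⟩ := exists_FF V' hV'
  refine ⟨K, 1 / ((K : ℝ) + 1), by positivity, ?_⟩
  rintro W ⟨x, hx⟩ hW
  obtain ⟨U, hU, hUx⟩ := hVα x trivial
  refine ⟨U, hU, fun y hy => hUx ?_⟩
  apply hsub
  apply hK
  intro s l u hs hl hu
  exact hW x hx y hy s l u hs hl hu

end Pool.Agent.DV
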