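import Pool.Agent.DV.Stmts

/-!
# LEVEL: one level
-/

set_option autoImplicit false

namespace Pool.Agent.DV

open Set

theorem isCompact_EE (p : ℕ) [Fact p.Prime] : IsCompact (EE p) := by
  have h1 : EE p = Icc (0 : ZMod p → ℝ) 1 ∩
      ((⋃ k : ZMod p, {z | z k = 0}) ∩ ⋃ k : ZMod p, {z | z k = 1}) := by
    ext z
    simp only [EE, Set.mem_setOf_eq, Set.mem_inter_iff, Set.mem_iUnion, Set.mem_Icc, Pi.le_def,
      Pi.zero_apply, Pi.one_apply]
    constructor
    · rintro ⟨a, b, c⟩; exact ⟨⟨fun k => (a k).1, fun k => (a k).2⟩, b, c⟩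
    · rintro ⟨⟨a, a'⟩, b, c⟩; exact ⟨fun k => ⟨a k, a' k⟩, b, c⟩
  rw [h1]
  refine isCompact_Icc.inter_right (IsClosed.inter ?_ ?_)
  · exact isClosed_iUnion_of_finite fun k => isClosed_eq (continuous_apply k) continuous_const
  · exact isClosed_iUnion_of_finite fun k => isClosed_eq (continuous_apply k) continuous_const

theorem nonempty_EE (p : ℕ) [hp : Fact p.Prime] : (EE p).Nonempty := by
  classical
  have h10 : (1 : ZMod p) ≠ 0 := one_ne_zero
  refine ⟨fun k => if k = 0 then 0 else 1, fun k => ?_, ⟨0, if_pos rfl⟩, 1, if_neg h10⟩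
  dsimp only
  split_ifs
  · exact ⟨le_refl _, zero_le_one⟩
  · exact ⟨zero_le_one, le_refl _⟩

/-- LEVEL -/
theorem LEVEL_thm (hH : Stmt_HAT) : Stmt_LEVEL := by
  classical
  intro p hp I _ y N P ρ hρ hy hnet
  -- uniform continuity
  have huc : ∃ δ : ℝ, 0 < δ ∧ ∀ z ∈ EE p, ∀ z' ∈ EE p,
      dist z z' < δ → ∀ i, |y z i - y z' i| < ρ / 2 := by
    have h1 := (isCompact_EE p).uniformContinuousOn_of_continuous hy
    rw [Metric.uniformContinuousOn_iff] at h1
    obtain ⟨δ, hδ, h2⟩ := h1 (ρ / 2) (by linarith)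
    refine ⟨δ, hδ, fun z hz z' hz' hd i => ?_⟩
    have h3 := h2 z hz z' hz' hd
    have h4 := (dist_le_pi_dist (y z) (y z') i).trans_lt h3
    rwa [Real.dist_eq] at h4
  obtain ⟨δ, hδ, hδ2⟩ := huc
  obtain ⟨L, hL⟩ := exists_nat_gt (2 / δ)
  have hL0 : (0 : ℝ) < L := lt_trans (by positivity) hL
  have hL1 : 0 < L := by exact_mod_cast hL0
  have hLδ : 2 / (L : ℝ) < δ := by
    rw [div_lt_iff₀ hδ] at hL
    rw [div_lt_iff₀ hL0]
    linarith
  obtain ⟨UU, h, c, hhc, hcc, hh0, hc0, hcov, hsm, hcard, hbud⟩ := hH p L hL1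
  set tot : (ZMod p → ℝ) → ℝ := fun z => ∑ u ∈ UU, h u z with htot
  have htotc : Continuous tot := continuous_finset_sum _ fun u _ => hhc u
  have htot0 : ∀ z, 0 ≤ tot z := fun z => Finset.sum_nonneg fun u _ => hh0 u z
  have htotp : ∀ z ∈ EE p, 0 < tot z := by
    intro z hz
    obtain ⟨u, hu, hu2⟩ := hcov z hz
    exact lt_of_lt_of_le hu2 (Finset.single_le_sum (f := fun u => h u z)
      (fun u _ => hh0 u z) hu)
  -- labels
  have hlab : ∀ u : ZMod p → ℤ, ∃ v < N, ∀ z ∈ EE p, 0 < h u z →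
      ∀ i, |y z i - P v i| ≤ ρ := by
    intro u
    by_cases hex : ∃ z ∈ EE p, 0 < h u z
    · obtain ⟨z, hz, hu⟩ := hex
      obtain ⟨v, hvN, hv⟩ := hnet z hz
      refine ⟨v, hvN, fun z' hz' hu' i => ?_⟩
      have hd : dist z' z < δ := by
        rw [dist_pi_lt_iff hδ]
        intro k
        rw [Real.dist_eq]
        exact (hsm u z' z hu' hu k).trans_lt hLδ
      have h1 := hδ2 z' hz' z hz hd i
      have h2 := hv i
      have h3 : y z' i - P v i = (y z' i - y z i) + (y z i - P v i) := by ring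
      rw [h3]
      exact (abs_add_le _ _).trans (by linarith)
    · obtain ⟨z, hz⟩ := nonempty_EE p
      obtain ⟨v, hvN, -⟩ := hnet z hz
      exact ⟨v, hvN, fun z hz hu => absurd ⟨z, hz, hu⟩ hex⟩
  choose lab hlabN hlab using hlab
  have hkey : ∀ v z, (∑ u ∈ UU.filter (fun u => lab u = v), h u z) / tot z ≠ 0 →
      ∃ u ∈ UU, lab u = v ∧ 0 < h u z := by
    intro v z hne
    have h2 : ∑ u ∈ UU.filter (fun u => lab u = v), h u z ≠ 0 := by
      intro h3
      apply hne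
      rw [h3, zero_div]
    obtain ⟨u, hu, hu2⟩ := Finset.exists_ne_zero_of_sum_ne_zero h2
    obtain ⟨hu3, hl⟩ := Finset.mem_filter.1 hu
    exact ⟨u, hu3, hl, lt_of_le_of_ne (hh0 u z) (Ne.symm hu2)⟩
  refine ⟨fun v z => (∑ u ∈ UU.filter (fun u => lab u = v), h u z) / tot z, c,
    fun v => ?_, fun k => (hcc k).continuousOn, hc0, fun v z _ => ?_, fun z hz => ?_,
    fun v hv z => ?_, fun z hz v hne i => ?_, fun z hz => ?_, hbud⟩
  · refine ContinuousOn.div ?_ htotc.continuousOn fun z hz => (htotp z hz).ne'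
    exact (continuous_finset_sum _ fun u _ => hhc u).continuousOn
  · exact div_nonneg (Finset.sum_nonneg fun u _ => hh0 u z) (htot0 z)
  · rw [← Finset.sum_div, Finset.sum_fiberwise_of_maps_to
      (fun u _ => Finset.mem_range.2 (hlabN u))]
    exact div_self (htotp z hz).ne'
  · dsimp only
    rw [Finset.filter_false_of_mem, Finset.sum_empty, zero_div]
    intro u _ hu
    have := hlabN u
    omega
  · obtain ⟨u, -, hl, hu⟩ := hkey v z hne
    rw [← hl]
    exact hlab u z hz hu i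
  · have h1 : {v | (∑ u ∈ UU.filter (fun u => lab u = v), h u z) / tot z ≠ 0} ⊆
        lab '' {u | u ∈ UU ∧ 0 < h u z} := by
      intro v hv
      obtain ⟨u, hu, hl, hu2⟩ := hkey v z hv
      exact ⟨u, ⟨hu, hu2⟩, hl⟩
    have hfin : {u | u ∈ UU ∧ 0 < h u z}.Finite :=
      UU.finite_toSet.subset fun u hu => hu.1
    exact (Set.ncard_le_ncard h1 (hfin.image _)).trans
      ((Set.ncard_image_le hfin).trans (hcard z hz))

end Pool.Agent.DV
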