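import Pool.Agent.DV.Stmts

/-!
# MP_9896a2_an: the sparsity conditions as a coloured system
-/

set_option autoImplicit false

open Set Topology Filter MeasureTheory
open scoped ENNReal

namespace Pool.Agent.DV

namespace LEVS

variable {p : ℕ}

/-- The translation. -/
def sg (t : ZMod p) (z : ZMod p → ℝ) : ZMod p → ℝ := fun i => z (i + t)

theorem sg_mem (t : ZMod p) {z : ZMod p → ℝ} (hz : z ∈ EE p) : sg t z ∈ EE p := by
  obtain ⟨h1, ⟨k, hk⟩, l, hl⟩ := hz
  exact ⟨fun i => h1 _, ⟨k - t, by simpa [sg] using hk⟩, l - t, by simpa [sg] using hl⟩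

theorem sg_cont (t : ZMod p) : Continuous (sg t : (ZMod p → ℝ) → ZMod p → ℝ) :=
  continuous_pi fun _ => continuous_apply _

theorem sg_sh (t : ZMod p) (z : ZMod p → ℝ) : sg t (sh z) = sg (t + 1) z := by
  funext i
  show z (i + t + 1) = z (i + (t + 1))
  rw [add_assoc]

theorem sh_sg (t : ZMod p) (z : ZMod p → ℝ) : sh (sg t z) = sg (t + 1) z := by
  funext i
  show z (i + 1 + t) = z (i + (t + 1))
  congr 1
  ring

theorem sg_zero (z : ZMod p → ℝ) : sg 0 z = z := by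
  funext i
  show z (i + 0) = z i
  rw [add_zero]

section Sums

variable [NeZero p]

/-- The function which is positive iff at least `m` of the functions are positive. -/
noncomputable def bb (c : ZMod p → (ZMod p → ℝ) → ℝ) (m : ℕ) (z : ZMod p → ℝ) (t : ZMod p) : ℝ :=
  ∑ A ∈ (Finset.univ : Finset (ZMod p)).powersetCard m, ∏ k ∈ A, c k (sg t z)

variable {c : ZMod p → (ZMod p → ℝ) → ℝ} {m : ℕ}

theorem bb_cont (hc : ∀ k, ContinuousOn (c k) (EE p)) (t : ZMod p) :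
    ContinuousOn (fun z => bb c m z t) (EE p) := by
  unfold bb
  refine continuousOn_finsetSum _ fun A _ => continuousOn_finsetProd _ fun k _ => ?_
  exact (hc k).comp (sg_cont t).continuousOn fun z hz => sg_mem t hz

theorem bb_sh (z : ZMod p → ℝ) (t : ZMod p) : bb c m (sh z) t = bb c m z (t + 1) := by
  unfold bb
  rw [sg_sh]

theorem bb_nonneg (hc : ∀ k z, 0 ≤ c k z) (z : ZMod p → ℝ) (t : ZMod p) : 0 ≤ bb c m z t :=
  Finset.sum_nonneg fun _ _ => Finset.prod_nonneg fun _ _ => hc _ _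

theorem le_of_ne (hc : ∀ k z, 0 ≤ c k z) {z : ZMod p → ℝ} {t : ZMod p} (h : bb c m z t ≠ 0) :
    m ≤ {k | 0 < c k (sg t z)}.ncard := by
  obtain ⟨A, hA, h1⟩ := Finset.exists_ne_zero_of_sum_ne_zero h
  rw [Finset.mem_powersetCard] at hA
  rw [← hA.2, ← Set.ncard_coe_finset]
  refine Set.ncard_le_ncard (fun k hk => ?_) (Set.toFinite _)
  have h2 := Finset.prod_ne_zero_iff.1 h1 k hk
  exact lt_of_le_of_ne (hc _ _) (Ne.symm h2)

theorem lt_of_eq (hc : ∀ k z, 0 ≤ c k z) {z : ZMod p → ℝ} {t : ZMod p} (h : bb c m z t = 0) :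
    {k | 0 < c k (sg t z)}.ncard < m := by
  classical
  by_contra hlt
  push Not at hlt
  let B : Finset (ZMod p) := Finset.univ.filter fun k => 0 < c k (sg t z)
  have hB : ((B : Finset (ZMod p)) : Set (ZMod p)) = {k | 0 < c k (sg t z)} := by
    ext k
    simp [B]
  rw [← hB, Set.ncard_coe_finset] at hlt
  obtain ⟨A, hA1, hA2⟩ := Finset.exists_subset_card_eq hlt
  have h1 := (Finset.sum_eq_zero_iff_of_nonneg
    (fun A _ => Finset.prod_nonneg fun k _ => hc k (sg t z))).1 h A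
    (Finset.mem_powersetCard.2 ⟨Finset.subset_univ _, hA2⟩)
  rw [Finset.prod_eq_zero_iff] at h1
  obtain ⟨k, hk, h2⟩ := h1
  have h3 : 0 < c k (sg t z) := (Finset.mem_filter.1 (hA1 hk)).2
  exact h3.ne' h2

theorem mul_count (hc : ∀ k z, 0 ≤ c k z) {z : ZMod p → ℝ}
    (hn : ∑ t : ZMod p, {k | 0 < c k (fun i => z (i + t))}.ncard ≤ p) (hm : 0 < m) :
    {t | bb c m z t ≠ 0}.ncard ≤ p / m := by
  classical
  rw [Nat.le_div_iff_mul_le hm]
  let B : Finset (ZMod p) := Finset.univ.filter fun t => bb c m z t ≠ 0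
  have hB : ((B : Finset (ZMod p)) : Set (ZMod p)) = {t | bb c m z t ≠ 0} := by
    ext k
    simp [B]
  rw [← hB, Set.ncard_coe_finset]
  calc B.card * m = ∑ t ∈ B, m := by rw [Finset.sum_const, smul_eq_mul]
    _ ≤ ∑ t ∈ B, {k | 0 < c k (sg t z)}.ncard := by
        refine Finset.sum_le_sum fun t ht => le_of_ne hc (Finset.mem_filter.1 ht).2
    _ ≤ ∑ t : ZMod p, {k | 0 < c k (sg t z)}.ncard :=
        Finset.sum_le_sum_of_subset (Finset.subset_univ _)
    _ ≤ p := hn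

end Sums

theorem sum_half (p n : ℕ) : ∑ i ∈ Finset.range n, p / 2 ^ (i + 1) + p / 2 ^ n ≤ p := by
  induction n with
  | zero => simp
  | succ n ih =>
    rw [Finset.sum_range_succ]
    have h1 : p / 2 ^ (n + 1) + p / 2 ^ (n + 1) ≤ p / 2 ^ n := by
      rw [pow_succ, ← Nat.div_div_eq_div_mul]
      omega
    omega

theorem sum_four (p n : ℕ) : 4 * ∑ i : Fin n, p / 2 ^ ((i : ℕ) + 3) ≤ p := by
  rw [Finset.mul_sum]
  have h1 : ∑ i : Fin n, 4 * (p / 2 ^ ((i : ℕ) + 3)) ≤ ∑ i : Fin n, p / 2 ^ ((i : ℕ) + 1) := by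
    refine Finset.sum_le_sum fun i _ => ?_
    have h2 : 2 ^ ((i : ℕ) + 3) = 2 ^ ((i : ℕ) + 1) * 4 := by ring
    rw [h2, ← Nat.div_div_eq_div_mul]
    omega
  have h2 : ∑ i : Fin n, p / 2 ^ ((i : ℕ) + 1) = ∑ i ∈ Finset.range n, p / 2 ^ (i + 1) :=
    Fin.sum_univ_eq_sum_range (fun i => p / 2 ^ (i + 1)) n
  have h3 := (Nat.le_add_right _ _).trans (sum_half p n)
  omega

section Time

variable [NeZero p] {D : Pats} (Φ : FData D p)

theorem time (t : ℤ) : ∀ z ∈ EE p, ∀ s : ℤ, Φ.F (sg (t : ZMod p) z) s = Φ.F z (s + t) := by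
  induction t using Int.induction_on with
  | zero =>
    intro z _ s
    rw [Int.cast_zero, sg_zero, add_zero]
  | succ t ih =>
    intro z hz s
    have h1 : sg (((t : ℤ) + 1 : ℤ) : ZMod p) z = sh (sg ((t : ℤ) : ZMod p) z) := by
      rw [sh_sg, Int.cast_add, Int.cast_one]
    rw [h1, Φ.equi _ (sg_mem _ hz)]
    show Φ.F (sg ((t : ℤ) : ZMod p) z) (s + 1) = _
    rw [ih z hz]
    congr 1
    ring
  | pred t ih =>
    intro z hz s
    have h1 : sh (sg ((-(t : ℤ) - 1 : ℤ) : ZMod p) z) = sg ((-(t : ℤ) : ℤ) : ZMod p) z := by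
      rw [sh_sg]
      congr 1
      push_cast
      ring
    have h2 := Φ.equi _ (sg_mem ((-(t : ℤ) - 1 : ℤ) : ZMod p) hz)
    rw [h1] at h2
    have h3 := congrFun h2 (s - 1)
    have h4 : shiftH (Φ.F (sg ((-(t : ℤ) - 1 : ℤ) : ZMod p) z)) (s - 1) =
        Φ.F (sg ((-(t : ℤ) - 1 : ℤ) : ZMod p) z) s := by
      show Φ.F (sg ((-(t : ℤ) - 1 : ℤ) : ZMod p) z) (s - 1 + 1) = _
      rw [sub_add_cancel]
    rw [h4, ih z hz] at h3
    rw [← h3]
    congr 1
    ring

end Time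

end LEVS

open LEVS in
theorem LEVS_thm (h1 : Stmt_GAPP) (h2 : Stmt_GSYS) (h3 : Stmt_SUMS) : Stmt_LEVS := by
  classical
  intro D p hp Φ
  have hp2 : 2 ≤ p := hp.out.two_le
  let n : ℕ := Nat.log 2 p - 2
  let m : ℕ → ℕ := fun i => 2 ^ (i + 3)
  let S : ℕ → Finset ℕ := fun i => Finset.Icc 1 (p / m i)
  have hm : ∀ i, 2 ≤ m i := by
    intro i
    show 2 ≤ 2 ^ (i + 3)
    calc 2 = 2 ^ 1 := (pow_one 2).symm
      _ ≤ 2 ^ (i + 3) := Nat.pow_le_pow_right (by norm_num) (by omega)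
  have hlt : ∀ i, p / m i < p := fun i => Nat.div_lt_self (by omega) (hm i)
  have hS : ∀ i, ∀ s ∈ S i, 1 ≤ s ∧ s < p := by
    intro i s hs
    have hs' := Finset.mem_Icc.1 hs
    exact ⟨hs'.1, lt_of_le_of_lt hs'.2 (hlt i)⟩
  choose act hact using fun i => h2 p (S i) (hS i)
  let b : ℕ → (ZMod p → ℝ) → ZMod p → ℝ := fun i => bb (Φ.c (i + 1)) (m i)
  have hsys : ∀ i : ℕ, CSys p (p / m i) {A : Finset (ZMod p) // A.card ∈ S i} (act i)
      fun A z => gap A.1 (b i z) := by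
    intro i
    have h := hact i (b i) (fun k => bb_cont (Φ.ccont (i + 1)) k) fun z _ k => bb_sh z k
    have hc : (S i).card = p / m i := by
      show (Finset.Icc 1 (p / m i)).card = _
      rw [Nat.card_Icc, Nat.add_sub_cancel]
    rw [hc] at h
    exact h
  refine ⟨∑ i : Fin n, p / m i, Σ i : Fin n, {A : Finset (ZMod p) // A.card ∈ S i}, inferInstance,
    fun a => ⟨a.1, act a.1 a.2⟩, fun a z => gap a.2.1 (b a.1 z), sum_four p n,
    h3 p n (fun i => p / m i) (fun i => {A : Finset (ZMod p) // A.card ∈ S i})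
      (fun i => act i) (fun i A z => gap A.1 (b i z)) fun i => hsys i, ?_⟩
  intro z hz hall
  -- the sparsity
  have hsp : ∀ j, 1 ≤ j → mj j ≤ p → ∀ t : ZMod p, {k | 0 < Φ.c j k (sg t z)}.ncard < mj j := by
    intro j hj hjp t
    obtain ⟨i, rfl⟩ := Nat.exists_eq_succ_of_ne_zero (Nat.one_le_iff_ne_zero.1 hj)
    have hmi : mj (i + 1) = m i := rfl
    have hin : i < n := by
      have h4 : i + 3 ≤ Nat.log 2 p := Nat.le_log_of_pow_le (by norm_num) hjp
      show i < Nat.log 2 p - 2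
      omega
    have hpos : 0 < m i := by
      have := hm i
      omega
    refine lt_of_eq (Φ.cnonneg (i + 1)) ?_
    have h5 := (h1 (ZMod p)).2.2.2.2 (b i z) (p / m i) (by rw [ZMod.card]; exact hlt i)
      (fun k => bb_nonneg (Φ.cnonneg (i + 1)) z k)
      (mul_count (Φ.cnonneg (i + 1)) (Φ.count z hz (i + 1) (by omega)) hpos) (fun A hA hAc => by
        exact hall ⟨⟨i, hin⟩, ⟨A, Finset.mem_Icc.2 ⟨hA.card_pos, hAc⟩⟩⟩)
    exact h5 t
  intro t j hj
  have hw : sg (t : ZMod p) z ∈ EE p := sg_mem _ hz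
  have hF : ∀ s : ℤ, Φ.F z (t + s) = Φ.F (sg (t : ZMod p) z) s := by
    intro s
    rw [time Φ t z hz s, add_comm]
  have hF0 : Φ.F z t = Φ.F (sg (t : ZMod p) z) 0 := by
    rw [← hF 0, add_zero]
  refine ⟨?_, ?_, ?_⟩
  · rw [hF0]
    exact Φ.sum _ hw j hj
  · have h4 : ((Finset.range (D.N j)).filter fun v => Φ.F z t j v ≠ 0).card =
        {v | v < D.N j ∧ Φ.F (sg (t : ZMod p) z) 0 j v ≠ 0}.ncard := by
      rw [← Set.ncard_coe_finset]
      congr 1
      ext v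
      simp [hF0]
    rw [h4]
    have h5 := Φ.card _ hw j hj
    by_cases hjp : mj j ≤ p
    · have h6 := hsp j hj hjp t
      omega
    · have h6 : {k | 0 < Φ.c j k (sg (t : ZMod p) z)}.ncard ≤ p := by
        calc {k | 0 < Φ.c j k (sg (t : ZMod p) z)}.ncard ≤ (Set.univ : Set (ZMod p)).ncard :=
              Set.ncard_le_ncard (Set.subset_univ _) (Set.toFinite _)
          _ = p := by rw [Set.ncard_univ, Nat.card_zmod]
      omega
  · intro v hv hv0 s l u hs hl hu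
    rw [hF s]
    rw [hF0] at hv0
    exact Φ.net _ hw j hj v hv hv0 s l u hs hl hu

end Pool.Agent.DV
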