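import Pool.Agent.DV.Stmts

/-!
# MP_9896a2_an: the mean dimension of the system is zero (module MDIM)
-/

set_option autoImplicit false

open Set Topology Filter MeasureTheory
open scoped ENNReal

namespace Pool.Agent.DV

/-- A window of length `N` has a cover of order at most `8 √(N + K)`. -/
theorem MDIM.sq_le {f : ℕ → ℕ} {K : ℕ} (hK : ∀ j N : ℕ, K ≤ j → N + K ≤ Bj j → f N ≤ mj j)
    {N : ℕ} (hN : 4 ^ K + 2 ≤ N) : f N * f N ≤ 64 * (N + K) := by
  have h0 : 0 < 4 ^ K := by positivity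
  have h1 : 1 < N + K := by omega
  have hle : N + K ≤ 4 ^ Nat.clog 4 (N + K) := Nat.le_pow_clog (by norm_num) _
  have hlt : 4 ^ (Nat.clog 4 (N + K)).pred < N + K := Nat.pow_pred_clog_lt_self (by norm_num) h1
  have hKj : K ≤ Nat.clog 4 (N + K) := by
    by_contra hc
    have h2 : 4 ^ Nat.clog 4 (N + K) ≤ 4 ^ K :=
      Nat.pow_le_pow_right (by norm_num) (not_le.1 hc).le
    omega
  have hpos : 0 < Nat.clog 4 (N + K) := Nat.clog_pos (by norm_num) h1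
  have h3 := hK (Nat.clog 4 (N + K)) N hKj hle
  obtain ⟨i, hi⟩ := Nat.exists_eq_succ_of_ne_zero hpos.ne'
  rw [hi] at hlt h3
  have h4 : mj (i.succ) = 8 * 2 ^ i := by
    unfold mj
    rw [Nat.succ_eq_add_one, show i + 1 + 2 = i + 3 from rfl, pow_add]
    ring
  rw [h4] at h3
  have h5 : (4 : ℕ) ^ i = 2 ^ i * 2 ^ i := by
    rw [← mul_pow]
    norm_num
  rw [Nat.pred_succ, h5] at hlt
  calc f N * f N ≤ (8 * 2 ^ i) * (8 * 2 ^ i) := Nat.mul_le_mul h3 h3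
    _ = 64 * (2 ^ i * 2 ^ i) := by ring
    _ ≤ 64 * (N + K) := Nat.mul_le_mul_left _ hlt.le

theorem MDIM_thm (h : Stmt_COVN) : Stmt_MDIM := by
  intro D T hT
  unfold H3.MD.mdim
  simp only [ENNReal.iSup_eq_zero]
  intro α hα
  obtain ⟨K, hK⟩ := h D T hT α hα
  apply Tendsto.limsup_eq
  rw [ENNReal.tendsto_atTop_zero]
  intro ε hε
  obtain ⟨m, hm⟩ := ENNReal.exists_inv_nat_lt hε.ne'
  have hm0 : m ≠ 0 := by
    rintro rfl
    simp at hm
  refine ⟨4 ^ K + 2 + 128 * m * m, fun N hN => ?_⟩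
  have hsq := MDIM.sq_le (f := fun N => H3.MD.Dcov (H3.MD.joinN T α N)) hK
    (show 4 ^ K + 2 ≤ N by omega)
  have hKN : K ≤ N := by
    have : K < 4 ^ K := Nat.lt_pow_self (by norm_num)
    omega
  have hd : H3.MD.Dcov (H3.MD.joinN T α N) * m ≤ N := by
    by_contra hc
    rw [not_le] at hc
    have h1 : N * N < (H3.MD.Dcov (H3.MD.joinN T α N) * m) *
        (H3.MD.Dcov (H3.MD.joinN T α N) * m) := Nat.mul_self_lt_mul_self hc
    have h2 : (H3.MD.Dcov (H3.MD.joinN T α N) * m) *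
        (H3.MD.Dcov (H3.MD.joinN T α N) * m) ≤ (128 * m * m) * N := by
      calc (H3.MD.Dcov (H3.MD.joinN T α N) * m) * (H3.MD.Dcov (H3.MD.joinN T α N) * m)
          = (H3.MD.Dcov (H3.MD.joinN T α N) * H3.MD.Dcov (H3.MD.joinN T α N)) * (m * m) := by ring
        _ ≤ (64 * (N + K)) * (m * m) := Nat.mul_le_mul_right _ hsq
        _ ≤ (64 * (N + N)) * (m * m) :=
            Nat.mul_le_mul_right _ (Nat.mul_le_mul_left _ (Nat.add_le_add_left hKN N))
        _ = (128 * m * m) * N := by ring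
    have h0 : 0 < 4 ^ K := by positivity
    have h3 : (128 * m * m) * N ≤ N * N := Nat.mul_le_mul_right _ (by omega)
    omega
  have h4 : (H3.MD.Dcov (H3.MD.joinN T α N) : ℝ≥0∞) ≤ (m : ℝ≥0∞)⁻¹ * N := by
    have h5 : ((H3.MD.Dcov (H3.MD.joinN T α N) * m : ℕ) : ℝ≥0∞) ≤ N := by exact_mod_cast hd
    rw [Nat.cast_mul] at h5
    have hm1 : (m : ℝ≥0∞) ≠ 0 := Nat.cast_ne_zero.2 hm0
    calc (H3.MD.Dcov (H3.MD.joinN T α N) : ℝ≥0∞)
        = (m : ℝ≥0∞)⁻¹ * (H3.MD.Dcov (H3.MD.joinN T α N) * m) := by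
          rw [mul_comm (H3.MD.Dcov (H3.MD.joinN T α N) : ℝ≥0∞), ← mul_assoc,
            ENNReal.inv_mul_cancel hm1 (ENNReal.natCast_ne_top m), one_mul]
      _ ≤ (m : ℝ≥0∞)⁻¹ * N := mul_le_mul_right h5 _
  exact (ENNReal.div_le_of_le_mul h4).trans hm.le

end Pool.Agent.DV
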