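import Pool.Agent.DV.Stmts

/-!
# MP_9896a2_an: metric mean dimension

Definitions as in the problem file, and the lower bound for the lower metric mean dimension which
follows from the condition `Frost`.
-/

set_option autoImplicit false

open Set Topology Filter MeasureTheory
open scoped ENNReal

namespace Pool.Agent.DV

section Defs

variable {X : Type*}

/-- `d_N(x,y) = max_{0 ≤ k < N} d(T^k x, T^k y)`. -/
noncomputable def dN (T : X → X) (d : X → X → ℝ) (N : ℕ) (x y : X) : ℝ :=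
  ⨆ k : Fin N, d (T^[(k : ℕ)] x) (T^[(k : ℕ)] y)

/-- `#(X, ρ, ε)`: the least cardinality of a (finite) open cover of `X` by sets of `ρ`-diameter
`< ε`. -/
noncomputable def covNum [TopologicalSpace X] (ρ : X → X → ℝ) (ε : ℝ) : ℕ :=
  sInf {m | ∃ β : Set (Set X), H3.MD.IsFOC β ∧
    (∀ U ∈ β, ∃ c < ε, ∀ x ∈ U, ∀ y ∈ U, ρ x y ≤ c) ∧ β.ncard = m}

/-- `S(X, T, d, ε) = lim_N (1/N) log₂ #(X, d_N, ε)`. (The limit exists, see `tendsto_Smet`; it is
written as a `liminf`.) -/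
noncomputable def Smet [TopologicalSpace X] (T : X → X) (d : X → X → ℝ) (ε : ℝ) : ℝ≥0∞ :=
  liminf (fun N : ℕ => ENNReal.ofReal (Real.logb 2 (covNum (dN T d N) ε) / N)) atTop

/-- Upper metric mean dimension. -/
noncomputable def mmdimU [TopologicalSpace X] (T : X → X) (d : X → X → ℝ) : ℝ≥0∞ :=
  limsup (fun ε : ℝ => Smet T d ε / ENNReal.ofReal (Real.logb 2 (1 / ε))) (𝓝[>] 0)

/-- Lower metric mean dimension. -/
noncomputable def mmdimL [TopologicalSpace X] (T : X → X) (d : X → X → ℝ) : ℝ≥0∞ :=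
  liminf (fun ε : ℝ => Smet T d ε / ENNReal.ofReal (Real.logb 2 (1 / ε))) (𝓝[>] 0)

end Defs

section Basic

variable {X : Type*} [TopologicalSpace X]

theorem d_nonneg (d : H3.MD.CompatMetric X) (x y : X) : 0 ≤ d.d x y := by
  have h1 := d.triangle x y x
  rw [d.d_self, d.d_comm y x] at h1
  linarith

theorem isOpen_ball (d : H3.MD.CompatMetric X) (x : X) (r : ℝ) : IsOpen {y | d.d x y < r} := by
  rw [d.isOpen_iff]
  intro y hy
  refine ⟨r - d.d x y, by have : d.d x y < r := hy; linarith, ?_⟩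
  intro z hz
  have h1 := d.triangle x y z
  show d.d x z < r
  linarith

omit [TopologicalSpace X] in
theorem dN_le_iff (T : X → X) (d : X → X → ℝ) {N : ℕ} (hN : 0 < N) (x y : X) (c : ℝ) :
    dN T d N x y ≤ c ↔ ∀ k < N, d (T^[k] x) (T^[k] y) ≤ c := by
  unfold dN
  have : Nonempty (Fin N) := ⟨⟨0, hN⟩⟩
  constructor
  · intro h k hk
    exact (le_ciSup (f := fun k : Fin N => d (T^[(k : ℕ)] x) (T^[(k : ℕ)] y))
      (Set.finite_range _).bddAbove ⟨k, hk⟩).trans h
  · intro h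
    exact ciSup_le fun k => h k k.2

/-- covers by sets of small diameter exist -/
theorem exists_cover [CompactSpace X] {T : X → X} (hT : Continuous T)
    (d : H3.MD.CompatMetric X) {N : ℕ} (hN : 0 < N) {ε : ℝ} (hε : 0 < ε) :
    ∃ β : Set (Set X), H3.MD.IsFOC β ∧
      ∀ U ∈ β, ∃ c < ε, ∀ x ∈ U, ∀ y ∈ U, dN T d.d N x y ≤ c := by
  classical
  let U : X → Set X := fun x => ⋂ k : Fin N, (T^[(k : ℕ)]) ⁻¹' {y | d.d (T^[(k : ℕ)] x) y < ε / 3}
  have hUo : ∀ x, IsOpen (U x) := fun x =>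
    isOpen_iInter_of_finite fun k => (isOpen_ball d _ _).preimage (hT.iterate _)
  have hUx : ∀ x, x ∈ U x := by
    intro x
    refine Set.mem_iInter.2 fun k => ?_
    show d.d (T^[(k : ℕ)] x) (T^[(k : ℕ)] x) < ε / 3
    rw [d.d_self]
    positivity
  obtain ⟨t, ht⟩ := isCompact_univ.elim_finite_subcover U hUo
    (fun x _ => Set.mem_iUnion.2 ⟨x, hUx x⟩)
  refine ⟨U '' (t : Set X), ⟨t.finite_toSet.image _, ?_, ?_⟩, ?_⟩
  · rintro _ ⟨x, -, rfl⟩
    exact hUo x
  · rw [Set.eq_univ_iff_forall]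
    intro y
    obtain ⟨x, hx, hy⟩ := Set.mem_iUnion₂.1 (ht (Set.mem_univ y))
    exact ⟨U x, ⟨x, hx, rfl⟩, hy⟩
  · rintro _ ⟨x, -, rfl⟩
    refine ⟨2 * ε / 3, by linarith, ?_⟩
    intro y hy z hz
    rw [dN_le_iff T d.d hN]
    intro k hk
    have h1 : d.d (T^[k] x) (T^[k] y) < ε / 3 := Set.mem_iInter.1 hy ⟨k, hk⟩
    have h2 : d.d (T^[k] x) (T^[k] z) < ε / 3 := Set.mem_iInter.1 hz ⟨k, hk⟩
    have h3 := d.triangle (T^[k] y) (T^[k] x) (T^[k] z)
    rw [d.d_comm (T^[k] y) (T^[k] x)] at h3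
    linarith

/-- the minimum in the definition of `covNum` is attained -/
theorem covNum_spec [CompactSpace X] {T : X → X} (hT : Continuous T)
    (d : H3.MD.CompatMetric X) {N : ℕ} (hN : 0 < N) {ε : ℝ} (hε : 0 < ε) :
    ∃ β : Set (Set X), H3.MD.IsFOC β ∧
      (∀ U ∈ β, ∃ c < ε, ∀ x ∈ U, ∀ y ∈ U, dN T d.d N x y ≤ c) ∧
      β.ncard = covNum (dN T d.d N) ε := by
  obtain ⟨β, h1, h2⟩ := exists_cover hT d hN hε
  exact Nat.sInf_mem (s := {m | ∃ β : Set (Set X), H3.MD.IsFOC β ∧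
    (∀ U ∈ β, ∃ c < ε, ∀ x ∈ U, ∀ y ∈ U, dN T d.d N x y ≤ c) ∧ β.ncard = m})
    ⟨β.ncard, β, h1, h2, rfl⟩

theorem covNum_pos [CompactSpace X] [Nonempty X] {T : X → X} (hT : Continuous T)
    (d : H3.MD.CompatMetric X) {N : ℕ} (hN : 0 < N) {ε : ℝ} (hε : 0 < ε) :
    1 ≤ covNum (dN T d.d N) ε := by
  obtain ⟨β, h1, h2, h3⟩ := covNum_spec hT d hN hε
  rw [← h3]
  obtain ⟨x⟩ := ‹Nonempty X›
  have hx : x ∈ ⋃₀ β := by rw [h1.2.2]; exact Set.mem_univ _
  obtain ⟨U, hU, -⟩ := hx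
  exact (Set.ncard_pos h1.1).2 ⟨U, hU⟩

/-- submultiplicativity -/
theorem covNum_mul [CompactSpace X] {T : X → X} (hT : Continuous T)
    (d : H3.MD.CompatMetric X) {M N : ℕ} (hM : 0 < M) (hN : 0 < N) {ε : ℝ} (hε : 0 < ε) :
    covNum (dN T d.d (M + N)) ε ≤ covNum (dN T d.d M) ε * covNum (dN T d.d N) ε := by
  classical
  obtain ⟨β, h1, h2, h3⟩ := covNum_spec hT d hM hε
  obtain ⟨γ, k1, k2, k3⟩ := covNum_spec hT d hN hε
  rw [← h3, ← k3]
  let J : Set (Set X) := (fun q : Set X × Set X => q.1 ∩ (T^[M]) ⁻¹' q.2) '' (β ×ˢ γ)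
  have hfin : (β ×ˢ γ).Finite := h1.1.prod k1.1
  have hJ : J.ncard ≤ β.ncard * γ.ncard := by
    have := Set.ncard_image_le (f := fun q : Set X × Set X => q.1 ∩ (T^[M]) ⁻¹' q.2) hfin
    rw [Set.ncard_prod] at this
    exact this
  refine le_trans (Nat.sInf_le ?_) hJ
  refine ⟨J, ⟨hfin.image _, ?_, ?_⟩, ?_, rfl⟩
  · rintro _ ⟨⟨U, V⟩, ⟨hU, hV⟩, rfl⟩
    exact (h1.2.1 U hU).inter ((k1.2.1 V hV).preimage (hT.iterate _))
  · rw [Set.eq_univ_iff_forall]
    intro x
    have hx : x ∈ ⋃₀ β := by rw [h1.2.2]; exact Set.mem_univ _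
    have hy : T^[M] x ∈ ⋃₀ γ := by rw [k1.2.2]; exact Set.mem_univ _
    obtain ⟨U, hU, hxU⟩ := hx
    obtain ⟨V, hV, hyV⟩ := hy
    exact ⟨_, ⟨(U, V), ⟨hU, hV⟩, rfl⟩, hxU, hyV⟩
  · rintro _ ⟨⟨U, V⟩, ⟨hU, hV⟩, rfl⟩
    obtain ⟨c, hc, hcU⟩ := h2 U hU
    obtain ⟨c', hc', hcV⟩ := k2 V hV
    refine ⟨max c c', max_lt hc hc', ?_⟩
    rintro x ⟨hx, hx'⟩ y ⟨hy, hy'⟩
    rw [dN_le_iff T d.d (by omega)]
    intro k hk
    by_cases hkM : k < M
    · exact ((dN_le_iff T d.d hM x y c).1 (hcU x hx y hy) k hkM).trans (le_max_left _ _)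
    · have h5 := (dN_le_iff T d.d hN _ _ c').1 (hcV _ hx' _ hy') (k - M) (by omega)
      rw [← Function.iterate_add_apply, ← Function.iterate_add_apply,
        Nat.sub_add_cancel (not_lt.1 hkM)] at h5
      exact h5.trans (le_max_right _ _)

end Basic

section Limit

variable {X : Type*} [TopologicalSpace X]

/-- the sequence `log₂ #(X, d_N, ε)` -/
noncomputable def lc (T : X → X) (d : X → X → ℝ) (ε : ℝ) (N : ℕ) : ℝ :=
  Real.logb 2 (covNum (dN T d N) ε)

theorem lc_nonneg [CompactSpace X] [Nonempty X] {T : X → X} (hT : Continuous T)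
    (d : H3.MD.CompatMetric X) {ε : ℝ} (hε : 0 < ε) {N : ℕ} (hN : 0 < N) :
    0 ≤ lc T d.d ε N := by
  unfold lc
  apply Real.logb_nonneg (by norm_num)
  exact_mod_cast covNum_pos hT d hN hε

theorem covNum_zero_le [Nonempty X] (T : X → X) (d : X → X → ℝ) {ε : ℝ} (hε : 0 < ε) :
    covNum (dN T d 0) ε = 1 := by
  have hd : ∀ x y, dN T d 0 x y = 0 := by
    intro x y
    unfold dN
    exact Real.iSup_of_isEmpty _
  apply le_antisymm
  · apply Nat.sInf_le
    refine ⟨{Set.univ}, ⟨Set.finite_singleton _, ?_, Set.sUnion_singleton _⟩, ?_,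
      Set.ncard_singleton _⟩
    · rintro U rfl
      exact isOpen_univ
    · rintro U rfl
      refine ⟨0, hε, ?_⟩
      intro x _ y _
      exact (hd x y).le
  · unfold covNum
    apply le_csInf
    · refine ⟨({Set.univ} : Set (Set X)).ncard, {Set.univ}, ⟨Set.finite_singleton _, ?_,
        Set.sUnion_singleton _⟩, ?_, rfl⟩
      · rintro U rfl
        exact isOpen_univ
      · rintro U rfl
        refine ⟨0, hε, ?_⟩
        intro x _ y _
        exact (hd x y).le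
    · rintro m ⟨β, h1, -, rfl⟩
      obtain ⟨x⟩ := ‹Nonempty X›
      have hx : x ∈ ⋃₀ β := by rw [h1.2.2]; exact Set.mem_univ _
      obtain ⟨U, hU, -⟩ := hx
      exact (Set.ncard_pos h1.1).2 ⟨U, hU⟩

theorem lc_subadditive [CompactSpace X] [Nonempty X] {T : X → X} (hT : Continuous T)
    (d : H3.MD.CompatMetric X) {ε : ℝ} (hε : 0 < ε) : Subadditive (lc T d.d ε) := by
  intro M N
  rcases Nat.eq_zero_or_pos M with rfl | hM
  · have h0 : lc T d.d ε 0 = 0 := by
      unfold lc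
      rw [covNum_zero_le T d.d hε]
      simp
    rw [h0, Nat.zero_add, zero_add]
  rcases Nat.eq_zero_or_pos N with rfl | hN
  · have h0 : lc T d.d ε 0 = 0 := by
      unfold lc
      rw [covNum_zero_le T d.d hε]
      simp
    rw [h0, Nat.add_zero, add_zero]
  unfold lc
  have h1 := covNum_pos hT d hM hε
  have h2 := covNum_pos hT d hN hε
  have h3 := covNum_pos hT d (N := M + N) (by omega) hε
  rw [← Real.logb_mul (by positivity) (by positivity)]
  apply Real.logb_le_logb_of_le (by norm_num)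
  · exact_mod_cast h3
  · exact_mod_cast covNum_mul hT d hM hN hε

/-- the limit in the definition of `S(X, T, d, ε)` exists -/
theorem tendsto_Smet [CompactSpace X] [Nonempty X] {T : X → X} (hT : Continuous T)
    (d : H3.MD.CompatMetric X) {ε : ℝ} (hε : 0 < ε) :
    Tendsto (fun N : ℕ => ENNReal.ofReal (Real.logb 2 (covNum (dN T d.d N) ε) / N)) atTop
      (𝓝 (Smet T d.d ε)) := by
  have hsub := lc_subadditive hT d hε
  have hbdd : BddBelow (Set.range fun n => lc T d.d ε n / n) := by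
    refine ⟨0, ?_⟩
    rintro _ ⟨n, rfl⟩
    rcases Nat.eq_zero_or_pos n with rfl | hn
    · simp
    · exact div_nonneg (lc_nonneg hT d hε hn) (Nat.cast_nonneg _)
  have h1 := hsub.tendsto_lim hbdd
  have h2 : Tendsto (fun N : ℕ => ENNReal.ofReal (Real.logb 2 (covNum (dN T d.d N) ε) / N)) atTop
      (𝓝 (ENNReal.ofReal hsub.lim)) := by
    exact (ENNReal.continuous_ofReal.tendsto _).comp h1
  unfold Smet
  rw [h2.liminf_eq]
  exact h2

theorem Smet_ge [CompactSpace X] [Nonempty X] {T : X → X} (hT : Continuous T)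
    (d : H3.MD.CompatMetric X) {ε : ℝ} (hε : 0 < ε) (b : ℝ)
    (h : ∀ P : ℕ, ∃ p, P ≤ p ∧ b ≤ Real.logb 2 (covNum (dN T d.d p) ε) / p) :
    ENNReal.ofReal b ≤ Smet T d.d ε := by
  have ht := tendsto_Smet hT d hε
  refine ge_of_tendsto_of_frequently ht ?_
  rw [Filter.frequently_atTop]
  intro P
  obtain ⟨p, hp, hb⟩ := h P
  exact ⟨p, hp, ENNReal.ofReal_le_ofReal hb⟩

end Limit

/-- one `p`: a cover by sets of `d_p`-diameter `< ε` has at least `K^(-p) ε^(-β p)` members -/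
theorem covNum_ge_of_frost {X : Type} [TopologicalSpace X] [CompactSpace X] {T : X → X}
    (hT : Continuous T) (d : H3.MD.CompatMetric X) {β K : ℝ} (hK : 1 ≤ K) {p : ℕ}
    (hF : Frost T d.d β K p) {ε : ℝ} (hε : 0 < ε) (hε1 : ε ≤ 1) (hp : 1 / (p : ℝ) ≤ ε)
    (hp0 : 0 < p) :
    β * Real.logb 2 (1 / ε) - Real.logb 2 K ≤ Real.logb 2 (covNum (dN T d.d p) ε) / p := by
  classical
  obtain ⟨ι, _, _, x, e, he, hcount⟩ := hF
  obtain ⟨γ, h1, h2, h3⟩ := covNum_spec hT d hp0 hε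
  have hι : 0 < Fintype.card ι := Fintype.card_pos
  have hpR : (0 : ℝ) < p := by exact_mod_cast hp0
  -- the number of indices in one set of the cover
  have hone : ∀ U ∈ γ, ({i | x i ∈ U}.ncard : ℝ) ≤ K ^ p * ε ^ (β * p) * Fintype.card ι := by
    intro U hU
    rcases Set.eq_empty_or_nonempty U with rfl | ⟨u, hu⟩
    · simp only [Set.mem_empty_iff_false, Set.ofPred_false, Set.ncard_empty, Nat.cast_zero]
      positivity
    · refine le_trans ?_ (hcount (fun k => T^[k] u) ε hp hε1)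
      have hsub : {i | x i ∈ U} ⊆
          {i | ∑ k ∈ Finset.range p, d.d (T^[k] (x i)) (T^[k] u) ≤ p * ε} := by
        intro i hi
        obtain ⟨c, hc, hcU⟩ := h2 U hU
        have h4 := (dN_le_iff T d.d hp0 _ _ c).1 (hcU (x i) hi u hu)
        show ∑ k ∈ Finset.range p, d.d (T^[k] (x i)) (T^[k] u) ≤ p * ε
        calc ∑ k ∈ Finset.range p, d.d (T^[k] (x i)) (T^[k] u)
            ≤ ∑ k ∈ Finset.range p, ε := by
              refine Finset.sum_le_sum fun k hk => ?_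
              exact (h4 k (Finset.mem_range.1 hk)).trans hc.le
          _ = p * ε := by rw [Finset.sum_const, Finset.card_range, nsmul_eq_mul]
      exact_mod_cast Set.ncard_le_ncard hsub (Set.toFinite _)
  -- all indices are covered
  have hall : (Fintype.card ι : ℝ) ≤ γ.ncard * (K ^ p * ε ^ (β * p) * Fintype.card ι) := by
    let G : Finset (Set X) := h1.1.toFinset
    have hG : ∀ U, U ∈ G ↔ U ∈ γ := fun U => h1.1.mem_toFinset
    have hcardG : (G.card : ℝ) = γ.ncard := by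
      rw [Set.ncard_eq_toFinset_card _ h1.1]
    have hcov : (Finset.univ : Finset ι) ⊆ G.biUnion fun U => Finset.univ.filter fun i => x i ∈ U := by
      intro i _
      have hx : x i ∈ ⋃₀ γ := by rw [h1.2.2]; exact Set.mem_univ _
      obtain ⟨U, hU, hxU⟩ := hx
      exact Finset.mem_biUnion.2 ⟨U, (hG U).2 hU, Finset.mem_filter.2 ⟨Finset.mem_univ _, hxU⟩⟩
    have h5 : Fintype.card ι ≤ ∑ U ∈ G, (Finset.univ.filter fun i => x i ∈ U).card :=
      (Finset.card_le_card hcov).trans Finset.card_biUnion_le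
    calc (Fintype.card ι : ℝ) ≤ ∑ U ∈ G, ((Finset.univ.filter fun i => x i ∈ U).card : ℝ) := by
          exact_mod_cast h5
      _ ≤ ∑ U ∈ G, (K ^ p * ε ^ (β * p) * Fintype.card ι) := by
          refine Finset.sum_le_sum fun U hU => ?_
          have := hone U ((hG U).1 hU)
          rw [Set.ncard_eq_toFinset_card'] at this
          simpa using this
      _ = γ.ncard * (K ^ p * ε ^ (β * p) * Fintype.card ι) := by
          rw [Finset.sum_const, nsmul_eq_mul, hcardG]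
  have hιR : (0 : ℝ) < Fintype.card ι := by exact_mod_cast hι
  have hKp : (0 : ℝ) < K ^ p := by positivity
  have hεp : (0 : ℝ) < ε ^ (β * p) := Real.rpow_pos_of_pos hε _
  have hmain : 1 ≤ (γ.ncard : ℝ) * (K ^ p * ε ^ (β * p)) := by
    have h6 : (Fintype.card ι : ℝ) * 1 ≤
        Fintype.card ι * ((γ.ncard : ℝ) * (K ^ p * ε ^ (β * p))) := by
      calc (Fintype.card ι : ℝ) * 1 = Fintype.card ι := mul_one _
        _ ≤ _ := hall
        _ = _ := by ring
    exact le_of_mul_le_mul_left h6 hιR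
  rw [h3] at hmain
  have hcpos : (0 : ℝ) < covNum (dN T d.d p) ε := by
    by_contra hneg
    have h7 : (covNum (dN T d.d p) ε : ℝ) = 0 := le_antisymm (not_lt.1 hneg) (Nat.cast_nonneg _)
    rw [h7, zero_mul] at hmain
    linarith
  have hlog : 0 ≤ Real.logb 2 ((covNum (dN T d.d p) ε : ℝ) * (K ^ p * ε ^ (β * p))) :=
    Real.logb_nonneg (by norm_num) hmain
  rw [Real.logb_mul hcpos.ne' (by positivity), Real.logb_mul hKp.ne' hεp.ne', Real.logb_pow,
    Real.logb_rpow_eq_mul_logb_of_pos hε] at hlog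
  rw [le_div_iff₀ hpR, one_div, Real.logb_inv]
  nlinarith

/-- **MMD.** The lower metric mean dimension is at least `β` if `Frost` holds with the exponent `β`
for infinitely many `p`. -/
theorem MMD_thm : ∀ (X : Type) [TopologicalSpace X] [CompactSpace X] [Nonempty X] (T : X → X),
    Continuous T → ∀ (d : H3.MD.CompatMetric X) (β K : ℝ), 0 < β → 1 ≤ K →
    (∀ P : ℕ, ∃ p, P ≤ p ∧ Frost T d.d β K p) → ENNReal.ofReal β ≤ mmdimL T d.d := by
  intro X _ _ _ T hT d β K hβ hK hF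
  have hS : ∀ ε : ℝ, 0 < ε → ε ≤ 1 →
      ENNReal.ofReal (β * Real.logb 2 (1 / ε) - Real.logb 2 K) ≤ Smet T d.d ε := by
    intro ε hε hε1
    refine Smet_ge hT d hε _ ?_
    intro P
    obtain ⟨M, hM⟩ := exists_nat_ge (1 / ε)
    obtain ⟨p, hp, hFp⟩ := hF (max P (max M 1))
    have hp1 : P ≤ p := (le_max_left _ _).trans hp
    have hp2 : M ≤ p := ((le_max_left _ _).trans (le_max_right _ _)).trans hp
    have hp3 : 0 < p := lt_of_lt_of_le Nat.one_pos
      (((le_max_right _ _).trans (le_max_right _ _)).trans hp)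
    refine ⟨p, hp1, covNum_ge_of_frost hT d hK hFp hε hε1 ?_ hp3⟩
    have hpR : (0 : ℝ) < p := by exact_mod_cast hp3
    rw [div_le_iff₀ hpR]
    have h1 : 1 / ε ≤ p := hM.trans (by exact_mod_cast hp2)
    rw [div_le_iff₀ hε] at h1
    linarith
  unfold mmdimL
  refine le_of_forall_lt fun a ha => ?_
  -- choose a real between
  obtain ⟨a', ha1, ha2⟩ := exists_between ha
  have ha'top : a' ≠ ⊤ := ne_top_of_lt ha2
  refine lt_of_lt_of_le ha1 ?_
  have hb : a'.toReal < β := by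
    have := (ENNReal.toReal_lt_toReal ha'top ENNReal.ofReal_ne_top).2 ha2
    rwa [ENNReal.toReal_ofReal hβ.le] at this
  have hev : ∀ᶠ ε : ℝ in 𝓝[>] (0 : ℝ), a' ≤ Smet T d.d ε /
      ENNReal.ofReal (Real.logb 2 (1 / ε)) := by
    -- for small ε, (β - a') log(1/ε) ≥ log K and log (1/ε) > 0
    have hlim : Tendsto (fun ε : ℝ => Real.logb 2 (1 / ε)) (𝓝[>] 0) atTop := by
      have h1 : Tendsto (fun ε : ℝ => 1 / ε) (𝓝[>] 0) atTop := by
        simpa using tendsto_inv_nhdsGT_zero (𝕜 := ℝ)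
      exact (Real.tendsto_logb_atTop (by norm_num)).comp h1
    have h2 := hlim.eventually_ge_atTop (max 1 (Real.logb 2 K / (β - a'.toReal)))
    have h3 : ∀ᶠ ε : ℝ in 𝓝[>] (0 : ℝ), ε ∈ Set.Ioo (0 : ℝ) 1 :=
      Ioo_mem_nhdsGT (by norm_num)
    filter_upwards [h2, h3] with ε h2 h3
    have hL1 : 1 ≤ Real.logb 2 (1 / ε) := (le_max_left _ _).trans h2
    have hL2 : Real.logb 2 K / (β - a'.toReal) ≤ Real.logb 2 (1 / ε) := (le_max_right _ _).trans h2
    have hpos : (0 : ℝ) < Real.logb 2 (1 / ε) := by linarith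
    rw [ENNReal.le_div_iff_mul_le (Or.inl (by
      rw [ne_eq, ENNReal.ofReal_eq_zero]; linarith)) (Or.inl ENNReal.ofReal_ne_top)]
    refine le_trans ?_ (hS ε h3.1 h3.2.le)
    rw [← ENNReal.ofReal_toReal ha'top, ← ENNReal.ofReal_mul ENNReal.toReal_nonneg]
    apply ENNReal.ofReal_le_ofReal
    rw [div_le_iff₀ (by linarith)] at hL2
    nlinarith
  exact le_liminf_of_le (by isBoundedDefault) hev

/-- the lower metric mean dimension is at most the upper one -/
theorem mmdimL_le_mmdimU {X : Type*} [TopologicalSpace X] (T : X → X) (d : X → X → ℝ) :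
    mmdimL T d ≤ mmdimU T d := liminf_le_limsup

end Pool.Agent.DV
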