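import Mathlib
import Pool.Agent.DV.Stmts

/-!
# NET: patterns exist
-/

set_option autoImplicit false

open Set Topology Filter

namespace Pool.Agent.DV

namespace NET

/-- the finite set of the coordinates of level `j` -/
noncomputable def Cj (j : ℕ) : Finset (ℤ × ℕ × ℕ) :=
  Finset.Icc (-(Bj j : ℤ)) (Bj j) ×ˢ (Finset.range j ×ˢ Finset.range j)

/-- the finite set of patterns -/
abbrev Pt (j : ℕ) : Type := Cj j → Fin (2 ^ (j + 1) + 1)

/-- the value `q / 2 ^ (j + 1)` in the unit interval -/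
noncomputable def val (j : ℕ) (q : Fin (2 ^ (j + 1) + 1)) : unitInterval :=
  ⟨(q : ℕ) / 2 ^ (j + 1), by positivity, by
    rw [div_le_one (by positivity)]
    have h : (q : ℕ) ≤ 2 ^ (j + 1) := Nat.lt_succ_iff.mp q.2
    exact_mod_cast h⟩

open Classical in
/-- the point of the ambient space of a pattern -/
noncomputable def pt (j : ℕ) (f : Pt j) : HH := fun s l u =>
  if h : (s, l, u) ∈ Cj j then val j (f ⟨(s, l, u), h⟩) else 0

theorem exists_val (j : ℕ) (y : unitInterval) :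
    ∃ q : Fin (2 ^ (j + 1) + 1), |(y : ℝ) - val j q| ≤ rj j / 2 := by
  have h0 : (0 : ℝ) ≤ y := y.2.1
  have h1 : (y : ℝ) ≤ 1 := y.2.2
  have hM : (0 : ℝ) < 2 ^ (j + 1) := by positivity
  have hle : ⌊(y : ℝ) * 2 ^ (j + 1)⌋₊ ≤ 2 ^ (j + 1) := by
    apply Nat.floor_le_of_le
    push_cast
    nlinarith
  refine ⟨⟨⌊(y : ℝ) * 2 ^ (j + 1)⌋₊, Nat.lt_succ_iff.mpr hle⟩, ?_⟩
  have h2 : (⌊(y : ℝ) * 2 ^ (j + 1)⌋₊ : ℝ) ≤ y * 2 ^ (j + 1) := Nat.floor_le (by positivity)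
  have h3 : (y : ℝ) * 2 ^ (j + 1) < ⌊(y : ℝ) * 2 ^ (j + 1)⌋₊ + 1 := Nat.lt_floor_add_one _
  have h4 : (⌊(y : ℝ) * 2 ^ (j + 1)⌋₊ : ℝ) / 2 ^ (j + 1) ≤ y := by
    rw [div_le_iff₀ hM]
    exact h2
  have h5 : (y : ℝ) - (⌊(y : ℝ) * 2 ^ (j + 1)⌋₊ : ℝ) / 2 ^ (j + 1) ≤ 1 / 2 ^ (j + 1) := by
    rw [sub_le_iff_le_add, ← add_div, le_div_iff₀ hM]
    linarith
  have h6 : rj j / 2 = 1 / 2 ^ (j + 1) := by
    rw [rj, pow_succ, one_div, inv_pow]
    field_simp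
  rw [h6]
  change |(y : ℝ) - (⌊(y : ℝ) * 2 ^ (j + 1)⌋₊ : ℝ) / 2 ^ (j + 1)| ≤ 1 / 2 ^ (j + 1)
  rw [abs_of_nonneg (by linarith)]
  exact h5

end NET

open NET in
/-- NET. -/
theorem NET_thm : Stmt_NET := by
  classical
  refine ⟨⟨fun j => Fintype.card (Pt j), fun j v =>
    if h : v < Fintype.card (Pt j) then pt j ((Fintype.equivFin (Pt j)).symm ⟨v, h⟩) else
      fun _ _ _ => 0, ?_⟩⟩
  intro j x
  choose q hq using fun y : unitInterval => exists_val j y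
  refine ⟨Fintype.equivFin (Pt j) (fun c => q (x c.1.1 c.1.2.1 c.1.2.2)),
    (Fintype.equivFin (Pt j) _).2, ?_⟩
  intro s l u hs hl hu
  have hmem : (s, l, u) ∈ Cj j := by
    rw [Cj, Finset.mem_product, Finset.mem_product, Finset.mem_Icc, Finset.mem_range,
      Finset.mem_range]
    exact ⟨abs_le.mp hs, hl, hu⟩
  rw [dif_pos (Fintype.equivFin (Pt j) _).2]
  simp only [Fin.eta, Equiv.symm_apply_apply, pt]
  rw [dif_pos hmem]
  exact hq (x s l u)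

end Pool.Agent.DV
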