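import Pool.Agent.DV.Stmts

/-!
# MP_9896a2_an: Parseval's formula and the lower bound for the largest Fourier coefficient
-/

set_option autoImplicit false

open Set Topology Filter MeasureTheory
open scoped ENNReal

namespace Pool.Agent.DV

/-- The root of unity. -/
noncomputable def parsZ (p : ℕ) : ℂ := Complex.exp (2 * Real.pi * Complex.I / p)

lemma parsZ_prim {p : ℕ} (hp : p ≠ 0) : IsPrimitiveRoot (parsZ p) p :=
  Complex.isPrimitiveRoot_exp p hp

lemma parsZ_ne (p : ℕ) : parsZ p ≠ 0 := Complex.exp_ne_zero _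

lemma pars_exp (p ω k : ℕ) : Complex.exp (-(2 * Real.pi * Complex.I * ω * k / p)) =
    ((parsZ p)⁻¹) ^ (ω * k) := by
  unfold parsZ
  rw [← Complex.exp_neg, ← Complex.exp_nat_mul]
  congr 1
  push_cast
  ring

lemma pars_conj (p : ℕ) : (starRingEnd ℂ) ((parsZ p)⁻¹) = parsZ p := by
  unfold parsZ
  rw [← Complex.exp_neg, ← Complex.exp_conj]
  congr 1
  simp only [map_neg, map_div₀, map_mul, Complex.conj_ofReal, Complex.conj_I, Complex.conj_natCast,
    Complex.conj_ofNat]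
  ring

/-- The Fourier coefficient. -/
noncomputable def parsF (p : ℕ) (a : ℕ → ℝ) (ω : ℕ) : ℂ :=
  ∑ k ∈ Finset.range p, (a k : ℂ) * ((parsZ p)⁻¹) ^ (ω * k)

lemma parsF_conj (p : ℕ) (a : ℕ → ℝ) (ω : ℕ) : (starRingEnd ℂ) (parsF p a ω) =
    ∑ k ∈ Finset.range p, (a k : ℂ) * (parsZ p) ^ (ω * k) := by
  unfold parsF
  rw [map_sum]
  refine Finset.sum_congr rfl fun k _ => ?_
  rw [map_mul, map_pow, pars_conj, Complex.conj_ofReal]

lemma pars_orth {p : ℕ} (hp : p ≠ 0) {k l : ℕ} (hk : k < p) (hl : l < p) :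
    ∑ ω ∈ Finset.range p, ((parsZ p)⁻¹) ^ (ω * k) * (parsZ p) ^ (ω * l) =
      if k = l then (p : ℂ) else 0 := by
  have h0 : ∀ ω, ((parsZ p)⁻¹) ^ (ω * k) * (parsZ p) ^ (ω * l) =
      (((parsZ p)⁻¹) ^ k * (parsZ p) ^ l) ^ ω := by
    intro ω
    rw [mul_pow, ← pow_mul, ← pow_mul, mul_comm k, mul_comm l]
  rw [Finset.sum_congr rfl fun ω _ => h0 ω]
  split_ifs with h
  · rw [h, ← mul_pow, inv_mul_cancel₀ (parsZ_ne p), one_pow]
    simp
  · have h1 : ((parsZ p)⁻¹) ^ k * (parsZ p) ^ l ≠ 1 := by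
      intro h2
      apply h
      apply (parsZ_prim hp).pow_inj hk hl
      rw [inv_pow, inv_mul_eq_one₀ (pow_ne_zero _ (parsZ_ne p))] at h2
      exact h2
    have h2 : (((parsZ p)⁻¹) ^ k * (parsZ p) ^ l) ^ p = 1 := by
      rw [mul_pow, ← pow_mul, ← pow_mul, mul_comm k, mul_comm l, pow_mul, pow_mul, inv_pow,
        (parsZ_prim hp).pow_eq_one]
      simp
    rw [geom_sum_eq h1, h2, sub_self, zero_div]

lemma pars_parseval {p : ℕ} (hp : p ≠ 0) (a : ℕ → ℝ) :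
    ∑ ω ∈ Finset.range p, ‖parsF p a ω‖ ^ 2 = p * ∑ k ∈ Finset.range p, a k ^ 2 := by
  have h : ((∑ ω ∈ Finset.range p, ‖parsF p a ω‖ ^ 2 : ℝ) : ℂ) =
      ((p * ∑ k ∈ Finset.range p, a k ^ 2 : ℝ) : ℂ) := by
    push_cast
    have h1 : ∀ ω, ((‖parsF p a ω‖ : ℂ)) ^ 2 = ∑ k ∈ Finset.range p, ∑ l ∈ Finset.range p,
        ((a k : ℂ) * a l) * (((parsZ p)⁻¹) ^ (ω * k) * (parsZ p) ^ (ω * l)) := by
      intro ω
      rw [← Complex.mul_conj', parsF_conj, parsF, Finset.sum_mul_sum]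
      refine Finset.sum_congr rfl fun k _ => Finset.sum_congr rfl fun l _ => ?_
      ring
    rw [Finset.sum_congr rfl fun ω _ => h1 ω, Finset.sum_comm, Finset.mul_sum]
    refine Finset.sum_congr rfl fun k hk => ?_
    rw [Finset.sum_comm]
    have h2 : ∀ l ∈ Finset.range p, ∑ ω ∈ Finset.range p,
        ((a k : ℂ) * a l) * (((parsZ p)⁻¹) ^ (ω * k) * (parsZ p) ^ (ω * l)) =
        if k = l then (p : ℂ) * (a k : ℂ) ^ 2 else 0 := by
      intro l hl
      rw [← Finset.mul_sum, pars_orth hp (Finset.mem_range.1 hk) (Finset.mem_range.1 hl)]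
      split_ifs with h3
      · rw [← h3]
        ring
      · rw [mul_zero]
    rw [Finset.sum_congr rfl h2, Finset.sum_ite_eq, if_pos hk]
  exact_mod_cast h

lemma parsF_sub {p : ℕ} (hp : p ≠ 0) (a : ℕ → ℝ) {ω : ℕ} (hω : ω ≤ p) :
    ‖parsF p a (p - ω)‖ = ‖parsF p a ω‖ := by
  have h : parsF p a (p - ω) = (starRingEnd ℂ) (parsF p a ω) := by
    rw [parsF_conj]
    unfold parsF
    refine Finset.sum_congr rfl fun k _ => ?_
    congr 1
    have h1 : ((parsZ p)⁻¹) ^ ((p - ω) * k) * ((parsZ p)⁻¹) ^ (ω * k) = 1 := by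
      rw [← pow_add, ← add_mul, Nat.sub_add_cancel hω, pow_mul, inv_pow,
        (parsZ_prim hp).pow_eq_one]
      simp
    have h2 : (parsZ p) ^ (ω * k) * ((parsZ p)⁻¹) ^ (ω * k) = 1 := by
      rw [← mul_pow, mul_inv_cancel₀ (parsZ_ne p), one_pow]
    have h3 : ((parsZ p)⁻¹) ^ (ω * k) ≠ 0 := pow_ne_zero _ (inv_ne_zero (parsZ_ne p))
    exact mul_right_cancel₀ h3 (h1.trans h2.symm)
  rw [h, RCLike.norm_conj]

lemma parsF_zero (p : ℕ) (a : ℕ → ℝ) : ‖parsF p a 0‖ ^ 2 = (∑ k ∈ Finset.range p, a k) ^ 2 := by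
  have h : parsF p a 0 = ((∑ k ∈ Finset.range p, a k : ℝ) : ℂ) := by
    unfold parsF
    push_cast
    refine Finset.sum_congr rfl fun k _ => ?_
    rw [zero_mul, pow_zero, mul_one]
  rw [h, Complex.norm_real, Real.norm_eq_abs, sq_abs]

/-- The variance is not small. -/
lemma pars_var (p : ℕ) (hp : 0 < p) (a : ℕ → ℝ) (m : ℝ)
    (h1 : p ≤ 8 * {k | k < p ∧ 9 / 10 ≤ a k}.ncard) (h0 : p ≤ 8 * {k | k < p ∧ a k = 0}.ncard) :
    (p : ℝ) / 20 ≤ ∑ k ∈ Finset.range p, (a k - m) ^ 2 := by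
  classical
  set A1 := (Finset.range p).filter fun k => 9 / 10 ≤ a k with hA1
  set A0 := (Finset.range p).filter fun k => a k = 0 with hA0
  have e1 : {k | k < p ∧ 9 / 10 ≤ a k}.ncard = A1.card := by
    rw [← Set.ncard_coe_finset]
    congr 1
    ext k
    simp [hA1]
  have e0 : {k | k < p ∧ a k = 0}.ncard = A0.card := by
    rw [← Set.ncard_coe_finset]
    congr 1
    ext k
    simp [hA0]
  rw [e1] at h1
  rw [e0] at h0
  have h1' : (p : ℝ) / 8 ≤ A1.card := by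
    have : (p : ℝ) ≤ 8 * A1.card := by exact_mod_cast h1
    linarith
  have h0' : (p : ℝ) / 8 ≤ A0.card := by
    have : (p : ℝ) ≤ 8 * A0.card := by exact_mod_cast h0
    linarith
  have hdis : Disjoint A1 A0 := by
    rw [Finset.disjoint_left]
    intro k hk1 hk0
    have h2 := (Finset.mem_filter.1 hk1).2
    have h3 := (Finset.mem_filter.1 hk0).2
    rw [h3] at h2
    norm_num at h2
  have hsub : A1 ∪ A0 ⊆ Finset.range p :=
    Finset.union_subset (Finset.filter_subset _ _) (Finset.filter_subset _ _)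
  have hge : ∑ k ∈ A1, (a k - m) ^ 2 + ∑ k ∈ A0, (a k - m) ^ 2 ≤
      ∑ k ∈ Finset.range p, (a k - m) ^ 2 := by
    rw [← Finset.sum_union hdis]
    exact Finset.sum_le_sum_of_subset_of_nonneg hsub fun k _ _ => sq_nonneg _
  have hs0 : ∑ k ∈ A0, (a k - m) ^ 2 = A0.card * m ^ 2 := by
    rw [Finset.sum_congr rfl (g := fun _ => m ^ 2), Finset.sum_const, nsmul_eq_mul]
    intro k hk
    rw [(Finset.mem_filter.1 hk).2]
    ring
  have hpR : (0 : ℝ) < p := by exact_mod_cast hp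
  have hm0 : (p : ℝ) / 8 * m ^ 2 ≤ A0.card * m ^ 2 :=
    mul_le_mul_of_nonneg_right h0' (sq_nonneg m)
  rcases le_or_gt m (9 / 10) with hm | hm
  · have hs1 : (A1.card : ℝ) * (9 / 10 - m) ^ 2 ≤ ∑ k ∈ A1, (a k - m) ^ 2 := by
      rw [← nsmul_eq_mul]
      refine Finset.card_nsmul_le_sum _ _ _ fun k hk => ?_
      have h2 := (Finset.mem_filter.1 hk).2
      exact pow_le_pow_left₀ (by linarith) (by linarith) 2
    have h3 : (p : ℝ) / 8 * (9 / 10 - m) ^ 2 ≤ A1.card * (9 / 10 - m) ^ 2 :=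
      mul_le_mul_of_nonneg_right h1' (sq_nonneg _)
    have h4 : (2 : ℝ) / 5 ≤ (9 / 10 - m) ^ 2 + m ^ 2 := by nlinarith [sq_nonneg (m - 9 / 20)]
    have h5 : (p : ℝ) / 8 * (2 / 5) ≤ (p : ℝ) / 8 * ((9 / 10 - m) ^ 2 + m ^ 2) :=
      mul_le_mul_of_nonneg_left h4 (by positivity)
    linarith
  · have hs1 : 0 ≤ ∑ k ∈ A1, (a k - m) ^ 2 := Finset.sum_nonneg fun k _ => sq_nonneg _
    have h4 : (2 : ℝ) / 5 ≤ m ^ 2 := by nlinarith
    have h5 : (p : ℝ) / 8 * (2 / 5) ≤ (p : ℝ) / 8 * m ^ 2 :=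
      mul_le_mul_of_nonneg_left h4 (by positivity)
    linarith

/-- PARS: Parseval's formula and the lower bound for the largest Fourier coefficient. -/
theorem PARS_thm : Stmt_PARS := by
  intro p hp hp2 a
  have hp0 : p ≠ 0 := hp.ne_zero
  have hpR : (0 : ℝ) < p := by exact_mod_cast hp.pos
  have hF : ∀ ω : ℕ, (∑ k ∈ Finset.range p, (a k : ℂ) *
      Complex.exp (-(2 * Real.pi * Complex.I * ω * k / p))) = parsF p a ω := by
    intro ω
    unfold parsF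
    exact Finset.sum_congr rfl fun k _ => by rw [pars_exp]
  simp only [hF]
  refine ⟨pars_parseval hp0 a, fun _ h1 h0 => ?_⟩
  by_contra hcon
  push Not at hcon
  have hall : ∀ ω, 1 ≤ ω → ω < p → ‖parsF p a ω‖ ^ 2 ≤ (p : ℝ) / 100 := by
    intro ω h2 h3
    rcases lt_trichotomy (2 * ω) p with h4 | h4 | h4
    · exact (hcon ω h2 h4).le
    · exfalso
      have h5 : 2 ∣ p := ⟨ω, h4.symm⟩
      have h6 := (Nat.prime_dvd_prime_iff_eq Nat.prime_two hp).1 h5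
      omega
    · rw [← parsF_sub hp0 a h3.le]
      exact (hcon (p - ω) (by omega) (by omega)).le
  set m : ℝ := (∑ k ∈ Finset.range p, a k) / p with hm
  have hvar := pars_var p hp.pos a m h1 h0
  have hexp : (p : ℝ) * ∑ k ∈ Finset.range p, (a k - m) ^ 2 =
      p * ∑ k ∈ Finset.range p, a k ^ 2 - (∑ k ∈ Finset.range p, a k) ^ 2 := by
    have h2 : ∑ k ∈ Finset.range p, (a k - m) ^ 2 = ∑ k ∈ Finset.range p, a k ^ 2 -
        2 * m * ∑ k ∈ Finset.range p, a k + p * m ^ 2 := by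
      have h3 : ∀ k ∈ Finset.range p, (a k - m) ^ 2 = a k ^ 2 - 2 * m * a k + m ^ 2 :=
        fun k _ => by ring
      rw [Finset.sum_congr rfl h3, Finset.sum_add_distrib, Finset.sum_sub_distrib,
        ← Finset.mul_sum, Finset.sum_const, Finset.card_range, nsmul_eq_mul]
    have h4 : ∑ k ∈ Finset.range p, a k = p * m := by
      rw [hm]
      field_simp
    rw [h2, h4]
    ring
  have hpar := pars_parseval hp0 a
  obtain ⟨q, rfl⟩ : ∃ q, p = q + 1 := ⟨p - 1, by omega⟩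
  rw [Finset.sum_range_succ', parsF_zero] at hpar
  have hle : ∑ ω ∈ Finset.range q, ‖parsF (q + 1) a (ω + 1)‖ ^ 2 ≤
      q * (((q + 1 : ℕ) : ℝ) / 100) := by
    have h2 := Finset.sum_le_card_nsmul (Finset.range q)
      (fun ω => ‖parsF (q + 1) a (ω + 1)‖ ^ 2) (((q + 1 : ℕ) : ℝ) / 100) fun ω hω =>
        hall (ω + 1) (by omega) (by have := Finset.mem_range.1 hω; omega)
    rwa [Finset.card_range, nsmul_eq_mul] at h2
  have h5 : ((q + 1 : ℕ) : ℝ) * (((q + 1 : ℕ) : ℝ) / 20) ≤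
      ((q + 1 : ℕ) : ℝ) * ∑ k ∈ Finset.range (q + 1), (a k - m) ^ 2 :=
    mul_le_mul_of_nonneg_left hvar hpR.le
  rw [hexp] at h5
  have h6 : (q : ℝ) ≤ ((q + 1 : ℕ) : ℝ) := by push_cast; linarith
  have h7 : (q : ℝ) * (((q + 1 : ℕ) : ℝ) / 100) ≤ ((q + 1 : ℕ) : ℝ) * (((q + 1 : ℕ) : ℝ) / 100) :=
    mul_le_mul_of_nonneg_right h6 (by positivity)
  nlinarith

end Pool.Agent.DV
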