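import Pool.Agent.DV.Stmts

/-!
# SUMS: disjoint unions of coloured systems
-/

set_option autoImplicit false

namespace Pool.Agent.DV

open Set

theorem SUMS_thm : Stmt_SUMS := by
  intro p n M J act θ h
  have hit : ∀ (k : ℕ) (a : Σ i, J i),
      (fun a : Σ i, J i => (⟨a.1, act a.1 a.2⟩ : Σ i, J i))^[k] a = ⟨a.1, (act a.1)^[k] a.2⟩ := by
    intro k
    induction k with
    | zero => intro a; rfl
    | succ k ih =>
      intro a
      rw [Function.iterate_succ_apply, ih, Function.iterate_succ_apply]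
  choose c hc1 hc2 using fun i => (h i).col
  refine ⟨fun a => ?_, fun a => ?_, fun a => (h a.1).cont a.2, fun a => (h a.1).nonneg a.2,
    fun a => (h a.1).equi a.2, fun a => finSigmaFinEquiv ⟨a.1, c a.1 a.2⟩, fun a => ?_, ?_⟩
  · rw [hit, (h a.1).per]
  · obtain ⟨i, x⟩ := a
    intro he
    exact (h i).free x (eq_of_heq (Sigma.mk.inj he).2)
  · change finSigmaFinEquiv ⟨a.1, c a.1 (act a.1 a.2)⟩ = finSigmaFinEquiv ⟨a.1, c a.1 a.2⟩
    rw [hc1]
  · rintro ⟨i, x⟩ ⟨i', x'⟩ hne heq z hz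
    have h1 := finSigmaFinEquiv.injective heq
    obtain ⟨h2, h3⟩ := Sigma.mk.inj h1
    have h2' : i = i' := h2
    subst h2'
    exact hc2 i x x' (fun hx => hne (by rw [hx])) (eq_of_heq h3) z hz

end Pool.Agent.DV
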