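import Pool.Agent.DV.Stmts

/-!
# SYS: the system is closed and shift invariant
-/

set_option autoImplicit false

open Set Topology Filter MeasureTheory
open scoped ENNReal

namespace Pool.Agent.DV

namespace Sys

theorem cont (t : ℤ) (j v : ℕ) : Continuous fun x : HH => x t j v :=
  (continuous_apply v).comp ((continuous_apply j).comp (continuous_apply t))

theorem contR (t : ℤ) (j v : ℕ) : Continuous fun x : HH => (x t j v : ℝ) :=
  continuous_subtype_val.comp (cont t j v)

open Classical in
theorem closed_card (t : ℤ) (j N m : ℕ) :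
    IsClosed {x : HH | ((Finset.range N).filter fun v => x t j v ≠ 0).card ≤ m} := by
  rw [← isOpen_compl_iff, isOpen_iff_mem_nhds]
  intro x hx
  rw [Set.mem_compl_iff, Set.mem_setOf_eq, not_le] at hx
  have h1 : ∀ᶠ y : HH in 𝓝 x, ∀ v ∈ (Finset.range N).filter fun v => x t j v ≠ 0,
      y t j v ≠ 0 := by
    rw [Filter.eventually_all_finset]
    intro v hv
    exact (cont t j v).continuousAt.eventually_ne (Finset.mem_filter.1 hv).2
  filter_upwards [h1] with y hy
  rw [Set.mem_compl_iff, Set.mem_setOf_eq, not_le]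
  refine hx.trans_le (Finset.card_le_card fun v hv => ?_)
  rw [Finset.mem_filter]
  exact ⟨(Finset.mem_filter.1 hv).1, hy v hv⟩

theorem closed_net (D : Pats) (t : ℤ) (j : ℕ) :
    IsClosed {x : HH | ∀ v < D.N j, x t j v ≠ 0 → ∀ (s : ℤ) (l u : ℕ), |s| ≤ (Bj j : ℤ) →
      l < j → u < j → |(x (t + s) l u : ℝ) - D.P j v s l u| ≤ rj j} := by
  have h1 : {x : HH | ∀ v < D.N j, x t j v ≠ 0 → ∀ (s : ℤ) (l u : ℕ), |s| ≤ (Bj j : ℤ) →
      l < j → u < j → |(x (t + s) l u : ℝ) - D.P j v s l u| ≤ rj j} =
      ⋂ (v : ℕ) (_ : v < D.N j) (s : ℤ) (l : ℕ) (u : ℕ) (_ : |s| ≤ (Bj j : ℤ)) (_ : l < j)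
        (_ : u < j), ({x : HH | x t j v = 0} ∪
          {x : HH | |(x (t + s) l u : ℝ) - D.P j v s l u| ≤ rj j}) := by
    ext x
    simp only [Set.mem_setOf_eq, Set.mem_iInter, Set.mem_union]
    constructor
    · intro h v hv s l u hs hl hu
      by_cases h0 : x t j v = 0
      · exact Or.inl h0
      · exact Or.inr (h v hv h0 s l u hs hl hu)
    · intro h v hv h0 s l u hs hl hu
      exact (h v hv s l u hs hl hu).resolve_left h0
  rw [h1]
  refine isClosed_iInter fun v => isClosed_iInter fun _ => isClosed_iInter fun s =>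
    isClosed_iInter fun l => isClosed_iInter fun u => isClosed_iInter fun _ =>
    isClosed_iInter fun _ => isClosed_iInter fun _ => IsClosed.union ?_ ?_
  · exact isClosed_eq (cont t j v) continuous_const
  · exact isClosed_le ((contR (t + s) l u).sub continuous_const).abs continuous_const

end Sys

open Sys in
theorem SYS_thm : Stmt_SYS := by
  classical
  intro D
  refine ⟨?_, fun x => ⟨fun h t j hj => ?_, fun h t j hj => ?_⟩⟩
  · have h1 : XX D = ⋂ (t : ℤ) (j : ℕ) (_ : 1 ≤ j),
        ({x : HH | (∑ v ∈ Finset.range (D.N j), (x t j v : ℝ)) = 1} ∩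
        ({x : HH | ((Finset.range (D.N j)).filter fun v => x t j v ≠ 0).card ≤ mj j} ∩
        {x : HH | ∀ v < D.N j, x t j v ≠ 0 → ∀ (s : ℤ) (l u : ℕ), |s| ≤ (Bj j : ℤ) →
          l < j → u < j → |(x (t + s) l u : ℝ) - D.P j v s l u| ≤ rj j})) := by
      ext x
      simp only [Set.mem_iInter]
      exact Iff.rfl
    rw [h1]
    refine isClosed_iInter fun t => isClosed_iInter fun j => isClosed_iInter fun _ =>
      IsClosed.inter ?_ (IsClosed.inter (closed_card t j _ _) (closed_net D t j))
    exact isClosed_eq (continuous_finsetSum _ fun v _ => contR t j v) continuous_const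
  · obtain ⟨h1, h2, h3⟩ := h (t - 1) j hj
    have h4 : shiftH x (t - 1) = x t := by
      change x (t - 1 + 1) = x t
      rw [sub_add_cancel]
    rw [h4] at h1 h2 h3
    refine ⟨h1, h2, fun v hv h0 s l u hs hl hu => ?_⟩
    have h5 := h3 v hv h0 s l u hs hl hu
    have h6 : shiftH x (t - 1 + s) = x (t + s) := by
      change x (t - 1 + s + 1) = x (t + s)
      congr 1
      ring
    rwa [h6] at h5
  · obtain ⟨h1, h2, h3⟩ := h (t + 1) j hj
    refine ⟨h1, h2, fun v hv h0 s l u hs hl hu => ?_⟩
    have h5 := h3 v hv h0 s l u hs hl hu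
    have h6 : shiftH x (t + s) = x (t + 1 + s) := by
      change x (t + s + 1) = x (t + 1 + s)
      congr 1
      ring
    rwa [h6]

end Pool.Agent.DV
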