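import Pool.Agent.DV.Stmts

/-!
# TIE: the tie points
-/

set_option autoImplicit false

open Set Topology Filter MeasureTheory
open scoped ENNReal

namespace Pool.Agent.DV

namespace TIE

/-- A coloured system as one object. -/
structure Sysm (p : ℕ) : Type 1 where
  /-- the number of colours -/
  M : ℕ
  /-- the index set -/
  J : Type
  fin : Fintype J
  /-- the action -/
  act : J → J
  /-- the functions -/
  θ : J → (ZMod p → ℝ) → ℝ
  h : CSys p M J act θ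

attribute [instance] Sysm.fin

theorem sh_mem {p : ℕ} {z : ZMod p → ℝ} (hz : z ∈ EE p) : sh z ∈ EE p := by
  obtain ⟨ha, ⟨k, hk⟩, l, hl⟩ := hz
  exact ⟨fun i => ha _, ⟨k - 1, by simpa [sh] using hk⟩, l - 1, by simpa [sh] using hl⟩

theorem iter {D : Pats} {p : ℕ} [NeZero p] (Φ : FData D p) {z : ZMod p → ℝ} (hz : z ∈ EE p)
    (k : ℕ) : (sh^[k] z) ∈ EE p ∧ Φ.F (sh^[k] z) = shiftH^[k] (Φ.F z) ∧
      ∀ i, (sh^[k] z) i = z (i + k) := by
  induction k with
  | zero => exact ⟨hz, rfl, fun i => by simp⟩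
  | succ k ih =>
    obtain ⟨h1, h2, h3⟩ := ih
    rw [Function.iterate_succ_apply']
    refine ⟨sh_mem h1, ?_, fun i => ?_⟩
    · rw [Φ.equi _ h1, h2, ← Function.iterate_succ_apply' shiftH]
    · show (sh^[k] z) (i + 1) = _
      rw [h3]
      congr 1
      push_cast
      ring

theorem per {D : Pats} {p : ℕ} [NeZero p] (Φ : FData D p) {z : ZMod p → ℝ} (hz : z ∈ EE p) :
    shiftH^[p] (Φ.F z) = Φ.F z := by
  obtain ⟨-, h2, h3⟩ := iter Φ hz p
  rw [← h2]
  congr 1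
  funext i
  rw [h3, CharP.cast_eq_zero, add_zero]

theorem continuous_shiftH : Continuous shiftH :=
  continuous_pi fun t => continuous_apply (t + 1)

theorem FT_shift (p : ℕ) (hp : 0 < p) (φ : HH → ℝ) (x : HH) (hx : shiftH^[p] x = x) (ω : ℕ) :
    FT p φ (shiftH x) ω = Complex.exp (2 * Real.pi * Complex.I * ω / p) * FT p φ x ω := by
  have hp0 : (p : ℂ) ≠ 0 := by
    exact_mod_cast hp.ne'
  unfold FT
  have h1 : ∀ k ∈ Finset.range p, (φ (shiftH^[k] (shiftH x)) : ℂ) *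
      Complex.exp (-(2 * Real.pi * Complex.I * ω * k / p)) =
      Complex.exp (2 * Real.pi * Complex.I * ω / p) * ((φ (shiftH^[k + 1] x) : ℂ) *
        Complex.exp (-(2 * Real.pi * Complex.I * ω * ((k + 1 : ℕ) : ℂ) / p))) := by
    intro k _
    rw [Function.iterate_succ_apply, mul_left_comm, ← Complex.exp_add]
    congr 2
    push_cast
    field_simp
    ring
  rw [Finset.sum_congr rfl h1, ← Finset.mul_sum]
  congr 1
  have h2 := Finset.sum_range_succ' (fun k => (φ (shiftH^[k] x) : ℂ) *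
    Complex.exp (-(2 * Real.pi * Complex.I * ω * (k : ℂ) / p))) p
  have h3 := Finset.sum_range_succ (fun k => (φ (shiftH^[k] x) : ℂ) *
    Complex.exp (-(2 * Real.pi * Complex.I * ω * (k : ℂ) / p))) p
  rw [h2] at h3
  have h4 : (φ (shiftH^[p] x) : ℂ) * Complex.exp (-(2 * Real.pi * Complex.I * ω * (p : ℂ) / p)) =
      (φ (shiftH^[0] x) : ℂ) *
        Complex.exp (-(2 * Real.pi * Complex.I * ω * ((0 : ℕ) : ℂ) / p)) := by
    rw [hx]
    congr 1
    have e1 : -(2 * Real.pi * Complex.I * ω * (p : ℂ) / p) =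
        -((ω : ℂ) * (2 * Real.pi * Complex.I)) := by
      field_simp
    rw [e1, Complex.exp_neg, Complex.exp_nat_mul_two_pi_mul_I]
    simp
  rw [h4] at h3
  exact add_right_cancel h3

end TIE

open TIE in
/-- TIE. -/
theorem TIE_thm (h1 : Stmt_BU) (h2 : Stmt_FREC) (h3 : Stmt_FSYS) (h4 : Stmt_SUMS)
    (h5 : Stmt_LEVS) (h6 : Stmt_BALS) : Stmt_TIE := by
  intro D p hp h16 φ hφ w hw
  obtain ⟨Φ⟩ := h2 D p
  obtain ⟨J1, hJ1, act1, θ1, hs1, hc1⟩ := h6 p h16
  obtain ⟨M2, J2, hJ2, act2, θ2, hM2, hs2, hc2⟩ := h5 D p Φ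
  have hcont : ∀ ω, ContinuousOn (fun z => FT p φ (Φ.F z) ω) (EE p) := by
    intro ω
    unfold FT
    refine continuousOn_finsetSum _ fun k _ => ?_
    refine ContinuousOn.mul ?_ continuousOn_const
    have h : Continuous fun x : HH => ((φ (shiftH^[k] x) : ℝ) : ℂ) :=
      Complex.continuous_ofReal.comp (hφ.comp (continuous_shiftH.iterate k))
    exact h.comp_continuousOn Φ.cont
  obtain ⟨J3, hJ3, act3, θ3, hs3, hc3⟩ := h3 p (p / 8) (fun z ω => FT p φ (Φ.F z) ω) w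
    (by omega) hw hcont (fun z hz ω => by
      show FT p φ (Φ.F (sh z)) ω = _
      rw [Φ.equi z hz]
      exact FT_shift p hp.out.pos φ _ (per Φ hz) ω)
  let S : Fin 3 → Sysm p := ![⟨2 * (p / 8), J1, hJ1, act1, θ1, hs1⟩,
    ⟨M2, J2, hJ2, act2, θ2, hs2⟩, ⟨2 * (p / 8), J3, hJ3, act3, θ3, hs3⟩]
  have hS := h4 p 3 (fun i => (S i).M) (fun i => (S i).J) (fun i => (S i).act)
    (fun i => (S i).θ) (fun i => (S i).h)
  have hsum : ∑ i, (S i).M = 2 * (p / 8) + M2 + 2 * (p / 8) := by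
    rw [Fin.sum_univ_three]
    rfl
  obtain ⟨z, hz, hz0⟩ := h1 p _ (Σ i, (S i).J) _ _ (by rw [hsum]; omega) hS
  have z1 : ∀ i, θ1 i z = 0 := fun i => hz0 ⟨0, i⟩
  have z2 : ∀ i, θ2 i z = 0 := fun i => hz0 ⟨1, i⟩
  have z3 : ∀ i, θ3 i z = 0 := fun i => hz0 ⟨2, i⟩
  obtain ⟨b1, b2⟩ := hc1 z hz z1
  have hcount : ∀ (c : ℝ) (u : unitInterval), (u : ℝ) = c →
      {k : ZMod p | z k = c}.ncard ≤ {k : Fin p | Φ.F z ((k : ℕ) : ℤ) 0 0 = u}.ncard := by
    intro c u hu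
    refine Set.ncard_le_ncard_of_injOn (fun k => (⟨k.val, ZMod.val_lt k⟩ : Fin p)) ?_ ?_
      (Set.toFinite _)
    · intro k hk
      show Φ.F z ((k.val : ℕ) : ℤ) 0 0 = u
      apply Subtype.ext
      rw [Φ.zero z hz, hu]
      have : (((k.val : ℕ) : ℤ) : ZMod p) = k := by
        rw [Int.cast_natCast, ZMod.natCast_zmod_val]
      rw [this]
      exact hk
    · intro k _ l _ hkl
      exact ZMod.val_injective p (congrArg Fin.val hkl)
  have c1 := hcount 1 1 rfl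
  have c2 := hcount 0 0 rfl
  refine ⟨Φ.F z, hc2 z hz z2, per Φ hz, by omega, by omega, ?_⟩
  intro hex
  obtain ⟨t, T, t1, t2, t3, t4⟩ := hc3 z hz z3 hex (by omega)
  exact ⟨t, T, t1, by omega, t3, t4⟩

end Pool.Agent.DV
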