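import Pool.Agent.DV.Main
import Pool.Agent.DV.Mmd
import Pool.Agent.DV.Net
import Pool.Agent.DV.Sys
import Pool.Agent.DV.Lebn
import Pool.Agent.DV.Covn
import Pool.Agent.DV.Mdim
import Pool.Agent.DV.BU
import Pool.Agent.DV.Hat
import Pool.Agent.DV.Level
import Pool.Agent.DV.Frec
import Pool.Agent.DV.GappM
import Pool.Agent.DV.Gsys
import Pool.Agent.DV.Fsys
import Pool.Agent.DV.Sums
import Pool.Agent.DV.Levs
import Pool.Agent.DV.Bals
import Pool.Agent.DV.Tie
import Pool.Agent.DV.Lipf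
import Pool.Agent.DV.Pars
import Pool.Agent.DV.Cnt
import Pool.Agent.DV.Frost
import Pool.Agent.DV.LB3

/-!
# MP_9896a2_an: the double variational principle fails
-/

set_option autoImplicit false

open Set Topology Filter MeasureTheory
open scoped ENNReal

namespace Pool.Agent.DV

theorem tie_all : Stmt_TIE :=
  TIE_thm BU_thm (FREC_thm (LEVEL_thm HAT_thm)) (FSYS_thm GAPP_thmM) SUMS_thm
    (LEVS_thm GAPP_thmM (GSYS_thm GAPP_thmM) SUMS_thm) (BALS_thm GAPP_thmM (GSYS_thm GAPP_thmM))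

theorem frost_all : Stmt_FROST :=
  FROST_thm tie_all (LIPF_thm SYS_thm) PARS_thm CNT_thm

theorem mdim_all : Stmt_MDIM := MDIM_thm (COVN_thm LEBN_thm)

/-- The system, with all its properties. -/
theorem system_all : ∃ (X : Type) (_ : TopologicalSpace X) (_ : CompactSpace X)
    (_ : TopologicalSpace.MetrizableSpace X) (_ : Nonempty X) (_ : MeasurableSpace X)
    (_ : BorelSpace X) (T : X ≃ₜ X), H3.MD.mdim T = 0 ∧
    ∀ d : H3.MD.CompatMetric X,
      (∃ (μ : Measure X) (_ : IsProbabilityMeasure μ), MeasurePreserving T μ μ ∧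
        1 / 32 ≤ H3.MD.rdimL T d.d μ) ∧ 1 / 32 ≤ mmdimL T d.d := by
  obtain ⟨D⟩ := NET_thm
  have hcl : IsClosed (XX D) := (SYS_thm D).1
  have hsh := (SYS_thm D).2
  have hcs : CompactSpace (XX D) := isCompact_iff_compactSpace.1 hcl.isCompact
  have : TopologicalSpace.MetrizableSpace HH :=
    TopologicalSpace.metrizableSpace_of_t3_secondCountable HH
  have : Fact (Nat.Prime 17) := ⟨by norm_num⟩
  obtain ⟨x, hx, -⟩ := tie_all D 17 (by norm_num) (fun _ => 0) continuous_const (fun _ => 1)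
    (fun _ => one_pos)
  have : Nonempty (XX D) := ⟨⟨x, hx⟩⟩
  letI hms : MeasurableSpace (XX D) := borel _
  have : BorelSpace (XX D) := ⟨rfl⟩
  have h3 : ENNReal.ofReal (1 / 32) = 1 / 32 := by
    rw [ENNReal.ofReal_div_of_pos (by norm_num)]
    norm_num
  refine ⟨XX D, inferInstance, hcs, inferInstance, inferInstance, hms, inferInstance,
    shiftX D hsh, mdim_all D _ fun x => rfl, fun d => ?_⟩
  obtain ⟨K, hK, hFr⟩ := frost_all D (shiftX D hsh) (fun x => rfl) d
  have hFr' : ∀ P : ℕ, ∃ p, P ≤ p ∧ Frost (shiftX D hsh) d.d (1 / 32) K p := by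
    intro P
    obtain ⟨p, hp1, hp2⟩ := Nat.exists_infinite_primes (P + 16)
    exact ⟨p, by omega, hFr p hp2 (by omega)⟩
  constructor
  · obtain ⟨μ, hμ, h1, h2⟩ := LB3.LB3_thm (XX D) (shiftX D hsh) d (1 / 32) K (by norm_num) hK hFr'
    rw [h3] at h2
    exact ⟨μ, hμ, h1, h2⟩
  · have h2 := MMD_thm (XX D) (shiftX D hsh) (shiftX D hsh).continuous d (1 / 32) K (by norm_num)
      hK hFr'
    rw [h3] at h2
    exact h2

end Pool.Agent.DV
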