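import Pool.Agent.DV.Stmts

/-!
# GIBB: Gibbs' variational inequality for product measures
-/

set_option autoImplicit false

namespace Pool.Agent.DV

namespace Gibb

/-- One factor. -/
lemma single {F : Type} [Fintype F] (q Q D : F → ℝ) (hq : ∀ b, 0 ≤ q b) (hq1 : ∑ b, q b = 1)
    (hQ : ∀ b, 0 ≤ Q b) (habs : ∀ b, q b ≠ 0 → Q b ≠ 0)
    (hZ : 0 < ∑ b, Q b * Real.exp (-D b)) :
    -Real.log (∑ b, Q b * Real.exp (-D b)) ≤
      ∑ b, (q b * Real.log (q b / Q b) + q b * D b) := by
  set Z := ∑ b, Q b * Real.exp (-D b) with hZdef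
  have key : ∀ b, q b - Q b * Real.exp (-D b) / Z ≤
      q b * Real.log (q b / Q b) + q b * D b + q b * Real.log Z := by
    intro b
    rcases eq_or_ne (q b) 0 with h0 | h0
    · rw [h0]
      have : 0 ≤ Q b * Real.exp (-D b) / Z :=
        div_nonneg (mul_nonneg (hQ b) (Real.exp_pos _).le) hZ.le
      linarith
    · have hqb : 0 < q b := lt_of_le_of_ne (hq b) (Ne.symm h0)
      have hQb : 0 < Q b := lt_of_le_of_ne (hQ b) (Ne.symm (habs b h0))
      have hy : 0 < q b / Q b * Real.exp (D b) * Z := by positivity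
      have h1 := Real.one_sub_inv_le_log_of_pos hy
      have h2 : Real.log (q b / Q b * Real.exp (D b) * Z) =
          Real.log (q b / Q b) + D b + Real.log Z := by
        rw [Real.log_mul (by positivity) hZ.ne', Real.log_mul (by positivity) (by positivity),
          Real.log_exp]
      have h3 : (q b / Q b * Real.exp (D b) * Z)⁻¹ = Q b * Real.exp (-D b) / Z / q b := by
        rw [Real.exp_neg]
        field_simp
      rw [h2, h3] at h1
      have h4 := mul_le_mul_of_nonneg_left h1 hqb.le
      have h5 : q b * (1 - Q b * Real.exp (-D b) / Z / q b) =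
          q b - Q b * Real.exp (-D b) / Z := by
        field_simp
      rw [h5] at h4
      linarith
  have hsum := Finset.sum_le_sum (s := Finset.univ) fun b _ => key b
  rw [Finset.sum_sub_distrib, Finset.sum_add_distrib, ← Finset.sum_mul, hq1, ← Finset.sum_div,
    ← hZdef, div_self hZ.ne'] at hsum
  linarith

end Gibb

/-- GIBB. -/
theorem GIBB_thm : Stmt_GIBB := by
  intro F _ L q Q D hq hq1 hQ hQ1 habs
  classical
  have hZ : ∀ l, 0 < ∑ b, Q b * Real.exp (-D l b) := by
    intro l
    have hne : ∃ b, Q b ≠ 0 := by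
      by_contra hcon
      push Not at hcon
      rw [Finset.sum_eq_zero fun b _ => hcon b] at hQ1
      exact zero_ne_one hQ1
    obtain ⟨b, hb⟩ := hne
    refine Finset.sum_pos' (fun b _ => mul_nonneg (hQ b) (Real.exp_pos _).le)
      ⟨b, Finset.mem_univ _, ?_⟩
    exact mul_pos (lt_of_le_of_ne (hQ b) (Ne.symm hb)) (Real.exp_pos _)
  have h1 : ∑ b : Fin L → F, (∏ l, Q (b l)) * Real.exp (-∑ l, D l (b l)) =
      ∏ l, ∑ b, Q b * Real.exp (-D l b) := by
    rw [Finset.prod_univ_sum, Fintype.piFinset_univ]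
    refine Finset.sum_congr rfl fun b _ => ?_
    rw [Finset.prod_mul_distrib, ← Real.exp_sum, Finset.sum_neg_distrib]
  rw [h1, Real.log_prod fun l _ => (hZ l).ne', ← Finset.sum_neg_distrib]
  exact Finset.sum_le_sum fun l _ =>
    Gibb.single (q l) Q (D l) (hq l) (hq1 l) hQ (habs l) (hZ l)

end Pool.Agent.DV
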