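import Pool.Agent.DV.Stmts

/-!
# Concatenation of codes along the orbits of a finite permutation
-/

set_option autoImplicit false

namespace Pool.Agent.DV

namespace INFO

theorem sum_iter {ι : Type} [Fintype ι] (e : ι ≃ ι) (g : ι → ℝ) (l : ℕ) :
    ∑ i, g (e^[l] i) = ∑ i, g i := by
  induction l with
  | zero => rfl
  | succ l ih =>
    rw [← ih]
    exact Equiv.sum_comp e fun i => g (e^[l] i)

theorem sum_prod {F : Type} [Fintype F] (L : ℕ) (Q : F → ℝ) (h : ∑ b, Q b = 1) :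
    ∑ b : Fin L → F, ∏ l, Q (b l) = 1 := by
  classical
  have h1 := Finset.prod_univ_sum (fun _ : Fin L => (Finset.univ : Finset F)) fun _ b => Q b
  rw [Fintype.piFinset_univ, h, Finset.prod_const_one] at h1
  exact h1.symm

/-- Concavity of the logarithm. -/
theorem sum_log_le {ι : Type} [Fintype ι] [Nonempty ι] (Z : ι → ℝ) (hZ : ∀ i, 0 < Z i) :
    ∑ i, Real.log (Z i) ≤ Fintype.card ι * Real.log ((∑ i, Z i) / Fintype.card ι) := by
  have hn : (0 : ℝ) < Fintype.card ι := by exact_mod_cast Fintype.card_pos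
  have hs : 0 < ∑ i, Z i := Finset.sum_pos (fun i _ => hZ i) Finset.univ_nonempty
  have ha : 0 < (∑ i, Z i) / Fintype.card ι := div_pos hs hn
  have h1 : ∀ i, Real.log (Z i) ≤ Real.log ((∑ i, Z i) / Fintype.card ι) +
      (Z i / ((∑ i, Z i) / Fintype.card ι) - 1) := by
    intro i
    have h2 := Real.log_le_sub_one_of_pos (div_pos (hZ i) ha)
    rw [Real.log_div (hZ i).ne' ha.ne'] at h2
    linarith
  calc ∑ i, Real.log (Z i) ≤ ∑ i, (Real.log ((∑ i, Z i) / Fintype.card ι) +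
        (Z i / ((∑ i, Z i) / Fintype.card ι) - 1)) := Finset.sum_le_sum fun i _ => h1 i
    _ = Fintype.card ι * Real.log ((∑ i, Z i) / Fintype.card ι) := by
        rw [Finset.sum_add_distrib, Finset.sum_sub_distrib, ← Finset.sum_div]
        simp only [Finset.sum_const, Finset.card_univ, nsmul_eq_mul, mul_one]
        have h3 : (∑ i, Z i) / ((∑ i, Z i) / Fintype.card ι) = Fintype.card ι := by
          field_simp
        rw [h3, sub_self, add_zero]

end INFO

open INFO in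
theorem INFO_thm (h : Stmt_GIBB) : Stmt_INFO := by
  intro ι F _ _ _ e L q Q D S hL hq hq1 hQ hQ1 hqQ hS
  obtain ⟨Z, hZ⟩ : ∃ Z : ι → ℝ, Z = fun i => ∑ b : Fin L → F, (∏ l, Q (b l)) *
    Real.exp (-∑ l : Fin L, D (e^[(l : ℕ)] i) (b l)) := ⟨_, rfl⟩
  obtain ⟨g, hg⟩ : ∃ g : ι → ℝ, g = fun i => ∑ b, (q i b * Real.log (q i b / Q b) +
    q i b * D i b) := ⟨_, rfl⟩
  have hn : (0 : ℝ) < Fintype.card ι := by exact_mod_cast Fintype.card_pos
  have hL' : (0 : ℝ) < L := by exact_mod_cast hL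
  have hprod : ∀ b : Fin L → F, 0 ≤ ∏ l, Q (b l) := fun b => Finset.prod_nonneg fun l _ => hQ _
  have hZpos : ∀ i, 0 < Z i := by
    intro i
    rw [hZ]
    have h0 : ∃ b : Fin L → F, 0 < ∏ l, Q (b l) := by
      by_contra hno
      have h1 : ∀ b : Fin L → F, ∏ l, Q (b l) = 0 := fun b =>
        le_antisymm (not_lt.1 fun h2 => hno ⟨b, h2⟩) (hprod b)
      have h2 := sum_prod L Q hQ1
      rw [Finset.sum_eq_zero fun b _ => h1 b] at h2
      exact zero_ne_one h2
    obtain ⟨b, hb⟩ := h0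
    exact Finset.sum_pos' (fun b _ => mul_nonneg (hprod b) (Real.exp_pos _).le)
      ⟨b, Finset.mem_univ _, mul_pos hb (Real.exp_pos _)⟩
  have h1 : ∀ i, -Real.log (Z i) ≤ ∑ l : Fin L, g (e^[(l : ℕ)] i) := by
    intro i
    rw [hZ, hg]
    exact h F L (fun l => q (e^[(l : ℕ)] i)) Q (fun l => D (e^[(l : ℕ)] i)) (fun l => hq _)
      (fun l => hq1 _) hQ hQ1 (fun l => hqQ _)
  have h2 : ∑ i, ∑ l : Fin L, g (e^[(l : ℕ)] i) = L * ∑ i, g i := by
    rw [Finset.sum_comm]
    simp only [sum_iter, Finset.sum_const, Finset.card_univ, Fintype.card_fin, nsmul_eq_mul]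
  have h3 : (∑ i, Z i) / Fintype.card ι ≤ S := by
    have h4 : (∑ i, Z i) / Fintype.card ι = ∑ b : Fin L → F, (∏ l, Q (b l)) *
        ((∑ i, Real.exp (-∑ l : Fin L, D (e^[(l : ℕ)] i) (b l))) / Fintype.card ι) := by
      rw [hZ, Finset.sum_comm, Finset.sum_div]
      refine Finset.sum_congr rfl fun b _ => ?_
      rw [← Finset.mul_sum, mul_div_assoc]
    rw [h4]
    calc _ ≤ ∑ b : Fin L → F, (∏ l, Q (b l)) * S :=
          Finset.sum_le_sum fun b _ => mul_le_mul_of_nonneg_left (hS b) (hprod b)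
      _ = S := by rw [← Finset.sum_mul, sum_prod L Q hQ1, one_mul]
  have hZb : 0 < (∑ i, Z i) / Fintype.card ι :=
    div_pos (Finset.sum_pos (fun i _ => hZpos i) Finset.univ_nonempty) hn
  have h5 : Real.log ((∑ i, Z i) / Fintype.card ι) ≤ Real.log S := Real.log_le_log hZb h3
  have h6 := sum_log_le Z hZpos
  have h7 : -∑ i, Real.log (Z i) ≤ L * ∑ i, g i := by
    rw [← h2, ← Finset.sum_neg_distrib]
    exact Finset.sum_le_sum fun i _ => h1 i
  have h8 : Fintype.card ι * Real.log ((∑ i, Z i) / Fintype.card ι) ≤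
      Fintype.card ι * Real.log S := mul_le_mul_of_nonneg_left h5 hn.le
  have h9 : -Real.log S * Fintype.card ι ≤ (∑ i, g i) * L := by linarith
  have h10 : -Real.log S / L ≤ (∑ i, g i) / Fintype.card ι := by
    rw [div_le_div_iff₀ hL' hn]
    exact h9
  rw [hg] at h10
  exact h10

end Pool.Agent.DV
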