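import Pool.Agent.DV.Stmts

/-!
# Module KLP: the mutual information of a finite partition
-/

set_option autoImplicit false

open Set Topology Filter MeasureTheory
open scoped ENNReal

namespace Pool.Agent.DV

namespace Klp

/-- The density on an atom. -/
theorem rnDeriv_atom {α : Type} [MeasurableSpace α] [MeasurableSingletonClass α]
    (μ ν : Measure α) [IsProbabilityMeasure μ] [IsProbabilityMeasure ν] (h : μ ≪ ν) (a : α)
    (ha : ν {a} ≠ 0) : μ.rnDeriv ν a = μ {a} / ν {a} := by
  have h1 : ∫⁻ x in {a}, μ.rnDeriv ν x ∂ν = μ {a} := Measure.setLIntegral_rnDeriv h {a}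
  rw [lintegral_singleton] at h1
  rw [← h1, ENNReal.mul_div_cancel_right ha (measure_ne_top ν _)]

/-- The Kullback-Leibler divergence of two probability measures on a finite type. -/
theorem klDiv_fin {α : Type} [Fintype α] [MeasurableSpace α] [MeasurableSingletonClass α]
    (μ ν : Measure α) [IsProbabilityMeasure μ] [IsProbabilityMeasure ν] (h : μ ≪ ν) :
    (InformationTheory.klDiv μ ν).toReal =
      ∑ a, (μ {a}).toReal * Real.log ((μ {a}).toReal / (ν {a}).toReal) := by
  rw [InformationTheory.toReal_klDiv_of_measure_eq h (by simp)]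
  rw [integral_fintype Integrable.of_finite]
  refine Finset.sum_congr rfl fun a _ => ?_
  rw [measureReal_def, smul_eq_mul]
  by_cases ha : μ {a} = 0
  · rw [ha]; simp
  have hν : ν {a} ≠ 0 := fun h0 => ha (h h0)
  rw [llr_def]
  simp only
  rw [rnDeriv_atom μ ν h a hν, ENNReal.toReal_div]

end Klp

theorem KLP_thm : Stmt_KLP := by
  intro A B _ _ π _ m n f g hf hg htop
  unfold H3.MD.mutualInfo at htop ⊢
  have hac : π ≪ π.fst.prod π.snd := (InformationTheory.klDiv_ne_top_iff.1 htop).1
  have hF : Measurable (Prod.map f g) := hf.prodMap hg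
  have hle := InformationTheory.klDiv_map_le (μ := π) (ν := π.fst.prod π.snd) hF
  have hle' := ENNReal.toReal_mono htop hle
  refine le_trans (le_of_eq ?_) hle'
  have : IsProbabilityMeasure (π.map (Prod.map f g)) :=
    Measure.isProbabilityMeasure_map hF.aemeasurable
  have : IsProbabilityMeasure ((π.fst.prod π.snd).map (Prod.map f g)) :=
    Measure.isProbabilityMeasure_map hF.aemeasurable
  rw [Klp.klDiv_fin _ _ (hac.map hF), Fintype.sum_prod_type]
  refine Finset.sum_congr rfl fun c _ => Finset.sum_congr rfl fun b _ => ?_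
  have h1 : (π.map (Prod.map f g)) {(c, b)} = π {x | f x.1 = c ∧ g x.2 = b} := by
    rw [Measure.map_apply hF (measurableSet_singleton _)]
    congr 1
    ext x
    simp [Prod.ext_iff]
  have h2 : ((π.fst.prod π.snd).map (Prod.map f g)) {(c, b)} =
      π {x | f x.1 = c} * π {x | g x.2 = b} := by
    rw [Measure.map_apply hF (measurableSet_singleton _)]
    have h3 : Prod.map f g ⁻¹' {(c, b)} = (f ⁻¹' {c}) ×ˢ (g ⁻¹' {b}) := by
      ext x
      simp [Prod.ext_iff]
    rw [h3, Measure.prod_prod, Measure.fst_apply (hf (measurableSet_singleton _)),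
      Measure.snd_apply (hg (measurableSet_singleton _))]
    rfl
  rw [h1, h2, ENNReal.toReal_mul]

end Pool.Agent.DV
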