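import Pool.Agent.DV.Stmts

/-!
# Module LB: the lower bound for the rate distortion dimension
-/

set_option autoImplicit false

open Set Topology Filter MeasureTheory
open scoped ENNReal

namespace Pool.Agent.DV

namespace LbAux

theorem log_div_self : Tendsto (fun x : ℝ => Real.log x / x) atTop (𝓝 0) := by
  have h := Real.isLittleO_log_id_atTop.tendsto_div_nhds_zero
  simpa using h

theorem lim_aux (β C : ℝ) (hβ : 0 < β) :
    Tendsto (fun x : ℝ => (β * (x - Real.log (β * x)) - C - 1) / x) atTop (𝓝 β) := by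
  have h2 := log_div_self
  have h3 : Tendsto (fun x : ℝ => x⁻¹) atTop (𝓝 0) := tendsto_inv_atTop_zero
  have h4 : Tendsto (fun x : ℝ => β - β * Real.log β * x⁻¹ - β * (Real.log x / x)
      - (C + 1) * x⁻¹) atTop (𝓝 (β - β * Real.log β * 0 - β * 0 - (C + 1) * 0)) :=
    ((tendsto_const_nhds.sub (h3.const_mul _)).sub (h2.const_mul _)).sub (h3.const_mul _)
  have h5 : β - β * Real.log β * 0 - β * 0 - (C + 1) * 0 = β := by ring
  rw [h5] at h4
  refine h4.congr' ?_
  filter_upwards [eventually_gt_atTop (0 : ℝ)] with x hx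
  rw [Real.log_mul hβ.ne' hx.ne']
  field_simp
  ring

theorem lim_log : Tendsto (fun ε : ℝ => Real.log (1 / ε)) (𝓝[>] 0) atTop := by
  have h := Real.tendsto_log_atTop.comp (tendsto_inv_nhdsGT_zero (𝕜 := ℝ))
  refine h.congr fun ε => ?_
  simp only [Function.comp, one_div]

theorem lim_small : Tendsto (fun ε : ℝ => ε * Real.log (1 / ε)) (𝓝[>] 0) (𝓝 0) := by
  have h := log_div_self.comp (tendsto_inv_nhdsGT_zero (𝕜 := ℝ))
  refine h.congr fun ε => ?_
  simp only [Function.comp, one_div, div_inv_eq_mul]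
  ring

end LbAux

open LbAux in
theorem LB_thm (h : Stmt_RATE) : Stmt_LB := by
  intro X _ _ _ _ _ _ T d β K hβ hK hF
  obtain ⟨μ, hμ, hmp, H⟩ := h X T d β K hβ hK hF
  refine ⟨μ, hμ, hmp, ?_⟩
  have hφlim : Tendsto (fun ε : ℝ => (β * (Real.log (1 / ε) - Real.log (β * Real.log (1 / ε)))
      - Real.log K - 1) / Real.log (1 / ε)) (𝓝[>] 0) (𝓝 β) :=
    (lim_aux β (Real.log K) hβ).comp lim_log
  have h5 := ENNReal.tendsto_ofReal hφlim
  unfold H3.MD.rdimL
  rw [← h5.liminf_eq]
  refine liminf_le_liminf ?_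
  have e1 : ∀ᶠ ε : ℝ in 𝓝[>] 0, 0 < ε := eventually_mem_nhdsWithin
  have e2 : ∀ᶠ ε : ℝ in 𝓝[>] 0, max 1 (1 / β) ≤ Real.log (1 / ε) :=
    lim_log.eventually (eventually_ge_atTop _)
  have e3 : ∀ᶠ ε : ℝ in 𝓝[>] 0, ε * Real.log (1 / ε) < 1 / β :=
    lim_small.eventually (gt_mem_nhds (by positivity))
  filter_upwards [e1, e2, e3] with ε hε0 hε2 hε3
  set L : ℝ := Real.log (1 / ε) with hLdef
  have hL1 : 1 ≤ L := le_trans (le_max_left _ _) hε2
  have hLβ : 1 ≤ β * L := by
    have h1 : 1 / β ≤ L := le_trans (le_max_right _ _) hε2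
    rw [div_le_iff₀ hβ] at h1
    linarith
  have hL0 : 0 < L := by linarith
  have hlog2 : 0 < Real.log 2 := Real.log_pos (by norm_num)
  have hlogb : Real.logb 2 (1 / ε) = L / Real.log 2 := rfl
  have hr0 : 0 < β * ε * L := by positivity
  have hr1 : β * ε * L ≤ 1 := by
    rw [lt_div_iff₀ hβ] at hε3
    nlinarith
  have hlogr : Real.log (1 / (β * ε * L)) = L - Real.log (β * L) := by
    have h1 : L = - Real.log ε := by rw [hLdef, one_div, Real.log_inv]
    have h2 : 0 < β * L := by positivity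
    rw [one_div, Real.log_inv, show β * ε * L = ε * (β * L) by ring,
      Real.log_mul hε0.ne' h2.ne', h1]
    ring
  have hcond : β * Real.log (1 / (β * ε * L)) - Real.log K ≤ (1 / ε) * (β * ε * L) := by
    rw [hlogr]
    have h1 : (1 / ε) * (β * ε * L) = β * L := by field_simp
    rw [h1]
    have h2 : 0 ≤ Real.log (β * L) := Real.log_nonneg hLβ
    have h3 : 0 ≤ Real.log K := Real.log_nonneg hK
    nlinarith
  rw [ENNReal.le_div_iff_mul_le (Or.inl (by
      rw [hlogb]
      exact (ENNReal.ofReal_pos.2 (by positivity)).ne')) (Or.inl ENNReal.ofReal_ne_top)]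
  unfold H3.MD.rate
  refine le_iInf fun N => le_iInf fun hN => le_iInf fun π => le_iInf fun hπ => le_iInf fun hfst =>
    le_iInf fun hint => ?_
  rw [ENNReal.le_div_iff_mul_le (Or.inl (by exact_mod_cast hN.ne'))
      (Or.inl (ENNReal.natCast_ne_top N)),
    ENNReal.le_div_iff_mul_le (Or.inl (ENNReal.ofReal_pos.2 hlog2).ne')
      (Or.inl ENNReal.ofReal_ne_top)]
  by_cases hI : H3.MD.mutualInfo π = ⊤
  · rw [hI]; exact le_top
  · have hH := H N π (1 / ε) (β * ε * L) ε hN hπ hfst (by positivity) hr0 hr1 hcond hint hI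
    rw [← ENNReal.ofReal_toReal hI, ← ENNReal.ofReal_natCast N,
      ← ENNReal.ofReal_mul' (by rw [hlogb]; positivity),
      ← ENNReal.ofReal_mul' (by positivity), ← ENNReal.ofReal_mul' hlog2.le]
    refine ENNReal.ofReal_le_ofReal (le_trans (le_of_eq ?_) hH)
    rw [hlogr, hlogb]
    field_simp

end Pool.Agent.DV
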