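import Pool.Agent.DV.Stmts

/-!
# LIPF: a Lipschitz function close to a coordinate
-/

set_option autoImplicit false

open Set Topology Filter MeasureTheory
open scoped ENNReal

namespace Pool.Agent.DV

namespace LIPF

variable {X : Type} [TopologicalSpace X] (d : H3.MD.CompatMetric X)

theorem nonneg (x y : X) : 0 ≤ d.d x y := by
  have h1 := d.triangle x y x
  rw [d.d_self, d.d_comm y x] at h1
  linarith

theorem isOpen_ball (x : X) (r : ℝ) : IsOpen {y | d.d x y < r} := by
  rw [d.isOpen_iff]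
  intro y hy
  refine ⟨r - d.d x y, sub_pos.mpr hy, fun z hz => ?_⟩
  have h1 := d.triangle x y z
  change d.d x z < r
  linarith

/-- Uniform continuity. -/
theorem unif [CompactSpace X] (f : X → ℝ) (hf : Continuous f) (ε : ℝ) (hε : 0 < ε) :
    ∃ δ : ℝ, 0 < δ ∧ ∀ x y, d.d x y < δ → |f x - f y| ≤ ε := by
  have h1 : ∀ x : X, ∃ r : ℝ, 0 < r ∧ ∀ y, d.d x y < r → |f y - f x| < ε / 2 := by
    intro x
    have h2 : IsOpen {y | |f y - f x| < ε / 2} :=
      isOpen_lt (continuous_abs.comp (hf.sub continuous_const)) continuous_const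
    obtain ⟨r, hr, hr'⟩ := (d.isOpen_iff _).mp h2 x (by
      change |f x - f x| < ε / 2
      rw [sub_self, abs_zero]
      linarith)
    exact ⟨r, hr, hr'⟩
  choose r hr hr' using h1
  obtain ⟨t, ht⟩ := (isCompact_univ (X := X)).elim_finite_subcover
    (fun x => {y | d.d x y < r x / 2}) (fun x => isOpen_ball d x _) (fun x _ => by
      refine Set.mem_iUnion.mpr ⟨x, ?_⟩
      change d.d x x < r x / 2
      rw [d.d_self]
      have := hr x
      linarith)
  obtain ⟨δ, hδ, hδ'⟩ : ∃ δ : ℝ, 0 < δ ∧ ∀ x ∈ t, δ ≤ r x / 2 := by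
    clear ht
    classical
    induction t using Finset.induction_on with
    | empty => exact ⟨1, one_pos, fun x hx => absurd hx (Finset.notMem_empty x)⟩
    | insert a s _ ih =>
      obtain ⟨δ, h1, h2⟩ := ih
      refine ⟨min δ (r a / 2), lt_min h1 (by have := hr a; linarith), fun x hx => ?_⟩
      rcases Finset.mem_insert.mp hx with rfl | hx
      · exact min_le_right _ _
      · exact (min_le_left _ _).trans (h2 x hx)
  refine ⟨δ, hδ, fun x y hxy => ?_⟩
  obtain ⟨z, hz⟩ := Set.mem_iUnion.mp (ht (Set.mem_univ x))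
  obtain ⟨hzt, hzx⟩ := Set.mem_iUnion.mp hz
  have h3 : d.d z x < r z / 2 := hzx
  have h4 := hδ' z hzt
  have h5 := hr z
  have h6 := hr' z x (by linarith)
  have h7 := d.triangle z x y
  have h8 := hr' z y (by linarith)
  rw [abs_lt] at h6 h8
  rw [abs_le]
  constructor <;> linarith [h6.1, h6.2, h8.1, h8.2]

end LIPF

open LIPF in
/-- LIPF: a Lipschitz function close to the coordinate `x 0 0 0`. -/
theorem LIPF_thm (h : Stmt_SYS) : Stmt_LIPF := by
  intro D d
  have hcl : IsClosed (XX D) := (h D).1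
  have hcomp : CompactSpace (XX D) := isCompact_iff_compactSpace.mp hcl.isCompact
  by_cases hne : Nonempty (XX D)
  swap
  · refine ⟨1, fun _ => 0, le_rfl, continuous_const, fun x => absurd ⟨x⟩ hne,
      fun x => absurd ⟨x⟩ hne⟩
  obtain ⟨f, hf⟩ : ∃ f : XX D → ℝ, f = fun x => (x.1 0 0 0 : ℝ) := ⟨_, rfl⟩
  have hfx : ∀ x : XX D, f x = (x.1 0 0 0 : ℝ) := fun x => by rw [hf]
  have hfc : Continuous f := by
    rw [hf]
    have h1 : Continuous fun y : HH => y 0 0 0 :=
      (continuous_apply 0).comp ((continuous_apply 0).comp (continuous_apply 0))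
    exact continuous_subtype_val.comp (h1.comp continuous_subtype_val)
  have hf0 : ∀ x, 0 ≤ f x := fun x => by rw [hfx]; exact (x.1 0 0 0).2.1
  have hf1 : ∀ x, f x ≤ 1 := fun x => by rw [hfx]; exact (x.1 0 0 0).2.2
  obtain ⟨δ, hδ, hδ'⟩ := unif d f hfc (1 / 10) (by norm_num)
  obtain ⟨C, hC⟩ : ∃ C : ℝ, C = max 1 (1 / δ) := ⟨_, rfl⟩
  have hC1 : 1 ≤ C := by rw [hC]; exact le_max_left _ _
  have hCδ : 1 ≤ C * δ := by
    have h1 : 1 / δ ≤ C := by rw [hC]; exact le_max_right _ _
    rwa [div_le_iff₀ hδ] at h1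
  have hC0 : 0 < C := lt_of_lt_of_le one_pos hC1
  obtain ⟨g, hg⟩ : ∃ g : XX D → ℝ, g = fun x => ⨅ y, (f y + C * d.d x y) := ⟨_, rfl⟩
  have hbdd : ∀ x, BddBelow (Set.range fun y => f y + C * d.d x y) := by
    intro x
    refine ⟨0, ?_⟩
    rintro _ ⟨y, rfl⟩
    exact add_nonneg (hf0 y) (mul_nonneg hC0.le (nonneg d x y))
  have hgle : ∀ x y, g x ≤ f y + C * d.d x y := by
    intro x y
    rw [hg]
    exact ciInf_le (hbdd x) y
  have hle : ∀ x (a : ℝ), (∀ y, a ≤ f y + C * d.d x y) → a ≤ g x := by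
    intro x a ha
    rw [hg]
    exact le_ciInf ha
  have hlip : ∀ x y, g x - g y ≤ C * d.d x y := by
    intro x y
    have h1 : g x - C * d.d x y ≤ g y := by
      apply hle
      intro z
      have h2 := hgle x z
      have h3 := mul_le_mul_of_nonneg_left (d.triangle x y z) hC0.le
      linarith
    linarith
  have hlip' : ∀ x y, |g x - g y| ≤ C * d.d x y := by
    intro x y
    rw [abs_le]
    have h1 := hlip x y
    have h2 := hlip y x
    rw [d.d_comm] at h2
    constructor <;> linarith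
  have hgc : Continuous g := by
    rw [continuous_def]
    intro U hU
    rw [d.isOpen_iff]
    intro x hx
    obtain ⟨ε, hε, hεU⟩ := Metric.isOpen_iff.mp hU (g x) hx
    refine ⟨ε / C, div_pos hε hC0, fun y hy => hεU ?_⟩
    rw [Metric.mem_ball, Real.dist_eq, abs_sub_comm]
    refine (hlip' x y).trans_lt ?_
    rw [lt_div_iff₀ hC0] at hy
    linarith
  obtain ⟨φ, hφ⟩ := ContinuousMap.exists_restrict_eq hcl ⟨g, hgc⟩
  have hφx : ∀ x : XX D, φ x.1 = g x := by
    intro x
    exact congrArg (fun k : C(XX D, ℝ) => k x) hφ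
  refine ⟨C, φ, hC1, φ.continuous, fun x => ⟨?_, ?_, ?_⟩, fun x y => ?_⟩
  · rw [hφx]
    exact hle x 0 fun y => add_nonneg (hf0 y) (mul_nonneg hC0.le (nonneg d x y))
  · rw [hφx, ← hfx]
    have h1 := hgle x x
    rwa [d.d_self, mul_zero, add_zero] at h1
  · rw [hφx, ← hfx]
    apply hle
    intro y
    have h0 := nonneg d x y
    by_cases hxy : d.d x y < δ
    · have h1 := (abs_le.mp (hδ' x y hxy)).2
      have h2 := mul_nonneg hC0.le h0
      linarith
    · have h1 : C * δ ≤ C * d.d x y := mul_le_mul_of_nonneg_left (not_lt.mp hxy) hC0.le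
      have h2 := hf1 x
      have h3 := hf0 y
      linarith
  · rw [hφx, hφx]
    exact hlip' x y

end Pool.Agent.DV
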