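import Pool.Agent.DV.Stmts

/-!
# MP_9896a2_an: assembly
-/

set_option autoImplicit false

open Set Topology Filter MeasureTheory
open scoped ENNReal

namespace Pool.Agent.DV

/-- The inverse shift. -/
def shiftHinv (x : HH) : HH := fun t => x (t - 1)

theorem shiftH_inv (x : HH) : shiftH (shiftHinv x) = x := by
  funext t; simp [shiftH, shiftHinv]

theorem inv_shiftH (x : HH) : shiftHinv (shiftH x) = x := by
  funext t; simp [shiftH, shiftHinv]

theorem continuous_shiftH : Continuous shiftH := by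
  unfold shiftH
  fun_prop

theorem continuous_shiftHinv : Continuous shiftHinv := by
  unfold shiftHinv
  fun_prop

/-- The shift as a homeomorphism of the system. -/
def shiftX (D : Pats) (hS : ∀ x, shiftH x ∈ XX D ↔ x ∈ XX D) : XX D ≃ₜ XX D where
  toFun x := ⟨shiftH x.1, (hS x.1).2 x.2⟩
  invFun x := ⟨shiftHinv x.1, (hS _).1 (by rw [shiftH_inv]; exact x.2)⟩
  left_inv x := Subtype.ext (inv_shiftH x.1)
  right_inv x := Subtype.ext (shiftH_inv x.1)
  continuous_toFun := (continuous_shiftH.comp continuous_subtype_val).subtype_mk _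
  continuous_invFun := (continuous_shiftHinv.comp continuous_subtype_val).subtype_mk _

theorem MAIN_thm (hN : Stmt_NET) (hS : Stmt_SYS) (hM : Stmt_MDIM) (hT : Stmt_TIE)
    (hF : Stmt_FROST) (hL : Stmt_LB) : Stmt_MAIN := by
  obtain ⟨D⟩ := hN
  have hcl : IsClosed (XX D) := (hS D).1
  have hsh := (hS D).2
  haveI hcs : CompactSpace (XX D) := isCompact_iff_compactSpace.1 hcl.isCompact
  haveI : TopologicalSpace.MetrizableSpace HH :=
    TopologicalSpace.metrizableSpace_of_t3_secondCountable HH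
  haveI : Fact (Nat.Prime 17) := ⟨by norm_num⟩
  obtain ⟨x, hx, -⟩ := hT D 17 (by norm_num) (fun _ => 0) continuous_const (fun _ => 1)
    (fun _ => one_pos)
  haveI : Nonempty (XX D) := ⟨⟨x, hx⟩⟩
  letI hms : MeasurableSpace (XX D) := borel _
  haveI : BorelSpace (XX D) := ⟨rfl⟩
  have hm : H3.MD.mdim (shiftX D hsh) = 0 := hM D _ fun x => rfl
  have hd : ∀ d : H3.MD.CompatMetric (XX D), ∃ (μ : Measure (XX D)) (_ : IsProbabilityMeasure μ),
      MeasurePreserving (shiftX D hsh) μ μ ∧ 1 / 32 ≤ H3.MD.rdimL (shiftX D hsh) d.d μ := by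
    intro d
    obtain ⟨K, hK, hFr⟩ := hF D (shiftX D hsh) (fun x => rfl) d
    obtain ⟨μ, hμ, h1, h2⟩ := hL (XX D) (shiftX D hsh) d (1 / 32) K (by norm_num) hK (by
      intro P
      obtain ⟨p, hp1, hp2⟩ := Nat.exists_infinite_primes (P + 16)
      exact ⟨p, by omega, hFr p hp2 (by omega)⟩)
    refine ⟨μ, hμ, h1, ?_⟩
    have h3 : ENNReal.ofReal (1 / 32) = 1 / 32 := by
      rw [ENNReal.ofReal_div_of_pos (by norm_num)]
      norm_num
    rw [h3] at h2
    exact h2
  refine ⟨XX D, inferInstance, hcs, inferInstance, inferInstance, hms, inferInstance,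
    shiftX D hsh, hm, hd, ?_⟩
  rintro ⟨-, ⟨d, hd2⟩, -⟩
  obtain ⟨μ, h1, h2, h3⟩ := hd d
  rw [hm] at hd2
  have h4 : H3.MD.rdimL (shiftX D hsh) d.d μ ≤ H3.MD.supL (shiftX D hsh) d.d := by
    unfold H3.MD.supL
    exact le_iSup_of_le μ (le_iSup_of_le h1 (le_iSup_of_le h2 le_rfl))
  have h5 : (1 / 32 : ℝ≥0∞) ≤ 0 := (h3.trans h4).trans hd2.le
  have h6 : (0 : ℝ≥0∞) < 1 / 32 := ENNReal.div_pos one_ne_zero (by norm_num)
  exact absurd h5 (not_le.2 h6)

end Pool.Agent.DV
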