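import Pool.Agent.DV.Stmts

/-!
# Module RATE: the lower bound for the rate distortion function of the limit measure
-/

set_option autoImplicit false

open Set Topology Filter MeasureTheory
open scoped ENNReal

namespace Pool.Agent.DV

namespace RateAux

variable {X : Type} [TopologicalSpace X]

theorem d_nonneg (d : H3.MD.CompatMetric X) (x y : X) : 0 ≤ d.d x y := by
  have h1 := d.triangle x y x
  rw [d.d_self, d.d_comm y x] at h1
  linarith

/-- A compatible metric on a compact space is bounded. -/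
theorem exists_bound [CompactSpace X] [Nonempty X] (d : H3.MD.CompatMetric X) :
    ∃ Δ : ℝ, ∀ x x', 0 ≤ d.d x x' ∧ d.d x x' ≤ Δ := by
  obtain ⟨x0⟩ := ‹Nonempty X›
  have hU : ∀ n : ℕ, IsOpen {y | d.d x0 y < n} := by
    intro n
    rw [d.isOpen_iff]
    intro y hy
    have hy' : d.d x0 y < n := hy
    refine ⟨n - d.d x0 y, sub_pos.2 hy', fun z hz => ?_⟩
    have h1 := d.triangle x0 y z
    have h2 : d.d x0 z < n := by linarith
    exact h2
  have hcov : (univ : Set X) ⊆ ⋃ n : ℕ, {y | d.d x0 y < n} := by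
    intro y _
    obtain ⟨n, hn⟩ := exists_nat_gt (d.d x0 y)
    exact mem_iUnion.2 ⟨n, hn⟩
  have hmono : Monotone fun n : ℕ => {y | d.d x0 y < n} := by
    intro m n hmn y hy
    have h1 : d.d x0 y < m := hy
    have h2 : (m : ℝ) ≤ n := by exact_mod_cast hmn
    exact lt_of_lt_of_le h1 h2
  obtain ⟨n, hn⟩ := isCompact_univ.elim_directed_cover _ hU hcov hmono.directed_le
  refine ⟨n + n, fun x x' => ⟨d_nonneg d x x', ?_⟩⟩
  have h1 : d.d x0 x < n := hn (mem_univ x)
  have h2 : d.d x0 x' < n := hn (mem_univ x')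
  have h3 := d.triangle x x0 x'
  rw [d.d_comm x x0] at h3
  linarith

theorem tendsto_quot (N : ℕ) (hN : 0 < N) :
    Tendsto (fun p : ℕ => ((p / N : ℕ) : ℝ)) atTop atTop := by
  have h1 : Tendsto (fun p : ℕ => p / N) atTop atTop := by
    rw [tendsto_atTop_atTop]
    intro b
    refine ⟨b * N, fun p hp => ?_⟩
    exact (Nat.le_div_iff_mul_le hN).2 hp
  exact tendsto_natCast_atTop_atTop.comp h1

theorem tendsto_div_quot (N : ℕ) (hN : 0 < N) :
    Tendsto (fun p : ℕ => (p : ℝ) / ((p / N : ℕ) : ℝ)) atTop (𝓝 N) := by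
  have h0 := tendsto_quot N hN
  have h1 : Tendsto (fun p : ℕ => (N : ℝ) + (N : ℝ) / ((p / N : ℕ) : ℝ)) atTop (𝓝 N) := by
    have h2 : Tendsto (fun p : ℕ => (N : ℝ) / ((p / N : ℕ) : ℝ)) atTop (𝓝 0) :=
      h0.const_div_atTop _
    have h3 := h2.const_add (N : ℝ)
    rw [add_zero] at h3
    exact h3
  refine tendsto_of_tendsto_of_tendsto_of_le_of_le' tendsto_const_nhds h1 ?_ ?_
  · filter_upwards [eventually_ge_atTop N] with p hp
    have h2 : 0 < p / N := Nat.div_pos hp hN
    have h3 : (0 : ℝ) < ((p / N : ℕ) : ℝ) := by exact_mod_cast h2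
    rw [le_div_iff₀ h3]
    exact_mod_cast Nat.mul_div_le p N
  · filter_upwards [eventually_ge_atTop N] with p hp
    have h2 : 0 < p / N := Nat.div_pos hp hN
    have h3 : (0 : ℝ) < ((p / N : ℕ) : ℝ) := by exact_mod_cast h2
    rw [div_le_iff₀ h3, add_mul, div_mul_cancel₀ _ h3.ne']
    have h4 : p ≤ N * (p / N) + N := by
      have h5 := Nat.div_add_mod p N
      have h6 := Nat.mod_lt p hN
      omega
    exact_mod_cast h4

/-- The bound for the logarithm. -/
theorem log_bound {a β K r Δ : ℝ} {N p : ℕ} (hK : 1 ≤ K) (hr : 0 < r)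
    (hκ : β * Real.log (1 / r) - Real.log K ≤ a * r) :
    Real.log (Real.exp (a * N * Δ) * (K ^ p * r ^ (β * p) + Real.exp (-(a * p * r)))) ≤
      a * N * Δ + Real.log 2 - p * (β * Real.log (1 / r) - Real.log K) := by
  have hK0 : 0 < K := by linarith
  have h1 : K ^ p * r ^ (β * p) = Real.exp (-(p * (β * Real.log (1 / r) - Real.log K))) := by
    rw [← Real.rpow_natCast K p, Real.rpow_def_of_pos hK0, Real.rpow_def_of_pos hr,
      ← Real.exp_add]
    congr 1
    rw [one_div, Real.log_inv]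
    ring
  have h2 : Real.exp (-(a * p * r)) ≤
      Real.exp (-(p * (β * Real.log (1 / r) - Real.log K))) := by
    apply Real.exp_le_exp.2
    have h3 : (0 : ℝ) ≤ p := Nat.cast_nonneg p
    have h4 := mul_le_mul_of_nonneg_left hκ h3
    have h5 : a * p * r = p * (a * r) := by ring
    rw [h5]
    linarith
  have h3 : K ^ p * r ^ (β * p) + Real.exp (-(a * p * r)) ≤
      2 * Real.exp (-(p * (β * Real.log (1 / r) - Real.log K))) := by
    rw [h1]
    linarith
  have h4 : 0 < K ^ p * r ^ (β * p) + Real.exp (-(a * p * r)) := by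
    rw [h1]
    have := Real.exp_pos (-(p * (β * Real.log (1 / r) - Real.log K)))
    have := Real.exp_pos (-(a * p * r))
    linarith
  rw [Real.log_mul (Real.exp_pos _).ne' h4.ne', Real.log_exp]
  have h5 := Real.log_le_log h4 h3
  rw [Real.log_mul (by norm_num) (Real.exp_pos _).ne', Real.log_exp] at h5
  linarith

end RateAux

open RateAux in
/-- RATE. -/
theorem RATE_thm (hR : Stmt_RDISC) (hC : Stmt_CODE) (hW : Stmt_WLIM) : Stmt_RATE := by
  intro X _ _ _ _ _ _ T d β K hβ hK hP
  choose p hp hF using hP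
  unfold Frost at hF
  choose ι hFin hNe x e hxe hfr using hF
  obtain ⟨μ, hμ, hmp, s, hs, hlim⟩ := @hW X _ _ _ _ _ T ι hFin hNe x e hxe
  refine ⟨μ, hμ, hmp, ?_⟩
  intro N π a r ε hN hπ hfst ha hr hr1 hκ hint hMI
  obtain ⟨m, n, f, y, q, Q, D, hf, hfront, hq0, hq1, hQ0, hQ1, hqQ, hD, hfin⟩ :=
    hR X T d μ N π a ε hN hπ hfst ha hint hMI
  obtain ⟨Δ, hΔ⟩ := exists_bound d
  have hps : Tendsto (fun k => p (s k)) atTop atTop := by
    refine tendsto_atTop_mono (fun k => ?_) tendsto_id
    exact (hs.id_le k).trans (hp (s k))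
  -- the limit of the right hand sides
  have hlimR : Tendsto (fun k => ∑ c, (({i | f (x (s k) i) = c}.ncard : ℝ) /
      @Fintype.card (ι (s k)) (hFin (s k))) *
        ∑ b, (q c b * Real.log (q c b / Q b) + a * q c b * D c b)) atTop
      (𝓝 (∑ c, (μ (f ⁻¹' {c})).toReal *
        ∑ b, (q c b * Real.log (q c b / Q b) + a * q c b * D c b))) := by
    refine tendsto_finsetSum _ fun c _ => ?_
    refine Tendsto.mul_const _ ?_
    exact hlim (f ⁻¹' {c}) (hf (measurableSet_singleton c)) (hfront c)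
  -- the limit of the left hand sides
  have hlimL : Tendsto (fun k => ((p (s k) : ℝ) / ((p (s k) / N : ℕ) : ℝ)) *
      (β * Real.log (1 / r) - Real.log K) -
      (a * N * Δ + Real.log 2) / ((p (s k) / N : ℕ) : ℝ)) atTop
      (𝓝 (N * (β * Real.log (1 / r) - Real.log K) - 0)) := by
    refine Tendsto.sub ?_ ?_
    · exact ((tendsto_div_quot N hN).comp hps).mul_const _
    · exact ((tendsto_quot N hN).comp hps).const_div_atTop _
  have hle : (N : ℝ) * (β * Real.log (1 / r) - Real.log K) - 0 ≤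
      ∑ c, (μ (f ⁻¹' {c})).toReal *
        ∑ b, (q c b * Real.log (q c b / Q b) + a * q c b * D c b) := by
    refine le_of_tendsto_of_tendsto hlimL hlimR ?_
    obtain ⟨P0, hP0⟩ := exists_nat_ge (1 / r)
    filter_upwards [hps.eventually_ge_atTop N, hps.eventually_ge_atTop P0,
      hps.eventually_ge_atTop 1] with k hk1 hk2 hk3
    have hpr : 1 / (p (s k) : ℝ) ≤ r := by
      have h1 : (0 : ℝ) < p (s k) := by exact_mod_cast hk3
      rw [div_le_iff₀ h1]
      have h2 : 1 / r ≤ p (s k) := hP0.trans (by exact_mod_cast hk2)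
      rw [div_le_iff₀ hr] at h2
      linarith
    have h1 := @hC X T d.d β K Δ (p (s k)) N m n f y q Q D a r hN hk1 ha hpr hr1 hK hΔ hq0 hq1
      hQ0 hQ1 hqQ hD (ι (s k)) (hFin (s k)) (hNe (s k)) (x (s k)) (e (s k)) (hxe (s k))
      (fun y' => hfr (s k) y' r hpr hr1)
    refine le_trans ?_ h1
    have h2 : 0 < p (s k) / N := Nat.div_pos hk1 hN
    have h3 : (0 : ℝ) < ((p (s k) / N : ℕ) : ℝ) := by exact_mod_cast h2
    have h4 := log_bound (a := a) (β := β) (K := K) (r := r) (Δ := Δ) (N := N) (p := p (s k))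
      hK hr hκ
    have h5 : ((p (s k) : ℝ) / ((p (s k) / N : ℕ) : ℝ)) *
        (β * Real.log (1 / r) - Real.log K) -
        (a * N * Δ + Real.log 2) / ((p (s k) / N : ℕ) : ℝ) =
        (p (s k) * (β * Real.log (1 / r) - Real.log K) - (a * N * Δ + Real.log 2)) /
          ((p (s k) / N : ℕ) : ℝ) := by
      ring
    rw [h5]
    apply div_le_div_of_nonneg_right _ h3.le
    linarith
  have h6 := hle.trans hfin
  linarith

end Pool.Agent.DV
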