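import Pool.Agent.DV.Stmts

/-!
# MP_9896a2_an: discretisation of a joint law
-/

set_option autoImplicit false

open Set Topology Filter MeasureTheory
open scoped ENNReal

namespace Pool.Agent.DV

namespace Rdisc

variable {X : Type} [TopologicalSpace X]

theorem d_nonneg (d : H3.MD.CompatMetric X) (x y : X) : 0 ≤ d.d x y := by
  have h1 := d.triangle x y x
  rw [d.d_self, d.d_comm y x] at h1
  linarith

/-- The metric space structure, with the given topology. -/
@[reducible] noncomputable def ms (d : H3.MD.CompatMetric X) : MetricSpace X :=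
  MetricSpace.ofDistTopology d.d d.d_self d.d_comm d.triangle
    (fun s => by
      rw [d.isOpen_iff]) d.eq_of_d

theorem continuous_d (d : H3.MD.CompatMetric X) : Continuous fun p : X × X => d.d p.1 p.2 := by
  let _ : MetricSpace X := ms d
  exact continuous_dist

/-- Uniform continuity of the iterates. -/
theorem iterates [CompactSpace X] (d : H3.MD.CompatMetric X) (T : X → X) (hT : Continuous T)
    (N : ℕ) {δ : ℝ} (hδ : 0 < δ) : ∃ η : ℝ, 0 < η ∧ ∀ x x', d.d x x' ≤ η → ∀ k : Fin N,
      d.d (T^[(k : ℕ)] x) (T^[(k : ℕ)] x') ≤ δ := by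
  let _ : MetricSpace X := ms d
  have h1 : Continuous fun (x : X) (k : Fin N) => T^[(k : ℕ)] x :=
    continuous_pi fun k => hT.iterate _
  have h2 := CompactSpace.uniformContinuous_of_continuous h1
  rw [Metric.uniformContinuous_iff] at h2
  obtain ⟨η, hη, h3⟩ := h2 δ hδ
  refine ⟨η / 2, by positivity, fun x x' hx k => ?_⟩
  have h4 : dist x x' < η := by
    change d.d x x' < η
    linarith
  have h5 := h3 h4
  exact (dist_le_pi_dist (fun k : Fin N => T^[(k : ℕ)] x) (fun k : Fin N => T^[(k : ℕ)] x')
    k).trans h5.le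

theorem borel_prod [CompactSpace X] [MeasurableSpace X] [BorelSpace X]
    (d : H3.MD.CompatMetric X) (N : ℕ) : BorelSpace (X × (Fin N → X)) := by
  let _ : MetricSpace X := ms d
  infer_instance

/-- The sum of the distances is integrable. -/
theorem integrable_cost [CompactSpace X] [MeasurableSpace X] [BorelSpace X]
    (d : H3.MD.CompatMetric X) (T : X → X) (hT : Continuous T) (N : ℕ)
    (π : Measure (X × (Fin N → X))) [IsProbabilityMeasure π] :
    Integrable (fun p : X × (Fin N → X) => ∑ k : Fin N, d.d (T^[(k : ℕ)] p.1) (p.2 k)) π := by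
  have hB := borel_prod d N
  have h1 : Continuous fun p : X × (Fin N → X) =>
      ∑ k : Fin N, d.d (T^[(k : ℕ)] p.1) (p.2 k) := by
    refine continuous_finsetSum _ fun k _ => ?_
    have h2 : Continuous fun p : X × (Fin N → X) => (T^[(k : ℕ)] p.1, p.2 k) :=
      ((hT.iterate _).comp continuous_fst).prodMk ((continuous_apply k).comp continuous_snd)
    exact (continuous_d d).comp h2
  exact h1.integrable_of_hasCompactSupport (HasCompactSupport.of_compactSpace _)

end Rdisc

open Rdisc in
theorem RDISC_thm (hK : Stmt_KLP) (hP : Stmt_PART) : Stmt_RDISC := by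
  classical
  intro X _ _ _ _ _ _ T d μ _ N π a ε hN hπ hfst ha hint hmi
  have hNR : (0 : ℝ) < N := by exact_mod_cast hN
  have hci := integrable_cost d T T.continuous N π
  set I0 : ℝ := ∫ p, (1 / (N : ℝ)) * ∑ k : Fin N, d.d (T^[(k : ℕ)] p.1) (p.2 k) ∂π with hI0
  set δ : ℝ := (ε - I0) / 3 with hδ
  have hδ0 : 0 < δ := by
    rw [hδ]
    linarith
  obtain ⟨η, hη, hηT⟩ := iterates d T T.continuous N hδ0
  obtain ⟨m, f, hf, hfs, hfr, hfd⟩ := hP X d μ η hη
  obtain ⟨m2, f2, hf2, hf2s, -, hf2d⟩ := hP X d μ δ hδ0
  choose xc hxc using hfs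
  choose rep hrep using hf2s
  -- the partition of the sequences
  let G : (Fin N → Fin m2) ≃ Fin (m2 ^ N) := finFunctionFinEquiv
  let g : (Fin N → X) → Fin (m2 ^ N) := fun y => G fun k => f2 (y k)
  have hg : Measurable g := by
    have h1 : Measurable fun (y : Fin N → X) (k : Fin N) => f2 (y k) :=
      measurable_pi_lambda _ fun k => hf2.comp (measurable_pi_apply k)
    exact (measurable_of_countable G).comp h1
  let y : Fin (m2 ^ N) → Fin N → X := fun b k => rep (G.symm b k)
  have hgy : ∀ (z : Fin N → X) (k : Fin N), d.d (z k) (y (g z) k) ≤ δ := by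
    intro z k
    apply hf2d
    change f2 (z k) = f2 (rep (G.symm (G fun k => f2 (z k)) k))
    rw [hrep, Equiv.symm_apply_apply]
  -- the probabilities
  let S : Fin m → Fin (m2 ^ N) → Set (X × (Fin N → X)) := fun c b => {p | f p.1 = c ∧ g p.2 = b}
  let P : Fin m → Fin (m2 ^ N) → ℝ := fun c b => (π {p | f p.1 = c ∧ g p.2 = b}).toReal
  let M : Fin m → ℝ := fun c => (π {p | f p.1 = c}).toReal
  let Q : Fin (m2 ^ N) → ℝ := fun b => (π {p | g p.2 = b}).toReal
  have hfm : ∀ c, MeasurableSet {p : X × (Fin N → X) | f p.1 = c} := fun c =>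
    (hf.comp measurable_fst) (measurableSet_singleton c)
  have hgm : ∀ b, MeasurableSet {p : X × (Fin N → X) | g p.2 = b} := fun b =>
    (hg.comp measurable_snd) (measurableSet_singleton b)
  have hP0 : ∀ c b, 0 ≤ P c b := fun c b => ENNReal.toReal_nonneg
  have hQ0 : ∀ b, 0 ≤ Q b := fun b => ENNReal.toReal_nonneg
  have hM0 : ∀ c, 0 ≤ M c := fun c => ENNReal.toReal_nonneg
  have hPM : ∀ c b, P c b ≤ M c := fun c b =>
    ENNReal.toReal_mono (measure_ne_top π _) (measure_mono fun p hp => hp.1)
  have hPQ : ∀ c b, P c b ≤ Q b := fun c b =>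
    ENNReal.toReal_mono (measure_ne_top π _) (measure_mono fun p hp => hp.2)
  have hsumP : ∀ c, ∑ b, P c b = M c := by
    intro c
    have h1 : {p : X × (Fin N → X) | f p.1 = c} = ⋃ b, {p | f p.1 = c ∧ g p.2 = b} := by
      ext p
      simp
    change ∑ b, (π {p | f p.1 = c ∧ g p.2 = b}).toReal = (π {p | f p.1 = c}).toReal
    rw [h1, measure_iUnion, tsum_fintype, ENNReal.toReal_sum]
    · intro b _
      exact measure_ne_top π _
    · intro b b' hbb
      rw [Function.onFun, Set.disjoint_left]
      rintro p ⟨-, h2⟩ ⟨-, h3⟩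
      exact hbb (h2.symm.trans h3)
    · intro b
      exact (hfm c).inter (hgm b)
  have hsumQ : ∑ b, Q b = 1 := by
    have h1 : (Set.univ : Set (X × (Fin N → X))) = ⋃ b, {p | g p.2 = b} := by
      ext p
      simp
    have h2 : π Set.univ = 1 := measure_univ
    rw [h1, measure_iUnion, tsum_fintype] at h2
    · change ∑ b, (π {p | g p.2 = b}).toReal = 1
      rw [← ENNReal.toReal_sum, h2, ENNReal.toReal_one]
      intro b _
      exact measure_ne_top π _
    · intro b b' hbb
      rw [Function.onFun, Set.disjoint_left]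
      intro p h3 h4
      exact hbb (h3.symm.trans h4)
    · exact hgm
  have hMμ : ∀ c, (μ (f ⁻¹' {c})).toReal = M c := by
    intro c
    rw [← hfst, Measure.fst_apply (hf (measurableSet_singleton c))]
    rfl
  -- the channel
  let q : Fin m → Fin (m2 ^ N) → ℝ := fun c b => if M c = 0 then Q b else P c b / M c
  have hMq : ∀ c b, M c * q c b = P c b := by
    intro c b
    change M c * (if M c = 0 then Q b else P c b / M c) = P c b
    split_ifs with h
    · have h1 := hPM c b
      rw [h] at h1 ⊢
      rw [zero_mul]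
      exact le_antisymm (hP0 c b) h1
    · rw [mul_div_cancel₀ _ h]
  let D : Fin m → Fin (m2 ^ N) → ℝ := fun c b =>
    ∑ k : Fin N, d.d (T^[(k : ℕ)] (xc c)) (y b k) + N * δ
  refine ⟨m, m2 ^ N, f, y, q, Q, D, hf, hfr, ?_, ?_, hQ0, hsumQ, ?_, ?_, ?_⟩
  · intro c b
    change 0 ≤ if M c = 0 then Q b else P c b / M c
    split_ifs
    · exact hQ0 b
    · exact div_nonneg (hP0 c b) (hM0 c)
  · intro c
    change ∑ b, (if M c = 0 then Q b else P c b / M c) = 1
    split_ifs with h
    · exact hsumQ
    · rw [← Finset.sum_div, hsumP, div_self h]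
  · intro c b h1 h2
    apply h1
    change (if M c = 0 then Q b else P c b / M c) = 0
    split_ifs with h
    · exact h2
    · have h3 := hPQ c b
      rw [h2] at h3
      rw [le_antisymm h3 (hP0 c b), zero_div]
  · intro x b
    have h1 : ∀ k : Fin N, d.d (T^[(k : ℕ)] x) (y b k) ≤
        d.d (T^[(k : ℕ)] (xc (f x))) (y b k) + δ := by
      intro k
      have h2 := d.triangle (T^[(k : ℕ)] x) (T^[(k : ℕ)] (xc (f x))) (y b k)
      have h3 := hηT x (xc (f x)) (hfd _ _ (hxc (f x)).symm) k
      linarith
    calc ∑ k : Fin N, d.d (T^[(k : ℕ)] x) (y b k)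
        ≤ ∑ k : Fin N, (d.d (T^[(k : ℕ)] (xc (f x))) (y b k) + δ) :=
          Finset.sum_le_sum fun k _ => h1 k
      _ = D (f x) b := by
          rw [Finset.sum_add_distrib, Finset.sum_const, Finset.card_univ, Fintype.card_fin,
            nsmul_eq_mul]
  · -- the information
    have hkl := hK X (Fin N → X) π m (m2 ^ N) f g hf hg hmi
    have hlog : ∀ c b, M c * (q c b * Real.log (q c b / Q b)) =
        P c b * Real.log (P c b / (M c * Q b)) := by
      intro c b
      rw [← mul_assoc, hMq]
      by_cases h : M c = 0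
      · have h1 : P c b = 0 := by
          have h1 := hPM c b
          rw [h] at h1
          exact le_antisymm h1 (hP0 c b)
        rw [h1, zero_mul, zero_mul]
      · congr 2
        change (if M c = 0 then Q b else P c b / M c) / Q b = _
        rw [if_neg h, div_div]
    -- the distortion
    have hDint : ∑ c, ∑ b, P c b * D c b = ∫ p, D (f p.1) (g p.2) ∂π := by
      let h : X × (Fin N → X) → Fin m × Fin (m2 ^ N) := fun p => (f p.1, g p.2)
      have hh : Measurable h := (hf.comp measurable_fst).prodMk (hg.comp measurable_snd)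
      have hpm : IsProbabilityMeasure (π.map h) := Measure.isProbabilityMeasure_map hh.aemeasurable
      have h1 : ∫ p, D (f p.1) (g p.2) ∂π = ∫ z, D z.1 z.2 ∂(π.map h) := by
        rw [integral_map hh.aemeasurable]
        exact (measurable_of_countable fun z : Fin m × Fin (m2 ^ N) =>
          D z.1 z.2).aestronglyMeasurable
      rw [h1, integral_fintype Integrable.of_finite, Fintype.sum_prod_type]
      refine Finset.sum_congr rfl fun c _ => Finset.sum_congr rfl fun b _ => ?_
      rw [smul_eq_mul]
      congr 1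
      rw [measureReal_def, Measure.map_apply hh (measurableSet_singleton _)]
      change (π {p | f p.1 = c ∧ g p.2 = b}).toReal = _
      congr 2
      ext p
      simp [h]
    have hDle : ∫ p, D (f p.1) (g p.2) ∂π ≤ N * I0 + 3 * N * δ := by
      have h1 : ∫ p, D (f p.1) (g p.2) ∂π ≤
          ∫ p, (∑ k : Fin N, d.d (T^[(k : ℕ)] p.1) (p.2 k) + 3 * N * δ) ∂π := by
        refine integral_mono_of_nonneg (Eventually.of_forall fun p => ?_)
          (hci.add (integrable_const _)) (Eventually.of_forall fun p => ?_)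
        · change 0 ≤ ∑ k : Fin N, d.d (T^[(k : ℕ)] (xc (f p.1))) (y (g p.2) k) + N * δ
          have h2 : 0 ≤ ∑ k : Fin N, d.d (T^[(k : ℕ)] (xc (f p.1))) (y (g p.2) k) :=
            Finset.sum_nonneg fun k _ => d_nonneg d _ _
          positivity
        · change ∑ k : Fin N, d.d (T^[(k : ℕ)] (xc (f p.1))) (y (g p.2) k) + N * δ ≤
            ∑ k : Fin N, d.d (T^[(k : ℕ)] p.1) (p.2 k) + 3 * N * δ
          have h2 : ∀ k : Fin N, d.d (T^[(k : ℕ)] (xc (f p.1))) (y (g p.2) k) ≤
              d.d (T^[(k : ℕ)] p.1) (p.2 k) + 2 * δ := by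
            intro k
            have h3 := d.triangle (T^[(k : ℕ)] (xc (f p.1))) (T^[(k : ℕ)] p.1) (y (g p.2) k)
            have h4 := d.triangle (T^[(k : ℕ)] p.1) (p.2 k) (y (g p.2) k)
            have h5 := hηT (xc (f p.1)) p.1 (hfd _ _ (hxc (f p.1))) k
            have h6 := hgy p.2 k
            linarith
          have h3 := Finset.sum_le_sum fun k (_ : k ∈ Finset.univ) => h2 k
          rw [Finset.sum_add_distrib, Finset.sum_const, Finset.card_univ, Fintype.card_fin,
            nsmul_eq_mul] at h3
          linarith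
      refine h1.trans (le_of_eq ?_)
      rw [integral_add hci (integrable_const _), integral_const, measureReal_def, measure_univ,
        ENNReal.toReal_one, one_smul, hI0, integral_const_mul]
      field_simp
    have hfin : N * I0 + 3 * N * δ = N * ε := by
      rw [hδ]
      ring
    calc ∑ c, (μ (f ⁻¹' {c})).toReal * ∑ b, (q c b * Real.log (q c b / Q b) + a * q c b * D c b)
        = ∑ c, ∑ b, P c b * Real.log (P c b / (M c * Q b)) + a * ∑ c, ∑ b, P c b * D c b := by
          rw [Finset.mul_sum, ← Finset.sum_add_distrib]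
          refine Finset.sum_congr rfl fun c _ => ?_
          rw [hMμ, Finset.mul_sum, Finset.mul_sum, ← Finset.sum_add_distrib]
          refine Finset.sum_congr rfl fun b _ => ?_
          rw [← hlog, ← hMq]
          ring
      _ ≤ (H3.MD.mutualInfo π).toReal + a * (N * ε) := by
          refine add_le_add hkl ?_
          rw [hDint]
          exact mul_le_mul_of_nonneg_left (hDle.trans hfin.le) ha.le
      _ = (H3.MD.mutualInfo π).toReal + a * N * ε := by ring

end Pool.Agent.DV
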