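import Pool.Agent.DV.Stmts

/-!
# MP_9896a2_an: WLIM, weak limits of uniform measures on finite permuted families
-/

set_option autoImplicit false

open Set Topology Filter MeasureTheory
open scoped ENNReal

namespace Pool.Agent.DV

namespace WLIM

variable {X : Type} [MeasurableSpace X]

/-- The uniform measure on a finite family of points. -/
noncomputable def um {ι : Type} [Fintype ι] (x : ι → X) : Measure X :=
  ((Fintype.card ι : ℝ≥0∞)⁻¹) • ∑ i, Measure.dirac (x i)

theorem um_apply {ι : Type} [Fintype ι] (x : ι → X) {A : Set X} (hA : MeasurableSet A) :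
    um x A = ((Fintype.card ι : ℝ≥0∞)⁻¹) * ({i | x i ∈ A}.ncard : ℝ≥0∞) := by
  classical
  have h1 : (∑ i, Measure.dirac (x i)) A = ({i | x i ∈ A}.ncard : ℝ≥0∞) := by
    rw [Measure.finsetSum_apply]
    have h2 : ∀ i ∈ (Finset.univ : Finset ι), Measure.dirac (x i) A = if x i ∈ A then 1 else 0 := by
      intro i _
      rw [Measure.dirac_apply' _ hA]
      rfl
    rw [Finset.sum_congr rfl h2, Finset.sum_boole]
    congr 1
    rw [Set.ncard_eq_toFinset_card']
    congr 1
    ext i
    simp
  rw [um, Measure.smul_apply, h1, smul_eq_mul]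

theorem isProb {ι : Type} [Fintype ι] [Nonempty ι] (x : ι → X) : IsProbabilityMeasure (um x) := by
  constructor
  rw [um_apply x MeasurableSet.univ]
  have h1 : {i | x i ∈ (Set.univ : Set X)} = Set.univ := by
    ext i
    simp
  rw [h1, Set.ncard_univ, Nat.card_eq_fintype_card]
  refine ENNReal.inv_mul_cancel ?_ (ENNReal.natCast_ne_top _)
  exact_mod_cast Fintype.card_ne_zero

theorem um_map {ι : Type} [Fintype ι] (x : ι → X) (e : ι ≃ ι) {T : X → X} (hT : Measurable T)
    (h : ∀ i, x (e i) = T (x i)) : (um x).map T = um x := by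
  ext A hA
  rw [Measure.map_apply hT hA, um_apply x (hT hA), um_apply x hA]
  congr 2
  have h1 : {i | x i ∈ T ⁻¹' A} = e ⁻¹' {i | x i ∈ A} := by
    ext i
    simp only [Set.mem_ofPred_eq, Set.mem_preimage]
    rw [h i]
  rw [h1, Set.ncard_preimage_of_injective_subset_range e.injective]
  rw [e.surjective.range_eq]
  exact Set.subset_univ _

theorem toReal {ι : Type} [Fintype ι] (x : ι → X) {A : Set X} (hA : MeasurableSet A) :
    (um x A).toReal = ({i | x i ∈ A}.ncard : ℝ) / Fintype.card ι := by
  rw [um_apply x hA, ENNReal.toReal_mul, ENNReal.toReal_inv, ENNReal.toReal_natCast,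
    ENNReal.toReal_natCast, mul_comm, div_eq_mul_inv]

end WLIM

open WLIM in
theorem WLIM_thm : Stmt_WLIM := by
  intro X _ _ _ _ _ T ι _ _ x e he
  have hTc : Continuous T := T.continuous
  have hTm : Measurable T := hTc.measurable
  let μs : ℕ → ProbabilityMeasure X := fun n => ⟨um (x n), isProb (x n)⟩
  obtain ⟨μ, -, s, hs, hlim⟩ := (isCompact_univ : IsCompact (Set.univ :
    Set (ProbabilityMeasure X))).tendsto_subseq (x := μs) (fun n => Set.mem_univ _)
  refine ⟨μ, μ.2, ⟨hTm, ?_⟩, s, hs, ?_⟩
  · have h1 := ProbabilityMeasure.tendsto_map_of_tendsto_of_continuous _ _ hlim hTc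
    have h2 : (fun n => ((μs ∘ s) n).map hTc.measurable.aemeasurable) = μs ∘ s := by
      funext n
      apply Subtype.ext
      exact um_map (x (s n)) (e (s n)) hTm (he (s n))
    rw [h2] at h1
    have h3 := tendsto_nhds_unique h1 hlim
    exact congrArg (fun ν : ProbabilityMeasure X => (ν : Measure X)) h3
  · intro A hA hA0
    have h1 := ProbabilityMeasure.tendsto_measure_of_null_frontier_of_tendsto' hlim hA0
    have h2 := (ENNReal.tendsto_toReal (measure_ne_top (μ : Measure X) A)).comp h1
    refine h2.congr fun n => ?_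
    exact toReal (x (s n)) hA

end Pool.Agent.DV
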